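import Pool.Agent.Lib.MP_de485e_gt.Conv.Alg1a

/-! Static identities, second part. -/

namespace Pool.Agent.Lib.MP_de485e_gt.Conv.SA

variable {ι : Type} [Fintype ι] [DecidableEq ι] {R : Type} [CommRing R] [Algebra ℝ R] (S : SA ι R)

theorem Alg1_Dν (a b : ι) : S.D a (S.ν b) = -S.A a b := by
  unfold A
  rw [neg_neg]

theorem DP (a b d : ι) : S.D a (S.P b d) =
    -(S.P a b * S.F d) - S.F b * S.P a d + S.A a b * S.ν d + S.ν b * S.A a d := by
  have h : S.P b d = kd b d - S.F b * S.F d - S.ν b * S.ν d := rfl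
  rw [h]
  simp only [map_sub, Derivation.leibniz, smul_eq_mul, D_kd, S.DF', S.Alg1_Dν]
  ring

theorem comm' (a b : ι) (g : R) : S.D a (S.D b g) - S.D b (S.D a g) =
    S.F a * S.D b g - S.F b * S.D a g + ∑ d, (S.ν b * S.A a d - S.ν a * S.A b d) * S.D d g := by
  rw [S.comm a b g]
  have h : ∀ d, (S.D a (S.D b (S.F d)) - S.D b (S.D a (S.F d))) * S.D d g =
      S.F a * (S.P b d * S.D d g) - S.F b * (S.P a d * S.D d g) +
        (S.ν b * S.A a d - S.ν a * S.A b d) * S.D d g := by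
    intro d
    rw [S.DF', S.DF', S.DP, S.DP, S.P_symm b a, S.A_symm b a]
    ring
  simp only [h, Finset.sum_add_distrib, Finset.sum_sub_distrib, ← Finset.mul_sum, S.D_eq]

theorem DA_eq (a b c : ι) : S.D a (S.A b c) =
    S.B a b c + S.ν c * S.A2 a b + S.ν b * S.A2 a c - S.F c * S.A a b - S.F b * S.A a c := by
  unfold B
  ring

theorem B_symm23 (a b c : ι) : S.B a b c = S.B a c b := by
  unfold B
  rw [S.A_symm b c]
  ring

/-- Codazzi: `comm'` with `g = ν c`. -/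
theorem B_symm12 (a b c : ι) : S.B a b c = S.B b a c := by
  have h := S.comm' a b (S.ν c)
  have h2 : ∑ d, (S.ν b * S.A a d - S.ν a * S.A b d) * S.D d (S.ν c) =
      S.ν a * S.A2 b c - S.ν b * S.A2 a c := by
    unfold A2
    rw [Finset.mul_sum, Finset.mul_sum, ← Finset.sum_sub_distrib]
    refine Finset.sum_congr rfl fun d _ => ?_
    rw [S.Alg1_Dν]
    ring
  rw [h2] at h
  simp only [S.Alg1_Dν, map_neg] at h
  unfold B
  rw [S.A_symm b a, S.A2_symm b a]
  linear_combination -h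

theorem Alg1_νF : ∑ a, S.ν a * S.F a = 0 := by
  rw [← S.Fν]
  exact Finset.sum_congr rfl fun a _ => mul_comm _ _

/-- Apply `D a` to `A_F`. -/
theorem B_F (a b : ι) : ∑ c, S.B a b c * S.F c = 0 := by
  have h := congrArg (S.D a) (S.A_F b)
  simp only [map_sum, map_zero, Derivation.leibniz, smul_eq_mul, S.DF',
    Finset.sum_add_distrib] at h
  have h1 : ∑ c, S.A b c * S.P a c = S.A a b := by
    rw [← S.P_A a b]
    exact Finset.sum_congr rfl fun c _ => by rw [S.A_symm b c, mul_comm]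
  have h2 : ∀ c, S.B a b c * S.F c = S.F c * S.D a (S.A b c) - S.A2 a b * (S.ν c * S.F c) -
      S.ν b * (S.A2 a c * S.F c) + S.A a b * (S.F c * S.F c) + S.F b * (S.A a c * S.F c) := by
    intro c
    unfold B
    ring
  simp only [h2, Finset.sum_add_distrib, Finset.sum_sub_distrib, ← Finset.mul_sum, S.Alg1_νF,
    S.A2_F, S.FF, S.A_F]
  linear_combination h - h1

/-- Apply `D a` to `A_ν`. -/
theorem B_ν (a b : ι) : ∑ c, S.B a b c * S.ν c = 0 := by
  have h := congrArg (S.D a) (S.A_ν b)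
  simp only [map_sum, map_zero, Derivation.leibniz, smul_eq_mul, S.Alg1_Dν, mul_neg,
    Finset.sum_add_distrib, Finset.sum_neg_distrib] at h
  have h1 : ∑ c, S.A b c * S.A a c = S.A2 a b := by
    unfold A2
    exact Finset.sum_congr rfl fun c _ => by rw [S.A_symm b c, mul_comm]
  have h2 : ∀ c, S.B a b c * S.ν c = S.ν c * S.D a (S.A b c) - S.A2 a b * (S.ν c * S.ν c) -
      S.ν b * (S.A2 a c * S.ν c) + S.A a b * (S.F c * S.ν c) + S.F b * (S.A a c * S.ν c) := by
    intro c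
    unfold B
    ring
  simp only [h2, Finset.sum_add_distrib, Finset.sum_sub_distrib, ← Finset.mul_sum, S.Fν,
    S.A2_ν, S.νν, S.A_ν]
  linear_combination h + h1

theorem B_P (a b c : ι) : ∑ d, S.B a b d * S.P d c = S.B a b c := by
  have h : ∀ d, S.B a b d * S.P d c = S.B a b d * kd d c - S.F c * (S.B a b d * S.F d) -
      S.ν c * (S.B a b d * S.ν d) := by
    intro d
    unfold P
    ring
  simp only [h, Finset.sum_sub_distrib, ← Finset.mul_sum, S.B_F, S.B_ν, sum_mul_kd]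
  ring

theorem DH (a : ι) : S.D a S.H = ∑ b, S.B a b b := by
  have h : ∀ b, S.D a (S.A b b) =
      S.B a b b + 2 * (S.A2 a b * S.ν b) - 2 * (S.A a b * S.F b) := by
    intro b
    rw [S.DA_eq]
    ring
  unfold H
  simp only [map_sum, h, Finset.sum_add_distrib, Finset.sum_sub_distrib, ← Finset.mul_sum,
    S.A2_ν, S.A_F]
  ring

omit [DecidableEq ι] [Algebra ℝ R] in
theorem Alg1_row {M : ι → ι → R} {x : ι → R} (hx : ∀ b, ∑ c, M b c * x c = 0) (p : ι → R) :
    ∑ b, ∑ c, p b * (M b c * x c) = 0 := by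
  simp only [← Finset.mul_sum, hx, mul_zero, Finset.sum_const_zero]

omit [DecidableEq ι] [Algebra ℝ R] in
theorem Alg1_col {M : ι → ι → R} (hM : ∀ b c, M b c = M c b) {x : ι → R}
    (hx : ∀ b, ∑ c, M b c * x c = 0) (p : ι → R) : ∑ b, ∑ c, p c * (M b c * x b) = 0 := by
  rw [Finset.sum_comm, ← Alg1_row hx p]
  exact Finset.sum_congr rfl fun b _ => Finset.sum_congr rfl fun c _ => by rw [hM c b]

theorem Da2 (a : ι) : S.D a S.a2 = 2 * ∑ b, ∑ c, S.A b c * S.B a b c := by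
  have h : ∀ b c, S.D a (S.A b c ^ 2) = 2 * (S.A b c * S.B a b c) +
      2 * (S.A2 a b * (S.A b c * S.ν c)) + 2 * (S.A2 a c * (S.A b c * S.ν b)) -
      2 * (S.A a b * (S.A b c * S.F c)) - 2 * (S.A a c * (S.A b c * S.F b)) := by
    intro b c
    rw [sq, Derivation.leibniz, smul_eq_mul, S.DA_eq]
    ring
  unfold a2
  simp only [map_sum, h, Finset.sum_add_distrib, Finset.sum_sub_distrib]
  have e1 := Alg1_row S.A_ν (S.A2 a)
  have e2 := Alg1_col S.A_symm S.A_ν (S.A2 a)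
  have e3 := Alg1_row S.A_F (S.A a)
  have e4 := Alg1_col S.A_symm S.A_F (S.A a)
  have k : ∀ f : ι → ι → R, ∑ b, ∑ c, 2 * f b c = 2 * ∑ b, ∑ c, f b c := fun f => by
    simp only [Finset.mul_sum]
  simp only [k, e1, e2, e3, e4]
  ring

theorem DW (a : ι) : S.D a S.W = 2 * (S.H * S.D a S.H) := by
  unfold W
  simp only [sq, map_add, Derivation.leibniz, smul_eq_mul, Derivation.map_natCast]
  ring

theorem Dv (d : ι) : S.D d S.v = 2 * ∑ a, ∑ b, ∑ c, S.B a b c * S.D d (S.B a b c) := by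
  unfold v
  simp only [map_sum, Finset.mul_sum]
  refine Finset.sum_congr rfl fun a _ => Finset.sum_congr rfl fun b _ =>
    Finset.sum_congr rfl fun c _ => ?_
  rw [sq, Derivation.leibniz, smul_eq_mul]
  ring

theorem divA (b : ι) : ∑ a, S.D a (S.A a b) = S.D b S.H + S.a2 * S.ν b - S.H * S.F b := by
  have h : ∀ a, S.D a (S.A a b) = S.B b a a + S.ν b * S.A2 a a + S.A2 b a * S.ν a -
      S.F b * S.A a a - S.A b a * S.F a := by
    intro a
    rw [S.DA_eq, S.B_symm23 a a b, S.B_symm12 a b a, S.A2_symm a b, S.A_symm a b]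
    ring
  have hH : ∑ a, S.A a a = S.H := rfl
  simp only [h, Finset.sum_add_distrib, Finset.sum_sub_distrib, ← Finset.mul_sum, S.A2_ν, S.A_F,
    S.A2_trace, hH, ← S.DH]
  ring

omit [DecidableEq ι] [Algebra ℝ R] in
theorem Alg1_sq {M : ι → ι → R} (hM : ∀ b c, M b c = M c b) {x y p q : ι → R}
    (hx : ∀ b, ∑ c, M b c * x c = 0) (hy : ∀ b, ∑ c, M b c * y c = 0)
    (xx : ∑ c, x c * x c = 1) (yy : ∑ c, y c * y c = 1) (yx : ∑ c, y c * x c = 0)
    (px : ∑ c, p c * x c = 0) (qx : ∑ c, q c * x c = 0) (qy : ∑ c, q c * y c = 0) :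
    ∑ b, ∑ c, (M b c + x c * p b + x b * p c - y c * q b - y b * q c) ^ 2 =
      ∑ b, ∑ c, M b c ^ 2 + 2 * ∑ b, p b ^ 2 + 2 * ∑ b, q b ^ 2 := by
  have h : ∀ b c, (M b c + x c * p b + x b * p c - y c * q b - y b * q c) ^ 2 =
      M b c ^ 2 + 2 * (p b * (M b c * x c)) + 2 * (p c * (M b c * x b)) -
        2 * (q b * (M b c * y c)) - 2 * (q c * (M b c * y b)) +
        p b ^ 2 * (x c * x c) + x b * x b * p c ^ 2 + q b ^ 2 * (y c * y c) +
        y b * y b * q c ^ 2 + 2 * (p b * x b * (p c * x c)) - 2 * (p b * q b * (y c * x c)) -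
        2 * (p b * y b * (q c * x c)) - 2 * (q b * x b * (p c * y c)) -
        2 * (y b * x b * (p c * q c)) + 2 * (q b * y b * (q c * y c)) := by
    intro b c
    ring
  have k : ∀ f : ι → ι → R, ∑ b, ∑ c, 2 * f b c = 2 * ∑ b, ∑ c, f b c := fun f => by
    simp only [Finset.mul_sum]
  have m : ∀ f g : ι → R, ∑ b, ∑ c, f b * g c = (∑ b, f b) * ∑ c, g c := fun f g =>
    (Finset.sum_mul_sum _ _ _ _).symm
  simp only [h, Finset.sum_add_distrib, Finset.sum_sub_distrib]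
  rw [k, k, k, k, k, k, k, k, k, k, Alg1_row hx, Alg1_col hM hx, Alg1_row hy, Alg1_col hM hy,
    m (fun b => p b ^ 2) fun c => x c * x c, m (fun b => x b * x b) fun c => p c ^ 2,
    m (fun b => q b ^ 2) fun c => y c * y c, m (fun b => y b * y b) fun c => q c ^ 2,
    m (fun b => p b * x b) fun c => p c * x c, m (fun b => p b * q b) fun c => y c * x c,
    m (fun b => p b * y b) fun c => q c * x c, m (fun b => q b * x b) fun c => p c * y c,
    m (fun b => y b * x b) fun c => p c * q c, m (fun b => q b * y b) fun c => q c * y c,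
    xx, yy, yx, px, qx, qy]
  ring

theorem DA_sq : ∑ a, ∑ b, ∑ c, S.D a (S.A b c) ^ 2 =
    S.v + 2 * ∑ a, ∑ b, S.A2 a b ^ 2 + 2 * S.a2 := by
  have h : ∀ a, ∑ b, ∑ c, S.D a (S.A b c) ^ 2 =
      ∑ b, ∑ c, S.B a b c ^ 2 + 2 * ∑ b, S.A2 a b ^ 2 + 2 * ∑ b, S.A a b ^ 2 := by
    intro a
    simp only [S.DA_eq]
    exact Alg1_sq (S.B_symm23 a) (S.B_ν a) (S.B_F a) S.νν S.FF S.Fν (S.A2_ν a) (S.A_ν a)
      (S.A_F a)
  unfold v a2
  simp only [h, Finset.sum_add_distrib, ← Finset.mul_sum]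

end Pool.Agent.Lib.MP_de485e_gt.Conv.SA
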