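import Pool.Agent.Lib.MP_de485e_gt.Conv.AlgDef

/-! Static identities, first part. -/

namespace Pool.Agent.Lib.MP_de485e_gt.Conv.SA

variable {ι : Type} [Fintype ι] [DecidableEq ι] {R : Type} [CommRing R] [Algebra ℝ R] (S : SA ι R)

theorem sum_kd_mul (a : ι) (f : ι → R) : ∑ b, (kd a b : R) * f b = f a := by
  simp [kd]

theorem sum_mul_kd (a : ι) (f : ι → R) : ∑ b, f b * (kd b a : R) = f a := by
  simp [kd]

theorem D_kd (D : Derivation ℝ R R) (a b : ι) : D (kd a b) = 0 := by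
  unfold kd
  split_ifs <;> simp

theorem DF' (a b : ι) : S.D a (S.F b) = S.P a b := S.DF a b

theorem Alg1a_kd_symm (a b : ι) : (kd a b : R) = kd b a := by
  unfold kd
  by_cases h : a = b
  · simp [h]
  · rw [if_neg h, if_neg (fun h' => h h'.symm)]

theorem P_symm (a b : ι) : S.P a b = S.P b a := by
  unfold P
  rw [Alg1a_kd_symm a b]
  ring

theorem Alg1a_νF : ∑ a, S.ν a * S.F a = 0 := by
  rw [← S.Fν]
  exact Finset.sum_congr rfl fun a _ => mul_comm _ _

/-- Contraction of the projector with a vector. -/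
theorem Alg1a_P_mul (a : ι) (f : ι → R) :
    ∑ b, S.P a b * f b = f a - S.F a * ∑ b, S.F b * f b - S.ν a * ∑ b, S.ν b * f b := by
  rw [← sum_kd_mul a f, Finset.mul_sum, Finset.mul_sum, ← Finset.sum_sub_distrib,
    ← Finset.sum_sub_distrib]
  refine Finset.sum_congr rfl fun b _ => ?_
  unfold P
  ring

theorem P_F (a : ι) : ∑ b, S.P a b * S.F b = 0 := by
  rw [S.Alg1a_P_mul, S.FF, S.Alg1a_νF]
  ring

theorem P_ν (a : ι) : ∑ b, S.P a b * S.ν b = 0 := by
  rw [S.Alg1a_P_mul, S.νν, S.Fν]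
  ring

theorem P_P (a b : ι) : ∑ c, S.P a c * S.P c b = S.P a b := by
  have h1 : ∑ c, S.F c * S.P c b = 0 := by
    rw [← S.P_F b]
    exact Finset.sum_congr rfl fun c _ => by rw [S.P_symm c b, mul_comm]
  have h2 : ∑ c, S.ν c * S.P c b = 0 := by
    rw [← S.P_ν b]
    exact Finset.sum_congr rfl fun c _ => by rw [S.P_symm c b, mul_comm]
  rw [S.Alg1a_P_mul a (fun c => S.P c b), h1, h2]
  ring

theorem P_trace : ∑ a, S.P a a = S.n := by
  have h : ∀ a, S.P a a = 1 - S.F a * S.F a - S.ν a * S.ν a := fun a => by simp [P, kd]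
  simp only [h, Finset.sum_sub_distrib, S.FF, S.νν, Finset.sum_const, Finset.card_univ, S.card,
    nsmul_eq_mul]
  push_cast
  ring

theorem D_eq (a : ι) (g : R) : ∑ b, S.P a b * S.D b g = S.D a g := by
  rw [S.Alg1a_P_mul a (fun b => S.D b g), S.FD, S.νD]
  ring

theorem Alg1a_half {x : R} (h : x + x = 0) : x = 0 := by
  have h2 : (2 : ℝ) • x = 0 := by rw [two_smul, h]
  have h3 : ((2 : ℝ)⁻¹ * 2) • x = 0 := by rw [mul_smul, h2, smul_zero]
  simpa using h3

/-- Apply `D a` to `νν`; `2` is invertible. -/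
theorem A_ν (a : ι) : ∑ b, S.A a b * S.ν b = 0 := by
  have h := congrArg (S.D a) S.νν
  rw [map_sum, Derivation.map_one_eq_zero] at h
  apply Alg1a_half
  rw [← Finset.sum_add_distrib, ← neg_eq_zero, ← h, ← Finset.sum_neg_distrib]
  refine Finset.sum_congr rfl fun b _ => ?_
  rw [Derivation.leibniz]
  simp only [A, smul_eq_mul]
  ring

/-- Apply `D a` to `Fν`. -/
theorem A_F (a : ι) : ∑ b, S.A a b * S.F b = 0 := by
  have h := congrArg (S.D a) S.Fν
  rw [map_sum, map_zero] at h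
  have h2 : ∑ b, S.D a (S.F b * S.ν b) =
      ∑ b, S.P a b * S.ν b - ∑ b, S.A a b * S.F b := by
    rw [← Finset.sum_sub_distrib]
    refine Finset.sum_congr rfl fun b _ => ?_
    rw [Derivation.leibniz, S.DF']
    simp only [A, smul_eq_mul]
    ring
  rw [h2, S.P_ν, zero_sub, neg_eq_zero] at h
  exact h

/-- Derivative of the projector. -/
theorem Alg1a_D_P (a b e : ι) : S.D a (S.P b e) =
    -(S.P a b * S.F e) - S.F b * S.P a e + S.A a b * S.ν e + S.ν b * S.A a e := by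
  have h : S.D a (S.P b e) = S.D a (kd b e) - S.D a (S.F b * S.F e) - S.D a (S.ν b * S.ν e) := by
    rw [← map_sub, ← map_sub]
    rfl
  rw [h, D_kd, Derivation.leibniz, Derivation.leibniz, S.DF', S.DF']
  simp only [A, smul_eq_mul]
  ring

theorem Alg1a_D_P_ν (a b : ι) : ∑ e, S.D a (S.P b e) * S.ν e = S.A a b := by
  have h : ∀ e, S.D a (S.P b e) * S.ν e =
      -(S.P a b) * (S.F e * S.ν e) - S.F b * (S.P a e * S.ν e) + S.A a b * (S.ν e * S.ν e)
        + S.ν b * (S.A a e * S.ν e) := fun e => by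
    rw [S.Alg1a_D_P]
    ring
  simp only [h, Finset.sum_add_distrib, Finset.sum_sub_distrib, ← Finset.mul_sum, S.Fν, S.P_ν,
    S.νν, S.A_ν]
  ring

/-- Take `g = F e` in `comm` and contract with `ν e`. -/
theorem A_symm (a b : ι) : S.A a b = S.A b a := by
  have h : ∀ e, S.D a (S.P b e) - S.D b (S.P a e) =
      ∑ d, (S.D a (S.P b d) - S.D b (S.P a d)) * S.P d e := fun e => by
    simpa only [S.DF'] using S.comm a b (S.F e)
  have h1 : ∑ e, (S.D a (S.P b e) - S.D b (S.P a e)) * S.ν e = 0 := by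
    calc ∑ e, (S.D a (S.P b e) - S.D b (S.P a e)) * S.ν e
        = ∑ e, ∑ d, (S.D a (S.P b d) - S.D b (S.P a d)) * (S.P d e * S.ν e) := by
          refine Finset.sum_congr rfl fun e _ => ?_
          rw [h e, Finset.sum_mul]
          exact Finset.sum_congr rfl fun d _ => mul_assoc _ _ _
      _ = ∑ d, (S.D a (S.P b d) - S.D b (S.P a d)) * ∑ e, S.P d e * S.ν e := by
          rw [Finset.sum_comm]
          exact Finset.sum_congr rfl fun d _ => (Finset.mul_sum _ _ _).symm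
      _ = 0 := by simp only [S.P_ν, mul_zero, Finset.sum_const_zero]
  simp only [sub_mul, Finset.sum_sub_distrib, S.Alg1a_D_P_ν] at h1
  exact sub_eq_zero.1 h1

theorem P_A (a b : ι) : ∑ c, S.P a c * S.A c b = S.A a b := by
  have h1 : ∑ c, S.F c * S.A c b = 0 := by
    rw [← S.A_F b]
    exact Finset.sum_congr rfl fun c _ => by rw [S.A_symm c b, mul_comm]
  have h2 : ∑ c, S.ν c * S.A c b = 0 := by
    rw [← S.A_ν b]
    exact Finset.sum_congr rfl fun c _ => by rw [S.A_symm c b, mul_comm]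
  rw [S.Alg1a_P_mul a (fun c => S.A c b), h1, h2]
  ring

theorem A2_symm (a b : ι) : S.A2 a b = S.A2 b a := by
  unfold A2
  exact Finset.sum_congr rfl fun d _ => by rw [S.A_symm a d, S.A_symm d b, mul_comm]

/-- Contraction of the square with a vector. -/
theorem Alg1a_A2_mul (a : ι) (f : ι → R) :
    ∑ b, S.A2 a b * f b = ∑ d, S.A a d * ∑ b, S.A d b * f b := by
  simp only [A2, Finset.sum_mul, Finset.mul_sum]
  rw [Finset.sum_comm]
  exact Finset.sum_congr rfl fun d _ => Finset.sum_congr rfl fun b _ => mul_assoc _ _ _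

theorem A2_ν (a : ι) : ∑ b, S.A2 a b * S.ν b = 0 := by
  simp only [S.Alg1a_A2_mul, S.A_ν, mul_zero, Finset.sum_const_zero]

theorem A2_F (a : ι) : ∑ b, S.A2 a b * S.F b = 0 := by
  simp only [S.Alg1a_A2_mul, S.A_F, mul_zero, Finset.sum_const_zero]

theorem A2_trace : ∑ a, S.A2 a a = S.a2 := by
  unfold A2 a2
  exact Finset.sum_congr rfl fun a _ => Finset.sum_congr rfl fun d _ => by
    rw [S.A_symm d a, sq]

theorem P_A2 (a b : ι) : ∑ c, S.P a c * S.A2 c b = S.A2 a b := by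
  have h1 : ∑ c, S.F c * S.A2 c b = 0 := by
    rw [← S.A2_F b]
    exact Finset.sum_congr rfl fun c _ => by rw [S.A2_symm c b, mul_comm]
  have h2 : ∑ c, S.ν c * S.A2 c b = 0 := by
    rw [← S.A2_ν b]
    exact Finset.sum_congr rfl fun c _ => by rw [S.A2_symm c b, mul_comm]
  rw [S.Alg1a_P_mul a (fun c => S.A2 c b), h1, h2]
  ring

theorem A0_sq : ∑ a, ∑ b, S.A0 a b ^ 2 = S.u := by
  have hn : (S.n : ℝ) ≠ 0 := by
    have := S.hn
    exact_mod_cast (by omega : S.n ≠ 0)
  set k : R := algebraMap ℝ R (S.n : ℝ)⁻¹ with hk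
  have hkn : k * (S.n : R) = 1 := by
    rw [hk, ← map_natCast (algebraMap ℝ R), ← map_mul, inv_mul_cancel₀ hn, map_one]
  have hPA : ∑ a, ∑ b, S.P a b * S.A b a = S.H := by
    simp only [S.P_A]
    rfl
  have hPP : ∑ a, ∑ b, S.P a b * S.P b a = S.n := by
    simp only [S.P_P, S.P_trace]
  have h : ∀ a b, S.A0 a b ^ 2 = S.A a b ^ 2 - 2 * k * S.H * (S.P a b * S.A b a)
      + k ^ 2 * S.H ^ 2 * (S.P a b * S.P b a) := fun a b => by
    rw [S.A_symm b a, S.P_symm b a]
    simp only [A0, Algebra.smul_def, ← hk]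
    ring
  simp only [h, Finset.sum_add_distrib, Finset.sum_sub_distrib, ← Finset.mul_sum, hPA, hPP]
  simp only [u, a2, Algebra.smul_def, ← hk]
  linear_combination (k * S.H ^ 2) * hkn

end Pool.Agent.Lib.MP_de485e_gt.Conv.SA
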