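import Pool.Agent.Lib.MP_de485e_gt.Conv.Alg1

/-! Evolution of the frame and the commutator of the heat operator with `D a`. -/

namespace Pool.Agent.Lib.MP_de485e_gt.Conv.DA

variable {ι : Type} [Fintype ι] [DecidableEq ι] {R : Type} [CommRing R] [Algebra ℝ R] (S : DA ι R)

private theorem Alg2_half {x : R} (h : x + x = 0) : x = 0 := by
  have h2 : (2 : ℝ) • x = 0 := by rw [two_smul]; exact h
  have h3 : x = (2 : ℝ)⁻¹ • ((2 : ℝ) • x) := by
    rw [smul_smul, inv_mul_cancel₀ (by norm_num : (2 : ℝ) ≠ 0), one_smul]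
  rw [h3, h2, smul_zero]

private theorem Alg2_Dν (a b : ι) : S.D a (S.ν b) = -S.A a b := by
  unfold SA.A; rw [neg_neg]

theorem dtF' (a : ι) : S.dt (S.F a) = S.H * S.ν a := S.dtF a

private theorem Alg2_dtνν : ∑ a, S.ν a * S.dt (S.ν a) = 0 := by
  have h := congrArg S.dt S.νν
  rw [map_sum, Derivation.map_one_eq_zero] at h
  simp only [Derivation.leibniz, smul_eq_mul, Finset.sum_add_distrib] at h
  exact Alg2_half h

private theorem Alg2_X (a e : ι) : S.dt (S.D a (S.F e)) - S.D a (S.dt (S.F e)) =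
    -(S.H * S.ν a * S.F e) - S.H * S.F a * S.ν e - S.dt (S.ν a) * S.ν e - S.ν a * S.dt (S.ν e) -
      S.D a S.H * S.ν e + S.H * S.A a e := by
  rw [S.DF, dtF']
  simp only [map_sub, Derivation.leibniz, smul_eq_mul, SA.D_kd, dtF', Alg2_Dν]
  ring

/-- Tangential part: `commt` with `g = F e` contracted with `ν e`; the other two parts by applying
`dt` to `νν` and `Fν`. -/
theorem dtν (a : ι) : S.dt (S.ν a) = -S.D a S.H - S.H * S.F a := by
  have h1 : ∑ e, (S.dt (S.D a (S.F e)) - S.D a (S.dt (S.F e))) * S.ν e = 0 := by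
    have h2 : ∀ e, (S.dt (S.D a (S.F e)) - S.D a (S.dt (S.F e))) * S.ν e =
        ∑ d, (S.dt (S.D a (S.F d)) - S.D a (S.dt (S.F d))) * (S.P d e * S.ν e) := by
      intro e
      conv_lhs => rw [S.commt a (S.F e), Finset.sum_mul]
      refine Finset.sum_congr rfl fun d _ => ?_
      rw [S.toSA.DF' d e, mul_assoc]
    rw [Finset.sum_congr rfl fun e _ => h2 e, Finset.sum_comm]
    refine Finset.sum_eq_zero fun d _ => ?_
    rw [← Finset.mul_sum, S.toSA.P_ν, mul_zero]
  have h3 : ∀ e, (S.dt (S.D a (S.F e)) - S.D a (S.dt (S.F e))) * S.ν e =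
      -(S.H * S.ν a) * (S.F e * S.ν e) -
        (S.H * S.F a + S.dt (S.ν a) + S.D a S.H) * (S.ν e * S.ν e) -
        S.ν a * (S.ν e * S.dt (S.ν e)) + S.H * (S.A a e * S.ν e) := by
    intro e; rw [Alg2_X]; ring
  rw [Finset.sum_congr rfl fun e _ => h3 e] at h1
  simp only [Finset.sum_add_distrib, Finset.sum_sub_distrib, ← Finset.mul_sum] at h1
  rw [S.Fν, S.νν, Alg2_dtνν, S.toSA.A_ν] at h1
  linear_combination -h1

theorem commt' (a : ι) (g : R) : S.dt (S.D a g) - S.D a (S.dt g) =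
    ∑ d, (S.ν a * S.D d S.H + S.H * S.A a d) * S.D d g := by
  rw [S.commt]
  refine Finset.sum_congr rfl fun d _ => ?_
  rw [Alg2_X, dtν, dtν]
  ring

theorem L_add (g h : R) : S.L (g + h) = S.L g + S.L h := by
  simp only [L, SA.Lap, map_add, Finset.sum_add_distrib]
  ring

theorem L_sub (g h : R) : S.L (g - h) = S.L g - S.L h := by
  simp only [L, SA.Lap, map_sub, Finset.sum_sub_distrib]
  ring

theorem L_neg (g : R) : S.L (-g) = -S.L g := by
  simp only [L, SA.Lap, map_neg, Finset.sum_neg_distrib]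
  ring

theorem L_smul (r : ℝ) (g : R) : S.L (r • g) = r • S.L g := by
  simp only [L, SA.Lap, Derivation.map_smul, smul_sub, Finset.smul_sum]

theorem L_natCast (k : ℕ) : S.L (k : R) = 0 := by
  simp only [L, SA.Lap, Derivation.map_natCast, map_zero, Finset.sum_const_zero, sub_zero]

theorem L_algebraMap (r : ℝ) : S.L (algebraMap ℝ R r) = 0 := by
  simp only [L, SA.Lap, Derivation.map_algebraMap, map_zero, Finset.sum_const_zero, sub_zero]

theorem L_sum {α : Type} (s : Finset α) (f : α → R) :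
    S.L (∑ i ∈ s, f i) = ∑ i ∈ s, S.L (f i) := by
  simp only [L, SA.Lap, map_sum, Finset.sum_sub_distrib]
  rw [Finset.sum_comm]

theorem L_mul (g h : R) : S.L (g * h) = g * S.L h + h * S.L g - 2 * S.grad g h := by
  have h1 : ∀ a, S.D a (S.D a (g * h)) =
      g * S.D a (S.D a h) + h * S.D a (S.D a g) + 2 * (S.D a g * S.D a h) := by
    intro a
    simp only [Derivation.leibniz, smul_eq_mul, map_add]
    ring
  unfold L SA.Lap SA.grad
  rw [Finset.sum_congr rfl fun a _ => h1 a]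
  simp only [Finset.sum_add_distrib, ← Finset.mul_sum, Derivation.leibniz, smul_eq_mul]
  ring

theorem L_sq (g : R) : S.L (g ^ 2) = 2 * (g * S.L g) - 2 * S.grad g g := by
  rw [pow_two, L_mul]
  ring

private theorem Alg2_FDD (a : ι) (g : R) : ∑ b, S.F b * S.D a (S.D b g) = -S.D a g := by
  have h := congrArg (S.D a) (S.FD g)
  rw [map_sum, map_zero] at h
  simp only [Derivation.leibniz, smul_eq_mul, Finset.sum_add_distrib, S.toSA.DF'] at h
  have h2 := S.toSA.D_eq a g
  rw [Finset.sum_congr rfl fun b _ => mul_comm (S.P a b) (S.D b g)] at h2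
  linear_combination h - h2

private theorem Alg2_νDD (d : ι) (g : R) :
    ∑ b, S.ν b * S.D d (S.D b g) = ∑ b, S.A d b * S.D b g := by
  have h := congrArg (S.D d) (S.νD g)
  rw [map_sum, map_zero] at h
  simp only [Derivation.leibniz, smul_eq_mul, Finset.sum_add_distrib, Alg2_Dν, mul_neg,
    Finset.sum_neg_distrib] at h
  rw [Finset.sum_congr rfl fun b _ => mul_comm (S.A d b) (S.D b g)]
  linear_combination h

private theorem Alg2_AA (a : ι) (g : R) :
    ∑ b, ∑ d, S.A a b * (S.A b d * S.D d g) = ∑ d, S.A2 a d * S.D d g := by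
  rw [Finset.sum_comm]
  refine Finset.sum_congr rfl fun d _ => ?_
  unfold SA.A2
  rw [Finset.sum_mul]
  exact Finset.sum_congr rfl fun b _ => by ring

private theorem Alg2_divA (g : R) :
    ∑ b, ∑ d, S.D b (S.A b d) * S.D d g = ∑ d, S.D d S.H * S.D d g := by
  rw [Finset.sum_comm]
  have h1 : ∀ d, ∑ b, S.D b (S.A b d) * S.D d g =
      S.D d S.H * S.D d g + S.a2 * (S.ν d * S.D d g) - S.H * (S.F d * S.D d g) := by
    intro d
    rw [← Finset.sum_mul, S.toSA.divA]
    ring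
  rw [Finset.sum_congr rfl fun d _ => h1 d]
  simp only [Finset.sum_add_distrib, Finset.sum_sub_distrib, ← Finset.mul_sum]
  rw [S.νD, S.FD]
  ring

private theorem Alg2_term1 (a : ι) (g : R) :
    ∑ b, S.D b (S.D b (S.D a g) - S.D a (S.D b g)) =
      ((S.n : R) - 1) * S.D a g - S.F a * S.Lap g - ∑ d, S.A2 a d * S.D d g +
        S.ν a * ∑ d, S.D d S.H * S.D d g + S.ν a * ∑ b, ∑ d, S.A b d * S.D b (S.D d g) +
        S.H * ∑ d, S.A a d * S.D d g := by
  have h1 : ∀ b, S.D b (S.D b (S.D a g) - S.D a (S.D b g)) =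
      S.P b b * S.D a g + S.F b * S.D b (S.D a g) - S.P a b * S.D b g - S.F a * S.D b (S.D b g) -
        ∑ d, S.A a b * (S.A b d * S.D d g) + S.ν a * ∑ d, S.D b (S.A b d) * S.D d g +
        S.ν a * ∑ d, S.A b d * S.D b (S.D d g) + S.A b b * ∑ d, S.A a d * S.D d g -
        S.ν b * S.D b (∑ d, S.A a d * S.D d g) := by
    intro b
    rw [S.toSA.comm' b a g]
    have h2 : ∑ d, (S.ν a * S.A b d - S.ν b * S.A a d) * S.D d g =
        S.ν a * ∑ d, S.A b d * S.D d g - S.ν b * ∑ d, S.A a d * S.D d g := by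
      rw [Finset.mul_sum, Finset.mul_sum, ← Finset.sum_sub_distrib]
      exact Finset.sum_congr rfl fun d _ => by ring
    have h3 : S.D b (∑ d, S.A b d * S.D d g) =
        ∑ d, S.D b (S.A b d) * S.D d g + ∑ d, S.A b d * S.D b (S.D d g) := by
      rw [map_sum, ← Finset.sum_add_distrib]
      refine Finset.sum_congr rfl fun d _ => ?_
      rw [Derivation.leibniz, smul_eq_mul, smul_eq_mul]
      ring
    rw [h2, ← Finset.mul_sum]
    generalize (∑ d, S.A a d * S.D d g) = T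
    simp only [map_add, map_sub, Derivation.leibniz, smul_eq_mul, S.toSA.DF', Alg2_Dν, h3]
    rw [S.toSA.P_symm b a, S.toSA.A_symm b a]
    ring
  rw [Finset.sum_congr rfl fun b _ => h1 b]
  simp only [Finset.sum_add_distrib, Finset.sum_sub_distrib]
  rw [← Finset.sum_mul, ← Finset.sum_mul, ← Finset.mul_sum, ← Finset.mul_sum, ← Finset.mul_sum,
    S.toSA.P_trace, S.FD, S.toSA.D_eq, Alg2_AA, Alg2_divA, S.νD]
  unfold SA.Lap SA.H
  ring

private theorem Alg2_term2 (a : ι) (g : R) :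
    ∑ b, (S.D b (S.D a (S.D b g)) - S.D a (S.D b (S.D b g))) =
      -S.D a g - S.F a * S.Lap g - ∑ d, S.A2 a d * S.D d g +
        S.ν a * ∑ b, ∑ d, S.A b d * S.D b (S.D d g) := by
  have h1 : ∀ b, S.D b (S.D a (S.D b g)) - S.D a (S.D b (S.D b g)) =
      S.F b * S.D a (S.D b g) - S.F a * S.D b (S.D b g) +
        S.ν a * ∑ d, S.A d b * S.D d (S.D b g) - ∑ d, S.A a d * (S.ν b * S.D d (S.D b g)) := by
    intro b
    rw [S.toSA.comm' b a (S.D b g), Finset.mul_sum, add_sub_assoc, ← Finset.sum_sub_distrib]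
    congr 1
    refine Finset.sum_congr rfl fun d _ => ?_
    rw [S.toSA.A_symm d b]
    ring
  have h2 : ∑ b, ∑ d, S.A a d * (S.ν b * S.D d (S.D b g)) = ∑ d, S.A2 a d * S.D d g := by
    rw [Finset.sum_comm, ← Alg2_AA]
    refine Finset.sum_congr rfl fun d _ => ?_
    rw [← Finset.mul_sum, Alg2_νDD, Finset.mul_sum]
  have h3 : ∑ b, ∑ d, S.A d b * S.D d (S.D b g) = ∑ b, ∑ d, S.A b d * S.D b (S.D d g) :=
    Finset.sum_comm
  rw [Finset.sum_congr rfl fun b _ => h1 b]
  simp only [Finset.sum_add_distrib, Finset.sum_sub_distrib]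
  rw [← Finset.mul_sum, ← Finset.mul_sum, Alg2_FDD, h2, h3]
  unfold SA.Lap
  ring

/-- `[Lap, D a] g = D b [D b, D a] g + [D b, D a] D b g`, with `comm'`, `divA`, `FD`, `νD`. -/
theorem Lap_D (a : ι) (g : R) : S.Lap (S.D a g) - S.D a (S.Lap g) =
    ((S.n : R) - 2) * S.D a g - 2 * (S.F a * S.Lap g) - 2 * ∑ d, S.A2 a d * S.D d g +
      S.ν a * ∑ d, S.D d S.H * S.D d g + 2 * (S.ν a * ∑ b, ∑ d, S.A b d * S.D b (S.D d g)) +
      S.H * ∑ d, S.A a d * S.D d g := by
  have h : S.Lap (S.D a g) - S.D a (S.Lap g) =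
      ∑ b, S.D b (S.D b (S.D a g) - S.D a (S.D b g)) +
        ∑ b, (S.D b (S.D a (S.D b g)) - S.D a (S.D b (S.D b g))) := by
    unfold SA.Lap
    rw [map_sum, ← Finset.sum_sub_distrib, ← Finset.sum_add_distrib]
    refine Finset.sum_congr rfl fun b _ => ?_
    rw [map_sub]
    ring
  rw [h, Alg2_term1, Alg2_term2]
  ring

theorem L_D (a : ι) (g : R) : S.L (S.D a g) =
    S.D a (S.L g) - ((S.n : R) - 2) * S.D a g + 2 * (S.F a * S.Lap g) +
      2 * ∑ d, S.A2 a d * S.D d g - 2 * (S.ν a * ∑ b, ∑ d, S.A b d * S.D b (S.D d g)) := by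
  have h1 := S.commt' a g
  have h2 := S.Lap_D a g
  have h3 : ∑ d, (S.ν a * S.D d S.H + S.H * S.A a d) * S.D d g =
      S.ν a * ∑ d, S.D d S.H * S.D d g + S.H * ∑ d, S.A a d * S.D d g := by
    rw [Finset.mul_sum, Finset.mul_sum, ← Finset.sum_add_distrib]
    exact Finset.sum_congr rfl fun d _ => by ring
  unfold L
  rw [map_sub]
  linear_combination h1 - h2 + h3

theorem Lap_ν (b : ι) : S.Lap (S.ν b) = -S.D b S.H - S.a2 * S.ν b + S.H * S.F b := by
  have h := S.toSA.divA b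
  unfold SA.Lap
  simp only [Alg2_Dν, map_neg, Finset.sum_neg_distrib]
  linear_combination -h

private theorem Alg2_LapF (a : ι) : S.Lap (S.F a) = -(S.n * S.F a) + S.H * S.ν a := by
  have h1 : ∀ b, S.D b (S.D b (S.F a)) =
      -(S.P b b * S.F a) - S.P a b * S.F b + S.A b b * S.ν a + S.A a b * S.ν b := by
    intro b
    rw [S.toSA.DF', S.toSA.P_symm b a, S.toSA.P_symm a b, S.toSA.DP, S.toSA.A_symm a b]
    ring
  unfold SA.Lap
  rw [Finset.sum_congr rfl fun b _ => h1 b]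
  simp only [Finset.sum_add_distrib, Finset.sum_sub_distrib, Finset.sum_neg_distrib,
    ← Finset.sum_mul]
  rw [S.toSA.P_trace, S.toSA.P_F, S.toSA.A_ν]
  unfold SA.H
  ring

theorem L_F (a : ι) : S.L (S.F a) = S.n * S.F a := by
  unfold L
  rw [dtF', Alg2_LapF]
  ring

theorem L_ν (a : ι) : S.L (S.ν a) = S.a2 * S.ν a - 2 * (S.H * S.F a) := by
  unfold L
  rw [dtν, Lap_ν]
  ring

end Pool.Agent.Lib.MP_de485e_gt.Conv.DA
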