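import Pool.Agent.Lib.MP_de485e_gt.Conv.Alg2

/-! Evolution of the second fundamental form. -/

namespace Pool.Agent.Lib.MP_de485e_gt.Conv.DA

variable {ι : Type} [Fintype ι] [DecidableEq ι] {R : Type} [CommRing R] [Algebra ℝ R] (S : DA ι R)

theorem Alg2b_Dν (a c : ι) : S.D a (S.ν c) = -S.A a c := by
  simp [SA.A]

theorem Alg2b_D_two_mul (a : ι) (g : R) : S.D a (2 * g) = 2 * S.D a g := by
  rw [two_mul, two_mul, map_add]

/-- A tangential matrix kills every term with a factor `w` in the second slot. -/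
theorem Alg2b_right {w : ι → R} (hw : ∀ a, ∑ b, S.A a b * w b = 0) (x : ι → R) :
    ∑ a, ∑ c, S.A a c * (w c * x a) = 0 := by
  refine Finset.sum_eq_zero fun a _ => ?_
  have : ∑ c, S.A a c * (w c * x a) = (∑ c, S.A a c * w c) * x a := by
    rw [Finset.sum_mul]
    exact Finset.sum_congr rfl fun c _ => by ring
  rw [this, hw, zero_mul]

/-- The same for the first slot. -/
theorem Alg2b_left {w : ι → R} (hw : ∀ a, ∑ b, S.A a b * w b = 0) (x : ι → R) :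
    ∑ a, ∑ c, S.A a c * (w a * x c) = 0 := by
  rw [Finset.sum_comm, ← S.Alg2b_right hw x]
  exact Finset.sum_congr rfl fun c _ => Finset.sum_congr rfl fun a _ => by
    rw [S.toSA.A_symm a c]

theorem Alg2b_ADA (c : ι) : 2 * ∑ b, ∑ d, S.A b d * S.D b (S.A d c) =
    S.D c S.a2 + 2 * (S.ν c * S.a3) - 2 * (S.F c * S.a2) := by
  have h1 : ∑ b, ∑ d, S.A b d * S.D b (S.A d c) =
      ∑ b, ∑ d, S.A b d * S.B c b d + S.ν c * ∑ b, ∑ d, S.A2 b d * S.A b d +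
        ∑ b, ∑ d, S.A b d * (S.ν d * S.A2 b c) - S.F c * ∑ b, ∑ d, S.A b d ^ 2 -
        ∑ b, ∑ d, S.A b d * (S.F d * S.A b c) := by
    simp only [Finset.mul_sum, ← Finset.sum_add_distrib, ← Finset.sum_sub_distrib]
    refine Finset.sum_congr rfl fun b _ => Finset.sum_congr rfl fun d _ => ?_
    rw [S.toSA.DA_eq, S.toSA.B_symm23 b d c, S.toSA.B_symm12 b c d]
    ring
  rw [h1, S.Alg2b_right S.toSA.A_ν, S.Alg2b_right S.toSA.A_F, S.toSA.Da2]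
  unfold SA.a2 SA.a3
  ring

/-- `L_D` with `g = ν c`, `L_ν`, `Lap_ν`, `DA_eq`, `Da2`. -/
theorem L_A (a c : ι) : S.L (S.A a c) =
    S.a2 * S.A a c + 2 * (S.H * S.P a c) - ((S.n : R) - 2) * S.A a c +
      2 * ∑ d, S.A2 a d * S.A d c - (S.ν c * S.D a S.a2 + S.ν a * S.D c S.a2) +
      2 * (S.F c * S.D a S.H + S.F a * S.D c S.H) +
      2 * (S.a2 * (S.F a * S.ν c + S.ν a * S.F c)) - 2 * (S.H * (S.F a * S.F c)) -
      2 * (S.a3 * (S.ν a * S.ν c)) := by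
  have h0 : S.L (S.A a c) = -S.L (S.D a (S.ν c)) := S.L_neg _
  have h1 : S.D a (S.L (S.ν c)) = -(S.a2 * S.A a c) + S.ν c * S.D a S.a2 -
      2 * (S.H * S.P a c + S.F c * S.D a S.H) := by
    rw [S.L_ν, map_sub, S.Alg2b_D_two_mul, Derivation.leibniz, Derivation.leibniz, S.Alg2b_Dν,
      S.toSA.DF']
    simp only [smul_eq_mul]
    ring
  have h2 : ∑ d, S.A2 a d * S.D d (S.ν c) = -∑ d, S.A2 a d * S.A d c := by
    rw [← Finset.sum_neg_distrib]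
    exact Finset.sum_congr rfl fun d _ => by rw [S.Alg2b_Dν, mul_neg]
  have h3 : ∑ b, ∑ d, S.A b d * S.D b (S.D d (S.ν c)) =
      -∑ b, ∑ d, S.A b d * S.D b (S.A d c) := by
    simp only [← Finset.sum_neg_distrib]
    exact Finset.sum_congr rfl fun b _ => Finset.sum_congr rfl fun d _ => by
      rw [S.Alg2b_Dν, map_neg, mul_neg]
  have h4 := S.Alg2b_ADA c
  rw [h0, S.L_D, h1, h2, h3, S.Lap_ν, S.Alg2b_Dν]
  linear_combination (-S.ν a) * h4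

theorem L_H : S.L S.H = S.H * (S.a2 + S.n) := by
  have h0 : S.L S.H = ∑ a, S.L (S.A a a) := S.L_sum _ _
  have h1 : ∑ a, S.L (S.A a a) =
      S.a2 * ∑ a, S.A a a + 2 * (S.H * ∑ a, S.P a a) - ((S.n : R) - 2) * ∑ a, S.A a a +
        2 * ∑ a, ∑ d, S.A2 a d * S.A a d - 2 * ∑ a, S.ν a * S.D a S.a2 +
        4 * ∑ a, S.F a * S.D a S.H + 4 * (S.a2 * ∑ a, S.F a * S.ν a) -
        2 * (S.H * ∑ a, S.F a * S.F a) - 2 * (S.a3 * ∑ a, S.ν a * S.ν a) := by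
    simp only [Finset.mul_sum _ _ (2 : R), Finset.mul_sum _ _ (4 : R), Finset.mul_sum _ _ S.a2,
      Finset.mul_sum _ _ S.H, Finset.mul_sum _ _ S.a3, Finset.mul_sum _ _ ((S.n : R) - 2),
      ← Finset.sum_add_distrib, ← Finset.sum_sub_distrib]
    refine Finset.sum_congr rfl fun a _ => ?_
    have e : ∑ d, S.A2 a d * S.A d a = ∑ d, S.A2 a d * S.A a d :=
      Finset.sum_congr rfl fun d _ => by rw [S.toSA.A_symm d a]
    rw [S.L_A, e, ← Finset.mul_sum]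
    ring
  rw [h0, h1, S.toSA.P_trace, S.νD, S.FD, S.Fν, S.FF, S.νν]
  change S.a2 * S.H + 2 * (S.H * S.n) - ((S.n : R) - 2) * S.H + 2 * S.a3 - 2 * 0 + 4 * 0 +
    4 * (S.a2 * 0) - 2 * (S.H * 1) - 2 * (S.a3 * 1) = _
  ring

theorem Alg2b_AP : ∑ a, ∑ c, S.A a c * S.P a c = S.H := by
  refine Finset.sum_congr rfl fun a _ => ?_
  rw [← S.toSA.P_A a a]
  exact Finset.sum_congr rfl fun c _ => by rw [S.toSA.A_symm a c, mul_comm]

theorem Alg2b_A4 : ∑ a, ∑ c, S.A a c * ∑ d, S.A2 a d * S.A d c = ∑ a, ∑ b, S.A2 a b ^ 2 := by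
  refine Finset.sum_congr rfl fun a _ => ?_
  simp only [Finset.mul_sum]
  rw [Finset.sum_comm]
  refine Finset.sum_congr rfl fun d _ => ?_
  rw [sq]
  nth_rewrite 3 [SA.A2]
  rw [Finset.mul_sum]
  exact Finset.sum_congr rfl fun c _ => by rw [S.toSA.A_symm d c]; ring

theorem Alg2b_ALA : ∑ a, ∑ c, S.A a c * S.L (S.A a c) =
    S.a2 ^ 2 + 2 * S.H ^ 2 - ((S.n : R) - 2) * S.a2 + 2 * ∑ a, ∑ b, S.A2 a b ^ 2 := by
  have h1 : ∑ a, ∑ c, S.A a c * S.L (S.A a c) =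
      S.a2 * ∑ a, ∑ c, S.A a c ^ 2 + 2 * S.H * ∑ a, ∑ c, S.A a c * S.P a c -
        ((S.n : R) - 2) * ∑ a, ∑ c, S.A a c ^ 2 +
        2 * ∑ a, ∑ c, S.A a c * ∑ d, S.A2 a d * S.A d c +
        ∑ a, ∑ c, S.A a c * (S.ν c * (-S.D a S.a2 + 2 * S.a2 * S.F a - 2 * S.a3 * S.ν a)) +
        ∑ a, ∑ c, S.A a c * (S.F c * (2 * S.D a S.H + 2 * S.a2 * S.ν a - 2 * S.H * S.F a)) +
        ∑ a, ∑ c, S.A a c * (S.ν a * -S.D c S.a2) +
        ∑ a, ∑ c, S.A a c * (S.F a * (2 * S.D c S.H)) := by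
    rw [Finset.mul_sum, Finset.mul_sum, Finset.mul_sum, Finset.mul_sum]
    simp only [← Finset.sum_add_distrib, ← Finset.sum_sub_distrib]
    refine Finset.sum_congr rfl fun a _ => ?_
    rw [Finset.mul_sum, Finset.mul_sum, Finset.mul_sum, Finset.mul_sum]
    simp only [← Finset.sum_add_distrib, ← Finset.sum_sub_distrib]
    refine Finset.sum_congr rfl fun c _ => ?_
    rw [S.L_A]
    ring
  rw [h1, S.Alg2b_right S.toSA.A_ν, S.Alg2b_right S.toSA.A_F, S.Alg2b_left S.toSA.A_ν,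
    S.Alg2b_left S.toSA.A_F, S.Alg2b_AP, S.Alg2b_A4]
  change S.a2 * S.a2 + 2 * S.H * S.H - ((S.n : R) - 2) * S.a2 + _ + 0 + 0 + 0 + 0 = _
  ring

theorem Alg2b_grad : ∑ a, ∑ c, S.grad (S.A a c) (S.A a c) =
    S.v + 2 * ∑ a, ∑ b, S.A2 a b ^ 2 + 2 * S.a2 := by
  rw [← S.toSA.DA_sq]
  unfold SA.grad
  rw [Finset.sum_comm (f := fun e a => ∑ c, S.D e (S.A a c) ^ 2)]
  refine Finset.sum_congr rfl fun a _ => ?_
  rw [Finset.sum_comm]
  exact Finset.sum_congr rfl fun e _ => Finset.sum_congr rfl fun c _ => (sq _).symm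

theorem L_a2 : S.L S.a2 = -2 * S.v + 2 * S.a2 ^ 2 + 4 * S.H ^ 2 - 2 * (S.n * S.a2) := by
  have h0 : S.L S.a2 = 2 * ∑ a, ∑ c, S.A a c * S.L (S.A a c) -
      2 * ∑ a, ∑ c, S.grad (S.A a c) (S.A a c) := by
    have : S.L S.a2 = ∑ a, S.L (∑ c, S.A a c ^ 2) := S.L_sum _ _
    rw [this, Finset.mul_sum, Finset.mul_sum, ← Finset.sum_sub_distrib]
    refine Finset.sum_congr rfl fun a _ => ?_
    rw [S.L_sum, Finset.mul_sum, Finset.mul_sum, ← Finset.sum_sub_distrib]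
    exact Finset.sum_congr rfl fun c _ => S.L_sq _
  rw [h0, S.Alg2b_ALA, S.Alg2b_grad]
  ring

theorem L_W : S.L S.W = -2 * S.grad S.H S.H + 2 * (S.H ^ 2 * (S.a2 + S.n)) := by
  have h0 : S.W = ((S.n ^ 2 : ℕ) : R) + S.H ^ 2 := by
    unfold SA.W
    rw [Nat.cast_pow]
  rw [h0, S.L_add, S.L_natCast, S.L_sq, S.L_H]
  ring

theorem L_u : S.L S.u =
    -2 * S.v + (2 * (S.n : ℝ)⁻¹) • S.grad S.H S.H + 2 * (S.u * (S.a2 - S.n)) := by
  have hn : (S.n : ℝ) ≠ 0 := by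
    have := S.hn
    positivity
  have hc : algebraMap ℝ R (S.n : ℝ)⁻¹ * (S.n : R) = 1 := by
    rw [← map_natCast (algebraMap ℝ R), ← map_mul, inv_mul_cancel₀ hn, map_one]
  have h2 : algebraMap ℝ R 2 = 2 := map_ofNat _ 2
  unfold SA.u
  rw [S.L_sub, S.L_smul, S.L_a2, S.L_sq, S.L_H]
  simp only [Algebra.smul_def, map_mul, h2]
  linear_combination (-4 * S.H ^ 2) * hc

end Pool.Agent.Lib.MP_de485e_gt.Conv.DA
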