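import Pool.Agent.Lib.MP_de485e_gt.Conv.Alg3a

/-! Evolution of the gradient of the second fundamental form. -/

namespace Pool.Agent.Lib.MP_de485e_gt.Conv.DA

variable {ι : Type} [Fintype ι] [DecidableEq ι] {R : Type} [CommRing R] [Algebra ℝ R] (S : DA ι R)

private theorem Alg3_kc {w : ι → R} (hw : ∀ a b, ∑ c, S.B a b c * w c = 0) (g : ι → ι → R) :
    ∑ a, ∑ b, ∑ c, S.B a b c * (w c * g a b) = 0 := by
  refine Finset.sum_eq_zero fun a _ => Finset.sum_eq_zero fun b _ => ?_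
  simp only [← mul_assoc, ← Finset.sum_mul, hw, zero_mul]

private theorem Alg3_swap23 (G : ι → ι → ι → R) :
    ∑ a, ∑ b, ∑ c, S.B a b c * G a b c = ∑ a, ∑ b, ∑ c, S.B a b c * G a c b := by
  refine Finset.sum_congr rfl fun a _ => ?_
  rw [Finset.sum_comm]
  exact Finset.sum_congr rfl fun b _ => Finset.sum_congr rfl fun c _ => by
    rw [S.toSA.B_symm23 a c b]

private theorem Alg3_swap12 (G : ι → ι → ι → R) :
    ∑ a, ∑ b, ∑ c, S.B a b c * G a b c = ∑ a, ∑ b, ∑ c, S.B a b c * G b a c := by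
  rw [Finset.sum_comm]
  exact Finset.sum_congr rfl fun a _ => Finset.sum_congr rfl fun b _ =>
    Finset.sum_congr rfl fun c _ => by rw [S.toSA.B_symm12 b a c]

private theorem Alg3_kb {w : ι → R} (hw : ∀ a b, ∑ c, S.B a b c * w c = 0) (g : ι → ι → R) :
    ∑ a, ∑ b, ∑ c, S.B a b c * (w b * g a c) = 0 := by
  rw [Alg3_swap23 S fun a b c => w b * g a c]
  exact Alg3_kc S hw g

private theorem Alg3_ka {w : ι → R} (hw : ∀ a b, ∑ c, S.B a b c * w c = 0) (g : ι → ι → R) :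
    ∑ a, ∑ b, ∑ c, S.B a b c * (w a * g b c) = 0 := by
  rw [Alg3_swap12 S fun a b c => w a * g b c]
  exact Alg3_kb S hw g

private theorem Alg3_DA2 (e a b : ι) : S.D e (S.A2 a b) =
    ∑ d, S.B e a d * S.A d b + ∑ d, S.A a d * S.B e d b + S.ν a * ∑ d, S.A2 e d * S.A d b -
      S.F a * ∑ d, S.A e d * S.A d b + S.ν b * ∑ d, S.A a d * S.A2 e d -
      S.F b * ∑ d, S.A a d * S.A e d := by
  have h : S.D e (S.A2 a b) = ∑ d, (S.A a d * S.D e (S.A d b) + S.A d b * S.D e (S.A a d)) := by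
    rw [SA.A2, map_sum]
    simp only [Derivation.leibniz, smul_eq_mul]
  have h2 : ∀ d, S.A a d * S.D e (S.A d b) + S.A d b * S.D e (S.A a d) =
      S.B e a d * S.A d b + S.A a d * S.B e d b + S.ν a * (S.A2 e d * S.A d b) -
        S.F a * (S.A e d * S.A d b) + S.ν b * (S.A a d * S.A2 e d) -
        S.F b * (S.A a d * S.A e d) + S.A a d * S.ν d * S.A2 e b - S.A a d * S.F d * S.A e b +
        S.A b d * S.ν d * S.A2 e a - S.A b d * S.F d * S.A e a := by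
    intro d
    rw [S.toSA.DA_eq e d b, S.toSA.DA_eq e a d, S.toSA.A_symm b d]
    ring
  rw [h, Finset.sum_congr rfl fun d _ => h2 d]
  simp only [Finset.sum_add_distrib, Finset.sum_sub_distrib, ← Finset.mul_sum, ← Finset.sum_mul,
    S.toSA.A_ν, S.toSA.A_F, zero_mul, add_zero, sub_zero]

private theorem Alg3_J2 :
    ∑ a, ∑ b, ∑ c, S.B a b c * ∑ e, S.A e c * ∑ d, S.B e a d * S.A d b = S.J2 := by
  unfold SA.J2
  refine Finset.sum_congr rfl fun a _ => Finset.sum_congr rfl fun b _ =>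
    Finset.sum_congr rfl fun c _ => ?_
  rw [Finset.sum_comm]
  simp only [Finset.mul_sum]
  refine Finset.sum_congr rfl fun e _ => Finset.sum_congr rfl fun d _ => ?_
  rw [S.toSA.B_symm12 e a d, S.toSA.B_symm23 a e d, S.toSA.A_symm d b]
  ring

private theorem Alg3_J2' :
    ∑ a, ∑ b, ∑ c, S.B a b c * ∑ e, S.A e c * ∑ d, S.A a d * S.B e d b = S.J2 := by
  rw [Alg3_swap12 S fun a b c => ∑ e, S.A e c * ∑ d, S.A a d * S.B e d b, ← Alg3_J2]
  refine Finset.sum_congr rfl fun a _ => Finset.sum_congr rfl fun b _ =>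
    Finset.sum_congr rfl fun c _ => ?_
  congr 1
  refine Finset.sum_congr rfl fun e _ => ?_
  congr 1
  refine Finset.sum_congr rfl fun d _ => ?_
  rw [S.toSA.B_symm23 e d a, S.toSA.A_symm b d, mul_comm]

/-- Only `-2 grad (ν c) (A2 a b)` survives. -/
theorem B_L_νA2 : ∑ a, ∑ b, ∑ c, S.B a b c * S.L (S.ν c * S.A2 a b) = 4 * S.J2 := by
  have hg : ∀ a b c, S.grad (S.ν c) (S.A2 a b) =
      -((∑ e, S.A e c * ∑ d, S.B e a d * S.A d b) + (∑ e, S.A e c * ∑ d, S.A a d * S.B e d b) +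
        S.ν a * (∑ e, S.A e c * ∑ d, S.A2 e d * S.A d b) -
        S.F a * (∑ e, S.A e c * ∑ d, S.A e d * S.A d b) +
        S.ν b * (∑ e, S.A e c * ∑ d, S.A a d * S.A2 e d) -
        S.F b * (∑ e, S.A e c * ∑ d, S.A a d * S.A e d)) := by
    intro a b c
    rw [SA.grad, Finset.mul_sum, Finset.mul_sum, Finset.mul_sum, Finset.mul_sum,
      ← Finset.sum_add_distrib, ← Finset.sum_add_distrib, ← Finset.sum_sub_distrib,
      ← Finset.sum_add_distrib, ← Finset.sum_sub_distrib, ← Finset.sum_neg_distrib]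
    refine Finset.sum_congr rfl fun e _ => ?_
    have hA : S.D e (S.ν c) = -S.A e c := by rw [SA.A, neg_neg]
    rw [hA, Alg3_DA2]
    ring
  have h : ∀ a b c, S.B a b c * S.L (S.ν c * S.A2 a b) =
      S.B a b c * (S.ν c * (S.L (S.A2 a b) + S.A2 a b * S.a2)) -
        S.B a b c * (S.F c * (2 * S.H * S.A2 a b)) +
        2 * (S.B a b c * ∑ e, S.A e c * ∑ d, S.B e a d * S.A d b) +
        2 * (S.B a b c * ∑ e, S.A e c * ∑ d, S.A a d * S.B e d b) +
        S.B a b c * (S.ν a * (2 * ∑ e, S.A e c * ∑ d, S.A2 e d * S.A d b)) -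
        S.B a b c * (S.F a * (2 * ∑ e, S.A e c * ∑ d, S.A e d * S.A d b)) +
        S.B a b c * (S.ν b * (2 * ∑ e, S.A e c * ∑ d, S.A a d * S.A2 e d)) -
        S.B a b c * (S.F b * (2 * ∑ e, S.A e c * ∑ d, S.A a d * S.A e d)) := by
    intro a b c
    rw [S.L_mul, S.L_ν, hg]
    ring
  have e1 := Alg3_kc S S.toSA.B_ν fun a b => S.L (S.A2 a b) + S.A2 a b * S.a2
  have e2 := Alg3_kc S S.toSA.B_F fun a b => 2 * S.H * S.A2 a b
  have e3 := Alg3_ka S S.toSA.B_ν fun b c => 2 * ∑ e, S.A e c * ∑ d, S.A2 e d * S.A d b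
  have e4 := Alg3_ka S S.toSA.B_F fun b c => 2 * ∑ e, S.A e c * ∑ d, S.A e d * S.A d b
  have e5 := Alg3_kb S S.toSA.B_ν fun a c => 2 * ∑ e, S.A e c * ∑ d, S.A a d * S.A2 e d
  have e6 := Alg3_kb S S.toSA.B_F fun a c => 2 * ∑ e, S.A e c * ∑ d, S.A a d * S.A e d
  have m2 : ∀ G : ι → ι → ι → R, ∑ a, ∑ b, ∑ c, 2 * G a b c = 2 * ∑ a, ∑ b, ∑ c, G a b c := by
    intro G
    simp only [Finset.mul_sum]
  simp only [h, Finset.sum_add_distrib, Finset.sum_sub_distrib]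
  rw [e1, e2, e3, e4, e5, e6, m2, m2, Alg3_J2, Alg3_J2']
  ring

theorem B_L_FA : ∑ a, ∑ b, ∑ c, S.B a b c * S.L (S.F c * S.A a b) = -2 * S.v := by
  have hg : ∀ a b c, S.grad (S.F c) (S.A a b) = S.D c (S.A a b) := by
    intro a b c
    rw [SA.grad, ← S.toSA.D_eq c (S.A a b)]
    exact Finset.sum_congr rfl fun e _ => by rw [S.toSA.DF', S.toSA.P_symm e c]
  have h : ∀ a b c, S.B a b c * S.L (S.F c * S.A a b) =
      S.B a b c * (S.F c * (S.L (S.A a b) + S.A a b * S.n)) - 2 * S.B a b c ^ 2 -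
        S.B a b c * (S.ν b * (2 * S.A2 c a)) - S.B a b c * (S.ν a * (2 * S.A2 c b)) +
        S.B a b c * (S.F b * (2 * S.A c a)) + S.B a b c * (S.F a * (2 * S.A c b)) := by
    intro a b c
    rw [S.L_mul, S.L_F, hg, S.toSA.DA_eq c a b, S.toSA.B_symm12 c a b, S.toSA.B_symm23 a c b]
    ring
  have e1 := Alg3_kc S S.toSA.B_F fun a b => S.L (S.A a b) + S.A a b * S.n
  have e2 := Alg3_kb S S.toSA.B_ν fun a c => 2 * S.A2 c a
  have e3 := Alg3_ka S S.toSA.B_ν fun b c => 2 * S.A2 c b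
  have e4 := Alg3_kb S S.toSA.B_F fun a c => 2 * S.A c a
  have e5 := Alg3_ka S S.toSA.B_F fun b c => 2 * S.A c b
  have m2 : ∑ a, ∑ b, ∑ c, 2 * S.B a b c ^ 2 = 2 * S.v := by
    simp only [SA.v, Finset.mul_sum]
  simp only [h, Finset.sum_add_distrib, Finset.sum_sub_distrib]
  rw [e1, e2, e3, e4, e5, m2]
  ring

theorem L_v : S.L S.v = -2 * S.q + 3 * S.grad S.a2 S.a2 + 12 * S.grad S.H S.H +
    2 * ((S.a2 - 2 * S.n) * S.v) + 12 * S.J1 - 12 * S.J2 := by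
  have hq : ∑ a, ∑ b, ∑ c, S.grad (S.B a b c) (S.B a b c) = S.q := by
    unfold SA.q SA.grad
    rw [Finset.sum_comm (γ := ι) (f := fun d a => ∑ b, ∑ c, S.D d (S.B a b c) ^ 2)]
    refine Finset.sum_congr rfl fun a _ => ?_
    rw [Finset.sum_comm (γ := ι) (f := fun d b => ∑ c, S.D d (S.B a b c) ^ 2)]
    refine Finset.sum_congr rfl fun b _ => ?_
    rw [Finset.sum_comm (γ := ι) (f := fun d c => S.D d (S.B a b c) ^ 2)]
    simp only [sq]
  have hL : ∀ a b c, S.L (S.B a b c) = S.L (S.D a (S.A b c)) - S.L (S.ν c * S.A2 a b) -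
      S.L (S.ν b * S.A2 a c) + S.L (S.F c * S.A a b) + S.L (S.F b * S.A a c) := by
    intro a b c
    rw [SA.B, S.L_add, S.L_add, S.L_sub, S.L_sub]
  have e1 : ∑ a, ∑ b, ∑ c, S.B a b c * S.L (S.ν b * S.A2 a c) = 4 * S.J2 := by
    rw [Alg3_swap23 S fun a b c => S.L (S.ν b * S.A2 a c)]
    exact S.B_L_νA2
  have e2 : ∑ a, ∑ b, ∑ c, S.B a b c * S.L (S.F b * S.A a c) = -2 * S.v := by
    rw [Alg3_swap23 S fun a b c => S.L (S.F b * S.A a c)]
    exact S.B_L_FA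
  have hB : ∑ a, ∑ b, ∑ c, S.B a b c * S.L (S.B a b c) =
      (3 / 2 : ℝ) • S.grad S.a2 S.a2 + 6 * S.grad S.H S.H + (S.a2 - 2 * S.n) * S.v +
        6 * S.J1 - 6 * S.J2 := by
    simp only [hL, mul_add, mul_sub, Finset.sum_add_distrib, Finset.sum_sub_distrib]
    rw [S.B_L_DA, S.B_L_νA2, S.B_L_FA, e1, e2]
    ring
  have h3 : 2 * ((3 / 2 : ℝ) • S.grad S.a2 S.a2) = 3 * S.grad S.a2 S.a2 := by
    rw [two_mul, ← add_smul, show (3 / 2 + 3 / 2 : ℝ) = 3 by norm_num, Algebra.smul_def, map_ofNat]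
  have hv : S.L S.v = 2 * (∑ a, ∑ b, ∑ c, S.B a b c * S.L (S.B a b c)) -
      2 * ∑ a, ∑ b, ∑ c, S.grad (S.B a b c) (S.B a b c) := by
    rw [SA.v]
    simp only [S.L_sum, S.L_sq, Finset.sum_sub_distrib, Finset.mul_sum]
  rw [hv, hB, hq, ← h3]
  ring

end Pool.Agent.Lib.MP_de485e_gt.Conv.DA
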