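import Pool.Agent.Lib.MP_de485e_gt.Conv.Alg2b

/-! Evolution of the gradient of the second fundamental form. -/

namespace Pool.Agent.Lib.MP_de485e_gt.Conv.DA

variable {ι : Type} [Fintype ι] [DecidableEq ι] {R : Type} [CommRing R] [Algebra ℝ R]

/-- Full contraction with `B`. -/
def Alg3a_T (S : SA ι R) (X : ι → ι → ι → R) : R := ∑ a, ∑ b, ∑ c, S.B a b c * X a b c

omit [DecidableEq ι] [Algebra ℝ R] in
theorem Alg3a_rot (f : ι → ι → ι → R) :
    ∑ a, ∑ b, ∑ c, f a b c = ∑ b, ∑ c, ∑ a, f a b c := by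
  rw [Finset.sum_comm]
  exact Finset.sum_congr rfl fun b _ => Finset.sum_comm

omit [DecidableEq ι] [Algebra ℝ R] in
theorem Alg3a_swap (f : ι → ι → ι → R) :
    ∑ a, ∑ b, ∑ c, f a b c = ∑ a, ∑ c, ∑ b, f a b c :=
  Finset.sum_congr rfl fun _ _ => Finset.sum_comm

theorem Alg3a_B_rot (S : SA ι R) (a b c : ι) : S.B a b c = S.B b c a := by
  rw [S.B_symm12 a b c, S.B_symm23 b a c]

theorem Alg3a_kill3 (S : SA ι R) {w : ι → R} (hw : ∀ a b, ∑ c, S.B a b c * w c = 0)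
    (Y : ι → ι → R) : ∑ a, ∑ b, ∑ c, S.B a b c * (w c * Y a b) = 0 := by
  refine Finset.sum_eq_zero fun a _ => Finset.sum_eq_zero fun b _ => ?_
  have : ∑ c, S.B a b c * (w c * Y a b) = (∑ c, S.B a b c * w c) * Y a b := by
    rw [Finset.sum_mul]
    exact Finset.sum_congr rfl fun c _ => by ring
  rw [this, hw, zero_mul]

theorem Alg3a_kill2 (S : SA ι R) {w : ι → R} (hw : ∀ a b, ∑ c, S.B a b c * w c = 0)
    (Y : ι → ι → R) : ∑ a, ∑ b, ∑ c, S.B a b c * (w b * Y a c) = 0 := by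
  rw [Alg3a_swap, ← Alg3a_kill3 S hw Y]
  refine Finset.sum_congr rfl fun a _ => Finset.sum_congr rfl fun c _ =>
    Finset.sum_congr rfl fun b _ => ?_
  rw [S.B_symm23 a b c]

theorem Alg3a_kill1 (S : SA ι R) {w : ι → R} (hw : ∀ a b, ∑ c, S.B a b c * w c = 0)
    (Y : ι → ι → R) : ∑ a, ∑ b, ∑ c, S.B a b c * (w a * Y b c) = 0 := by
  rw [Alg3a_rot, ← Alg3a_kill3 S hw Y]
  refine Finset.sum_congr rfl fun b _ => Finset.sum_congr rfl fun c _ =>
    Finset.sum_congr rfl fun a _ => ?_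
  rw [Alg3a_B_rot S a b c]

theorem Alg3a_drop (S : SA ι R) {X M : ι → ι → ι → R} (Y1 Y2 Y3 Y4 Y5 Y6 : ι → ι → R)
    (h : ∀ a b c, X a b c = M a b c + S.F a * Y1 b c + S.ν a * Y2 b c + S.F b * Y3 a c +
      S.ν b * Y4 a c + S.F c * Y5 a b + S.ν c * Y6 a b) : Alg3a_T S X = Alg3a_T S M := by
  unfold Alg3a_T
  simp only [h, mul_add, Finset.sum_add_distrib]
  rw [Alg3a_kill1 S S.B_F, Alg3a_kill1 S S.B_ν, Alg3a_kill2 S S.B_F, Alg3a_kill2 S S.B_ν,
    Alg3a_kill3 S S.B_F, Alg3a_kill3 S S.B_ν]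
  simp only [add_zero]

theorem Alg3a_T_add (S : SA ι R) (X Y : ι → ι → ι → R) :
    Alg3a_T S (fun a b c => X a b c + Y a b c) = Alg3a_T S X + Alg3a_T S Y := by
  simp only [Alg3a_T, mul_add, Finset.sum_add_distrib]

theorem Alg3a_T_mul (S : SA ι R) (r : R) (X : ι → ι → ι → R) :
    Alg3a_T S (fun a b c => r * X a b c) = r * Alg3a_T S X := by
  simp only [Alg3a_T, Finset.mul_sum]
  exact Finset.sum_congr rfl fun a _ => Finset.sum_congr rfl fun b _ =>
    Finset.sum_congr rfl fun c _ => by ring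

theorem Alg3a_T_B (S : SA ι R) : Alg3a_T S S.B = S.v := by
  simp only [Alg3a_T, SA.v, sq]

/-- Contraction of `D A` with a tangential vector. -/
theorem Alg3a_tang (S : SA ι R) {w : ι → R} (hF : ∑ d, w d * S.F d = 0)
    (hν : ∑ d, w d * S.ν d = 0) (a c : ι) :
    ∑ d, w d * S.D a (S.A d c) =
      ∑ d, w d * S.B a d c + S.ν c * ∑ d, w d * S.A2 a d - S.F c * ∑ d, w d * S.A a d := by
  have h : ∀ d, w d * S.D a (S.A d c) = w d * S.B a d c + S.ν c * (w d * S.A2 a d) -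
      S.F c * (w d * S.A a d) + (w d * S.ν d) * S.A2 a c - (w d * S.F d) * S.A a c := by
    intro d
    rw [S.DA_eq]
    ring
  simp only [h, Finset.sum_add_distrib, Finset.sum_sub_distrib, ← Finset.mul_sum,
    ← Finset.sum_mul, hF, hν]
  ring

theorem Alg3a_J1a (S : SA ι R) :
    Alg3a_T S (fun a b c => ∑ d, S.A2 a d * S.B d b c) = S.J1 := by
  unfold Alg3a_T SA.J1
  rw [Alg3a_rot]
  refine Finset.sum_congr rfl fun b _ => Finset.sum_congr rfl fun c _ =>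
    Finset.sum_congr rfl fun a _ => ?_
  rw [Finset.mul_sum]
  refine Finset.sum_congr rfl fun d _ => ?_
  rw [Alg3a_B_rot S a b c, Alg3a_B_rot S d b c, S.A2_symm a d]
  ring

theorem Alg3a_J1b (S : SA ι R) :
    Alg3a_T S (fun a b c => ∑ d, S.A2 b d * S.B a d c) = S.J1 := by
  unfold Alg3a_T SA.J1
  rw [Alg3a_swap]
  refine Finset.sum_congr rfl fun a _ => Finset.sum_congr rfl fun c _ =>
    Finset.sum_congr rfl fun b _ => ?_
  rw [Finset.mul_sum]
  refine Finset.sum_congr rfl fun d _ => ?_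
  rw [S.B_symm23 a b c, S.B_symm23 a d c, S.A2_symm b d]
  ring

theorem Alg3a_J1c (S : SA ι R) :
    Alg3a_T S (fun a b c => ∑ d, S.A2 c d * S.B a d b) = S.J1 := by
  unfold Alg3a_T SA.J1
  refine Finset.sum_congr rfl fun a _ => Finset.sum_congr rfl fun b _ =>
    Finset.sum_congr rfl fun c _ => ?_
  rw [Finset.mul_sum]
  refine Finset.sum_congr rfl fun d _ => ?_
  rw [S.B_symm23 a d b, S.A2_symm c d]
  ring

theorem Alg3a_J2 (S : SA ι R) :
    Alg3a_T S (fun a b c => ∑ e, S.A e c * ∑ d, S.A b d * S.B a d e) = S.J2 := by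
  unfold Alg3a_T SA.J2
  refine Finset.sum_congr rfl fun a _ => Finset.sum_congr rfl fun b _ =>
    Finset.sum_congr rfl fun c _ => ?_
  rw [Finset.sum_comm, Finset.mul_sum]
  refine Finset.sum_congr rfl fun e _ => ?_
  rw [Finset.mul_sum, Finset.mul_sum]
  exact Finset.sum_congr rfl fun d _ => by ring

/-- The derivative of the cube of `A`. -/
theorem Alg3a_DA3 (S : SA ι R) (a b c : ι) : S.D a (∑ d, S.A2 b d * S.A d c) =
    (∑ d, S.A2 b d * S.B a d c + S.ν c * ∑ d, S.A2 b d * S.A2 a d -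
        S.F c * ∑ d, S.A2 b d * S.A a d) +
      ∑ e, S.A e c * ∑ d, S.A b d * S.B a d e +
      (∑ d, S.A2 c d * S.B a d b + S.ν b * ∑ d, S.A2 c d * S.A2 a d -
        S.F b * ∑ d, S.A2 c d * S.A a d) := by
  have hν : ∑ e, S.A e c * S.ν e = 0 := by
    rw [← S.A_ν c]
    exact Finset.sum_congr rfl fun e _ => by rw [S.A_symm e c]
  have hF : ∑ e, S.A e c * S.F e = 0 := by
    rw [← S.A_F c]
    exact Finset.sum_congr rfl fun e _ => by rw [S.A_symm e c]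
  have h2 : ∀ e, S.D a (S.A2 b e) =
      ∑ d, S.A b d * S.D a (S.A d e) + ∑ d, S.A d e * S.D a (S.A d b) := by
    intro e
    rw [SA.A2, map_sum, ← Finset.sum_add_distrib]
    refine Finset.sum_congr rfl fun d _ => ?_
    rw [Derivation.leibniz, smul_eq_mul, smul_eq_mul, S.A_symm d b]
  have hii : ∑ e, S.A e c * ∑ d, S.A b d * S.D a (S.A d e) =
      ∑ e, S.A e c * ∑ d, S.A b d * S.B a d e := by
    have h : ∀ e, S.A e c * ∑ d, S.A b d * S.D a (S.A d e) =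
        S.A e c * ∑ d, S.A b d * S.B a d e + (S.A e c * S.ν e) * ∑ d, S.A b d * S.A2 a d -
          (S.A e c * S.F e) * ∑ d, S.A b d * S.A a d := by
      intro e
      rw [Alg3a_tang S (S.A_F b) (S.A_ν b) a e]
      ring
    simp only [h, Finset.sum_add_distrib, Finset.sum_sub_distrib, ← Finset.sum_mul, hF, hν]
    ring
  have hiii : ∑ e, S.A e c * ∑ d, S.A d e * S.D a (S.A d b) =
      ∑ d, S.A2 c d * S.D a (S.A d b) := by
    simp only [Finset.mul_sum]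
    rw [Finset.sum_comm]
    refine Finset.sum_congr rfl fun d _ => ?_
    rw [SA.A2, Finset.sum_mul]
    refine Finset.sum_congr rfl fun e _ => ?_
    rw [S.A_symm e c, S.A_symm d e]
    ring
  rw [← Alg3a_tang S (S.A2_F b) (S.A2_ν b) a c, ← Alg3a_tang S (S.A2_F c) (S.A2_ν c) a b, ← hii,
    ← hiii, map_sum, ← Finset.sum_add_distrib, ← Finset.sum_add_distrib]
  refine Finset.sum_congr rfl fun e _ => ?_
  rw [Derivation.leibniz, smul_eq_mul, smul_eq_mul, h2]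
  ring

theorem Alg3a_T_vec1 (S : SA ι R) (x : ι → R) (Y : ι → ι → R) :
    Alg3a_T S (fun a b c => x a * Y b c) = ∑ a, x a * ∑ b, ∑ c, Y b c * S.B a b c := by
  simp only [Alg3a_T, Finset.mul_sum]
  exact Finset.sum_congr rfl fun a _ => Finset.sum_congr rfl fun b _ =>
    Finset.sum_congr rfl fun c _ => by ring

theorem Alg3a_T_vec2 (S : SA ι R) (x : ι → R) (Y : ι → ι → R) :
    Alg3a_T S (fun a b c => x b * Y a c) = ∑ a, x a * ∑ b, ∑ c, Y b c * S.B a b c := by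
  rw [← Alg3a_T_vec1]
  unfold Alg3a_T
  rw [Finset.sum_comm]
  refine Finset.sum_congr rfl fun b _ => Finset.sum_congr rfl fun a _ =>
    Finset.sum_congr rfl fun c _ => ?_
  rw [S.B_symm12 a b c]

theorem Alg3a_T_vec3 (S : SA ι R) (x : ι → R) (Y : ι → ι → R) :
    Alg3a_T S (fun a b c => x c * Y a b) = ∑ a, x a * ∑ b, ∑ c, Y b c * S.B a b c := by
  rw [← Alg3a_T_vec1]
  unfold Alg3a_T
  rw [Alg3a_rot (fun a b c => S.B a b c * (x a * Y b c))]
  refine Finset.sum_congr rfl fun a _ => Finset.sum_congr rfl fun b _ =>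
    Finset.sum_congr rfl fun c _ => ?_
  rw [Alg3a_B_rot S c a b]

theorem Alg3a_PB (S : SA ι R) (a : ι) : ∑ b, ∑ c, S.P b c * S.B a b c = S.D a S.H := by
  rw [S.DH]
  refine Finset.sum_congr rfl fun b _ => ?_
  rw [← S.B_P a b b]
  exact Finset.sum_congr rfl fun c _ => by rw [S.P_symm b c, mul_comm]

theorem Alg3a_half (S : SA ι R) : (3 / 2 : ℝ) • S.grad S.a2 S.a2 =
    3 * ∑ a, S.D a S.a2 * ∑ b, ∑ c, S.A b c * S.B a b c := by
  have h : S.grad S.a2 S.a2 = (2 : ℝ) • ∑ a, S.D a S.a2 * ∑ b, ∑ c, S.A b c * S.B a b c := by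
    rw [two_smul, ← two_mul, SA.grad, Finset.mul_sum]
    refine Finset.sum_congr rfl fun a _ => ?_
    nth_rewrite 2 [S.Da2 a]
    ring
  rw [h, smul_smul, show (3 / 2 : ℝ) * 2 = ((3 : ℕ) : ℝ) by norm_num, Nat.cast_smul_eq_nsmul,
    nsmul_eq_mul, Nat.cast_ofNat]

variable (S : DA ι R)

/-- `L_D` with `g = A b c`, then `D a` of `L_A`; `B` is symmetric and tangential, so every term
that keeps a factor `F` or `ν` in one of the slots `a`, `b`, `c` drops out. -/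
theorem B_L_DA : ∑ a, ∑ b, ∑ c, S.B a b c * S.L (S.D a (S.A b c)) =
    (3 / 2 : ℝ) • S.grad S.a2 S.a2 + 6 * S.grad S.H S.H + (S.a2 - 2 * ((S.n : R) - 2)) * S.v +
      6 * S.J1 + 2 * S.J2 := by
  have h2 : ∀ a, S.D a (2 : R) = 0 := fun a => by
    simpa using (S.D a).map_natCast 2
  have hn : ∀ a, S.D a ((S.n : R) - 2) = 0 := fun a => by
    rw [map_sub, h2, (S.D a).map_natCast, sub_zero]
  have hν : ∀ a b, S.D a (S.ν b) = -S.A a b := fun a b => by rw [SA.A, neg_neg]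
  have hfirst : ∀ a b c, ∑ d, S.A2 a d * S.D d (S.A b c) =
      ∑ d, S.A2 a d * S.B d b c + S.ν c * ∑ d, S.A2 a d * S.A2 d b +
        S.ν b * ∑ d, S.A2 a d * S.A2 d c - S.F c * ∑ d, S.A2 a d * S.A d b -
        S.F b * ∑ d, S.A2 a d * S.A d c := by
    intro a b c
    simp only [Finset.mul_sum, ← Finset.sum_add_distrib, ← Finset.sum_sub_distrib]
    refine Finset.sum_congr rfl fun d _ => ?_
    rw [S.DA_eq]
    ring
  have key : Alg3a_T S.toSA (fun a b c => S.L (S.D a (S.A b c))) =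
      Alg3a_T S.toSA (fun a b c =>
        S.D a S.a2 * S.A b c + S.D b S.a2 * S.A a c + S.D c S.a2 * S.A a b +
        2 * (S.D a S.H * S.P b c) + 2 * (S.D b S.H * S.P a c) + 2 * (S.D c S.H * S.P a b) +
        (S.a2 - 2 * ((S.n : R) - 2)) * S.B a b c +
        2 * ∑ d, S.A2 a d * S.B d b c + 2 * ∑ d, S.A2 b d * S.B a d c +
        2 * ∑ d, S.A2 c d * S.B a d b + 2 * ∑ e, S.A e c * ∑ d, S.A b d * S.B a d e) := by
    refine Alg3a_drop S.toSA (fun b c => 2 * S.Lap (S.A b c))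
      (fun b c => -2 * ∑ e, ∑ d, S.A e d * S.D e (S.D d (S.A b c)))
      (fun a c => -(S.a2 - 2 * ((S.n : R) - 2)) * S.A a c - 2 * ∑ d, S.A2 a d * S.A d c -
        2 * ∑ d, S.A2 c d * S.A a d - 2 * (S.H * S.P a c) + 2 * S.D a (S.D c S.H) +
        2 * (S.D a S.a2 * S.ν c) - 2 * (S.a2 * S.A a c) - 2 * (S.D a S.H * S.F c) -
        2 * (S.H * S.P a c))
      (fun a c => (S.a2 - 2 * ((S.n : R) - 2)) * S.A2 a c + 2 * ∑ d, S.A2 a d * S.A2 d c +
        2 * ∑ d, S.A2 c d * S.A2 a d + 2 * (S.H * S.A a c) - S.D a (S.D c S.a2) +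
        2 * (S.D a S.a2 * S.F c) + 2 * (S.a2 * S.P a c) - 2 * (S.D a S.a3 * S.ν c) +
        2 * (S.a3 * S.A a c))
      (fun a b => -(S.a2 - 2 * ((S.n : R) - 2)) * S.A a b - 2 * ∑ d, S.A2 a d * S.A d b -
        2 * ∑ d, S.A2 b d * S.A a d - 2 * (S.H * S.P a b) + 2 * S.D a (S.D b S.H) -
        2 * (S.a2 * S.A a b) - 2 * (S.H * S.P a b))
      (fun a b => (S.a2 - 2 * ((S.n : R) - 2)) * S.A2 a b + 2 * ∑ d, S.A2 a d * S.A2 d b +
        2 * ∑ d, S.A2 b d * S.A2 a d + 2 * (S.H * S.A a b) - S.D a (S.D b S.a2) +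
        2 * (S.a2 * S.P a b) + 2 * (S.a3 * S.A a b)) fun a b c => ?_
    rw [S.L_D, S.L_A, hfirst]
    simp only [map_add, map_sub, Derivation.leibniz, smul_eq_mul, h2, hn, hν, S.DF', S.DP,
      Alg3a_DA3, S.DA_eq]
    ring
  change Alg3a_T S.toSA (fun a b c => S.L (S.D a (S.A b c))) = _
  rw [key]
  simp only [Alg3a_T_add, Alg3a_T_mul]
  rw [Alg3a_T_vec1, Alg3a_T_vec2, Alg3a_T_vec3, Alg3a_T_vec1, Alg3a_T_vec2, Alg3a_T_vec3,
    Alg3a_J1a, Alg3a_J1b, Alg3a_J1c, Alg3a_J2, Alg3a_T_B, Alg3a_half]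
  simp only [Alg3a_PB, SA.grad]
  ring

end Pool.Agent.Lib.MP_de485e_gt.Conv.DA
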