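import Mathlib

/-! Extrinsic calculus of a moving hypersurface of the unit sphere, as a ring with derivations. -/

namespace Pool.Agent.Lib.MP_de485e_gt.Conv

/-- Kronecker delta. -/
def kd {ι R : Type} [DecidableEq ι] [Zero R] [One R] (a b : ι) : R := if a = b then 1 else 0

variable (ι : Type) [Fintype ι] [DecidableEq ι] (R : Type) [CommRing R] [Algebra ℝ R]

/-- Tangential derivations, position vector and tangential projector; no unit normal. -/
structure PA where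
  n : ℕ
  D : ι → Derivation ℝ R R
  F : ι → R
  P : ι → ι → R

/-- Static structure with a unit normal. -/
structure SA where
  n : ℕ
  hn : 2 ≤ n
  card : Fintype.card ι = n + 2
  D : ι → Derivation ℝ R R
  F : ι → R
  ν : ι → R
  FF : ∑ a, F a * F a = 1
  νν : ∑ a, ν a * ν a = 1
  Fν : ∑ a, F a * ν a = 0
  DF : ∀ a b, D a (F b) = kd a b - F a * F b - ν a * ν b
  FD : ∀ g, ∑ a, F a * D a g = 0
  νD : ∀ g, ∑ a, ν a * D a g = 0
  comm : ∀ a b g, D a (D b g) - D b (D a g) = ∑ d, (D a (D b (F d)) - D b (D a (F d))) * D d g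

/-- Dynamic structure: the mean curvature flow. -/
structure DA extends SA ι R where
  dt : Derivation ℝ R R
  dtF : ∀ a, dt (F a) = (∑ b, -D b (ν b)) * ν a
  commt : ∀ a g, dt (D a g) - D a (dt g) = ∑ d, (dt (D a (F d)) - D a (dt (F d))) * D d g

variable {ι R}

namespace PA

variable (S : PA ι R)

def N (c d : ι) : R := kd c d - S.F c * S.F d - S.P c d

def AA (a b c : ι) : R := ∑ d, S.N c d * S.D a (S.P b d)

def HH (c : ι) : R := ∑ a, S.AA a a c

def H2 : R := ∑ c, S.HH c ^ 2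

def a2 : R := ∑ a, ∑ b, ∑ c, S.AA a b c ^ 2

def W : R := (S.n : R) ^ 2 + S.H2

noncomputable def u : R := S.a2 - (S.n : ℝ)⁻¹ • S.H2

def BB (a b c e : ι) : R :=
  ∑ f, ∑ b', ∑ c', S.N e f * S.P b b' * S.P c c' * S.D a (S.AA b' c' f)

def v : R := ∑ a, ∑ b, ∑ c, ∑ e, S.BB a b c e ^ 2

def cc (a b : ι) : R :=
  S.H2 * (S.F a * S.F b) + S.n * (S.HH a * S.F b + S.F a * S.HH b) + (S.n : R) ^ 2 * S.N a b

def Hc (a : ι) : R := S.H2 * S.F a + S.n * S.HH a

end PA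

namespace SA

variable (S : SA ι R)

def P (a b : ι) : R := kd a b - S.F a * S.F b - S.ν a * S.ν b

def A (a b : ι) : R := -S.D a (S.ν b)

def H : R := ∑ a, S.A a a

def A2 (a b : ι) : R := ∑ d, S.A a d * S.A d b

def a2 : R := ∑ a, ∑ b, S.A a b ^ 2

def a3 : R := ∑ a, ∑ b, S.A2 a b * S.A a b

def W : R := (S.n : R) ^ 2 + S.H ^ 2

noncomputable def u : R := S.a2 - (S.n : ℝ)⁻¹ • S.H ^ 2

noncomputable def A0 (a b : ι) : R := S.A a b - (S.n : ℝ)⁻¹ • (S.H * S.P a b)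

def B (a b c : ι) : R :=
  S.D a (S.A b c) - S.ν c * S.A2 a b - S.ν b * S.A2 a c + S.F c * S.A a b + S.F b * S.A a c

def v : R := ∑ a, ∑ b, ∑ c, S.B a b c ^ 2

def q : R := ∑ d, ∑ a, ∑ b, ∑ c, S.D d (S.B a b c) ^ 2

def J1 : R := ∑ a, ∑ b, ∑ c, ∑ d, S.B a b c * S.B a b d * S.A2 d c

def J2 : R := ∑ a, ∑ b, ∑ c, ∑ d, ∑ e, S.B a b c * S.A b d * S.B a d e * S.A e c

def Lap (g : R) : R := ∑ a, S.D a (S.D a g)

def grad (g h : R) : R := ∑ a, S.D a g * S.D a h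

def c (a : ι) : R := S.H * S.F a + S.n * S.ν a

def toPA : PA ι R := ⟨S.n, S.D, S.F, S.P⟩

/-- The pinching condition with `Z = 1 / 2` at the point `ev`. -/
def Pinch (ev : R →ₐ[ℝ] ℝ) : Prop :=
  ∀ p r : ι → ℝ, ∑ a, p a * ev (S.F a) = 0 → ∑ a, p a * ev (S.ν a) = 0 →
    ∑ a, r a * ev (S.F a) = 0 → ∑ a, r a * ev (S.ν a) = 0 →
    ∑ a, p a * p a = 1 → ∑ a, r a * r a = 1 → ∑ a, p a * r a = 0 →
    (∑ a, ∑ b, p a * p b * ev (S.A a b) - ∑ a, ∑ b, r a * r b * ev (S.A a b)) ^ 2 ≤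
      2 * (1 + (∑ a, ∑ b, p a * p b * ev (S.A a b)) * ∑ a, ∑ b, r a * r b * ev (S.A a b))

end SA

namespace DA

variable (S : DA ι R)

/-- The heat operator. -/
def L (g : R) : R := S.dt g - S.Lap g

/-- First and second order conditions at a first touching point. -/
def Touch (ev : R →ₐ[ℝ] ℝ) (g : R) : Prop := (∀ a, ev (S.D a g) = 0) ∧ 0 ≤ ev (S.L g)

end DA

/-- The constant of the gradient estimate. -/
noncomputable def kap (n : ℕ) : ℝ :=
  ((n : ℝ) - 1) / (n * (n + 1)) + ((n : ℝ) - 1) / (2 * (n + 1) * (n + 2))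

end Pool.Agent.Lib.MP_de485e_gt.Conv
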