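import Pool.Agent.Lib.MP_de485e_gt.Conv.Round

/-! Finite time: uniform roundness, the limit point and the blow-up rate. -/

open Set Filter Topology Metric
open scoped RealInnerProductSpace

namespace Pool.Agent.Lib.MP_de485e_gt.Conv

variable {n : ℕ} {P Q : Type} [NormedAddCommGroup P] [InnerProductSpace ℝ P] [FiniteDimensional ℝ P]
  [NormedAddCommGroup Q] [InnerProductSpace ℝ Q] [FiniteDimensional ℝ Q]
  {M : Type} [TopologicalSpace M] [ChartedSpace P M] [T2Space M] [CompactSpace M]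
  [ConnectedSpace M] {F : ℝ → M → Q} {T : ℝ} {G : GeoData Q M}

namespace Geo

variable (h : Geo n P F (Ioo 0 T) G) (hT : 0 < T)
  (hb : ∀ C : ℝ, ∃ᶠ t in 𝓝[<] T, ∃ x, C < G.W t x)
include h hT hb

omit [T2Space M] [CompactSpace M] [ConnectedSpace M] hT hb in
private theorem CaseA1_W_pos {t : ℝ} (ht : t ∈ Ioo 0 T) (x : M) : 0 < G.W t x := by
  have h1 := h.toGeoLoc.W_ge ht x
  have h2 : (2 : ℝ) ≤ n := by exact_mod_cast h.hn
  nlinarith

omit [T2Space M] [CompactSpace M] [ConnectedSpace M] hb in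
private theorem CaseA1_small {δ : ℝ} (hδ : 0 < δ) : ∃ Λ : ℝ, 0 < Λ ∧ ∀ t ∈ Ioo 0 T, T / 2 ≤ t →
    ∀ x, Λ ≤ G.W t x → G.u t x ≤ δ * G.W t x ∧ G.v t x ≤ δ * G.W t x ^ 2 := by
  obtain ⟨K, σ, hK, hσ, hKσ⟩ := h.est2 (T / 2) ⟨by linarith, by linarith⟩
  have h1 : ∀ᶠ w : ℝ in atTop, w ^ (-σ) ≤ δ / K :=
    (tendsto_rpow_neg_atTop hσ).eventually (ge_mem_nhds (div_pos hδ hK))
  obtain ⟨Λ, hΛ⟩ := eventually_atTop.1 h1
  refine ⟨max Λ 1, lt_of_lt_of_le one_pos (le_max_right _ _), fun t ht ht2 x hx => ?_⟩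
  have hW := h.CaseA1_W_pos ht x
  have h2 := hΛ _ ((le_max_left _ _).trans hx)
  have h3 : Real.exp (-t / 2) ≤ 1 := Real.exp_le_one_iff.2 (by linarith [ht.1])
  have h4 : 0 ≤ G.W t x ^ (-σ) := Real.rpow_nonneg hW.le _
  have h5 : K * Real.exp (-t / 2) * G.W t x ^ (-σ) ≤ δ := by
    calc K * Real.exp (-t / 2) * G.W t x ^ (-σ) ≤ K * 1 * (δ / K) := by gcongr
      _ = δ := by field_simp
  obtain ⟨h6, h7⟩ := hKσ t ht ht2 x
  exact ⟨h6.trans (by gcongr), h7.trans (by gcongr)⟩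

omit [T2Space M] [CompactSpace M] hT in
private theorem CaseA1_time {t ε Λ W₀ b : ℝ} (ht : t ∈ Ioo 0 T) (hε : 0 ≤ ε)
    (hΛ : ∀ s ∈ Ioo 0 T, t ≤ s → ∀ x, Λ ≤ G.W s x → G.u s x ≤ ε * G.W s x)
    (hW : ∀ x, G.W t x < W₀) (hΛW : Λ ≤ W₀) (hbb : 2 * (ε + (n : ℝ)⁻¹) < b) :
    1 ≤ b * (T - t) * W₀ := by
  by_contra hc
  push Not at hc
  obtain ⟨x₁⟩ : Nonempty M := inferInstance
  have hW₀ : 0 < W₀ := (h.CaseA1_W_pos ht x₁).trans (hW x₁)
  have hb0 : 0 < b := lt_of_le_of_lt (by positivity) hbb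
  have hc0 : 0 < W₀⁻¹ - b * (T - t) := by
    have : b * (T - t) < W₀⁻¹ := by
      rw [← one_div, lt_div_iff₀ hW₀]; exact hc
    linarith
  have h1 : ∀ᶠ s in 𝓝[<] T, s ∈ Ioo t T := Ioo_mem_nhdsLT ht.2
  obtain ⟨s, ⟨x, hx⟩, hs⟩ := ((hb (W₀⁻¹ - b * (T - t))⁻¹).and_eventually h1).exists
  have hsJ : s ∈ Ioo 0 T := ⟨ht.1.trans hs.1, hs.2⟩
  have h2 := h.est3 t ht ε Λ W₀ b hε hΛ hW hΛW hbb s hsJ hs.1.le x
  have h3 := h.CaseA1_W_pos hsJ x
  have h4 : (W₀⁻¹ - b * (T - t)) * G.W s x ≤ (W₀⁻¹ - b * (s - t)) * G.W s x := by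
    have : b * (s - t) ≤ b * (T - t) := by have := hs.2; gcongr
    gcongr
  rw [← one_div, div_lt_iff₀ hc0] at hx
  linarith

omit h hT hb in
private theorem CaseA1_near {c : ℝ} (hc : 0 < c) : ∀ᶠ t in 𝓝[<] T, T - t < c := by
  have h1 : ∀ᶠ s in 𝓝[<] T, s ∈ Ioo (T - c) T := Ioo_mem_nhdsLT (by linarith)
  filter_upwards [h1] with s hs
  linarith [hs.1]

/-- `est2` gives `Λ` with `u ≤ ε W` where `Λ ≤ W`; if `b (T - t) < 1 / W₀` with
`W₀ > max (Λ, max W t)` then `est3` bounds `W` on `[t, T)`, against `hb`. So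
`1 ≤ b (T - t) W₀` for all such `W₀`; near `T` this excludes `max W t ≤ Λ`. -/
theorem rate_lower {ε : ℝ} (hε : 0 < ε) :
    ∀ᶠ t in 𝓝[<] T, ∃ x₀, (∀ y, G.W t y ≤ G.W t x₀) ∧
      (n : ℝ) ^ 2 / G.W t x₀ ≤ (1 + ε) * (2 * n * (T - t)) := by
  have hn : (2 : ℝ) ≤ n := by exact_mod_cast h.hn
  have hn0 : (0 : ℝ) < n := by linarith
  obtain ⟨Λ, hΛ0, hΛ⟩ := h.CaseA1_small hT (δ := ε / (2 * n)) (by positivity)
  set b : ℝ := 2 * (1 + ε) / n with hbdef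
  have hb0 : 0 < b := by positivity
  have hbb : 2 * (ε / (2 * n) + (n : ℝ)⁻¹) < b := by
    have h1 : 2 * (ε / (2 * n) + (n : ℝ)⁻¹) = (ε + 2) / n := by field_simp
    rw [h1, hbdef]
    gcongr
    linarith
  have h1 : ∀ᶠ s in 𝓝[<] T, s ∈ Ioo (T / 2) T := Ioo_mem_nhdsLT (by linarith)
  filter_upwards [h1, CaseA1_near (T := T) (c := (b * (Λ + 1))⁻¹) (by positivity)] with t ht ht2
  have htJ : t ∈ Ioo 0 T := ⟨by linarith [ht.1], ht.2⟩
  obtain ⟨x₀, -, hx₀⟩ := isCompact_univ.exists_isMaxOn univ_nonempty (h.contW t htJ).continuousOn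
  have hmax : ∀ y, G.W t y ≤ G.W t x₀ := fun y => hx₀ (mem_univ y)
  refine ⟨x₀, hmax, ?_⟩
  have key : ∀ W₀, G.W t x₀ < W₀ → Λ ≤ W₀ → 1 ≤ b * (T - t) * W₀ := fun W₀ h2 h3 =>
    h.CaseA1_time hb htJ (by positivity)
      (fun s hs hts x hx => (hΛ s hs (ht.1.le.trans hts) x hx).1)
      (fun x => (hmax x).trans_lt h2) h3 hbb
  have hTt : 0 < T - t := by linarith [ht.2]
  have hW := h.CaseA1_W_pos htJ x₀
  have h2 : Λ ≤ G.W t x₀ := by
    by_contra hc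
    push Not at hc
    have h3 := key (Λ + 1) (by linarith) (by linarith)
    rw [← one_div, lt_div_iff₀ (by positivity)] at ht2
    nlinarith
  have h3 : 1 ≤ b * (T - t) * G.W t x₀ := by
    by_contra hc
    push Not at hc
    have hz : 0 < b * (T - t) := by positivity
    have h4 : G.W t x₀ < (b * (T - t))⁻¹ := by
      rw [← one_div, lt_div_iff₀ hz]; linarith
    have h5 := key ((G.W t x₀ + (b * (T - t))⁻¹) / 2) (by linarith) (by linarith)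
    have h6 : b * (T - t) * ((G.W t x₀ + (b * (T - t))⁻¹) / 2) =
        (b * (T - t) * G.W t x₀ + 1) / 2 := by field_simp
    linarith
  rw [div_le_iff₀ hW]
  have h4 : (1 + ε) * (2 * n * (T - t)) * G.W t x₀ = (n : ℝ) ^ 2 * (b * (T - t) * G.W t x₀) := by
    rw [hbdef]; field_simp
  rw [h4]
  nlinarith [sq_nonneg (n : ℝ)]

private theorem CaseA1_large (L : ℝ) :
    ∀ᶠ t in 𝓝[<] T, ∃ x₀, (∀ y, G.W t y ≤ G.W t x₀) ∧ L ≤ G.W t x₀ := by
  have hn : (2 : ℝ) ≤ n := by exact_mod_cast h.hn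
  have h1 : ∀ᶠ s in 𝓝[<] T, s ∈ Ioo 0 T := Ioo_mem_nhdsLT hT
  have hL : 0 < max L 1 := lt_of_lt_of_le one_pos (le_max_right _ _)
  filter_upwards [h1, h.rate_lower hT hb one_pos,
    CaseA1_near (T := T) (c := (4 * max L 1)⁻¹) (by positivity)] with t ht ⟨x₀, h2, h3⟩ h4
  refine ⟨x₀, h2, (le_max_left L 1).trans ?_⟩
  have hW := h.CaseA1_W_pos ht x₀
  by_contra hc
  push Not at hc
  rw [div_le_iff₀ hW] at h3
  rw [← one_div, lt_div_iff₀ (by positivity)] at h4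
  have hTt : 0 < T - t := by linarith [ht.2]
  have h5 : (T - t) * G.W t x₀ ≤ (T - t) * max L 1 := by gcongr
  have h6 : (n : ℝ) * (4 * ((T - t) * G.W t x₀)) ≤ n * 1 := by
    gcongr
    linarith
  nlinarith

/-- `rate_lower` makes `max W` large, `est2` gives a small `η` where `W ≥ max W / 4`, `round` at
the maximum point, then pass to arbitrary pairs. -/
theorem all_round {ε : ℝ} (hε : 0 < ε) : ∀ᶠ t in 𝓝[<] T, ∀ x y,
    ε⁻¹ ≤ G.W t x ∧ G.u t x ≤ ε * G.W t x ∧ ‖G.C t y - G.C t x‖ ≤ ε * (n / √(G.W t x)) ∧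
      ‖G.m t y - G.m t x‖ ≤ ε * (n / √(G.W t x)) ∧ |G.W t x / G.W t y - 1| ≤ ε := by
  have hn : (2 : ℝ) ≤ n := by exact_mod_cast h.hn
  have hn0 : (0 : ℝ) < n := by linarith
  set η : ℝ := min (1 / (1000 * (n : ℝ) ^ 2)) (ε / (80 * (n : ℝ) ^ 2)) with hηdef
  have hη : 0 < η := lt_min (by positivity) (by positivity)
  have hη1 : 1000 * (n : ℝ) ^ 2 * η ≤ 1 := by
    have := min_le_left (1 / (1000 * (n : ℝ) ^ 2)) (ε / (80 * (n : ℝ) ^ 2))
    rw [← hηdef, le_div_iff₀ (by positivity)] at this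
    linarith
  have hη2 : 80 * (n : ℝ) ^ 2 * η ≤ ε := by
    have := min_le_right (1 / (1000 * (n : ℝ) ^ 2)) (ε / (80 * (n : ℝ) ^ 2))
    rw [← hηdef, le_div_iff₀ (by positivity)] at this
    linarith
  obtain ⟨Λ, hΛ0, hΛ⟩ := h.CaseA1_small hT (δ := min (η ^ 2) ε) (lt_min (by positivity) hε)
  have h1 : ∀ᶠ s in 𝓝[<] T, s ∈ Ioo (T / 2) T := Ioo_mem_nhdsLT (by linarith)
  filter_upwards [h1, h.CaseA1_large hT hb (max (4 * Λ) (2 * ε⁻¹))] with t ht ⟨x₀, hmax, hL⟩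
  have htJ : t ∈ Ioo 0 T := ⟨by linarith [ht.1], ht.2⟩
  have hW := h.CaseA1_W_pos htJ
  have hL1 : 4 * Λ ≤ G.W t x₀ := (le_max_left _ _).trans hL
  have hL2 : 2 * ε⁻¹ ≤ G.W t x₀ := (le_max_right _ _).trans hL
  have hs : ∀ y, G.W t x₀ / 4 ≤ G.W t y →
      G.u t y ≤ η ^ 2 * G.W t y ∧ G.v t y ≤ η ^ 2 * G.W t y ^ 2 := by
    intro y hy
    obtain ⟨h2, h3⟩ := hΛ t htJ ht.1.le y (by linarith)
    have h4 := hW y
    have h5 : min (η ^ 2) ε ≤ η ^ 2 := min_le_left _ _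
    exact ⟨h2.trans (by gcongr), h3.trans (by gcongr)⟩
  have hr := h.toGeoLoc.round htJ x₀ hη hη1 hs
  set κ : ℝ := 40 * (n : ℝ) ^ 2 * η with hκ
  have hκ0 : 0 < κ := by positivity
  have hκ1 : κ ≤ 1 := by linarith
  have hκ2 : 2 * κ ≤ ε := by linarith
  have hlow : ∀ y, G.W t x₀ ≤ (1 + κ) * G.W t y := by
    intro y
    have h2 := (abs_le.1 (hr y).2.2).2
    rw [← div_le_iff₀ (hW y)]
    linarith
  intro x y
  have hx := hW x
  have hy := hW y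
  have hhalf : G.W t x₀ ≤ 2 * G.W t x := (hlow x).trans (by gcongr; linarith)
  have hs0 : (n : ℝ) / √(G.W t x₀) ≤ n / √(G.W t x) := by
    have := Real.sqrt_pos.2 hx
    have h2 := hmax x
    gcongr
  have hs1 : 0 ≤ (n : ℝ) / √(G.W t x) := by positivity
  have hfin : κ * (n / √(G.W t x₀)) + κ * (n / √(G.W t x₀)) ≤ ε * (n / √(G.W t x)) := by
    calc κ * (n / √(G.W t x₀)) + κ * (n / √(G.W t x₀))
        ≤ κ * (n / √(G.W t x)) + κ * (n / √(G.W t x)) := by gcongr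
      _ = 2 * κ * (n / √(G.W t x)) := by ring
      _ ≤ ε * (n / √(G.W t x)) := by gcongr
  refine ⟨by linarith, ?_, ?_, ?_, ?_⟩
  · have h5 : min (η ^ 2) ε ≤ ε := min_le_right _ _
    exact (hΛ t htJ ht.1.le x (by linarith)).1.trans (by gcongr)
  · calc ‖G.C t y - G.C t x‖ ≤ ‖G.C t y - G.C t x₀‖ + ‖G.C t x - G.C t x₀‖ := by
          rw [← sub_sub_sub_cancel_right _ _ (G.C t x₀)]; exact norm_sub_le _ _
      _ ≤ _ := (add_le_add (hr y).1 (hr x).1).trans hfin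
  · calc ‖G.m t y - G.m t x‖ ≤ ‖G.m t y - G.m t x₀‖ + ‖G.m t x - G.m t x₀‖ := by
          rw [← sub_sub_sub_cancel_right _ _ (G.m t x₀)]; exact norm_sub_le _ _
      _ ≤ _ := (add_le_add (hr y).2.1 (hr x).2.1).trans hfin
  · rw [abs_le]
    constructor
    · have h2 : (1 - κ) * G.W t y ≤ G.W t x := by
        have h3 : G.W t y ≤ (1 + κ) * G.W t x := (hmax y).trans (hlow x)
        have h4 : (1 - κ) * G.W t y ≤ (1 - κ) * ((1 + κ) * G.W t x) := by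
          gcongr
        nlinarith [mul_nonneg (mul_nonneg hκ0.le hκ0.le) hx.le]
      rw [← le_div_iff₀ hy] at h2
      linarith
    · have h3 : G.W t x ≤ (1 + κ) * G.W t y := (hmax x).trans (hlow y)
      rw [← div_le_iff₀ hy] at h3
      linarith

private theorem CaseA1_close {δ : ℝ} (hδ : 0 < δ) :
    ∃ m₀ : Q, ∀ᶠ s in 𝓝[<] T, ∀ x, ‖F s x - m₀‖ ≤ δ := by
  have hn : (2 : ℝ) ≤ n := by exact_mod_cast h.hn
  have hn0 : (0 : ℝ) < n := by linarith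
  set r : ℝ := min 1 (δ / (4 * n)) with hr
  have hr0 : 0 < r := lt_min one_pos (by positivity)
  have hr1 : r ≤ 1 := min_le_left _ _
  have hr2 : 4 * n * r ≤ δ := by
    have := min_le_right 1 (δ / (4 * n))
    rw [← hr, le_div_iff₀ (by positivity)] at this
    linarith
  have h1 : ∀ᶠ s in 𝓝[<] T, s ∈ Ioo 0 T := Ioo_mem_nhdsLT hT
  obtain ⟨t, ht, hround, hnear⟩ := (h1.and ((h.all_round hT hb (ε := r ^ 2) (by positivity)).and
    (CaseA1_near (T := T) (c := δ / (2 * n)) (by positivity)))).exists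
  obtain ⟨x₀⟩ : Nonempty M := inferInstance
  have hs : ∀ y, (n : ℝ) / √(G.W t y) ≤ n * r := by
    intro y
    have h2 := (hround y y).1
    have h3 : r⁻¹ ≤ √(G.W t y) := by
      apply Real.le_sqrt_of_sq_le
      rwa [inv_pow]
    calc (n : ℝ) / √(G.W t y) ≤ n / r⁻¹ := by gcongr
      _ = n * r := by field_simp
  have hball : ∀ y, ‖F t y - G.m t x₀‖ ≤ δ / 2 := by
    intro y
    have h2 := h.toGeoLoc.norm_F_sub_m ht y
    have h3 := (hround x₀ y).2.2.2.1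
    have h4 : r ^ 2 * (n / √(G.W t x₀)) ≤ 1 * (n * r) := by
      have : r ^ 2 ≤ 1 := by nlinarith
      have := hs x₀
      gcongr
    calc ‖F t y - G.m t x₀‖ = ‖(F t y - G.m t y) + (G.m t y - G.m t x₀)‖ := by
          rw [sub_add_sub_cancel]
      _ ≤ ‖F t y - G.m t y‖ + ‖G.m t y - G.m t x₀‖ := norm_add_le _ _
      _ ≤ δ / 2 := by have := hs y; linarith
  refine ⟨G.m t x₀, ?_⟩
  have h2 : ∀ᶠ s in 𝓝[<] T, s ∈ Ioo t T := Ioo_mem_nhdsLT ht.2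
  filter_upwards [h2] with s hst x
  have hsJ : s ∈ Ioo 0 T := ⟨ht.1.trans hst.1, hst.2⟩
  set a : ℝ := Real.exp (-(n * (s - t))) with ha
  set c : Q := a • F s x - G.m t x₀ with hc
  have h3 := h.est4 t ht s hsJ hst.1.le c (⟪c, G.m t x₀⟫ + ‖c‖ * (δ / 2)) (fun y => by
    have h4 : ⟪c, F t y⟫ = ⟪c, G.m t x₀⟫ + ⟪c, F t y - G.m t x₀⟫ := by
      rw [inner_sub_right]; ring
    have h5 : ⟪c, F t y - G.m t x₀⟫ ≤ ‖c‖ * (δ / 2) :=
      (real_inner_le_norm _ _).trans (by have := hball y; gcongr)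
    linarith) x
  have h4 : ‖c‖ * ‖c‖ = a * ⟪c, F s x⟫ - ⟪c, G.m t x₀⟫ := by
    rw [← real_inner_self_eq_norm_mul_norm]
    nth_rewrite 2 [hc]
    rw [inner_sub_right, real_inner_smul_right]
  have h5 : ‖c‖ ≤ δ / 2 := by
    by_contra hcon
    push Not at hcon
    have h6 : 0 < ‖c‖ := by linarith
    have h7 : ‖c‖ * (δ / 2) < ‖c‖ * ‖c‖ := by gcongr
    linarith
  have ha1 : a ≤ 1 := Real.exp_le_one_iff.2 (by
    have : 0 ≤ (n : ℝ) * (s - t) := mul_nonneg hn0.le (by linarith [hst.1])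
    linarith)
  have ha2 : 1 - a ≤ δ / 2 := by
    have h6 := Real.add_one_le_exp (-(n * (s - t)))
    rw [lt_div_iff₀ (by positivity)] at hnear
    have h7 : (n : ℝ) * (s - t) ≤ n * (T - t) := by have := hst.2; gcongr
    linarith
  have h6 : F s x - G.m t x₀ = (1 - a) • F s x + c := by
    rw [hc, sub_smul, one_smul]; abel
  calc ‖F s x - G.m t x₀‖ = ‖(1 - a) • F s x + c‖ := by rw [h6]
    _ ≤ ‖(1 - a) • F s x‖ + ‖c‖ := norm_add_le _ _
    _ = (1 - a) + ‖c‖ := by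
        rw [norm_smul, h.sphere s hsJ x, mul_one, Real.norm_of_nonneg (by linarith)]
    _ ≤ δ := by linarith

/-- `est4` with `c = exp (-n (s - t)) F s x - m t x₀` gives
`‖exp (-n (s - t)) F s x - m t x₀‖ ≤ 3 n / √(W t x₀)`; Cauchy criterion. -/
theorem exists_limit : ∃ p : Q, ‖p‖ = 1 ∧ ∀ x, Tendsto (fun s => F s x) (𝓝[<] T) (𝓝 p) := by
  have : CompleteSpace Q := FiniteDimensional.complete ℝ Q
  obtain ⟨x₀⟩ : Nonempty M := inferInstance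
  have hcau : Cauchy (map (fun s => F s x₀) (𝓝[<] T)) := by
    rw [Metric.cauchy_iff]
    refine ⟨inferInstance, fun ε hε => ?_⟩
    obtain ⟨m₀, hm₀⟩ := h.CaseA1_close hT hb (δ := ε / 3) (by positivity)
    refine ⟨{z | ‖z - m₀‖ ≤ ε / 3}, hm₀.mono fun s hs => hs x₀, fun y hy z hz => ?_⟩
    have h1 : ‖y - m₀‖ ≤ ε / 3 := hy
    have h2 : ‖z - m₀‖ ≤ ε / 3 := hz
    calc dist y z = ‖(y - m₀) - (z - m₀)‖ := by rw [dist_eq_norm, sub_sub_sub_cancel_right]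
      _ ≤ ‖y - m₀‖ + ‖z - m₀‖ := norm_sub_le _ _
      _ < ε := by linarith
  obtain ⟨p, hp⟩ := CompleteSpace.complete hcau
  have hp' : Tendsto (fun s => F s x₀) (𝓝[<] T) (𝓝 p) := hp
  refine ⟨p, ?_, fun x => ?_⟩
  · have h1 : ∀ᶠ s in 𝓝[<] T, s ∈ Ioo 0 T := Ioo_mem_nhdsLT hT
    have h2 : Tendsto (fun s => ‖F s x₀‖) (𝓝[<] T) (𝓝 1) :=
      tendsto_const_nhds.congr' (h1.mono fun s hs => (h.sphere s hs x₀).symm)
    exact tendsto_nhds_unique hp'.norm h2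
  · rw [Metric.tendsto_nhds]
    intro ε hε
    obtain ⟨m₀, hm₀⟩ := h.CaseA1_close hT hb (δ := ε / 3) (by positivity)
    have h1 : ‖p - m₀‖ ≤ ε / 3 :=
      le_of_tendsto (hp'.sub_const m₀).norm (hm₀.mono fun s hs => hs x₀)
    filter_upwards [hm₀] with s hs
    have h2 := hs x
    calc dist (F s x) p = ‖(F s x - m₀) - (p - m₀)‖ := by
          rw [dist_eq_norm, sub_sub_sub_cancel_right]
      _ ≤ ‖F s x - m₀‖ + ‖p - m₀‖ := norm_sub_le _ _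
      _ < ε := by linarith

end Geo

end Pool.Agent.Lib.MP_de485e_gt.Conv
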