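import Pool.Agent.Lib.MP_de485e_gt.Conv.CaseA1

/-! Finite time: convergence to a round point. -/

open Set Filter Topology Metric
open scoped RealInnerProductSpace

namespace Pool.Agent.Lib.MP_de485e_gt.Conv

variable {n : ℕ} {P Q : Type} [NormedAddCommGroup P] [InnerProductSpace ℝ P] [FiniteDimensional ℝ P]
  [NormedAddCommGroup Q] [InnerProductSpace ℝ Q] [FiniteDimensional ℝ Q]
  {M : Type} [TopologicalSpace M] [ChartedSpace P M] [T2Space M] [CompactSpace M]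
  [ConnectedSpace M] {F : ℝ → M → Q} {T : ℝ} {G : GeoData Q M}

private theorem CaseA2_num {δ ρ a D : ℝ} (hδ : 0 < δ) (hδ' : δ ≤ 1 / 10) (hρ : 0 < ρ)
    (hρ' : ρ ≤ δ) (ha : 0 < a) (haρ : a ≤ (1 + δ) * ρ) (hD : 0 ≤ D)
    (h : (1 + ρ / 2) * (1 - (1 + (1 + 2 * δ) ^ 2) / 2 * a) ≤ 1 - a / 2 - D / 2) :
    D ≤ 8 * δ * a ∧ (1 - 6 * δ) * ρ ≤ a := by
  have h1 : a ≤ 11 / 10 * δ := by nlinarith
  have h2 : (1 + (1 + 2 * δ) ^ 2) / 2 ≤ 61 / 50 := by nlinarith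
  have h3 : (1 + (1 + 2 * δ) ^ 2) / 2 * a ≤ 2 * δ := by nlinarith
  have h4 : ρ * ((1 + (1 + 2 * δ) ^ 2) / 2 * a) ≤ ρ * (2 * δ) := mul_le_mul_of_nonneg_left h3 hρ.le
  have h5 : ρ * (1 - 2 * δ) + D ≤ (1 + 2 * δ) ^ 2 * a := by nlinarith
  have h6 : (1 - δ) * a ≤ ρ := by
    have : (1 - δ) * a ≤ (1 - δ) * ((1 + δ) * ρ) := mul_le_mul_of_nonneg_left haρ (by linarith)
    nlinarith [mul_pos (mul_pos hδ hδ) hρ]
  constructor
  · have : (1 - 2 * δ) * ((1 - δ) * a) ≤ (1 - 2 * δ) * ρ :=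
      mul_le_mul_of_nonneg_left h6 (by linarith)
    have h7 : δ * δ * a ≤ 1 / 10 * δ * a := by gcongr
    nlinarith [mul_pos hδ ha]
  · have h8 : (1 + 2 * δ) ^ 2 * ((1 - 6 * δ) * ρ) ≤ (1 + 2 * δ) ^ 2 * a := by
      nlinarith [mul_pos (mul_pos hδ hδ) hρ, mul_pos (mul_pos (mul_pos hδ hδ) hδ) hρ]
    exact le_of_mul_le_mul_left h8 (by positivity)

private theorem CaseA2_inner {Q : Type} [NormedAddCommGroup Q] [InnerProductSpace ℝ Q] (a b : Q) :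
    ⟪a, b⟫ = (‖a‖ ^ 2 + ‖b‖ ^ 2 - ‖a - b‖ ^ 2) / 2 := by
  rw [norm_sub_sq_real]
  ring

private theorem CaseA2_small {T : ℝ} (n : ℕ) {δ : ℝ} (hδ : 0 < δ) :
    ∀ᶠ t in 𝓝[<] T, 2 * (n : ℝ) * (T - t) ≤ δ := by
  have hc : Continuous fun t : ℝ => 2 * (n : ℝ) * (T - t) := by fun_prop
  have h1 : Tendsto (fun t : ℝ => 2 * (n : ℝ) * (T - t)) (𝓝[<] T) (𝓝 0) := by
    have := (hc.tendsto T).mono_left (nhdsWithin_le_nhds (s := Iio T))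
    simpa using this
  exact h1.eventually (ge_mem_nhds hδ)

private theorem CaseA2_s {n : ℕ} (hn : 2 ≤ n) {W : ℝ} (hW : (n : ℝ) ^ 2 ≤ W) :
    0 < W ∧ 0 < n / √W ∧ (n / √W) ^ 2 = (n : ℝ) ^ 2 / W := by
  have h1 : (0 : ℝ) < n := by exact_mod_cast (by omega : 0 < n)
  have h2 : 0 < W := lt_of_lt_of_le (by positivity) hW
  exact ⟨h2, by positivity, by rw [div_pow, Real.sq_sqrt h2.le]⟩

private theorem CaseA2_proj {Q : Type} [NormedAddCommGroup Q] [InnerProductSpace ℝ Q]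
    {e p w : Q} {a s : ℝ} (he : ‖e‖ = 1) (hp : ‖p‖ = 1) (hs : 0 ≤ s) (hs' : s ≤ 1 / 20)
    (ha : a ^ 2 = 1 - s ^ 2) (hm : ‖a • e - p‖ ≤ 1 / 40 * s) :
    ‖⟪e, w⟫ • e - ⟪p, w⟫ • p‖ ≤ s / 10 * ‖w‖ := by
  have e1 : ⟪e, w⟫ • e - ⟪p, w⟫ • p =
      ⟪a • e - p, w⟫ • (a • e) + ⟪p, w⟫ • (a • e - p) + (s ^ 2 * ⟪e, w⟫) • e := by
    have : s ^ 2 = 1 - a ^ 2 := by linarith
    rw [inner_sub_left, real_inner_smul_left, this]
    module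
  have h1 : ‖a • e‖ ≤ 1 := by
    rw [norm_smul, he, mul_one, Real.norm_eq_abs, ← sq_le_one_iff_abs_le_one]
    nlinarith [sq_nonneg s]
  have hw := norm_nonneg w
  have h2 : ‖⟪a • e - p, w⟫ • (a • e)‖ ≤ 1 / 40 * s * ‖w‖ := by
    rw [norm_smul, Real.norm_eq_abs]
    calc |⟪a • e - p, w⟫| * ‖a • e‖ ≤ ‖a • e - p‖ * ‖w‖ * 1 :=
          mul_le_mul (abs_real_inner_le_norm _ _) h1 (norm_nonneg _) (by positivity)
      _ ≤ 1 / 40 * s * ‖w‖ := by rw [mul_one]; gcongr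
  have h3 : ‖⟪p, w⟫ • (a • e - p)‖ ≤ 1 / 40 * s * ‖w‖ := by
    rw [norm_smul, Real.norm_eq_abs]
    have := abs_real_inner_le_norm p w
    rw [hp, one_mul] at this
    calc |⟪p, w⟫| * ‖a • e - p‖ ≤ ‖w‖ * (1 / 40 * s) := mul_le_mul this hm (norm_nonneg _) hw
      _ = 1 / 40 * s * ‖w‖ := by ring
  have h4 : ‖(s ^ 2 * ⟪e, w⟫) • e‖ ≤ 1 / 20 * s * ‖w‖ := by
    rw [norm_smul, he, mul_one, Real.norm_eq_abs, abs_mul, abs_of_nonneg (sq_nonneg s)]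
    have := abs_real_inner_le_norm e w
    rw [he, one_mul] at this
    calc s ^ 2 * |⟪e, w⟫| ≤ (1 / 20 * s) * ‖w‖ :=
          mul_le_mul (by nlinarith) this (abs_nonneg _) (by positivity)
      _ = 1 / 20 * s * ‖w‖ := by ring
  rw [e1]
  have h5 := norm_add₃_le (a := ⟪a • e - p, w⟫ • (a • e)) (b := ⟪p, w⟫ • (a • e - p))
    (c := (s ^ 2 * ⟪e, w⟫) • e)
  linarith

private theorem CaseA2_vec {Q : Type} [NormedAddCommGroup Q] [InnerProductSpace ℝ Q]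
    {f m p : Q} {r s δ : ℝ} (hf : ‖f‖ = 1) (hr : 0 < r) (hs : 0 < s) (hδ : 0 < δ)
    (hδ' : δ ≤ 1 / 2) (hrδ : r ≤ δ) (hfm : ‖f - m‖ = s) (hmp : ‖m - p‖ ≤ δ * s)
    (hq : |s / r - 1| ≤ δ) :
    |‖f - p‖ / r - 1| ≤ 3 * δ ∧ r ≤ 2 * s ∧
      ‖r • (f - (s ^ 2)⁻¹ • (f - m)) + r⁻¹ • (f - p)‖ ≤ 8 * δ := by
  obtain ⟨q, rfl⟩ : ∃ q, s = q * r := ⟨s / r, by field_simp⟩
  rw [mul_div_cancel_right₀ _ hr.ne', abs_le] at hq
  have hq0 : 0 < q := by linarith [hq.1]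
  refine ⟨?_, by nlinarith [hq.1], ?_⟩
  · have h1 : ‖f - p‖ ≤ ‖f - m‖ + ‖m - p‖ := norm_sub_le_norm_sub_add_norm_sub f m p
    have h2 : ‖f - m‖ ≤ ‖f - p‖ + ‖m - p‖ := by
      have := norm_sub_le_norm_sub_add_norm_sub f p m
      rwa [norm_sub_rev p m] at this
    have h3 : δ * q ≤ 2 * δ := by nlinarith [hq.2]
    rw [abs_le]
    constructor
    · rw [le_sub_iff_add_le, le_div_iff₀ hr]
      nlinarith [hq.1]
    · rw [sub_le_iff_le_add, div_le_iff₀ hr]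
      nlinarith [hq.2]
  · have e1 : r • (f - ((q * r) ^ 2)⁻¹ • (f - m)) + r⁻¹ • (f - p) =
        r • f + (r⁻¹ - r * ((q * r) ^ 2)⁻¹) • (f - m) + r⁻¹ • (m - p) := by module
    have h1 : ‖r • f‖ ≤ δ := by rw [norm_smul, hf, mul_one, Real.norm_of_nonneg hr.le]; exact hrδ
    have h2 : ‖(r⁻¹ - r * ((q * r) ^ 2)⁻¹) • (f - m)‖ ≤ 5 * δ := by
      have : (r⁻¹ - r * ((q * r) ^ 2)⁻¹) * (q * r) = (q ^ 2 - 1) / q := by field_simp
      have e2 : ∀ z : ℝ, |z| * (q * r) = |z * (q * r)| := fun z => by rw [abs_mul, abs_of_pos hs]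
      rw [norm_smul, hfm, Real.norm_eq_abs, e2, this, abs_div, abs_of_pos hq0, div_le_iff₀ hq0, abs_le]
      constructor <;> nlinarith [hq.1, hq.2]
    have h3 : ‖r⁻¹ • (m - p)‖ ≤ 2 * δ := by
      rw [norm_smul, Real.norm_of_nonneg (inv_nonneg.2 hr.le), inv_mul_le_iff₀ hr]
      have : δ * q ≤ 2 * δ := by nlinarith [hq.2]
      nlinarith
    rw [e1]
    have h4 := norm_add₃_le (a := r • f) (b := (r⁻¹ - r * ((q * r) ^ 2)⁻¹) • (f - m))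
      (c := r⁻¹ • (m - p))
    linarith

namespace Geo

variable (h : Geo n P F (Ioo 0 T) G) (hT : 0 < T)
include h hT

/-- With `s₀ ^ 2 = n ^ 2 / W t x₀`, `m₀ = m t x₀`: `2 ⟪m₀, F y⟫ = 1 + ‖m₀‖ ^ 2 - ‖F y - m₀‖ ^ 2`
is at least `2 - 2 (1 + ε') s₀ ^ 2`; `est4` with `c = -m₀` and `s → T` gives
`(1 + n (T - t)) (1 - (1 + ε') s₀ ^ 2) ≤ ⟪m₀, p⟫ = 1 - s₀ ^ 2 / 2 - ‖p - m₀‖ ^ 2 / 2`; combine with
`rate_lower` at the maximum point and transfer to all points by `all_round`. -/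
theorem centre (hb : ∀ C : ℝ, ∃ᶠ t in 𝓝[<] T, ∃ x, C < G.W t x) {p : Q} (hp : ‖p‖ = 1)
    (hl : ∀ x, Tendsto (fun s => F s x) (𝓝[<] T) (𝓝 p)) {ε : ℝ} (hε : 0 < ε) :
    ∀ᶠ t in 𝓝[<] T, ∀ x, ‖G.m t x - p‖ ≤ ε * (n / √(G.W t x)) ∧
      |n / √(G.W t x) / √(2 * n * (T - t)) - 1| ≤ ε := by
  obtain ⟨δ, hδ, hδ1, hδ2, hδ3⟩ : ∃ δ : ℝ, 0 < δ ∧ δ ≤ 1 / 10 ∧ δ ≤ ε / 6 ∧ δ ≤ ε ^ 2 / 32 :=
    ⟨min (1 / 10) (min (ε / 6) (ε ^ 2 / 32)), by positivity, min_le_left _ _,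
      (min_le_right _ _).trans (min_le_left _ _), (min_le_right _ _).trans (min_le_right _ _)⟩
  have hn : (0 : ℝ) < n := by exact_mod_cast (by have := h.hn; omega : 0 < n)
  filter_upwards [h.rate_lower hT hb hδ, h.all_round hT hb hδ, CaseA2_small (T := T) n hδ,
    Ioo_mem_nhdsLT hT] with t ⟨x₀, hmax, hrate⟩ hall hρ' ht
  have hS := fun x => CaseA2_s h.hn (h.toGeoLoc.W_ge ht x)
  have hρ : 0 < 2 * (n : ℝ) * (T - t) := by have := sub_pos.2 ht.2; positivity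
  obtain ⟨hW₀, hs₀, hs₀2⟩ := hS x₀
  set s₀ : ℝ := n / √(G.W t x₀) with hs₀def
  have hup : ∀ y, ((n : ℝ) / √(G.W t y)) ^ 2 ≤ (1 + δ) * s₀ ^ 2 := by
    intro y
    obtain ⟨hWy, -, e⟩ := hS y
    have h1 := (abs_le.1 (hall x₀ y).2.2.2.2).2
    have : (n : ℝ) ^ 2 / G.W t y = G.W t x₀ / G.W t y * ((n : ℝ) ^ 2 / G.W t x₀) := by field_simp
    rw [e, hs₀2, this]
    exact mul_le_mul_of_nonneg_right (by linarith) (by positivity)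
  have hlow : ∀ y, s₀ ≤ n / √(G.W t y) := fun y =>
    div_le_div_of_nonneg_left hn.le (Real.sqrt_pos.2 (hS y).1) (Real.sqrt_le_sqrt (hmax y))
  have hm₀ : ‖G.m t x₀‖ ^ 2 = 1 - s₀ ^ 2 := by rw [hs₀2]; exact h.toGeoLoc.norm_m_sq ht x₀
  set μ : ℝ := 1 - (1 + (1 + 2 * δ) ^ 2) / 2 * s₀ ^ 2 with hμ
  have h1 : ∀ y, ⟪-G.m t x₀, F t y⟫ ≤ -μ := by
    intro y
    have a1 : (n : ℝ) / √(G.W t y) ≤ (1 + δ) * s₀ := by
      refine le_of_sq_le_sq ?_ (by positivity)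
      have := hup y
      nlinarith [mul_pos hδ (pow_pos hs₀ 2), mul_pos (mul_pos hδ hδ) (pow_pos hs₀ 2)]
    have a2 : ‖G.m t x₀ - F t y‖ ≤ (1 + 2 * δ) * s₀ := by
      have b1 := norm_sub_le_norm_sub_add_norm_sub (G.m t x₀) (G.m t y) (F t y)
      have b2 := (hall x₀ y).2.2.2.1
      rw [norm_sub_rev] at b2
      rw [norm_sub_rev (G.m t y), h.toGeoLoc.norm_F_sub_m ht y] at b1
      linarith
    have a3 : ‖G.m t x₀ - F t y‖ ^ 2 ≤ ((1 + 2 * δ) * s₀) ^ 2 := by gcongr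
    rw [inner_neg_left, CaseA2_inner, hm₀, h.sphere t ht y, hμ]
    nlinarith
  have h2 : Real.exp (-(n * (T - t))) * ⟪-G.m t x₀, p⟫ ≤ -μ := by
    have hc : Continuous fun s : ℝ => Real.exp (-(n * (s - t))) := by fun_prop
    have hlim := ((hc.tendsto T).mono_left (nhdsWithin_le_nhds (s := Iio T))).mul
      ((tendsto_const_nhds (x := -G.m t x₀)).inner (𝕜 := ℝ) (hl x₀))
    refine le_of_tendsto hlim ?_
    filter_upwards [Ioo_mem_nhdsLT ht.2] with s hs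
    exact h.est4 t ht s ⟨ht.1.trans hs.1, hs.2⟩ hs.1.le _ _ h1 x₀
  have hrate' : s₀ ^ 2 ≤ (1 + δ) * (2 * n * (T - t)) := by rwa [hs₀2]
  have hμ0 : 0 ≤ μ := by
    have b1 : s₀ ^ 2 ≤ 11 / 100 := by nlinarith
    have b2 : (1 + (1 + 2 * δ) ^ 2) / 2 ≤ 61 / 50 := by nlinarith
    have b3 : (1 + (1 + 2 * δ) ^ 2) / 2 * s₀ ^ 2 ≤ 61 / 50 * (11 / 100) := by gcongr
    rw [hμ]
    linarith
  have h3 : (1 + 2 * (n : ℝ) * (T - t) / 2) * μ ≤ 1 - s₀ ^ 2 / 2 - ‖G.m t x₀ - p‖ ^ 2 / 2 := by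
    have b1 : μ * Real.exp (n * (T - t)) ≤ ⟪G.m t x₀, p⟫ := by
      rw [inner_neg_left, mul_neg, neg_le_neg_iff, Real.exp_neg, ← div_eq_inv_mul,
        le_div_iff₀ (Real.exp_pos _)] at h2
      exact h2
    have b2 := mul_le_mul_of_nonneg_left (Real.add_one_le_exp (n * (T - t))) hμ0
    rw [CaseA2_inner, hm₀, hp] at b1
    nlinarith
  obtain ⟨hD, hlo⟩ := CaseA2_num hδ hδ1 hρ hρ' (pow_pos hs₀ 2) hrate' (sq_nonneg _) h3
  have hd : ‖G.m t x₀ - p‖ ≤ ε / 2 * s₀ := by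
    refine le_of_sq_le_sq ?_ (by positivity)
    have : 8 * δ * s₀ ^ 2 ≤ 8 * (ε ^ 2 / 32) * s₀ ^ 2 := by gcongr
    nlinarith
  intro x
  have hr : 0 < √(2 * (n : ℝ) * (T - t)) := Real.sqrt_pos.2 hρ
  have hr2 : √(2 * (n : ℝ) * (T - t)) ^ 2 = 2 * (n : ℝ) * (T - t) := Real.sq_sqrt hρ.le
  set r : ℝ := √(2 * (n : ℝ) * (T - t)) with hrdef
  have hx := hlow x
  constructor
  · have b1 := norm_sub_le_norm_sub_add_norm_sub (G.m t x) (G.m t x₀) p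
    have b2 := (hall x₀ x).2.2.2.1
    have b3 : δ * s₀ ≤ ε / 2 * s₀ := by gcongr; linarith
    have b4 : ε * s₀ ≤ ε * (n / √(G.W t x)) := by gcongr
    linarith
  · have b1 : (n : ℝ) / √(G.W t x) ≤ (1 + δ) * r := by
      refine le_of_sq_le_sq ?_ (by positivity)
      have := mul_le_mul_of_nonneg_left hrate' (by positivity : 0 ≤ 1 + δ)
      have := hup x
      rw [mul_pow (1 + δ), hr2]
      nlinarith
    have b2 : (1 - 6 * δ) * r ≤ s₀ := by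
      refine le_of_sq_le_sq ?_ hs₀.le
      rw [mul_pow, hr2]
      have : (1 - 6 * δ) ^ 2 ≤ 1 - 6 * δ := by nlinarith
      nlinarith
    rw [abs_le]
    constructor
    · rw [le_sub_iff_add_le, le_div_iff₀ hr]
      nlinarith
    · rw [sub_le_iff_le_add, div_le_iff₀ hr]
      nlinarith

/-- `H ν / n = F - (F - m) / s ^ 2`, `‖F - m‖ = s`, `C = e e^T` with `m = a e`, `a ^ 2 = 1 - s ^ 2`. -/
theorem round_point
    (hb : ∀ C : ℝ, ∃ᶠ t in 𝓝[<] T, ∃ x ξ, C * ‖dF P (F t) x ξ‖ ^ 2 < ‖sff P (F t) x ξ ξ‖) :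
    ∃ p : Q, ‖p‖ = 1 ∧
      (∀ ε : ℝ, 0 < ε → ∀ᶠ t in 𝓝[<] T, ∀ x,
        |‖F t x - p‖ / √(2 * n * (T - t)) - 1| ≤ ε ∧ ∀ ξ ζ,
          ‖√(2 * n * (T - t)) • sff P (F t) x ξ ζ +
              (⟪dF P (F t) x ξ, dF P (F t) x ζ⟫ / √(2 * n * (T - t))) • (F t x - p)‖ ≤
            ε * ‖dF P (F t) x ξ‖ * ‖dF P (F t) x ζ‖) ∧
      ∀ᶠ t in 𝓝[<] T, RadialBij p (F t) := by
  have hn : (0 : ℝ) < n := by exact_mod_cast (by have := h.hn; omega : 0 < n)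
  have hb' : ∀ C : ℝ, ∃ᶠ t in 𝓝[<] T, ∃ x, C < G.W t x := by
    intro C
    refine ((hb (2 * √C)).and_eventually (Ioo_mem_nhdsLT hT)).mono ?_
    rintro t ⟨⟨x, ξ, hx⟩, ht⟩
    have h1 := hx.trans_le (h.toGeoLoc.sff_le_W ht x ξ)
    have h2 := lt_of_mul_lt_mul_right h1 (sq_nonneg _)
    exact ⟨x, lt_of_not_ge fun hC => by linarith [Real.sqrt_le_sqrt hC]⟩
  obtain ⟨p, hp, hl⟩ := h.exists_limit hT hb'
  refine ⟨p, hp, fun ε hε => ?_, ?_⟩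
  · obtain ⟨δ, hδ, hδ1, hδ2⟩ : ∃ δ : ℝ, 0 < δ ∧ δ ≤ 1 / 2 ∧ δ ≤ ε / (2 * n + 8) :=
      ⟨min (1 / 2) (ε / (2 * n + 8)), by positivity, min_le_left _ _, min_le_right _ _⟩
    rw [le_div_iff₀ (by positivity)] at hδ2
    filter_upwards [h.centre hT hb' hp hl hδ, h.all_round hT hb' (pow_pos hδ 2),
      CaseA2_small (T := T) n (pow_pos hδ 2), Ioo_mem_nhdsLT hT] with t hc hall hρ' ht x
    have hρ : 0 < 2 * (n : ℝ) * (T - t) := by have := sub_pos.2 ht.2; positivity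
    have hr : 0 < √(2 * (n : ℝ) * (T - t)) := Real.sqrt_pos.2 hρ
    have hrδ : √(2 * (n : ℝ) * (T - t)) ≤ δ := Real.sqrt_le_iff.2 ⟨hδ.le, hρ'⟩
    set r : ℝ := √(2 * (n : ℝ) * (T - t)) with hrdef
    obtain ⟨hW, hs, hs2⟩ := CaseA2_s h.hn (h.toGeoLoc.W_ge ht x)
    obtain ⟨v1, v2, v3⟩ := CaseA2_vec (h.sphere t ht x) hr hs hδ hδ1 hrδ
      (h.toGeoLoc.norm_F_sub_m ht x) (hc x).1 (hc x).2
    refine ⟨v1.trans (by nlinarith), fun ξ ζ => ?_⟩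
    obtain ⟨ν, H, hpt⟩ := h.pt t ht x
    have hν : F t x - (((n : ℝ) / √(G.W t x)) ^ 2)⁻¹ • (F t x - G.m t x) = (H / n) • ν := by
      have hWe := hpt.W_eq
      have c1 : (1 : ℝ) - ((n : ℝ) ^ 2 / G.W t x)⁻¹ * (1 - (G.W t x)⁻¹ * H * H) = 0 := by
        field_simp
        rw [hWe]
        ring
      have c2 : ((n : ℝ) ^ 2 / G.W t x)⁻¹ * ((G.W t x)⁻¹ * H * n) = H / n := by field_simp
      rw [hs2, hpt.m_eq, ← c2]
      have : F t x - ((n : ℝ) ^ 2 / G.W t x)⁻¹ •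
          (F t x - ((G.W t x)⁻¹ * H) • (H • F t x + (n : ℝ) • ν)) =
          (1 - ((n : ℝ) ^ 2 / G.W t x)⁻¹ * (1 - (G.W t x)⁻¹ * H * H)) • F t x +
            (((n : ℝ) ^ 2 / G.W t x)⁻¹ * ((G.W t x)⁻¹ * H * n)) • ν := by module
      rw [this, c1, zero_smul, zero_add]
    rw [hν] at v3
    have hE := hpt.sff_le ξ ζ
    set g : ℝ := ⟪dF P (F t) x ξ, dF P (F t) x ζ⟫ with hg
    have hgle : |g| ≤ ‖dF P (F t) x ξ‖ * ‖dF P (F t) x ζ‖ := abs_real_inner_le_norm _ _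
    have e1 : r • sff P (F t) x ξ ζ + (g / r) • (F t x - p) =
        r • (sff P (F t) x ξ ζ - (H / n * g) • ν) +
          g • (r • (H / n) • ν + r⁻¹ • (F t x - p)) := by
      rw [div_eq_mul_inv g r]
      module
    have hsq : 0 < √(G.W t x) := Real.sqrt_pos.2 hW
    have hu : √(G.u t x) ≤ δ * √(G.W t x) := by
      refine Real.sqrt_le_iff.2 ⟨by positivity, ?_⟩
      rw [mul_pow, Real.sq_sqrt hW.le]
      exact (hall x x).2.1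
    have hru : r * √(G.u t x) ≤ 2 * n * δ := by
      calc r * √(G.u t x) ≤ 2 * (n / √(G.W t x)) * (δ * √(G.W t x)) := by gcongr
        _ = 2 * n * δ := by field_simp
    have hN : 0 ≤ ‖dF P (F t) x ξ‖ * ‖dF P (F t) x ζ‖ := by positivity
    have n1 : ‖r • (sff P (F t) x ξ ζ - (H / n * g) • ν)‖ ≤
        2 * n * δ * (‖dF P (F t) x ξ‖ * ‖dF P (F t) x ζ‖) := by
      rw [norm_smul, Real.norm_of_nonneg hr.le]
      calc r * ‖sff P (F t) x ξ ζ - (H / n * g) • ν‖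
          ≤ r * (√(G.u t x) * ‖dF P (F t) x ξ‖ * ‖dF P (F t) x ζ‖) := by gcongr
        _ = r * √(G.u t x) * (‖dF P (F t) x ξ‖ * ‖dF P (F t) x ζ‖) := by ring
        _ ≤ _ := by gcongr
    have n2 : ‖g • (r • (H / n) • ν + r⁻¹ • (F t x - p))‖ ≤
        (‖dF P (F t) x ξ‖ * ‖dF P (F t) x ζ‖) * (8 * δ) := by
      rw [norm_smul, Real.norm_eq_abs]
      exact mul_le_mul hgle v3 (norm_nonneg _) hN
    rw [e1]
    refine (norm_add_le _ _).trans ?_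
    have := mul_le_mul_of_nonneg_right hδ2 hN
    nlinarith
  · have hδ : (0 : ℝ) < 1 / 40 := by norm_num
    filter_upwards [h.centre hT hb' hp hl hδ, CaseA2_small (T := T) n (pow_pos hδ 2),
      Ioo_mem_nhdsLT hT] with t hc hρ' ht
    have hρ : 0 < 2 * (n : ℝ) * (T - t) := by have := sub_pos.2 ht.2; positivity
    have hr : 0 < √(2 * (n : ℝ) * (T - t)) := Real.sqrt_pos.2 hρ
    have hrδ : √(2 * (n : ℝ) * (T - t)) ≤ 1 / 40 := Real.sqrt_le_iff.2 ⟨hδ.le, hρ'⟩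
    refine h.toGeoLoc.radial ht hp fun x w => ?_
    obtain ⟨-, hs, hs2⟩ := CaseA2_s h.hn (h.toGeoLoc.W_ge ht x)
    obtain ⟨e, a, he, hCe, hm, ha⟩ := h.toGeoLoc.exists_centre ht x
    have b1 := (abs_le.1 (hc x).2).2
    rw [sub_le_iff_le_add, div_le_iff₀ hr] at b1
    have b2 := (hc x).1
    rw [hm] at b2
    rw [hCe]
    exact CaseA2_proj he hp hs.le (by nlinarith) (by rw [hs2]; exact ha) b2

end Geo

end Pool.Agent.Lib.MP_de485e_gt.Conv
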