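import Pool.Agent.Lib.MP_de485e_gt.Conv.Round

/-! Infinite time: convergence to a totally geodesic sphere. -/

open Set Filter Topology Metric
open scoped RealInnerProductSpace

namespace Pool.Agent.Lib.MP_de485e_gt.Conv

variable {n : ℕ} {P Q : Type} [NormedAddCommGroup P] [InnerProductSpace ℝ P] [FiniteDimensional ℝ P]
  [NormedAddCommGroup Q] [InnerProductSpace ℝ Q] [FiniteDimensional ℝ Q]
  {M : Type} [TopologicalSpace M] [ChartedSpace P M] [T2Space M] [CompactSpace M]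
  [ConnectedSpace M] {F : ℝ → M → Q} {G : GeoData Q M}

theorem CaseB_small (B : ℝ) {ε : ℝ} (hε : 0 < ε) :
    ∀ᶠ t : ℝ in atTop, B * Real.exp (-t / 8) < ε := by
  have h1 : Tendsto (fun t : ℝ => Real.exp (-t / 8)) atTop (𝓝 0) :=
    Real.tendsto_exp_atBot.comp (tendsto_neg_atTop_atBot.atBot_div_const (by norm_num))
  have h2 := h1.const_mul B
  rw [mul_zero] at h2
  exact h2.eventually (gt_mem_nhds hε)

theorem CaseB_zero {a B t₀ : ℝ} (h : ∀ t, t₀ ≤ t → a ≤ B * Real.exp (-t / 8)) : a ≤ 0 := by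
  by_contra hc
  obtain ⟨t, h1, h2⟩ := ((CaseB_small B (not_le.1 hc)).and (eventually_ge_atTop t₀)).exists
  exact absurd (h t h2) (not_le.2 h1)

theorem CaseB_limit {X : Type*} [NormedAddCommGroup X] [NormedSpace ℝ X] [CompleteSpace X]
    (f : ℝ → X) {A t₀ : ℝ} (hA : 0 ≤ A)
    (hf : ∀ t, t₀ ≤ t → ∃ f', HasDerivAt f f' t ∧ ‖f'‖ ≤ A * Real.exp (-t / 8)) :
    ∃ l, ∀ s, t₀ ≤ s → ‖l - f s‖ ≤ 8 * A * Real.exp (-s / 8) := by
  choose! f' hf' using hf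
  have key : ∀ s, t₀ ≤ s → ∀ t, s ≤ t → ‖f t - f s‖ ≤ 8 * A * Real.exp (-s / 8) := by
    intro s hs t hst
    have hB : ∀ x : ℝ, HasDerivAt
        (fun τ : ℝ => 8 * A * (Real.exp (-s / 8) - Real.exp (-τ / 8))) (A * Real.exp (-x / 8)) x := by
      intro x
      have h1 : HasDerivAt (fun τ : ℝ => -τ / 8) (-1 / 8) x := (hasDerivAt_neg' x).div_const 8
      have h2 := (h1.exp.const_sub (Real.exp (-s / 8))).const_mul (8 * A)
      exact h2.congr_deriv (by ring)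
    have h3 := image_norm_le_of_norm_deriv_right_le_deriv_boundary
      (f := fun τ => f τ - f s) (f' := f') (a := s) (b := t)
      (fun x hx => ((hf' x (hs.trans hx.1)).1.sub_const (f s)).continuousAt.continuousWithinAt)
      (fun x hx => ((hf' x (hs.trans hx.1)).1.sub_const (f s)).hasDerivWithinAt)
      (by simp) hB (fun x hx => (hf' x (hs.trans hx.1)).2) ⟨hst, le_rfl⟩
    refine h3.trans (mul_le_mul_of_nonneg_left ?_ (by positivity))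
    linarith [Real.exp_pos (-t / 8)]
  have hc : CauchySeq f := by
    refine Metric.cauchySeq_iff'.2 fun ε hε => ?_
    obtain ⟨s, h1, h2⟩ := ((CaseB_small (8 * A) hε).and (eventually_ge_atTop t₀)).exists
    exact ⟨s, fun t ht => by rw [dist_eq_norm]; exact (key s h2 t ht).trans_lt h1⟩
  obtain ⟨l, hl⟩ := cauchySeq_tendsto_of_complete hc
  refine ⟨l, fun s hs => ?_⟩
  exact le_of_tendsto (hl.sub_const (f s)).norm
    ((eventually_ge_atTop s).mono fun t ht => key s hs t ht)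

theorem CaseB_proj {Q : Type*} [NormedAddCommGroup Q] [InnerProductSpace ℝ Q]
    [FiniteDimensional ℝ Q] (N : ℝ → Q →L[ℝ] Q) (L : Q →L[ℝ] Q) {B t₀ : ℝ}
    (hN : ∀ t, t₀ ≤ t → ∃ ν : Q, ‖ν‖ = 1 ∧ ∀ w, N t w = ⟪ν, w⟫ • ν)
    (hL : ∀ t, t₀ ≤ t → ‖L - N t‖ ≤ B * Real.exp (-t / 8)) :
    ∃ e : Q, ‖e‖ = 1 ∧ ∀ w, L w = ⟪e, w⟫ • e := by
  have hk : ∀ k : ℕ, t₀ ≤ t₀ + k := fun k => le_add_of_nonneg_right (Nat.cast_nonneg k)
  choose ν h1 h2 using fun k : ℕ => hN (t₀ + k) (hk k)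
  obtain ⟨e, he, φ, hφ, hl⟩ := (isCompact_sphere (0 : Q) 1).tendsto_subseq (x := ν)
    (fun k => mem_sphere_zero_iff_norm.2 (h1 k))
  refine ⟨e, mem_sphere_zero_iff_norm.1 he, fun w => ?_⟩
  have t1 : Tendsto (fun k => ⟪ν (φ k), w⟫ • ν (φ k)) atTop (𝓝 (⟪e, w⟫ • e)) :=
    (Tendsto.inner hl tendsto_const_nhds).smul hl
  have t2 : Tendsto (fun k : ℕ => t₀ + (φ k : ℝ)) atTop atTop :=
    tendsto_atTop_add_const_left _ _ (tendsto_natCast_atTop_atTop.comp hφ.tendsto_atTop)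
  have t3 : Tendsto (fun k => ⟪ν (φ k), w⟫ • ν (φ k)) atTop (𝓝 (L w)) := by
    refine Metric.tendsto_nhds.2 fun ε hε => ?_
    filter_upwards [t2.eventually (CaseB_small (B * ‖w‖) hε)] with k hk'
    rw [dist_comm, dist_eq_norm, ← h2, ← sub_apply]
    refine ((L - N _).le_opNorm w).trans_lt (lt_of_le_of_lt ?_ hk')
    calc _ ≤ B * Real.exp (-(t₀ + (φ k : ℝ)) / 8) * ‖w‖ :=
          mul_le_mul_of_nonneg_right (hL _ (hk _)) (norm_nonneg w)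
      _ = _ := by ring
  exact tendsto_nhds_unique t3 t1

omit [FiniteDimensional ℝ P] [T2Space M] [CompactSpace M] [ConnectedSpace M] in
theorem CaseB_CN {t H : ℝ} {x : M} {ν : Q} (hn : 2 ≤ n) (hF : ‖F t x‖ = 1)
    (d : PtData n P F G t x ν H) : ‖G.C t x - G.N t x‖ ≤ 2 * |H| := by
  have hn' : (2 : ℝ) ≤ n := by exact_mod_cast hn
  have hW : 0 < G.W t x := by rw [d.W_eq]; positivity
  refine ContinuousLinearMap.opNorm_le_bound _ (by positivity) fun w => ?_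
  have ha : |⟪F t x, w⟫| ≤ ‖w‖ := by simpa [hF] using abs_real_inner_le_norm (F t x) w
  have hb : |⟪ν, w⟫| ≤ ‖w‖ := by simpa [d.unit] using abs_real_inner_le_norm ν w
  have e : (G.C t x - G.N t x) w =
      ((G.W t x)⁻¹ * (H * (H * ⟪F t x, w⟫ + n * ⟪ν, w⟫))) • F t x +
        ((G.W t x)⁻¹ * (H * (n * ⟪F t x, w⟫ - H * ⟪ν, w⟫))) • ν := by
    rw [sub_apply, d.C_eq, d.N_eq, inner_add_left, real_inner_smul_left,
      real_inner_smul_left, smul_add, smul_smul, smul_smul, add_sub_assoc, ← sub_smul]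
    congr 2
    · ring
    · field_simp
      rw [d.W_eq]
      ring
  have hle : |H| + n ≤ G.W t x := by
    rw [d.W_eq, ← sq_abs H]
    nlinarith [sq_nonneg (|H| - 1 / 2)]
  have k : ∀ z : ℝ, |z| ≤ (|H| + n) * ‖w‖ → |(G.W t x)⁻¹ * (H * z)| ≤ |H| * ‖w‖ := by
    intro z hz
    rw [abs_mul, abs_mul, abs_of_pos (inv_pos.2 hW), inv_mul_le_iff₀ hW]
    calc |H| * |z| ≤ |H| * (G.W t x * ‖w‖) := mul_le_mul_of_nonneg_left
          (hz.trans (mul_le_mul_of_nonneg_right hle (norm_nonneg w))) (abs_nonneg H)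
      _ = _ := by ring
  have a1 : |H * ⟪F t x, w⟫| ≤ |H| * ‖w‖ := by
    rw [abs_mul]; exact mul_le_mul_of_nonneg_left ha (abs_nonneg H)
  have a2 : |H * ⟪ν, w⟫| ≤ |H| * ‖w‖ := by
    rw [abs_mul]; exact mul_le_mul_of_nonneg_left hb (abs_nonneg H)
  have a3 : |(n : ℝ) * ⟪F t x, w⟫| ≤ n * ‖w‖ := by
    rw [abs_mul, Nat.abs_cast]; exact mul_le_mul_of_nonneg_left ha (Nat.cast_nonneg n)
  have a4 : |(n : ℝ) * ⟪ν, w⟫| ≤ n * ‖w‖ := by
    rw [abs_mul, Nat.abs_cast]; exact mul_le_mul_of_nonneg_left hb (Nat.cast_nonneg n)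
  have b1 := k _ ((abs_add_le (H * ⟪F t x, w⟫) (n * ⟪ν, w⟫)).trans (by linarith))
  have b2 := k _ ((abs_sub (n * ⟪F t x, w⟫) (H * ⟪ν, w⟫)).trans (by linarith))
  rw [e]
  refine (norm_add_le _ _).trans ?_
  rw [norm_smul, norm_smul, hF, d.unit, Real.norm_eq_abs, Real.norm_eq_abs]
  linarith

namespace Geo

variable (h : Geo n P F (Ioi 0) G)
include h

omit [FiniteDimensional ℝ P] [T2Space M] in
/-- If `⟪c, F t y⟫ ≥ μ > 0` for all `y` (compactness), `est4` with `-c` gives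
`μ exp (n (s - t)) ≤ ‖c‖` for all `s`. -/
theorem no_hemisphere {t : ℝ} (ht : 0 < t) (c : Q) : ∃ y, ⟪c, F t y⟫ ≤ 0 := by
  by_contra hc
  push Not at hc
  have hcont : Continuous fun y => ⟪c, F t y⟫ := continuous_const.inner (h.contF t ht)
  obtain ⟨y₀, -, hy₀⟩ := isCompact_univ.exists_isMinOn univ_nonempty hcont.continuousOn
  have hn : (2 : ℝ) ≤ n := by exact_mod_cast h.hn
  refine absurd (CaseB_zero (B := Real.exp (t / 8) * ‖c‖) (t₀ := t) fun s hs => ?_)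
    (not_le.2 (hc y₀))
  have h1 := h.est4 t ht s (ht.trans_le hs) hs (-c) (-⟪c, F t y₀⟫)
    (fun y => by rw [inner_neg_left]; exact neg_le_neg (hy₀ (mem_univ y))) y₀
  rw [inner_neg_left, mul_neg, neg_le_neg_iff] at h1
  have h2 : ⟪c, F s y₀⟫ ≤ ‖c‖ := by
    simpa [h.sphere s (ht.trans_le hs) y₀] using real_inner_le_norm c (F s y₀)
  have h3 : Real.exp (-(n * (s - t))) ≤ Real.exp (t / 8) * Real.exp (-s / 8) := by
    rw [← Real.exp_add]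
    refine Real.exp_le_exp.2 ?_
    nlinarith
  calc ⟪c, F t y₀⟫ ≤ Real.exp (-(n * (s - t))) * ‖c‖ :=
        h1.trans (mul_le_mul_of_nonneg_left h2 (Real.exp_pos _).le)
    _ ≤ Real.exp (t / 8) * Real.exp (-s / 8) * ‖c‖ :=
        mul_le_mul_of_nonneg_right h3 (norm_nonneg c)
    _ = _ := by ring

/-- The estimates at one time in terms of `η`. -/
theorem CaseB_eta {t η : ℝ} (ht : 0 < t) (hη : 0 < η) (hη' : 1000 * (n : ℝ) ^ 2 * η ≤ 1)
    (hs : ∀ y, G.u t y ≤ η ^ 2 * G.W t y ∧ G.v t y ≤ η ^ 2 * G.W t y ^ 2) (x y : M) :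
    G.W t x - (n : ℝ) ^ 2 ≤ 120 * (n : ℝ) ^ 4 * η ∧ G.u t x ≤ 120 * (n : ℝ) ^ 4 * η ∧
      G.v t x ≤ 120 * (n : ℝ) ^ 4 * η ∧ ‖G.C t y - G.C t x‖ ≤ 120 * (n : ℝ) ^ 4 * η := by
  have hn : (2 : ℝ) ≤ n := by exact_mod_cast h.hn
  have hN : (4 : ℝ) ≤ (n : ℝ) ^ 2 := by nlinarith
  have hl := h.toGeoLoc
  have hW := hl.W_ge ht
  have hW0 : ∀ z, 0 < G.W t z := fun z => lt_of_lt_of_le (by linarith) (hW z)
  have hr := hl.round ht x hη hη' fun z _ => hs z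
  have hq : n / √(G.W t x) ≤ 1 := by
    rw [div_le_one (Real.sqrt_pos.2 (hW0 x))]
    exact Real.le_sqrt_of_sq_le (hW x)
  obtain ⟨δ, hδ⟩ : ∃ δ, δ = 40 * (n : ℝ) ^ 2 * η := ⟨_, rfl⟩
  rw [← hδ] at hr
  have hδ0 : 0 < δ := by rw [hδ]; positivity
  have hδ1 : δ ≤ 1 / 25 := by rw [hδ]; linarith
  have hδq : δ * (n / √(G.W t x)) ≤ δ := mul_le_of_le_one_right hδ0.le hq
  obtain ⟨z, hz⟩ := h.no_hemisphere ht (G.m t x)
  obtain ⟨-, r2, r3⟩ := hr z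
  have a1 : 1 - (n : ℝ) ^ 2 / G.W t z ≤ δ := by
    rw [← hl.inner_m_F ht z]
    have e : ⟪G.m t z, F t z⟫ = ⟪G.m t z - G.m t x, F t z⟫ + ⟪G.m t x, F t z⟫ := by
      rw [inner_sub_left]; ring
    have := real_inner_le_norm (G.m t z - G.m t x) (F t z)
    rw [hl.sphere t ht z, mul_one] at this
    linarith
  have a2 : (1 - δ) * G.W t z ≤ (n : ℝ) ^ 2 := by
    rw [← le_div_iff₀ (hW0 z)]; linarith
  have a3 : G.W t x ≤ (1 + δ) * G.W t z := by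
    rw [← div_le_iff₀ (hW0 z)]; linarith [(abs_le.1 r3).2]
  have a4 : (1 - δ) * G.W t x ≤ (1 + δ) * (n : ℝ) ^ 2 := by
    calc (1 - δ) * G.W t x ≤ (1 - δ) * ((1 + δ) * G.W t z) :=
          mul_le_mul_of_nonneg_left a3 (by linarith)
      _ = (1 + δ) * ((1 - δ) * G.W t z) := by ring
      _ ≤ _ := mul_le_mul_of_nonneg_left a2 (by linarith)
  have a5 : G.W t x ≤ 2 * (n : ℝ) ^ 2 := by nlinarith [hW0 x]
  have hη1 : η ≤ 1 := by nlinarith
  have hη2 : η ^ 2 ≤ η := by nlinarith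
  have e4 : (n : ℝ) ^ 4 = (n : ℝ) ^ 2 * (n : ℝ) ^ 2 := by ring
  have p4 : (n : ℝ) ^ 2 ≤ (n : ℝ) ^ 4 := by rw [e4]; nlinarith
  have p5 : (n : ℝ) ^ 2 * η ≤ (n : ℝ) ^ 4 * η := mul_le_mul_of_nonneg_right p4 hη.le
  have p6 : 0 ≤ (n : ℝ) ^ 4 * η := by positivity
  refine ⟨?_, ?_, ?_, ?_⟩
  · have : G.W t x - (n : ℝ) ^ 2 ≤ δ * (3 * (n : ℝ) ^ 2) := by nlinarith
    refine this.trans (le_of_eq ?_)
    rw [hδ]; ring
  · have : η ^ 2 * G.W t x ≤ η * (2 * (n : ℝ) ^ 2) := mul_le_mul hη2 a5 (hW0 x).le hη.le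
    linarith [(hs x).1]
  · have b : G.W t x ^ 2 ≤ (2 * (n : ℝ) ^ 2) ^ 2 := pow_le_pow_left₀ (hW0 x).le a5 2
    have : η ^ 2 * G.W t x ^ 2 ≤ η * (2 * (n : ℝ) ^ 2) ^ 2 :=
      mul_le_mul hη2 b (sq_nonneg _) hη.le
    have e : η * (2 * (n : ℝ) ^ 2) ^ 2 = 4 * ((n : ℝ) ^ 4 * η) := by ring
    linarith [(hs x).2]
  · have := (hr y).1.trans hδq
    rw [hδ] at this
    linarith

/-- `est2` with `W ^ (-σ) ≤ 1` gives `η = √K exp (-t / 4)`; `round` at every base point `x₀` and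
`no_hemisphere` for `c = m t x₀` give `1 - n ^ 2 / W ≤ C η`. -/
theorem decay : ∃ K t₀ : ℝ, 0 < K ∧ 0 < t₀ ∧ ∀ t, t₀ ≤ t → ∀ x y,
    G.W t x - (n : ℝ) ^ 2 ≤ (K * Real.exp (-t / 8)) ^ 2 ∧ G.u t x ≤ (K * Real.exp (-t / 8)) ^ 2 ∧
      G.v t x ≤ (K * Real.exp (-t / 8)) ^ 2 ∧ ‖G.C t y - G.C t x‖ ≤ K * Real.exp (-t / 8) ∧
      ‖G.C t x - G.N t x‖ ≤ K * Real.exp (-t / 8) := by
  obtain ⟨K, σ, hK, hσ, hE⟩ := h.est2 1 (mem_Ioi.2 one_pos)
  have hn : (2 : ℝ) ≤ n := by exact_mod_cast h.hn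
  have hl := h.toGeoLoc
  obtain ⟨t₁, ht₁⟩ := eventually_atTop.1 (CaseB_small (1000 * (n : ℝ) ^ 2 * √K) one_pos)
  obtain ⟨L, hL⟩ : ∃ L, L = 120 * (n : ℝ) ^ 4 * √K := ⟨_, rfl⟩
  have hsK : 0 < √K := Real.sqrt_pos.2 hK
  have hL0 : 0 < L := by rw [hL]; positivity
  refine ⟨2 * (L + 1), max 1 t₁, by positivity, lt_max_of_lt_left one_pos, fun t ht x y => ?_⟩
  have h1 : 1 ≤ t := (le_max_left _ _).trans ht
  have ht0 : 0 < t := by linarith
  obtain ⟨E, hEe⟩ : ∃ E, E = Real.exp (-t / 8) := ⟨_, rfl⟩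
  have hE0 : 0 < E := by rw [hEe]; exact Real.exp_pos _
  have hE1 : E ≤ 1 := by rw [hEe]; exact Real.exp_le_one_iff.2 (by linarith)
  have hE2 : E ^ 2 ≤ E := by nlinarith
  have hsm := ht₁ t ((le_max_right _ _).trans ht)
  rw [← hEe] at hsm ⊢
  have e4 : (√K * E ^ 2) ^ 2 = K * Real.exp (-t / 2) := by
    rw [mul_pow, Real.sq_sqrt hK.le, ← pow_mul, hEe, ← Real.exp_nat_mul]
    congr 2
    push_cast
    ring
  have hs : ∀ z, G.u t z ≤ (√K * E ^ 2) ^ 2 * G.W t z ∧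
      G.v t z ≤ (√K * E ^ 2) ^ 2 * G.W t z ^ 2 := by
    intro z
    have hW : 1 ≤ G.W t z := le_trans (by nlinarith) (hl.W_ge ht0 z)
    have hp : G.W t z ^ (-σ) ≤ 1 := Real.rpow_le_one_of_one_le_of_nonpos hW (by linarith)
    have hm : K * Real.exp (-t / 2) * G.W t z ^ (-σ) ≤ K * Real.exp (-t / 2) :=
      mul_le_of_le_one_right (by positivity) hp
    obtain ⟨b1, b2⟩ := hE t ht0 h1 z
    rw [e4]
    exact ⟨b1.trans (mul_le_mul_of_nonneg_right hm (by linarith)),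
      b2.trans (mul_le_mul_of_nonneg_right hm (sq_nonneg _))⟩
  have hη' : 1000 * (n : ℝ) ^ 2 * (√K * E ^ 2) ≤ 1 := by
    have : 1000 * (n : ℝ) ^ 2 * √K * E ^ 2 ≤ 1000 * (n : ℝ) ^ 2 * √K * E :=
      mul_le_mul_of_nonneg_left hE2 (by positivity)
    linarith
  obtain ⟨c1, c2, c3, c4⟩ := h.CaseB_eta ht0 (by positivity) hη' hs x y
  have e5 : 120 * (n : ℝ) ^ 4 * (√K * E ^ 2) = L * E ^ 2 := by rw [hL]; ring
  rw [e5] at c1 c2 c3 c4
  have d1 : L * E ^ 2 ≤ ((L + 1) * E) ^ 2 := by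
    rw [mul_pow]
    exact mul_le_mul_of_nonneg_right (by nlinarith) (sq_nonneg E)
  have d0 : 0 ≤ (L + 1) * E := by positivity
  have d2 : ((L + 1) * E) ^ 2 ≤ (2 * (L + 1) * E) ^ 2 :=
    pow_le_pow_left₀ d0 (by linarith) 2
  refine ⟨c1.trans (d1.trans d2), c2.trans (d1.trans d2), c3.trans (d1.trans d2), ?_, ?_⟩
  · have := mul_le_mul_of_nonneg_left hE2 hL0.le
    nlinarith
  · obtain ⟨ν, H, d⟩ := hl.pt t ht0 x
    have hH : |H| ≤ (L + 1) * E := by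
      refine abs_le_of_sq_le_sq' ?_ d0 |> abs_le.2
      rw [d.W_eq] at c1
      linarith
    have := CaseB_CN h.hn (hl.sphere t ht0 x) d
    linarith

/-- `F t x` and `N t x` have derivatives bounded by `K' exp (-t / 8)`, so they converge uniformly;
the limit of `N t x` does not depend on `x` and is `w ↦ ⟪e, w⟫ e` (subsequence of unit normals). -/
theorem great_sphere : ∃ e : Q, ‖e‖ = 1 ∧
    (∃ Φ : M → Q, TendstoUniformly F Φ atTop ∧ ∀ x, ⟪e, Φ x⟫ = 0) ∧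
    (∀ ε : ℝ, 0 < ε → ∀ᶠ t in atTop, ∀ x,
      (∀ w ∈ normal P (F t) x, ‖w - ⟪e, w⟫ • e‖ ≤ ε * ‖w‖) ∧
      ∀ ξ ζ, ‖sff P (F t) x ξ ζ‖ ≤ ε * ‖dF P (F t) x ξ‖ * ‖dF P (F t) x ζ‖) ∧
    ∀ᶠ t in atTop, RadialBij e (F t) := by
  obtain ⟨K, t₀, hK, ht₀, hd⟩ := h.decay
  have hn : (2 : ℝ) ≤ n := by exact_mod_cast h.hn
  have hl := h.toGeoLoc
  have : CompleteSpace Q := FiniteDimensional.complete ℝ Q
  obtain ⟨x₀⟩ : Nonempty M := inferInstance
  have hp : ∀ t, t₀ ≤ t → ∀ x, ∃ ν H, PtData n P F G t x ν H ∧ |H| ≤ K * Real.exp (-t / 8) := by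
    intro t ht x
    obtain ⟨ν, H, d⟩ := hl.pt t (ht₀.trans_le ht) x
    refine ⟨ν, H, d, abs_le.2 (abs_le_of_sq_le_sq' ?_ (by positivity))⟩
    have := (hd t ht x x).1
    rw [d.W_eq] at this
    linarith
  have hF : ∀ x, ∃ l, ∀ s, t₀ ≤ s → ‖l - F s x‖ ≤ 8 * K * Real.exp (-s / 8) := fun x =>
    CaseB_limit (fun s => F s x) hK.le fun t ht => by
      obtain ⟨ν, H, d, hH⟩ := hp t ht x
      refine ⟨_, d.flow, ?_⟩
      rwa [norm_smul, d.unit, mul_one, Real.norm_eq_abs]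
  choose Φ hΦ using hF
  obtain ⟨L, hL⟩ := CaseB_limit (fun s => G.N s x₀) (A := 2 * ((1 + n) * K)) (t₀ := t₀)
    (by positivity) fun t ht => by
      obtain ⟨ν, H, d, hH⟩ := hp t ht x₀
      obtain ⟨N', h1, h2⟩ := d.dtN
      refine ⟨N', h1, h2.trans ?_⟩
      have a1 : H ^ 2 ≤ (K * Real.exp (-t / 8)) ^ 2 := by
        rw [← sq_abs H]
        exact pow_le_pow_left₀ (abs_nonneg H) hH 2
      have a2 := mul_le_mul_of_nonneg_left (hd t ht x₀ x₀).2.2.1 (Nat.cast_nonneg (α := ℝ) n)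
      have a3 : √(H ^ 2 + n * G.v t x₀) ≤ (1 + n) * (K * Real.exp (-t / 8)) := by
        refine Real.sqrt_le_iff.2 ⟨by positivity, ?_⟩
        have a4 : (1 + (n : ℝ)) * (K * Real.exp (-t / 8)) ^ 2 ≤
            (1 + (n : ℝ)) ^ 2 * (K * Real.exp (-t / 8)) ^ 2 :=
          mul_le_mul_of_nonneg_right (by nlinarith) (sq_nonneg _)
        rw [mul_pow (1 + (n : ℝ))]
        linarith
      linarith
  obtain ⟨e, he, hLe⟩ := CaseB_proj (fun s => G.N s x₀) L (fun t ht => by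
    obtain ⟨ν, H, d, -⟩ := hp t ht x₀
    exact ⟨ν, d.unit, d.N_eq⟩) hL
  obtain ⟨A, hA⟩ : ∃ A, A = 8 * (2 * ((1 + n) * K)) + 3 * K := ⟨_, rfl⟩
  have hC : ∀ t, t₀ ≤ t → ∀ x, ‖G.C t x - L‖ ≤ A * Real.exp (-t / 8) ∧
      ‖G.N t x - L‖ ≤ A * Real.exp (-t / 8) := by
    intro t ht x
    have a1 := hL t ht
    have a2 := (hd t ht x₀ x).2.2.2
    have a3 := (hd t ht x x).2.2.2.2
    have a4 := norm_sub_le_norm_sub_add_norm_sub (G.C t x) (G.C t x₀) L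
    have a5 := norm_sub_le_norm_sub_add_norm_sub (G.C t x₀) (G.N t x₀) L
    have a6 := norm_sub_le_norm_sub_add_norm_sub (G.N t x) (G.C t x) L
    rw [norm_sub_rev] at a1 a3
    have a7 : 0 ≤ K * Real.exp (-t / 8) := by positivity
    rw [hA]
    constructor <;> linarith [a2.1, a2.2]
  have hap : ∀ (T : Q →L[ℝ] Q) (b : ℝ), ‖T - L‖ ≤ b → ∀ w, ‖T w - ⟪e, w⟫ • e‖ ≤ b * ‖w‖ := by
    intro T b hb w
    rw [← hLe, ← sub_apply]
    exact (T - L).le_of_opNorm_le hb w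
  refine ⟨e, he, ⟨Φ, ?_, fun x => ?_⟩, fun ε hε => ?_, ?_⟩
  · refine Metric.tendstoUniformly_iff.2 fun ε hε => ?_
    filter_upwards [CaseB_small (8 * K) hε, eventually_ge_atTop t₀] with t h1 h2 x
    rw [dist_eq_norm]
    exact (hΦ x t h2).trans_lt h1
  · refine abs_nonpos_iff.1 (CaseB_zero (B := A + 8 * K) (t₀ := t₀) fun t ht => ?_)
    obtain ⟨ν, H, d, -⟩ := hp t ht x
    have a1 := hap _ _ (hC t ht x).2 (F t x)
    rw [d.N_eq, real_inner_comm, d.Fν, zero_smul, zero_sub, norm_neg, norm_smul, he, mul_one,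
      hl.sphere t (ht₀.trans_le ht) x, mul_one, Real.norm_eq_abs] at a1
    have a2 := abs_real_inner_le_norm e (Φ x - F t x)
    rw [he, one_mul] at a2
    have a3 : ⟪e, Φ x⟫ = ⟪e, Φ x - F t x⟫ + ⟪e, F t x⟫ := by rw [inner_sub_right]; ring
    have a4 := abs_add_le ⟪e, Φ x - F t x⟫ ⟪e, F t x⟫
    have a5 := hΦ x t ht
    rw [a3]
    linarith
  · filter_upwards [CaseB_small A hε, CaseB_small (2 * K) hε, eventually_ge_atTop t₀]
      with t h1 h2 ht x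
    obtain ⟨ν, H, d, hH⟩ := hp t ht x
    refine ⟨fun w hw => ?_, fun ξ ζ => ?_⟩
    · rw [d.normal_eq, Submodule.mem_span_singleton] at hw
      obtain ⟨a, rfl⟩ := hw
      have a1 := hap _ _ ((hC t ht x).2.trans h1.le) (a • ν)
      rwa [d.N_eq, real_inner_smul_right, real_inner_self_eq_norm_sq, d.unit, one_pow,
        mul_one] at a1
    · have a1 := d.sff_le ξ ζ
      have a2 : √(G.u t x) ≤ K * Real.exp (-t / 8) :=
        Real.sqrt_le_iff.2 ⟨by positivity, (hd t ht x x).2.1⟩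
      have a3 : ‖(H / n * ⟪dF P (F t) x ξ, dF P (F t) x ζ⟫) • ν‖ ≤
          K * Real.exp (-t / 8) * (‖dF P (F t) x ξ‖ * ‖dF P (F t) x ζ‖) := by
        rw [norm_smul, d.unit, mul_one, Real.norm_eq_abs, abs_mul, abs_div, Nat.abs_cast]
        refine mul_le_mul ((div_le_self (abs_nonneg H) (by linarith)).trans hH)
          (abs_real_inner_le_norm _ _) (abs_nonneg _) (by positivity)
      have a4 := norm_le_norm_sub_add (sff P (F t) x ξ ζ)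
        ((H / n * ⟪dF P (F t) x ξ, dF P (F t) x ζ⟫) • ν)
      have a0 : 0 ≤ ‖dF P (F t) x ξ‖ * ‖dF P (F t) x ζ‖ := by positivity
      have a5 := mul_le_mul_of_nonneg_right a2 a0
      have a6 := mul_le_mul_of_nonneg_right h2.le a0
      rw [mul_assoc] at a1 ⊢
      linarith
  · filter_upwards [CaseB_small A (by norm_num : (0 : ℝ) < 1 / 20), CaseB_small K one_pos,
      eventually_ge_atTop t₀] with t h1 h2 ht
    have ht' : t ∈ Ioi (0 : ℝ) := ht₀.trans_le ht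
    refine hl.radial ht' he fun x w => ?_
    refine hap _ _ ((hC t ht x).1.trans (h1.le.trans ?_)) w
    have hW : 0 < G.W t x := lt_of_lt_of_le (by positivity) (hl.W_ge ht' x)
    have a1 : (K * Real.exp (-t / 8)) ^ 2 ≤ 1 := pow_le_one₀ (by positivity) h2.le
    have a2 : √(G.W t x) ≤ 2 * n := by
      refine Real.sqrt_le_iff.2 ⟨by positivity, ?_⟩
      nlinarith [(hd t ht x x).1]
    have a3 : 1 / 2 ≤ n / √(G.W t x) := by
      rw [le_div_iff₀ (Real.sqrt_pos.2 hW)]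
      linarith
    linarith

end Geo

end Pool.Agent.Lib.MP_de485e_gt.Conv
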