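import Pool.Agent.Lib.MP_de485e_gt.Conv.Alg1

/-! The formulas without a unit normal, naturality. -/

namespace Pool.Agent.Lib.MP_de485e_gt.Conv

variable {ι : Type} [Fintype ι] [DecidableEq ι] {R : Type} [CommRing R] [Algebra ℝ R]

namespace SA

variable (S : SA ι R)

private theorem Free_n (x : R) : (S.n : R) * ((S.n : ℝ)⁻¹ • x) = x := by
  have hn : (S.n : ℝ) ≠ 0 := by
    have := S.hn
    exact_mod_cast (by omega : S.n ≠ 0)
  rw [mul_smul_comm, ← nsmul_eq_mul, ← Nat.cast_smul_eq_nsmul ℝ, smul_smul, inv_mul_cancel₀ hn,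
    one_smul]

private theorem Free_sq (x : R) : ∑ c, (x * S.ν c) ^ 2 = x ^ 2 := by
  have : ∀ c, (x * S.ν c) ^ 2 = x ^ 2 * (S.ν c * S.ν c) := fun c => by ring
  simp only [this]
  rw [← Finset.mul_sum, S.νν, mul_one]

theorem c_sq : ∑ a, S.c a ^ 2 = S.W := by
  have : ∀ a, S.c a ^ 2 = S.H ^ 2 * (S.F a * S.F a) + 2 * S.H * S.n * (S.F a * S.ν a) +
      (S.n : R) ^ 2 * (S.ν a * S.ν a) := fun a => by unfold c; ring
  simp only [this, Finset.sum_add_distrib, ← Finset.mul_sum]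
  rw [S.FF, S.Fν, S.νν, W]
  ring

theorem Dc (a b : ι) : S.W * S.D b (S.c a) - S.c a * (S.H * S.D b S.H) =
    S.n * S.D b S.H * (S.n * S.F a - S.H * S.ν a) - S.n * S.W * S.A0 a b := by
  have h1 : S.D b (S.c a) = S.D b S.H * S.F a + S.H * S.P a b - S.n * S.A a b := by
    have h2 : S.D b (S.ν a) = -S.A a b := by rw [S.A_symm a b, A, neg_neg]
    unfold c
    rw [map_add, Derivation.leibniz, Derivation.leibniz, Derivation.map_natCast, S.DF', h2,
      S.P_symm b a]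
    simp only [smul_eq_mul]
    ring
  have h3 : (S.n : R) * S.A0 a b = S.n * S.A a b - S.H * S.P a b := by
    rw [A0, mul_sub, S.Free_n]
  have h4 : (S.n : R) * S.W * S.A0 a b = S.W * (S.n * S.A a b - S.H * S.P a b) := by
    rw [← h3]; ring
  rw [h1, h4]
  unfold c W
  ring

theorem pa_N (c d : ι) : S.toPA.N c d = S.ν c * S.ν d := by
  show kd c d - S.F c * S.F d - S.P c d = _
  unfold P
  ring

theorem pa_AA (a b c : ι) : S.toPA.AA a b c = S.A a b * S.ν c := by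
  have : ∀ d, S.toPA.N c d * S.toPA.D a (S.toPA.P b d) =
      -(S.ν c * S.P a b) * (S.F d * S.ν d) - S.ν c * S.F b * (S.P a d * S.ν d) +
        S.A a b * S.ν c * (S.ν d * S.ν d) + S.ν c * S.ν b * (S.A a d * S.ν d) := fun d => by
    rw [S.pa_N]
    show S.ν c * S.ν d * S.D a (S.P b d) = _
    rw [S.DP]
    ring
  unfold PA.AA
  simp only [this, Finset.sum_add_distrib, Finset.sum_sub_distrib, ← Finset.mul_sum]
  rw [S.Fν, S.P_ν, S.νν, S.A_ν]
  ring

theorem pa_HH (c : ι) : S.toPA.HH c = S.H * S.ν c := by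
  unfold PA.HH
  simp only [S.pa_AA]
  rw [H, Finset.sum_mul]

theorem pa_H2 : S.toPA.H2 = S.H ^ 2 := by
  unfold PA.H2
  simp only [S.pa_HH]
  exact S.Free_sq _

theorem pa_a2 : S.toPA.a2 = S.a2 := by
  unfold PA.a2
  simp only [S.pa_AA, S.Free_sq]
  rfl

theorem pa_W : S.toPA.W = S.W := by
  unfold PA.W
  rw [S.pa_H2]
  rfl

theorem pa_u : S.toPA.u = S.u := by
  unfold PA.u
  rw [S.pa_H2, S.pa_a2]
  rfl

private theorem Free_PP (a b c : ι) :
    ∑ b', ∑ c', S.P b b' * S.P c c' * S.D a (S.A b' c') = S.B a b c := by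
  have h1 : ∀ b', ∑ c', S.P b b' * S.P c c' * S.D a (S.A b' c') =
      S.P b b' * S.B a b' c + S.A2 a c * (S.P b b' * S.ν b') - S.A a c * (S.P b b' * S.F b') := by
    intro b'
    have h2 : ∀ c', S.P b b' * S.P c c' * S.D a (S.A b' c') =
        S.P b b' * (S.B a b' c' * S.P c' c) + S.P b b' * S.A2 a b' * (S.P c c' * S.ν c') +
          S.P b b' * S.ν b' * (S.P c c' * S.A2 c' a) -
          S.P b b' * S.A a b' * (S.P c c' * S.F c') -
          S.P b b' * S.F b' * (S.P c c' * S.A c' a) := fun c' => by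
      rw [S.DA_eq, S.P_symm c' c, S.A2_symm c' a, S.A_symm c' a]
      ring
    simp only [h2, Finset.sum_add_distrib, Finset.sum_sub_distrib, ← Finset.mul_sum]
    rw [S.B_P, S.P_ν, S.P_A2, S.P_F, S.P_A, S.A2_symm c a, S.A_symm c a]
    ring
  have h3 : ∀ b', S.P b b' * S.B a b' c = S.B a c b' * S.P b' b := fun b' => by
    rw [S.B_symm23 a b' c, S.P_symm b b', mul_comm]
  simp only [h1, h3, Finset.sum_add_distrib, Finset.sum_sub_distrib, ← Finset.mul_sum]
  rw [S.B_P, S.P_ν, S.P_F, S.B_symm23 a c b]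
  ring

theorem pa_BB (a b c e : ι) : S.toPA.BB a b c e = S.B a b c * S.ν e := by
  have h1 : ∀ b' c', ∑ f, S.toPA.N e f * S.toPA.P b b' * S.toPA.P c c' *
      S.toPA.D a (S.toPA.AA b' c' f) = S.P b b' * S.P c c' * S.D a (S.A b' c') * S.ν e := by
    intro b' c'
    have h2 : ∀ f, S.toPA.N e f * S.toPA.P b b' * S.toPA.P c c' *
        S.toPA.D a (S.toPA.AA b' c' f) =
        S.P b b' * S.P c c' * S.D a (S.A b' c') * S.ν e * (S.ν f * S.ν f) -
          S.ν e * S.P b b' * S.P c c' * S.A b' c' * (S.A a f * S.ν f) := fun f => by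
      rw [S.pa_N, S.pa_AA]
      show S.ν e * S.ν f * S.P b b' * S.P c c' * S.D a (S.A b' c' * S.ν f) = _
      have h3 : S.D a (S.ν f) = -S.A a f := by rw [A, neg_neg]
      rw [Derivation.leibniz, h3]
      simp only [smul_eq_mul]
      ring
    simp only [h2, Finset.sum_sub_distrib, ← Finset.mul_sum]
    rw [S.νν, S.A_ν]
    ring
  unfold PA.BB
  rw [Finset.sum_comm, ← S.Free_PP a b c, Finset.sum_mul]
  refine Finset.sum_congr rfl fun b' _ => ?_
  rw [Finset.sum_comm, Finset.sum_mul]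
  exact Finset.sum_congr rfl fun c' _ => h1 b' c'

theorem pa_v : S.toPA.v = S.v := by
  unfold PA.v
  simp only [S.pa_BB, S.Free_sq]
  rfl

theorem pa_cc (a b : ι) : S.toPA.cc a b = S.c a * S.c b := by
  unfold PA.cc
  rw [S.pa_H2, S.pa_HH, S.pa_HH, S.pa_N]
  show S.H ^ 2 * (S.F a * S.F b) + S.n * (S.H * S.ν a * S.F b + S.F a * (S.H * S.ν b)) +
    (S.n : R) ^ 2 * (S.ν a * S.ν b) = _
  unfold c
  ring

theorem pa_Hc (a : ι) : S.toPA.Hc a = S.H * S.c a := by
  unfold PA.Hc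
  rw [S.pa_H2, S.pa_HH]
  show S.H ^ 2 * S.F a + S.n * (S.H * S.ν a) = _
  unfold c
  ring

end SA

/-- All quantities are polynomial in the data, so they commute with homomorphisms. -/
theorem PA.natural {R' : Type} [CommRing R'] [Algebra ℝ R'] (S : PA ι R) (S' : PA ι R')
    (ρ : R →ₐ[ℝ] R') (hn : S'.n = S.n) (hD : ∀ a g, ρ (S.D a g) = S'.D a (ρ g))
    (hF : ∀ a, ρ (S.F a) = S'.F a) (hP : ∀ a b, ρ (S.P a b) = S'.P a b) :
    ρ S.W = S'.W ∧ ρ S.u = S'.u ∧ ρ S.v = S'.v ∧ (∀ a b, ρ (S.N a b) = S'.N a b) ∧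
      (∀ a b, ρ (S.cc a b) = S'.cc a b) ∧ ∀ a, ρ (S.Hc a) = S'.Hc a := by
  have hk : ∀ a b : ι, ρ (kd a b) = kd a b := fun a b => by
    unfold kd
    split_ifs <;> simp
  have hN : ∀ a b, ρ (S.N a b) = S'.N a b := fun a b => by
    simp only [PA.N, map_sub, map_mul, hk, hF, hP]
  have hA : ∀ a b c, ρ (S.AA a b c) = S'.AA a b c := fun a b c => by
    simp only [PA.AA, map_sum, map_mul, hN, hD, hP]
  have hH : ∀ c, ρ (S.HH c) = S'.HH c := fun c => by
    simp only [PA.HH, map_sum, hA]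
  have hH2 : ρ S.H2 = S'.H2 := by simp only [PA.H2, map_sum, map_pow, hH]
  have ha2 : ρ S.a2 = S'.a2 := by simp only [PA.a2, map_sum, map_pow, hA]
  have hB : ∀ a b c e, ρ (S.BB a b c e) = S'.BB a b c e := fun a b c e => by
    simp only [PA.BB, map_sum, map_mul, hN, hD, hP, hA]
  refine ⟨?_, ?_, ?_, hN, fun a b => ?_, fun a => ?_⟩
  · simp only [PA.W, map_add, map_pow, map_natCast, hH2, hn]
  · simp only [PA.u, map_sub, map_smul, hH2, ha2, hn]
  · simp only [PA.v, map_sum, map_pow, hB]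
  · simp only [PA.cc, map_add, map_mul, map_pow, map_natCast, hH2, hH, hF, hN, hn]
  · simp only [PA.Hc, map_add, map_mul, map_natCast, hH2, hH, hF, hn]

end Pool.Agent.Lib.MP_de485e_gt.Conv
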