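import Pool.Agent.Lib.MP_de485e_gt.Conv.Ineq2
import Pool.Agent.Lib.MP_de485e_gt.Conv.Free

/-! Bounds for the derivatives of the osculating sphere. -/

namespace Pool.Agent.Lib.MP_de485e_gt.Conv

variable {ι : Type} [Fintype ι] [DecidableEq ι] {R : Type} [CommRing R] [Algebra ℝ R]

omit [DecidableEq ι] in
private theorem Dbound_add (x y : ι → ℝ) :
    ∑ a, (x a + y a) ^ 2 ≤ 2 * ∑ a, x a ^ 2 + 2 * ∑ a, y a ^ 2 := by
  rw [Finset.mul_sum, Finset.mul_sum, ← Finset.sum_add_distrib]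
  exact Finset.sum_le_sum fun a _ => by nlinarith [sq_nonneg (x a - y a)]

omit [DecidableEq ι] in
private theorem Dbound_smul (t : ℝ) (x : ι → ℝ) : ∑ a, (t * x a) ^ 2 = t ^ 2 * ∑ a, x a ^ 2 := by
  rw [Finset.mul_sum]
  exact Finset.sum_congr rfl fun a _ => by ring

omit [DecidableEq ι] in
private theorem Dbound_sym (x y : ι → ℝ) :
    ∑ a, ∑ d, (x a * y d + y a * x d) ^ 2 ≤ 4 * (∑ a, x a ^ 2) * ∑ a, y a ^ 2 := by
  calc ∑ a, ∑ d, (x a * y d + y a * x d) ^ 2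
      ≤ ∑ a, (2 * (x a ^ 2 * ∑ d, y d ^ 2) + 2 * (y a ^ 2 * ∑ d, x d ^ 2)) :=
        Finset.sum_le_sum fun a _ => by
          have h := Dbound_add (fun d => x a * y d) (fun d => y a * x d)
          rw [Dbound_smul, Dbound_smul] at h
          exact h
    _ = 4 * (∑ a, x a ^ 2) * ∑ a, y a ^ 2 := by
        rw [Finset.sum_add_distrib, ← Finset.mul_sum, ← Finset.mul_sum, ← Finset.sum_mul,
          ← Finset.sum_mul]
        ring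

omit [DecidableEq ι] in
private theorem Dbound_mat (α : ι → ι → ℝ) (ξ : ι → ℝ) :
    ∑ a, (∑ b, ξ b * α a b) ^ 2 ≤ (∑ a, ∑ b, α a b ^ 2) * ∑ b, ξ b ^ 2 := by
  rw [Finset.sum_mul]
  refine Finset.sum_le_sum fun a _ => ?_
  rw [mul_comm]
  exact Finset.sum_mul_sq_le_sq_mul_sq _ _ _

namespace SA

variable (S : SA ι R) (ev : R →ₐ[ℝ] ℝ) {Wi : R} {η : ℝ}

private theorem Dbound_n : (2 : ℝ) ≤ S.n := by exact_mod_cast S.hn

private theorem Dbound_FF : ∑ a, ev (S.F a) * ev (S.F a) = 1 := by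
  simpa [map_sum] using congrArg ev S.FF

private theorem Dbound_νν : ∑ a, ev (S.ν a) * ev (S.ν a) = 1 := by
  simpa [map_sum] using congrArg ev S.νν

private theorem Dbound_Fν : ∑ a, ev (S.F a) * ev (S.ν a) = 0 := by
  simpa [map_sum] using congrArg ev S.Fν

private theorem Dbound_W_pos : 0 < ev S.W := by
  have h := S.Dbound_n
  rw [S.ev_W ev]
  positivity

private theorem Dbound_wi (hW : Wi * S.W = 1) : ev Wi * ev S.W = 1 := by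
  simpa using congrArg ev hW

private theorem Dbound_wi_pos (hW : Wi * S.W = 1) : 0 < ev Wi := by
  have h1 := S.Dbound_wi ev hW
  have h2 := S.Dbound_W_pos ev
  by_contra h
  nlinarith [mul_nonneg (neg_nonneg.2 (not_lt.1 h)) h2.le]

private theorem Dbound_c_sq : ∑ a, ev (S.c a) ^ 2 = ev S.W := by
  simpa [map_sum] using congrArg ev S.c_sq

private theorem Dbound_u : ∑ a, ∑ b, ev (S.A0 a b) ^ 2 = ev S.u := by
  simpa [map_sum] using congrArg ev (A0_sq S)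

private theorem Dbound_g : ∑ b, ev (S.D b S.H) ^ 2 ≤ S.n * ev S.v := by
  have h1 : ev (S.grad S.H S.H) = ∑ b, ev (S.D b S.H) ^ 2 := by
    simp [grad, map_sum, sq]
  have h2 := S.codazzi ev
  have h3 := S.v_nonneg ev
  have h4 := S.Dbound_n
  rw [h1] at h2
  nlinarith

private theorem Dbound_gξ (hv : ev S.v ≤ η ^ 2 * ev S.W ^ 2) (ξ : ι → ℝ) :
    (∑ b, ξ b * ev (S.D b S.H)) ^ 2 ≤ S.n * (η ^ 2 * ev S.W ^ 2) * ∑ b, ξ b ^ 2 := by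
  have h0 : (0 : ℝ) ≤ ∑ b, ξ b ^ 2 := Finset.sum_nonneg fun b _ => sq_nonneg _
  have h4 := S.Dbound_n
  calc (∑ b, ξ b * ev (S.D b S.H)) ^ 2 ≤ (∑ b, ξ b ^ 2) * ∑ b, ev (S.D b S.H) ^ 2 :=
        Finset.sum_mul_sq_le_sq_mul_sq _ _ _
    _ ≤ (∑ b, ξ b ^ 2) * (S.n * (η ^ 2 * ev S.W ^ 2)) :=
        mul_le_mul_of_nonneg_left
          ((S.Dbound_g ev).trans (mul_le_mul_of_nonneg_left hv (by linarith))) h0
    _ = _ := mul_comm _ _

private theorem Dbound_DWi (hW : Wi * S.W = 1) (b : ι) :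
    ev (S.D b Wi) = -2 * ev Wi ^ 2 * ev S.H * ev (S.D b S.H) := by
  have h1 : S.D b (Wi * S.W) = 0 := by rw [hW, Derivation.map_one_eq_zero]
  rw [Derivation.leibniz, S.DW b, smul_eq_mul, smul_eq_mul] at h1
  have h2 := congrArg ev h1
  simp only [map_add, map_mul, map_zero, map_ofNat] at h2
  have h3 := S.Dbound_wi ev hW
  linear_combination ev Wi * h2 - ev (S.D b Wi) * h3

private theorem Dbound_Dc (hW : Wi * S.W = 1) (a b : ι) :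
    ev (S.D b (S.c a)) = ev Wi * ev (S.c a) * ev S.H * ev (S.D b S.H) +
      (S.n * ev Wi * ev (S.D b S.H) * (S.n * ev (S.F a) - ev S.H * ev (S.ν a)) -
        S.n * ev (S.A0 a b)) := by
  have h2 := congrArg ev (S.Dc a b)
  simp only [map_sub, map_mul, map_natCast] at h2
  have h3 := S.Dbound_wi ev hW
  linear_combination ev Wi * h2 - (ev (S.D b (S.c a)) + S.n * ev (S.A0 a b)) * h3

/-- The vector `ζ ξ`. -/
private noncomputable def Dbound_z (Wi : R) (ξ : ι → ℝ) (a : ι) : ℝ :=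
  ∑ b, ξ b * (S.n * ev Wi * ev (S.D b S.H) * (S.n * ev (S.F a) - ev S.H * ev (S.ν a)) -
    S.n * ev (S.A0 a b))

private theorem Dbound_z_le (hW : Wi * S.W = 1) (hu : ev S.u ≤ η ^ 2 * ev S.W)
    (hv : ev S.v ≤ η ^ 2 * ev S.W ^ 2) (ξ : ι → ℝ) :
    ∑ a, S.Dbound_z ev Wi ξ a ^ 2 ≤ 4 * (S.n : ℝ) ^ 4 * η ^ 2 * ev S.W * ∑ b, ξ b ^ 2 := by
  have h0 : (0 : ℝ) ≤ ∑ b, ξ b ^ 2 := Finset.sum_nonneg fun b _ => sq_nonneg _
  have hn := S.Dbound_n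
  have hw := S.Dbound_W_pos ev
  have hi := S.Dbound_wi ev hW
  have hz : ∀ a, S.Dbound_z ev Wi ξ a =
      (S.n * ev Wi * ∑ b, ξ b * ev (S.D b S.H)) * (S.n * ev (S.F a) - ev S.H * ev (S.ν a)) +
        (-S.n) * ∑ b, ξ b * ev (S.A0 a b) := fun a => by
    rw [Dbound_z, Finset.mul_sum, Finset.sum_mul, Finset.mul_sum, ← Finset.sum_add_distrib]
    exact Finset.sum_congr rfl fun b _ => by ring
  have he : ∑ a, (S.n * ev (S.F a) - ev S.H * ev (S.ν a)) ^ 2 = ev S.W := by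
    have : ∀ a, (S.n * ev (S.F a) - ev S.H * ev (S.ν a)) ^ 2 =
        (S.n : ℝ) ^ 2 * (ev (S.F a) * ev (S.F a)) - 2 * S.n * ev S.H * (ev (S.F a) * ev (S.ν a)) +
          ev S.H ^ 2 * (ev (S.ν a) * ev (S.ν a)) := fun a => by ring
    simp only [this, Finset.sum_add_distrib, Finset.sum_sub_distrib, ← Finset.mul_sum,
      S.Dbound_FF ev, S.Dbound_νν ev, S.Dbound_Fν ev, S.ev_W ev]
    ring
  have h1 := Dbound_add
    (fun a => (S.n * ev Wi * ∑ b, ξ b * ev (S.D b S.H)) * (S.n * ev (S.F a) - ev S.H * ev (S.ν a)))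
    (fun a => (-S.n) * ∑ b, ξ b * ev (S.A0 a b))
  rw [Dbound_smul, Dbound_smul, he] at h1
  have h2 := Dbound_mat (fun a b => ev (S.A0 a b)) ξ
  rw [S.Dbound_u ev] at h2
  have h3 := S.Dbound_gξ ev hv ξ
  simp only [hz]
  refine h1.trans ?_
  set X := ∑ b, ξ b ^ 2
  set G := ∑ b, ξ b * ev (S.D b S.H)
  set Y := ∑ a, (∑ b, ξ b * ev (S.A0 a b)) ^ 2
  set w := ev S.W
  set i := ev Wi
  set n : ℝ := (S.n : ℝ)
  have h4 : Y ≤ η ^ 2 * w * X := h2.trans (mul_le_mul_of_nonneg_right hu h0)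
  have h5 : i ^ 2 * G ^ 2 * w ≤ n * (η ^ 2 * w * X) := by
    calc i ^ 2 * G ^ 2 * w ≤ i ^ 2 * (n * (η ^ 2 * w ^ 2) * X) * w :=
          mul_le_mul_of_nonneg_right (mul_le_mul_of_nonneg_left h3 (sq_nonneg _)) hw.le
      _ = (i * w) ^ 2 * (n * (η ^ 2 * w * X)) := by ring
      _ = _ := by rw [hi]; ring
  have hT : 0 ≤ η ^ 2 * w * X := by positivity
  have h6 : (n + 1) * (η ^ 2 * w * X) ≤ 2 * n ^ 2 * (η ^ 2 * w * X) :=
    mul_le_mul_of_nonneg_right (by nlinarith) hT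
  calc 2 * ((n * i * G) ^ 2 * w) + 2 * ((-n) ^ 2 * Y)
      = 2 * n ^ 2 * (i ^ 2 * G ^ 2 * w + Y) := by ring
    _ ≤ 2 * n ^ 2 * (2 * n ^ 2 * (η ^ 2 * w * X)) :=
        mul_le_mul_of_nonneg_left (by linarith) (by positivity)
    _ = _ := by ring

/-- With `W ζ a b` the right side of `Dc`: `|ζ ξ| ≤ 2 n ^ 2 η √W |ξ|` and
`D b (Wi c a c d) = Wi (ζ a b c d + c a ζ d b)`. -/
theorem dC_le (hW : Wi * S.W = 1) (hη : 0 ≤ η) (hu : ev S.u ≤ η ^ 2 * ev S.W)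
    (hv : ev S.v ≤ η ^ 2 * ev S.W ^ 2) (ξ : ι → ℝ) :
    ∑ a, ∑ d, (∑ b, ξ b * ev (S.D b (Wi * (S.c a * S.c d)))) ^ 2 ≤
      (4 * (S.n : ℝ) ^ 2 * η) ^ 2 * ∑ b, ξ b ^ 2 := by
  have _ := hη
  have hi := S.Dbound_wi ev hW
  have hp := S.Dbound_wi_pos ev hW
  have h1 : ∀ a d, ∑ b, ξ b * ev (S.D b (Wi * (S.c a * S.c d))) =
      (ev Wi * S.Dbound_z ev Wi ξ a) * ev (S.c d) +
        ev (S.c a) * (ev Wi * S.Dbound_z ev Wi ξ d) := fun a d => by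
    simp only [Dbound_z, Finset.mul_sum, Finset.sum_mul, ← Finset.sum_add_distrib]
    refine Finset.sum_congr rfl fun b _ => ?_
    simp only [Derivation.leibniz, smul_eq_mul, map_add, map_mul, S.Dbound_DWi ev hW,
      S.Dbound_Dc ev hW]
    ring
  simp only [h1]
  refine (Dbound_sym (fun a => ev Wi * S.Dbound_z ev Wi ξ a) (fun a => ev (S.c a))).trans ?_
  rw [Dbound_smul, S.Dbound_c_sq ev]
  have h2 := S.Dbound_z_le ev hW hu hv ξ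
  have hw := S.Dbound_W_pos ev
  calc 4 * (ev Wi ^ 2 * ∑ a, S.Dbound_z ev Wi ξ a ^ 2) * ev S.W
      ≤ 4 * (ev Wi ^ 2 * (4 * (S.n : ℝ) ^ 4 * η ^ 2 * ev S.W * ∑ b, ξ b ^ 2)) * ev S.W := by
        gcongr
    _ = (ev Wi * ev S.W) ^ 2 * ((4 * (S.n : ℝ) ^ 2 * η) ^ 2 * ∑ b, ξ b ^ 2) := by ring
    _ = _ := by rw [hi]; ring

/-- `D b (Wi H c a) = n ^ 2 Wi ^ 2 (D b H) c a + Wi H ζ a b`. -/
theorem dm_le (hW : Wi * S.W = 1) (hη : 0 ≤ η) (hu : ev S.u ≤ η ^ 2 * ev S.W)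
    (hv : ev S.v ≤ η ^ 2 * ev S.W ^ 2) (ξ : ι → ℝ) :
    ∑ a, (∑ b, ξ b * ev (S.D b (Wi * (S.H * S.c a)))) ^ 2 ≤
      (4 * (S.n : ℝ) ^ 2 * η) ^ 2 * ∑ b, ξ b ^ 2 := by
  have _ := hη
  have hi := S.Dbound_wi ev hW
  have hp := S.Dbound_wi_pos ev hW
  have hi' : ev Wi * ((S.n : ℝ) ^ 2 + ev S.H ^ 2) = 1 := by rw [← S.ev_W ev]; exact hi
  have h1 : ∀ a, ∑ b, ξ b * ev (S.D b (Wi * (S.H * S.c a))) =
      ((S.n : ℝ) ^ 2 * ev Wi ^ 2 * ∑ b, ξ b * ev (S.D b S.H)) * ev (S.c a) +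
        (ev Wi * ev S.H) * S.Dbound_z ev Wi ξ a := fun a => by
    simp only [Dbound_z, Finset.mul_sum, Finset.sum_mul, ← Finset.sum_add_distrib]
    refine Finset.sum_congr rfl fun b _ => ?_
    simp only [Derivation.leibniz, smul_eq_mul, map_add, map_mul, S.Dbound_DWi ev hW,
      S.Dbound_Dc ev hW]
    linear_combination (-(ξ b * ev Wi * ev (S.D b S.H) * ev (S.c a))) * hi'
  simp only [h1]
  refine (Dbound_add
    (fun a => ((S.n : ℝ) ^ 2 * ev Wi ^ 2 * ∑ b, ξ b * ev (S.D b S.H)) * ev (S.c a))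
    (fun a => (ev Wi * ev S.H) * S.Dbound_z ev Wi ξ a)).trans ?_
  rw [Dbound_smul, Dbound_smul, S.Dbound_c_sq ev]
  have h2 := S.Dbound_z_le ev hW hu hv ξ
  have h3 := S.Dbound_gξ ev hv ξ
  have hw := S.Dbound_W_pos ev
  have hn := S.Dbound_n
  have h0 : (0 : ℝ) ≤ ∑ b, ξ b ^ 2 := Finset.sum_nonneg fun b _ => sq_nonneg _
  set X := ∑ b, ξ b ^ 2
  set G := ∑ b, ξ b * ev (S.D b S.H)
  set Z := ∑ a, S.Dbound_z ev Wi ξ a ^ 2
  set w := ev S.W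
  set i := ev Wi
  set h := ev S.H
  set n : ℝ := (S.n : ℝ)
  have hT : 0 ≤ n ^ 4 * η ^ 2 * X := by positivity
  have k1 : i * n ≤ 1 := by
    nlinarith [mul_nonneg hp.le (sq_nonneg h), mul_pos hp (by linarith : 0 < n)]
  have k2 : i * h ^ 2 ≤ 1 := by nlinarith [mul_nonneg hp.le (sq_nonneg n)]
  have h4 : (n ^ 2 * i ^ 2 * G) ^ 2 * w ≤ n ^ 4 * η ^ 2 * X := by
    calc (n ^ 2 * i ^ 2 * G) ^ 2 * w = n ^ 4 * i ^ 4 * w * G ^ 2 := by ring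
      _ ≤ n ^ 4 * i ^ 4 * w * (n * (η ^ 2 * w ^ 2) * X) :=
          mul_le_mul_of_nonneg_left h3 (by positivity)
      _ = (i * w) ^ 3 * ((i * n) * (n ^ 4 * η ^ 2 * X)) := by ring
      _ = (i * n) * (n ^ 4 * η ^ 2 * X) := by rw [hi]; ring
      _ ≤ _ := mul_le_of_le_one_left hT k1
  have h5 : (i * h) ^ 2 * Z ≤ 4 * (n ^ 4 * η ^ 2 * X) := by
    calc (i * h) ^ 2 * Z ≤ (i * h) ^ 2 * (4 * n ^ 4 * η ^ 2 * w * X) :=
          mul_le_mul_of_nonneg_left h2 (sq_nonneg _)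
      _ = (i * w) * ((i * h ^ 2) * (4 * (n ^ 4 * η ^ 2 * X))) := by ring
      _ = (i * h ^ 2) * (4 * (n ^ 4 * η ^ 2 * X)) := by rw [hi]; ring
      _ ≤ _ := mul_le_of_le_one_left (by linarith) k2
  have h6 : (4 * n ^ 2 * η) ^ 2 * X = 16 * (n ^ 4 * η ^ 2 * X) := by ring
  linarith

theorem dWi_le (hW : Wi * S.W = 1) (hv : ev S.v ≤ η ^ 2 * ev S.W ^ 2) (ξ : ι → ℝ) :
    (∑ b, ξ b * ev (S.D b Wi)) ^ 2 ≤ 4 * S.n * η ^ 2 * ev Wi * ∑ b, ξ b ^ 2 := by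
  have hi := S.Dbound_wi ev hW
  have hp := S.Dbound_wi_pos ev hW
  have hi' : ev Wi * ((S.n : ℝ) ^ 2 + ev S.H ^ 2) = 1 := by rw [← S.ev_W ev]; exact hi
  have h1 : ∑ b, ξ b * ev (S.D b Wi) =
      (-2 * ev Wi ^ 2 * ev S.H) * ∑ b, ξ b * ev (S.D b S.H) := by
    rw [Finset.mul_sum]
    refine Finset.sum_congr rfl fun b _ => ?_
    rw [S.Dbound_DWi ev hW]
    ring
  rw [h1]
  have h3 := S.Dbound_gξ ev hv ξ
  have hn := S.Dbound_n
  have h0 : (0 : ℝ) ≤ ∑ b, ξ b ^ 2 := Finset.sum_nonneg fun b _ => sq_nonneg _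
  set X := ∑ b, ξ b ^ 2
  set G := ∑ b, ξ b * ev (S.D b S.H)
  set w := ev S.W
  set i := ev Wi
  set h := ev S.H
  set n : ℝ := (S.n : ℝ)
  have hT : 0 ≤ 4 * n * η ^ 2 * i * X := by positivity
  have k2 : i * h ^ 2 ≤ 1 := by nlinarith [mul_nonneg hp.le (sq_nonneg n)]
  calc (-2 * i ^ 2 * h * G) ^ 2 = 4 * i ^ 4 * h ^ 2 * G ^ 2 := by ring
    _ ≤ 4 * i ^ 4 * h ^ 2 * (n * (η ^ 2 * w ^ 2) * X) :=
        mul_le_mul_of_nonneg_left h3 (by positivity)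
    _ = (i * w) ^ 2 * ((i * h ^ 2) * (4 * n * η ^ 2 * i * X)) := by ring
    _ = (i * h ^ 2) * (4 * n * η ^ 2 * i * X) := by rw [hi]; ring
    _ ≤ _ := mul_le_of_le_one_left hT k2

/-- The traceless part is bounded by `√u`. -/
theorem A0_le (p r : ι → ℝ) :
    (∑ a, ∑ b, p a * r b * ev (S.A0 a b)) ^ 2 ≤ ev S.u * (∑ a, p a ^ 2) * ∑ a, r a ^ 2 := by
  have h1 : ∑ a, ∑ b, p a * r b * ev (S.A0 a b) = ∑ a, p a * ∑ b, r b * ev (S.A0 a b) :=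
    Finset.sum_congr rfl fun a _ => by
      rw [Finset.mul_sum]
      exact Finset.sum_congr rfl fun b _ => by ring
  have h2 := Dbound_mat (fun a b => ev (S.A0 a b)) r
  rw [S.Dbound_u ev] at h2
  have h0 : (0 : ℝ) ≤ ∑ a, p a ^ 2 := Finset.sum_nonneg fun b _ => sq_nonneg _
  calc (∑ a, ∑ b, p a * r b * ev (S.A0 a b)) ^ 2
      ≤ (∑ a, p a ^ 2) * ∑ a, (∑ b, r b * ev (S.A0 a b)) ^ 2 := by
        rw [h1]
        exact Finset.sum_mul_sq_le_sq_mul_sq _ _ _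
    _ ≤ (∑ a, p a ^ 2) * (ev S.u * ∑ a, r a ^ 2) := mul_le_mul_of_nonneg_left h2 h0
    _ = _ := by ring

end SA

/-- `dt ν = -DH - H F`, `|DH| ^ 2 ≤ n v`. -/
theorem DA.dtN_le (S : DA ι R) (ev : R →ₐ[ℝ] ℝ) :
    ∑ a, ∑ d, ev (S.dt (S.ν a * S.ν d)) ^ 2 ≤ 4 * (ev S.H ^ 2 + S.n * ev S.v) := by
  have h1 : ∀ a d, ev (S.dt (S.ν a * S.ν d)) =
      ev (S.ν a) * (-ev (S.D d S.H) - ev S.H * ev (S.F d)) +
        (-ev (S.D a S.H) - ev S.H * ev (S.F a)) * ev (S.ν d) := fun a d => by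
    simp only [Derivation.leibniz, smul_eq_mul, S.dtν, map_add, map_mul, map_sub, map_neg]
    ring
  simp only [h1]
  refine (Dbound_sym (fun a => ev (S.ν a))
    (fun a => -ev (S.D a S.H) - ev S.H * ev (S.F a))).trans ?_
  have h2 : ∑ a, ev (S.ν a) ^ 2 = 1 := by
    simpa only [sq] using S.toSA.Dbound_νν ev
  have h3 : ∑ a, ev (S.F a) * ev (S.D a S.H) = 0 := by
    simpa [map_sum] using congrArg ev (S.FD S.H)
  have h4 : ∑ a, (-ev (S.D a S.H) - ev S.H * ev (S.F a)) ^ 2 =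
      ∑ a, ev (S.D a S.H) ^ 2 + ev S.H ^ 2 := by
    have : ∀ a, (-ev (S.D a S.H) - ev S.H * ev (S.F a)) ^ 2 =
        ev (S.D a S.H) ^ 2 + 2 * ev S.H * (ev (S.F a) * ev (S.D a S.H)) +
          ev S.H ^ 2 * (ev (S.F a) * ev (S.F a)) := fun a => by ring
    simp only [this, Finset.sum_add_distrib, ← Finset.mul_sum, h3, S.toSA.Dbound_FF ev]
    ring
  have h5 := S.toSA.Dbound_g ev
  rw [h2, h4]
  linarith

end Pool.Agent.Lib.MP_de485e_gt.Conv
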