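import Mathlib

/-! First touching time on a compact space. -/

open Set

namespace Pool.Agent.Lib.MP_de485e_gt.Conv

theorem maxP {M : Type} [TopologicalSpace M] [CompactSpace M] {G : ℝ × M → ℝ} {a b K : ℝ}
    (hc : ContinuousOn G (Icc a b ×ˢ univ)) (h0 : ∀ x, G (a, x) < K)
    (ht : ∀ t ∈ Ioc a b, ∀ x, (∀ s ∈ Icc a t, ∀ y, G (s, y) ≤ K) → G (t, x) ≠ K) :
    ∀ t ∈ Icc a b, ∀ x, G (t, x) < K := by
  by_contra hcon
  push Not at hcon
  obtain ⟨t₁, ht₁, x₁, hx₁⟩ := hcon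
  have hcl : IsClosed ((Icc a b ×ˢ (univ : Set M)) ∩ G ⁻¹' Ici K) :=
    hc.preimage_isClosed_of_isClosed (isClosed_Icc.prod isClosed_univ) isClosed_Ici
  have hcp : IsCompact ((Icc a b ×ˢ (univ : Set M)) ∩ G ⁻¹' Ici K) :=
    (isCompact_Icc.prod isCompact_univ).of_isClosed_subset hcl inter_subset_left
  obtain ⟨⟨t₀, x₀⟩, ⟨⟨ht₀, -⟩, hK⟩, hmin⟩ :=
    hcp.exists_isMinOn ⟨(t₁, x₁), ⟨ht₁, mem_univ _⟩, hx₁⟩ continuous_fst.continuousOn
  have hK' : K ≤ G (t₀, x₀) := hK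
  have ht₀' : t₀ ∈ Icc a b := ht₀
  have hlt : ∀ s ∈ Ico a t₀, ∀ y, G (s, y) < K := by
    intro s hs y
    by_contra hge
    push Not at hge
    have h1 : t₀ ≤ s :=
      hmin (a := (s, y)) ⟨⟨⟨hs.1, hs.2.le.trans ht₀'.2⟩, mem_univ _⟩, hge⟩
    exact absurd hs.2 (not_lt.mpr h1)
  have ha : a < t₀ := by
    rcases ht₀'.1.eq_or_lt with h | h
    · exact absurd (h0 x₀) (not_lt.mpr (h ▸ hK'))
    · exact h
  have hle : ∀ s ∈ Icc a t₀, ∀ y, G (s, y) ≤ K := by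
    intro s hs y
    have hcy : ContinuousOn (fun r : ℝ => G (r, y)) (Icc a t₀) :=
      hc.comp (continuous_id.prodMk continuous_const).continuousOn
        (fun r hr => ⟨⟨hr.1, hr.2.trans ht₀'.2⟩, mem_univ _⟩)
    have hs' : s ∈ closure (Ico a t₀) := by rwa [closure_Ico ha.ne]
    exact ContinuousWithinAt.closure_le hs' ((hcy s hs).mono Ico_subset_Icc_self)
      continuousWithinAt_const (fun r hr => (hlt r hr y).le)
  exact ht t₀ ⟨ha, ht₀'.2⟩ x₀ hle (le_antisymm (hle t₀ ⟨ha.le, le_rfl⟩ x₀) hK')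

end Pool.Agent.Lib.MP_de485e_gt.Conv
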