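import Pool.Agent.Lib.MP_de485e_gt.Conv.Ineq2

/-! First touching arguments: steps 1, 3, 4 of the proof. -/

namespace Pool.Agent.Lib.MP_de485e_gt.Conv

variable {ι : Type} [Fintype ι] [DecidableEq ι] {R : Type} [CommRing R] [Algebra ℝ R]

theorem Touch1_kap_eq {n : ℕ} (hn : 2 ≤ n) :
    kap n * (2 * n * (n + 1) * (n + 2)) = ((n : ℝ) - 1) * (3 * n + 4) := by
  have h2 : (2 : ℝ) ≤ n := by exact_mod_cast hn
  have h0 : (n : ℝ) ≠ 0 := by positivity
  have h1 : (n : ℝ) + 1 ≠ 0 := by positivity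
  have h3 : (n : ℝ) + 2 ≠ 0 := by positivity
  unfold kap
  field_simp
  ring

theorem Touch1_g_real {n k W u : ℝ} (h2 : 2 ≤ n)
    (hk : k * (2 * n * (n + 1) * (n + 2)) = (n - 1) * (3 * n + 4)) (hW : 0 ≤ W) (hu0 : 0 ≤ u)
    (hu : n * (n + 1) * u ≤ (n - 1) * W) :
    W ≤ 2 * (n + 1) * (n + 2) * (k * W - u) ∧ k * W - u ≤ W := by
  have hn0 : 0 < n := by linarith
  constructor
  · apply le_of_mul_le_mul_left _ hn0
    have e1 : n * (2 * (n + 1) * (n + 2) * (k * W - u)) =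
        (n - 1) * (3 * n + 4) * W - 2 * (n + 2) * (n * (n + 1) * u) := by
      rw [← hk]; ring
    have e2 : 2 * (n + 2) * (n * (n + 1) * u) ≤ 2 * (n + 2) * ((n - 1) * W) :=
      mul_le_mul_of_nonneg_left hu (by linarith)
    have e3 : 0 ≤ n * (n - 2) * W := mul_nonneg (mul_nonneg hn0.le (by linarith)) hW
    rw [e1]
    nlinarith
  · have hp : 0 < 2 * n * (n + 1) * (n + 2) := by positivity
    have hk1 : k ≤ 1 := by
      apply le_of_mul_le_mul_right _ hp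
      rw [hk]
      nlinarith [mul_pos hn0 hn0, mul_pos (mul_pos hn0 hn0) hn0]
    nlinarith

theorem Touch1_Lg_real {n k H a u v G : ℝ} (h2 : 2 ≤ n)
    (hk : k * (2 * n * (n + 1) * (n + 2)) = (n - 1) * (3 * n + 4)) (hv : 0 ≤ v)
    (ha0 : 0 ≤ a) (hu0 : 0 ≤ u) (hu : n * (n + 1) * u ≤ (n - 1) * (n ^ 2 + H ^ 2))
    (hc : 3 * G ≤ (n + 2) * v) (ha : (n + 1) * (a + n) ≤ 2 * (n ^ 2 + H ^ 2)) :
    v ≤ 3 * (n + 1) * (k * (-2 * G + 2 * (H ^ 2 * (a + n))) -
      (-2 * v + 2 * n⁻¹ * G + 2 * (u * (a - n)))) := by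
  have hn0 : 0 < n := by linarith
  have hp : 0 < 2 * n * (n + 1) * (n + 2) := by positivity
  have hk0 : 0 ≤ k := by
    apply le_of_mul_le_mul_right _ hp
    rw [hk, zero_mul]
    exact mul_nonneg (by linarith) (by linarith)
  -- the coefficient of the gradient term
  have hc1 : (k + n⁻¹) * (2 * (n + 1) * (n + 2)) = 5 * n + 7 := by
    apply mul_left_cancel₀ hn0.ne'
    have e : n * ((k + n⁻¹) * (2 * (n + 1) * (n + 2))) =
        k * (2 * n * (n + 1) * (n + 2)) + (n * n⁻¹) * (2 * (n + 1) * (n + 2)) := by ring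
    rw [e, hk, mul_inv_cancel₀ hn0.ne']
    ring
  have hgrad : v ≤ 3 * (n + 1) * (2 * v - 2 * (k + n⁻¹) * G) := by
    have hn2 : 0 < n + 2 := by linarith
    apply le_of_mul_le_mul_left _ hn2
    have e : (n + 2) * (3 * (n + 1) * (2 * v - 2 * (k + n⁻¹) * G)) =
        6 * (n + 1) * (n + 2) * v - ((k + n⁻¹) * (2 * (n + 1) * (n + 2))) * (3 * G) := by ring
    rw [e, hc1]
    have e2 : (5 * n + 7) * (3 * G) ≤ (5 * n + 7) * ((n + 2) * v) :=
      mul_le_mul_of_nonneg_left hc (by linarith)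
    have e3 : 0 ≤ (n + 2) * (n - 2) * v := mul_nonneg (mul_nonneg hn2.le (by linarith)) hv
    nlinarith
  have hreac : u * (a - n) ≤ k * (H ^ 2 * (a + n)) := by
    have hH : 0 ≤ H ^ 2 * (a + n) := mul_nonneg (sq_nonneg H) (by linarith)
    rcases le_or_gt a n with h | h
    · exact le_trans (mul_nonpos_of_nonneg_of_nonpos hu0 (by linarith)) (mul_nonneg hk0 hH)
    · have h1 : n * a ≤ n ^ 2 + 2 * H ^ 2 := by nlinarith
      have h3 : (n ^ 2 + H ^ 2) * (a - n) ≤ H ^ 2 * (a + n) := by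
        have := mul_le_mul_of_nonneg_left h1 hn0.le
        nlinarith
      apply le_of_mul_le_mul_right _ hp
      have e1 : u * (a - n) * (2 * n * (n + 1) * (n + 2)) =
          2 * (n + 2) * (a - n) * (n * (n + 1) * u) := by ring
      have e2 : k * (H ^ 2 * (a + n)) * (2 * n * (n + 1) * (n + 2)) =
          (n - 1) * (3 * n + 4) * (H ^ 2 * (a + n)) := by rw [← hk]; ring
      have e3 : 2 * (n + 2) * (a - n) * (n * (n + 1) * u) ≤
          2 * (n + 2) * (a - n) * ((n - 1) * (n ^ 2 + H ^ 2)) :=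
        mul_le_mul_of_nonneg_left hu (mul_nonneg (by linarith) (by linarith))
      have e4 : 2 * (n + 2) * (n - 1) * ((n ^ 2 + H ^ 2) * (a - n)) ≤
          2 * (n + 2) * (n - 1) * (H ^ 2 * (a + n)) :=
        mul_le_mul_of_nonneg_left h3 (mul_nonneg (by linarith) (by linarith))
      have e5 : 0 ≤ (n - 1) * n * (H ^ 2 * (a + n)) :=
        mul_nonneg (mul_nonneg (by linarith) hn0.le) hH
      rw [e1, e2]
      nlinarith
  have e : k * (-2 * G + 2 * (H ^ 2 * (a + n))) - (-2 * v + 2 * n⁻¹ * G + 2 * (u * (a - n))) =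
      (2 * v - 2 * (k + n⁻¹) * G) + 2 * (k * (H ^ 2 * (a + n)) - u * (a - n)) := by ring
  rw [e]
  have : 0 ≤ 3 * (n + 1) * (2 * (k * (H ^ 2 * (a + n)) - u * (a - n))) :=
    mul_nonneg (by linarith) (by linarith)
  nlinarith

namespace DA

variable (S : DA ι R) (ev : R →ₐ[ℝ] ℝ)

theorem Touch1_W_pos : 0 < ev S.W := by
  have h2 : (2 : ℝ) ≤ S.n := by exact_mod_cast S.hn
  rw [S.ev_W ev]
  positivity

theorem Touch1_Lap_zero {ψ : R} (hD : ∀ a, S.D a ψ = 0) : S.Lap ψ = 0 := by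
  simp [SA.Lap, hD]

theorem Touch1_grad_zero {ψ : R} (hD : ∀ a, S.D a ψ = 0) (g : R) : S.grad ψ g = 0 := by
  simp [SA.grad, hD]

theorem g_bounds (h : S.Pinch ev) :
    ev S.W ≤ 2 * (S.n + 1) * (S.n + 2) * ev (kap S.n • S.W - S.u) ∧
      ev (kap S.n • S.W - S.u) ≤ ev S.W := by
  have h2 : (2 : ℝ) ≤ S.n := by exact_mod_cast S.hn
  obtain ⟨hu0, hu⟩ := S.pin_u ev h
  rw [map_sub, map_smul, smul_eq_mul]
  exact Touch1_g_real h2 (Touch1_kap_eq S.hn) (S.Touch1_W_pos ev).le hu0 hu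

/-- With `d = (n - 1) / (2 (n + 1) (n + 2))`: `kap + 1 / n = 3 / (n + 2) - d`, so the gradient
part is at least `2 d (n + 2) / 3 * v`; the reaction part is nonnegative. -/
theorem L_g (h : S.Pinch ev) : ev S.v ≤ 3 * (S.n + 1) * ev (S.L (kap S.n • S.W - S.u)) := by
  have h2 : (2 : ℝ) ≤ S.n := by exact_mod_cast S.hn
  obtain ⟨hu0, hu⟩ := S.pin_u ev h
  have ha := S.pin_a2 ev h
  rw [S.ev_W ev] at hu ha
  have key := Touch1_Lg_real h2 (Touch1_kap_eq S.hn) (S.v_nonneg ev) (S.a2_nonneg ev) hu0 hu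
    (S.codazzi ev) ha
  rw [S.L_sub, S.L_smul, S.L_W, S.L_u]
  simp only [map_sub, map_add, map_mul, map_smul, map_neg, map_pow, map_ofNat, map_natCast,
    smul_eq_mul]
  exact key

/-- Step 1. -/
theorem touch1 (h : S.Pinch ev) {K : ℝ} (hK : 150 * ((S.n : ℝ) + 2) ^ 3 < K)
    (he : ev S.v = K * ev (kap S.n • S.W - S.u) ^ 2)
    (ht : S.Touch ev (S.v - K • (kap S.n • S.W - S.u) ^ 2)) : False := by
  have h2 : (2 : ℝ) ≤ S.n := by exact_mod_cast S.hn
  obtain ⟨hg1, -⟩ := S.g_bounds ev h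
  have hLg := S.L_g ev h
  have hLv := S.Lv_le ev h
  have hkato := S.kato ev
  have hW := S.Touch1_W_pos ev
  obtain ⟨hD, hL⟩ := ht
  generalize kap S.n • S.W - S.u = g at *
  have hK0 : 0 < K := lt_of_le_of_lt (by positivity) hK
  have hg0 : 0 < ev g := by
    by_contra hc
    have : 2 * ((S.n : ℝ) + 1) * (S.n + 2) * ev g ≤ 0 :=
      mul_nonpos_of_nonneg_of_nonpos (by positivity) (not_lt.mp hc)
    linarith
  have hDv : ∀ a, ev (S.D a S.v) = 2 * K * ev g * ev (S.D a g) := by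
    intro a
    have := hD a
    rw [map_sub, Derivation.map_smul, sq, Derivation.leibniz] at this
    simp only [map_sub, map_add, map_mul, map_smul, smul_eq_mul] at this
    linarith
  have hgv : ev (S.grad S.v S.v) = (2 * K * ev g) ^ 2 * ev (S.grad g g) := by
    simp only [SA.grad, map_sum, map_mul, hDv, Finset.mul_sum]
    exact Finset.sum_congr rfl fun a _ => by ring
  have hq : K * ev (S.grad g g) ≤ ev S.q := by
    have hp : 0 < 4 * K * ev g ^ 2 := by positivity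
    apply le_of_mul_le_mul_left _ hp
    rw [hgv, he] at hkato
    nlinarith
  rw [S.L_sub, S.L_smul, S.L_sq] at hL
  simp only [map_sub, map_mul, map_smul, map_ofNat, smul_eq_mul] at hL
  have hv0 : 0 < ev S.v := by rw [he]; positivity
  -- `2 K g Lg ≤ 50 W v`
  have h1 : 2 * K * ev g * ev (S.L g) ≤ 50 * ev S.W * ev S.v := by nlinarith
  have h3 : 2 * K * ev g * ev S.v ≤ 2 * K * ev g * (3 * (S.n + 1) * ev (S.L g)) :=
    mul_le_mul_of_nonneg_left hLg (by positivity)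
  have h4 : 3 * ((S.n : ℝ) + 1) * (2 * K * ev g * ev (S.L g)) ≤
      3 * ((S.n : ℝ) + 1) * (50 * ev S.W * ev S.v) :=
    mul_le_mul_of_nonneg_left h1 (by positivity)
  have h5 : 2 * K * ev g ≤ 150 * ((S.n : ℝ) + 1) * ev S.W := by
    apply le_of_mul_le_mul_right _ hv0
    nlinarith
  have h6 : 150 * ((S.n : ℝ) + 1) * ev S.W ≤
      150 * ((S.n : ℝ) + 1) * (2 * (S.n + 1) * (S.n + 2) * ev g) :=
    mul_le_mul_of_nonneg_left hg1 (by positivity)
  have h7 : K ≤ 150 * ((S.n : ℝ) + 1) * (S.n + 1) * (S.n + 2) := by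
    have hp : 0 < 2 * ev g := by positivity
    apply le_of_mul_le_mul_right _ hp
    nlinarith
  have h8 : ((S.n : ℝ) + 1) * (S.n + 1) * (S.n + 2) ≤ ((S.n : ℝ) + 2) ^ 3 := by nlinarith
  linarith

/-- Step 3. -/
theorem touch3 {ψ : R} {b ε : ℝ} (hD : ∀ a, S.D a ψ = 0) (hT : S.dt ψ = algebraMap ℝ R (-b))
    (he : ev (ψ * S.W) = 1) (hu : ev S.u ≤ ε * ev S.W) (ht : S.Touch ev (ψ * S.W)) :
    b ≤ 2 * (ε + (S.n : ℝ)⁻¹) := by
  have h2 : (2 : ℝ) ≤ S.n := by exact_mod_cast S.hn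
  have hn0 : (0 : ℝ) < S.n := by linarith
  have hW := S.Touch1_W_pos ev
  obtain ⟨-, hL⟩ := ht
  have hLψ : S.L ψ = algebraMap ℝ R (-b) := by
    rw [DA.L, hT, S.Touch1_Lap_zero hD, sub_zero]
  rw [S.L_mul, hLψ, S.Touch1_grad_zero hD, S.L_W] at hL
  simp only [map_add, map_mul, map_neg, map_pow, map_ofNat, map_natCast,
    AlgHom.commutes, Algebra.algebraMap_self, RingHom.id_apply, mul_zero, sub_zero] at hL
  rw [map_mul] at he
  have hG := S.grad_nonneg ev S.H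
  have hu0 := S.u_nonneg ev
  have hWe := S.ev_W ev
  have hue := S.ev_u ev
  have hψ : 0 < ev ψ := by
    by_contra hc
    have := mul_nonpos_of_nonpos_of_nonneg (not_lt.mp hc) hW.le
    linarith
  have ha : ev S.a2 + S.n = ev S.u + (S.n : ℝ)⁻¹ * ev S.W := by
    rw [hue, hWe]
    field_simp
    ring
  have ha0 : 0 ≤ ev S.a2 + S.n := add_nonneg (S.a2_nonneg ev) hn0.le
  have hH : ev ψ * ev S.H ^ 2 ≤ 1 := by
    rw [← he]
    apply mul_le_mul_of_nonneg_left _ hψ.le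
    rw [hWe]
    nlinarith [sq_nonneg (S.n : ℝ)]
  have h1 : ev ψ * ev S.H ^ 2 * (ev S.a2 + S.n) ≤ 1 * (ev S.a2 + S.n) :=
    mul_le_mul_of_nonneg_right hH ha0
  have h3 : 0 ≤ ev ψ * ev (S.grad S.H S.H) := mul_nonneg hψ.le hG
  apply le_of_mul_le_mul_right _ hW
  nlinarith

/-- Step 4. -/
theorem touch4 {E τ : R} (hD : ∀ a, S.D a E = 0) (hT : S.dt E = -(S.n * E))
    (hD' : ∀ a, S.D a τ = 0) (hT' : S.dt τ = 1) (c : ι → ℝ) {ε : ℝ} (hε : 0 < ε)
    (ht : S.Touch ev (E * ∑ a, c a • S.F a - ε • τ)) : False := by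
  obtain ⟨-, hL⟩ := ht
  have hE : S.L E = -(S.n * E) := by rw [DA.L, hT, S.Touch1_Lap_zero hD, sub_zero]
  have hτ : S.L τ = 1 := by rw [DA.L, hT', S.Touch1_Lap_zero hD', sub_zero]
  have hF : S.L (∑ a, c a • S.F a) = S.n * ∑ a, c a • S.F a := by
    rw [S.L_sum, Finset.mul_sum]
    exact Finset.sum_congr rfl fun a _ => by rw [S.L_smul, S.L_F, mul_smul_comm]
  have key : S.L (E * ∑ a, c a • S.F a - ε • τ) = -(ε • (1 : R)) := by
    rw [S.L_sub, S.L_mul, S.L_smul, hE, hτ, hF, S.Touch1_grad_zero hD]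
    ring
  rw [key, map_neg, map_smul, map_one, smul_eq_mul] at hL
  linarith

end DA

end Pool.Agent.Lib.MP_de485e_gt.Conv
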