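import Pool.Agent.Lib.MP_de485e_gt.Conv.Ineq2

/-! Step 2 of the proof: the improved pinching. -/

namespace Pool.Agent.Lib.MP_de485e_gt.Conv

variable {ι : Type} [Fintype ι] [DecidableEq ι] {R : Type} [CommRing R] [Algebra ℝ R]

/-- The weight of `v`. -/
noncomputable def lam (n : ℕ) (C : ℝ) : ℝ := (9 * (50 + 7 * (n + 2) * C))⁻¹

/-- The gain in the exponent. -/
noncomputable def sig (n : ℕ) (C : ℝ) : ℝ := lam n C / (2 * (12544 * (n : ℝ) ^ 2 * (n + 2)))

theorem Touch2_lam_mul (n : ℕ) {C : ℝ} (hC : 0 < C) :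
    lam n C * (9 * (50 + 7 * (n + 2) * C)) = 1 :=
  inv_mul_cancel₀ (by positivity)

theorem lam_pos (n : ℕ) {C : ℝ} (hC : 0 < C) : 0 < lam n C ∧ lam n C ≤ 1 := by
  refine ⟨by unfold lam; positivity, inv_le_one_of_one_le₀ ?_⟩
  have : 0 < 7 * ((n : ℝ) + 2) * C := by positivity
  linarith

theorem sig_pos {n : ℕ} (hn : 2 ≤ n) {C : ℝ} (hC : 0 < C) :
    0 < sig n C ∧ sig n C ≤ 1 / 2 := by
  obtain ⟨h0, h1⟩ := lam_pos n hC
  have hn' : (2 : ℝ) ≤ n := by exact_mod_cast hn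
  have hK : 1 ≤ 12544 * (n : ℝ) ^ 2 * (n + 2) := by nlinarith
  refine ⟨by unfold sig; positivity, ?_⟩
  unfold sig
  rw [div_le_iff₀ (by positivity)]
  linarith

theorem Touch2_real {n C l g K W H2 m u v q gH gvv gvW guW Lu LW Lv LP ph : ℝ}
    (hn : 2 ≤ n) (hC : 0 < C) (hl0 : 0 < l) (hl : l * (9 * (50 + 7 * (n + 2) * C)) = 1)
    (hg0 : 0 < g) (hg1 : g ≤ 1 / 2) (hgK : 2 * g * K = l)
    (hW : W = n ^ 2 + H2) (hH2 : 0 ≤ H2) (hu : 0 ≤ u) (hv : 0 ≤ v) (hq : 0 ≤ q) (hgH : 0 ≤ gH)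
    (hm : n * m = n * u + W) (hm2 : (n + 1) * m ≤ 2 * W) (hcod : 3 * gH ≤ (n + 2) * v)
    (hkato : gvv ≤ 4 * v * q) (hcs : gvW ^ 2 ≤ gvv * (4 * H2 * gH)) (hpq : W ^ 2 * u ≤ K * q)
    (hvC : v ≤ C * W ^ 2) (hLu : n * Lu = -2 * n * v + 2 * gH + 2 * n * (u * (m - 2 * n)))
    (hLW : LW = -2 * gH + 2 * (H2 * m)) (hLv : Lv ≤ -2 * q + 50 * W * v)
    (hph : ph = u * W + l * v) (hph0 : 0 < ph)
    (hLP : W ^ 2 * LP = (2 - g) * (W * ph * LW) - (2 - g) * (2 - g - 1) * (ph * (4 * H2 * gH)) -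
      1 / 2 * (W ^ 2 * ph))
    (hgu : W ^ 2 * guW = (2 - g) * ph * (4 * H2 * gH) - u * W * (4 * H2 * gH) - l * W * gvW)
    (ht : 0 ≤ u * LW + W * Lu - 2 * guW + l * Lv - LP) : False := by
  have hn0 : 0 < n := by linarith
  have hW4 : 4 ≤ W := by nlinarith only [hW, hH2, hn]
  have hW0 : 0 < W := by linarith
  have hHW : H2 ≤ W := by linarith only [hW, sq_nonneg n]
  have hm0 : 0 ≤ m := by
    by_contra hneg
    have h1 := mul_pos hn0 (neg_pos.2 (not_le.1 hneg))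
    have h2 := mul_nonneg hn0.le hu
    linarith
  have hmW : m ≤ W := by
    linarith only [hm2, hm0, mul_nonneg (sub_nonneg.2 hn) hm0]
  obtain ⟨w, hw⟩ : ∃ w, W = n * w := ⟨W / n, by field_simp⟩
  have hm' : m = u + w := by
    apply mul_left_cancel₀ hn0.ne'
    rw [hm, hw]
    ring
  have hWLu : W * Lu = -2 * W * v + 2 * w * gH + 2 * W * (u * (m - 2 * n)) := by
    have : W * Lu = w * (n * Lu) := by rw [hw]; ring
    rw [this, hLu, hw]
    ring
  have hgW : 0 ≤ 4 * H2 * gH := by positivity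
  have hlv : 0 ≤ l * v := by positivity
  have huW : 0 ≤ u * W := by positivity
  have b0 : ((2 - g) * (2 - g - 3) * ph + 2 * (u * W)) * (4 * H2 * gH) ≤ 0 := by
    refine mul_nonpos_of_nonpos_of_nonneg ?_ hgW
    have h1 : (2 - g) * (2 - g - 3) ≤ -2 := by nlinarith only [hg0, hg1]
    have h2 := mul_le_mul_of_nonneg_right h1 hph0.le
    linarith
  have bA : gH * m ≤ 8 / 9 * (W * v) := by
    have h1 : (3 * gH) * ((n + 1) * m) ≤ ((n + 2) * v) * (2 * W) :=
      mul_le_mul hcod hm2 (by positivity) (by positivity)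
    have h2 : 0 ≤ (n - 2) * (W * v) := mul_nonneg (by linarith) (by positivity)
    have h3 : (n + 1) * (gH * m) ≤ (n + 1) * (8 / 9 * (W * v)) := by linarith only [h1, h2]
    exact le_of_mul_le_mul_left h3 (by linarith)
  have bA' : 2 * w * gH + 2 * ((1 - g) * u * gH) ≤ 16 / 9 * (W * v) := by
    have h1 : 0 ≤ g * u * gH := by positivity
    have h2 : gH * m = gH * u + gH * w := by rw [hm']; ring
    linarith only [h1, h2, bA]
  have bB : W * (m - 2 * n) - (1 - g) * (H2 * m) ≤ -W + g * W ^ 2 := by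
    have h1 : n ^ 2 * m ≤ (2 * n - 1) * W := by
      have h2 : (n + 1) * (n ^ 2 * m) ≤ (n + 1) * ((2 * n - 1) * W) := by
        have h3 := mul_le_mul_of_nonneg_left hm2 (sq_nonneg n)
        have h4 : 0 ≤ (n - 1) * W := mul_nonneg (by linarith) hW0.le
        linarith only [h3, h4]
      exact le_of_mul_le_mul_left h2 (by linarith)
    have h2 : H2 * m ≤ W * W := mul_le_mul hHW hmW hm0 hW0.le
    have h3 := mul_le_mul_of_nonneg_left h2 hg0.le
    have h4 : W * m = n ^ 2 * m + H2 * m := by rw [hW]; ring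
    linarith only [h1, h3, h4]
  have bB' := mul_le_mul_of_nonneg_left bB hu
  have bC1 : 2 * gvW ≤ q * W + 16 * (v * gH) := by
    have h1 : gvv * (4 * H2 * gH) ≤ (4 * v * q) * (4 * W * gH) :=
      (mul_le_mul_of_nonneg_right hkato hgW).trans
        (mul_le_mul_of_nonneg_left (by gcongr) (by positivity))
    refine (le_abs_self _).trans (abs_le_of_sq_le_sq' ?_ (by positivity) |> abs_le.2)
    linarith only [sq_nonneg (q * W - 16 * (v * gH)), h1, hcs]
  have bC2 : 3 * (v * gH) ≤ (n + 2) * C * (W ^ 2 * v) := by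
    have h1 := mul_le_mul_of_nonneg_left hcod hv
    have h2 := mul_le_mul_of_nonneg_left hvC (show 0 ≤ (n + 2) * v by positivity)
    linarith only [h1, h2]
  have bC3 : -((2 - g) * (v * LW)) ≤ 4 * (v * gH) := by
    have h1 : 0 ≤ (2 - g) * (v * (H2 * m)) := mul_nonneg (by linarith) (by positivity)
    have h2 : 0 ≤ g * (v * gH) := by positivity
    rw [hLW]
    linarith only [h1, h2]
  have bC4 := mul_le_mul_of_nonneg_left hLv hW0.le
  have hpos : 0 ≤ (n + 2) * C * (W ^ 2 * v) := by positivity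
  have bC : -((2 - g) * (v * LW)) + W * Lv + 2 * gvW ≤
      -(q * W) + (50 + 7 * (n + 2) * C) * (W ^ 2 * v) := by
    linarith only [bC1, bC2, bC3, bC4, hpos]
  have bC' := mul_le_mul_of_nonneg_left bC hl0.le
  have hl9 : l * ((50 + 7 * (n + 2) * C) * (W ^ 2 * v)) = 1 / 9 * (W ^ 2 * v) := by
    have : l * (50 + 7 * (n + 2) * C) = 1 / 9 := by linarith
    rw [← mul_assoc, this]
  have bD : 2 * g * (W ^ 2 * u) * W ≤ l * q * W := by
    refine mul_le_mul_of_nonneg_right ?_ hW0.le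
    have := mul_le_mul_of_nonneg_left hpq (show 0 ≤ 2 * g by positivity)
    rw [← hgK]
    linarith
  have hl1 : l ≤ 1 / 450 := by
    have : 0 ≤ l * ((n + 2) * C) := by positivity
    linarith only [this, hl]
  have bE : l * (W * v) ≤ 1 / 9 * (W ^ 2 * v) := by
    have h1 : l ≤ 1 / 9 * W := by linarith
    have h2 := mul_le_mul_of_nonneg_right h1 (show 0 ≤ W * v by positivity)
    linarith only [h2]
  have key : W ^ 2 * (u * LW + W * Lu - 2 * guW + l * Lv - LP) =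
      ((2 - g) * (2 - g - 3) * ph + 2 * (u * W)) * (4 * H2 * gH) +
      W * (W * (-2 * W * v + (2 * w * gH + 2 * ((1 - g) * u * gH)) +
          2 * (u * (W * (m - 2 * n) - (1 - g) * (H2 * m)))) +
        l * (-((2 - g) * (v * LW)) + W * Lv + 2 * gvW) + W * (u * W + l * v) / 2) := by
    have e1 : W ^ 2 * (u * LW + W * Lu - 2 * guW + l * Lv - LP) =
        W ^ 2 * u * LW + W ^ 2 * (W * Lu) - 2 * (W ^ 2 * guW) + l * W ^ 2 * Lv - W ^ 2 * LP := by
      ring
    rw [e1, hWLu, hgu, hLP, hph, hLW]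
    ring
  have h0 := mul_nonneg (sq_nonneg W) ht
  rw [key] at h0
  have h1 : W * (-2 * W * v + (2 * w * gH + 2 * ((1 - g) * u * gH)) +
      2 * (u * (W * (m - 2 * n) - (1 - g) * (H2 * m)))) ≤
      W * (-2 * W * v + 16 / 9 * (W * v) + 2 * (u * (-W + g * W ^ 2))) :=
    mul_le_mul_of_nonneg_left (by linarith) hW0.le
  have h2 : W * (-2 * W * v + (2 * w * gH + 2 * ((1 - g) * u * gH)) +
          2 * (u * (W * (m - 2 * n) - (1 - g) * (H2 * m)))) +
        l * (-((2 - g) * (v * LW)) + W * Lv + 2 * gvW) + W * (u * W + l * v) / 2 ≤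
      -(1 / 18 * (W ^ 2 * v)) - 3 / 2 * (W ^ 2 * u) := by
    linarith only [h1, bC', hl9, bD, bE]
  have h3 : 0 < 1 / 18 * (W ^ 2 * v) + 3 / 2 * (W ^ 2 * u) := by
    rcases hu.eq_or_lt with h | h
    · have hv0 : 0 < v := by
        rw [hph, ← h, zero_mul, zero_add] at hph0
        exact (mul_pos_iff_of_pos_left hl0).1 hph0
      positivity
    · positivity
  have h4 := mul_le_mul_of_nonneg_left h2 hW0.le
  have h5 := mul_pos hW0 h3
  linarith only [h0, b0, h4, h5]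

namespace DA

variable (S : DA ι R) (ev : R →ₐ[ℝ] ℝ)

/-- Apply `D a` to `hD` and sum. -/
theorem L_pow {Φ : R} {s δ : ℝ} (hD : ∀ a, S.W * S.D a Φ = s • (Φ * S.D a S.W))
    (hT : S.W * S.dt Φ = s • (Φ * S.dt S.W) - δ • (S.W * Φ)) :
    S.W ^ 2 * S.L Φ = s • (S.W * Φ * S.L S.W) - (s * (s - 1)) • (Φ * S.grad S.W S.W) -
      δ • (S.W ^ 2 * Φ) := by
  have h1 : ∀ a, S.W ^ 2 * S.D a (S.D a Φ) =
      algebraMap ℝ R s * (algebraMap ℝ R s - 1) * (Φ * (S.D a S.W * S.D a S.W)) +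
        algebraMap ℝ R s * (S.W * Φ * S.D a (S.D a S.W)) := by
    intro a
    have e1 := hD a
    have e2 := congrArg (S.D a) e1
    simp only [Derivation.leibniz, Derivation.map_smul, smul_eq_mul] at e2
    rw [Algebra.smul_def] at e1 e2
    linear_combination S.W * e2 + (algebraMap ℝ R s - 1) * S.D a S.W * e1
  have h2 : S.W ^ 2 * S.Lap Φ =
      algebraMap ℝ R s * (algebraMap ℝ R s - 1) * (Φ * S.grad S.W S.W) +
        algebraMap ℝ R s * (S.W * Φ * S.Lap S.W) := by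
    simp only [SA.Lap, SA.grad, Finset.mul_sum, ← Finset.sum_add_distrib]
    exact Finset.sum_congr rfl fun a _ => h1 a
  simp only [Algebra.smul_def, map_mul, map_sub, map_one] at hT ⊢
  unfold L
  linear_combination S.W * hT - h2

/-- Step 2 of the proof note, with `gam0 = (n - 1) / (3 (n + 1)) ≥ 1 / 9`,
`C2 = 50 + 20 (n + 2) C / 3 ≤ 50 + 7 (n + 2) C`. Uses `L_u`, `L_W`, `Lv_le`, `kato`, `codazzi`,
`pin_u`, `pin_q`, `pin_a2`, `grad_W`. -/
theorem touch2 (h : S.Pinch ev) {C : ℝ} (hC : 0 < C) (hv : ev S.v ≤ C * ev S.W ^ 2) {Φ : R}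
    (hD : ∀ a, S.W * S.D a Φ = (2 - sig S.n C) • (Φ * S.D a S.W))
    (hT : S.W * S.dt Φ = (2 - sig S.n C) • (Φ * S.dt S.W) - (1 / 2 : ℝ) • (S.W * Φ))
    (hΦ : 0 < ev Φ) (he : ev (S.u * S.W + lam S.n C • S.v) = ev Φ)
    (ht : S.Touch ev (S.u * S.W + lam S.n C • S.v - Φ)) : False := by
  have hn : (2 : ℝ) ≤ S.n := by exact_mod_cast S.hn
  have hn0 : (S.n : ℝ) ≠ 0 := by linarith
  have hP := congrArg ev (S.L_pow hD hT)
  simp only [map_mul, map_pow, map_sub, map_smul, smul_eq_mul] at hP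
  have hgW := S.grad_W ev
  have hLu := congrArg ev S.L_u
  have hLW := congrArg ev S.L_W
  simp only [map_mul, map_pow, map_sub, map_add, map_smul, smul_eq_mul, map_neg, map_ofNat,
    map_natCast] at hLu hLW
  have h2 := ht.2
  rw [S.L_sub, S.L_add, S.L_mul, S.L_smul] at h2
  simp only [map_mul, map_sub, map_add, map_smul, smul_eq_mul, map_ofNat] at h2 he
  have h1 : ∀ a, ev S.W ^ 2 * (ev (S.D a S.u) * ev (S.D a S.W)) =
      (2 - sig S.n C) * ev Φ * (ev (S.D a S.W) * ev (S.D a S.W)) -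
        ev S.u * ev S.W * (ev (S.D a S.W) * ev (S.D a S.W)) -
        lam S.n C * ev S.W * (ev (S.D a S.v) * ev (S.D a S.W)) := by
    intro a
    have e1 := ht.1 a
    have e2 := congrArg ev (hD a)
    simp only [map_sub, map_add, Derivation.leibniz, Derivation.map_smul, map_smul, smul_eq_mul,
      map_mul] at e1 e2
    linear_combination ev S.W * ev (S.D a S.W) * e1 + ev (S.D a S.W) * e2
  have hgu : ev S.W ^ 2 * ev (S.grad S.u S.W) =
      (2 - sig S.n C) * ev Φ * ev (S.grad S.W S.W) - ev S.u * ev S.W * ev (S.grad S.W S.W) -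
        lam S.n C * ev S.W * ev (S.grad S.v S.W) := by
    simp only [SA.grad, map_sum, map_mul, Finset.mul_sum, ← Finset.sum_sub_distrib]
    exact Finset.sum_congr rfl fun a _ => h1 a
  have hcs := S.grad_sq_le ev S.v S.W
  rw [hgW] at hgu hP hcs
  have hu := S.ev_u ev
  have hW := S.ev_W ev
  refine Touch2_real (n := S.n) (C := C) (l := lam S.n C) (g := sig S.n C)
    (K := 12544 * (S.n : ℝ) ^ 2 * (S.n + 2)) (W := ev S.W) (H2 := ev S.H ^ 2)
    (m := ev S.a2 + S.n) (u := ev S.u) (v := ev S.v) (q := ev S.q) (gH := ev (S.grad S.H S.H))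
    (gvv := ev (S.grad S.v S.v)) (gvW := ev (S.grad S.v S.W)) (guW := ev (S.grad S.u S.W))
    (Lu := ev (S.L S.u)) (LW := ev (S.L S.W)) (Lv := ev (S.L S.v)) (LP := ev (S.L Φ))
    (ph := ev Φ) hn hC (lam_pos _ hC).1 (Touch2_lam_mul _ hC) (sig_pos S.hn hC).1
    (sig_pos S.hn hC).2 ?_ hW (sq_nonneg _) (S.u_nonneg ev) (S.v_nonneg ev) (S.q_nonneg ev)
    (S.grad_nonneg ev _) ?_ (S.pin_a2 ev h) (S.codazzi ev) (S.kato ev) hcs (S.pin_q ev h) hv ?_
    hLW (S.Lv_le ev h) he.symm hΦ hP hgu ?_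
  · unfold sig
    field_simp
  · rw [hu, hW]
    field_simp
    ring
  · rw [hLu]
    field_simp
    ring
  · linarith

end DA

end Pool.Agent.Lib.MP_de485e_gt.Conv
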