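import Pool.Agent.Lib.MP_de485e_gt.Conv.Mod4
import Pool.Agent.Lib.MP_de485e_gt.Conv.Touch1
import Pool.Agent.Lib.MP_de485e_gt.Conv.Touch2
import Pool.Agent.Lib.MP_de485e_gt.Conv.MaxP

/-! The gradient estimate and the improved pinching. -/

open Set Filter Topology
open scoped RealInnerProductSpace InnerProduct Manifold ContDiff

namespace Pool.Agent.Lib.MP_de485e_gt.Conv

variable {P Q : Type} [NormedAddCommGroup P] [InnerProductSpace ℝ P] [CompleteSpace P]
  [FiniteDimensional ℝ P] [NormedAddCommGroup Q] [InnerProductSpace ℝ Q] [CompleteSpace Q]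
  [FiniteDimensional ℝ Q] {M : Type} [TopologicalSpace M] [ChartedSpace P M] [CompactSpace M]
  [IsManifold 𝓘(ℝ, P) ∞ M] {F : ℝ → M → Q} {n : ℕ} {ι : Type} [Fintype ι] [DecidableEq ι]

/-- A function continuous on `J × M` is bounded at every time of `J`. -/
theorem Est1_bdd {N : Type} [TopologicalSpace N] [CompactSpace N] {G : ℝ × N → ℝ} {J : Set ℝ}
    (hc : ContinuousOn G (J ×ˢ univ)) {t : ℝ} (ht : t ∈ J) :
    ∃ B : ℝ, 0 ≤ B ∧ ∀ x, G (t, x) ≤ B := by
  have h1 : ContinuousOn (fun x : N => G (t, x)) univ :=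
    hc.comp (continuous_const.prodMk continuous_id).continuousOn fun x _ => ⟨ht, mem_univ _⟩
  obtain ⟨B, hB⟩ := isCompact_univ.bddAbove_image h1
  exact ⟨max B 0, le_max_right _ _, fun x => (hB ⟨x, mem_univ _, rfl⟩).trans (le_max_left _ _)⟩

/-- The derivation rules of the comparison function `K • (E * Ψ)`. -/
theorem Est1_der {R : Type} [CommRing R] [Algebra ℝ R] (d : Derivation ℝ R R) {W E Ψ : R}
    {K s δ : ℝ} (hE : d E = -(δ • E)) (hΨ : W * d Ψ = s • (Ψ * d W)) :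
    W * d (K • (E * Ψ)) = s • (K • (E * Ψ) * d W) - δ • (W * K • (E * Ψ)) := by
  rw [Derivation.map_smul, Derivation.leibniz, hE]
  simp only [smul_eq_mul, Algebra.smul_def] at hΨ ⊢
  linear_combination algebraMap ℝ R K * E * hΨ

namespace Flow

variable {J : Set ℝ} (h : Flow P n F J) (b : OrthonormalBasis ι ℝ Q)

omit [CompactSpace M] in
/-- Pointwise bounds. -/
theorem Est1_pt {t : ℝ} (ht : t ∈ J) (x : M) :
    1 ≤ (h.data b).W t x ∧ 0 ≤ (h.data b).u t x ∧ 0 ≤ (h.data b).v t x ∧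
      (h.data b).W t x ≤ 2 * (n + 1) * (n + 2) * (kap n * (h.data b).W t x - (h.data b).u t x) ∧
      kap n * (h.data b).W t x - (h.data b).u t x ≤ (h.data b).W t x := by
  obtain ⟨m⟩ := h.exists_model ht x
  have eW := m.ev_W b ⟨(t, x), m.mem⟩
  have eu := m.ev_u b ⟨(t, x), m.mem⟩
  have ev' := m.ev_v b ⟨(t, x), m.mem⟩
  have hg := (m.S b).g_bounds _ (m.pinch b ⟨(t, x), m.mem⟩)
  have hW := (m.S b).ev_W (ev ⟨(t, x), m.mem⟩)
  have hu := (m.S b).u_nonneg (ev ⟨(t, x), m.mem⟩)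
  have hv := (m.S b).v_nonneg (ev ⟨(t, x), m.mem⟩)
  have h2 : (2 : ℝ) ≤ n := by exact_mod_cast h.dim.hn
  rw [map_sub, map_smul, smul_eq_mul, eW, eu, m.S_n] at hg
  rw [eW, m.S_n] at hW
  rw [eu] at hu
  rw [ev'] at hv
  refine ⟨?_, hu, hv, hg.1, hg.2⟩
  have hW' : (h.data b).W t x = (n : ℝ) ^ 2 + ev ⟨(t, x), m.mem⟩ (m.S b).H ^ 2 := hW
  rw [hW']
  nlinarith [sq_nonneg (ev ⟨(t, x), m.mem⟩ (m.S b).H)]

/-- `maxP` for `G = v - K (kap W - u) ^ 2` at level `0` on `[t₁, t]`, `touch1`, `g_bounds`. -/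
theorem est1 {t₁ : ℝ} (h₁ : t₁ ∈ J) : ∃ C : ℝ, 0 < C ∧ ∀ t ∈ J, t₁ ≤ t → ∀ x,
    (h.data b).v t x ≤ C * (h.data b).W t x ^ 2 := by
  obtain ⟨B, hB0, hB⟩ := Est1_bdd (h.cont_v b) h₁
  obtain ⟨c, hc⟩ : ∃ c : ℝ, c = 2 * (n + 1) * (n + 2) := ⟨_, rfl⟩
  have hc0 : 0 < c := by rw [hc]; positivity
  obtain ⟨K, hK⟩ : ∃ K : ℝ, K = 150 * ((n : ℝ) + 2) ^ 3 + B * c ^ 2 + 1 := ⟨_, rfl⟩
  have hn3 : 0 ≤ 150 * ((n : ℝ) + 2) ^ 3 := by positivity
  have hBc : 0 ≤ B * c ^ 2 := by positivity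
  have hK0 : 0 < K := by linarith
  have hg0 : ∀ t ∈ J, ∀ x, 0 < kap n * (h.data b).W t x - (h.data b).u t x := by
    intro t ht x
    obtain ⟨hW, -, -, hg, -⟩ := h.Est1_pt b ht x
    rw [← hc] at hg
    exact (mul_pos_iff_of_pos_left hc0).1 (by linarith)
  refine ⟨K, hK0, fun t ht h1 x => ?_⟩
  have hsub : Icc t₁ t ⊆ J := h.ord.out h₁ ht
  have key := maxP (G := fun z : ℝ × M => (h.data b).v z.1 z.2 -
      K * (kap n * (h.data b).W z.1 z.2 - (h.data b).u z.1 z.2) ^ 2) (a := t₁) (b := t) (K := 0)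
    (((h.cont_v b).sub (continuousOn_const.mul
      (((continuousOn_const.mul (h.cont_W b)).sub (h.cont_u b)).pow 2))).mono
        (prod_mono_left hsub)) ?_ ?_ t ⟨h1, le_rfl⟩ x
  · obtain ⟨hW, -, -, -, hg⟩ := h.Est1_pt b ht x
    have h2 : (kap n * (h.data b).W t x - (h.data b).u t x) ^ 2 ≤ (h.data b).W t x ^ 2 :=
      pow_le_pow_left₀ (hg0 t ht x).le hg 2
    have h3 := mul_le_mul_of_nonneg_left h2 hK0.le
    have h4 : (h.data b).v t x - K * (kap n * (h.data b).W t x - (h.data b).u t x) ^ 2 < 0 := key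
    linarith
  · intro y
    obtain ⟨hW, -, -, hg, -⟩ := h.Est1_pt b h₁ y
    have hy : (h.data b).v t₁ y ≤ B := hB y
    have hp := hg0 t₁ h₁ y
    rw [← hc] at hg
    show (h.data b).v t₁ y - K * (kap n * (h.data b).W t₁ y - (h.data b).u t₁ y) ^ 2 < 0
    generalize kap n * (h.data b).W t₁ y - (h.data b).u t₁ y = g at hg hp
    have h2 : 1 ≤ (c * g) ^ 2 := one_le_pow₀ (hW.trans hg)
    have h3 := mul_le_mul_of_nonneg_left h2 hB0
    have h4 : 0 < g ^ 2 := by positivity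
    have h5 := mul_nonneg hn3 h4.le
    have h6 : K * g ^ 2 = 150 * ((n : ℝ) + 2) ^ 3 * g ^ 2 + B * (c * g) ^ 2 + g ^ 2 := by
      rw [hK]; ring
    linarith
  · intro s hs y hle he
    obtain ⟨m⟩ := h.exists_model (hsub ⟨hs.1.le, hs.2⟩) y
    have e : ∀ z : m.O, ev z ((m.S b).v - K • (kap (m.S b).n • (m.S b).W - (m.S b).u) ^ 2) =
        (h.data b).v z.1.1 z.1.2 -
          K * (kap n * (h.data b).W z.1.1 z.1.2 - (h.data b).u z.1.1 z.1.2) ^ 2 := by
      intro z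
      rw [map_sub, map_smul, map_pow, map_sub, map_smul, m.ev_v, m.ev_W, m.ev_u, m.S_n,
        smul_eq_mul, smul_eq_mul]
    have hT := m.touch b _ (G := fun z : ℝ × M => (h.data b).v z.1 z.2 -
      K * (kap n * (h.data b).W z.1 z.2 - (h.data b).u z.1 z.2) ^ 2) e hs.1
      (fun r hr w => (hle r hr w).trans he.ge)
    refine (m.S b).touch1 _ (m.pinch b _) (K := K) (by rw [m.S_n]; linarith) ?_ hT
    have e1 := (e ⟨(s, y), m.mem⟩).trans he
    rw [map_sub, map_smul, map_pow, smul_eq_mul] at e1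
    linarith

/-- `maxP` for `G = u W + lam v - K exp (-t / 2) W ^ (2 - sig)` at level `0`, `touch2` with
`Φ = K • (E * W ^ (2 - sig))` from `exists_time`, `exists_rpow`. -/
theorem est2 : Est2 J (h.data b) := by
  intro t₁ h₁
  obtain ⟨C, hC, hv⟩ := h.est1 b h₁
  obtain ⟨hl0, hl1⟩ := lam_pos n hC
  obtain ⟨hs0, hs1⟩ := sig_pos h.dim.hn hC
  have hc1 : ContinuousOn (fun z : ℝ × M => (h.data b).u z.1 z.2 * (h.data b).W z.1 z.2 +
      lam n C * (h.data b).v z.1 z.2) (J ×ˢ univ) :=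
    ((h.cont_u b).mul (h.cont_W b)).add (continuousOn_const.mul (h.cont_v b))
  have hc2 : ContinuousOn (fun z : ℝ × M => Real.exp (-z.1 / 2) *
      (h.data b).W z.1 z.2 ^ (2 - sig n C)) (J ×ˢ univ) :=
    (by fun_prop : Continuous fun z : ℝ × M => Real.exp (-z.1 / 2)).continuousOn.mul
      ((h.cont_W b).rpow_const fun z _ => Or.inr (by linarith))
  obtain ⟨B, hB0, hB⟩ := Est1_bdd hc1 h₁
  obtain ⟨K, hK⟩ : ∃ K : ℝ, K = (B + 1) * Real.exp (t₁ / 2) := ⟨_, rfl⟩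
  have hK0 : 0 < K := by rw [hK]; positivity
  refine ⟨K / lam n C, sig n C, div_pos hK0 hl0, hs0, fun t ht h1 x => ?_⟩
  have hsub : Icc t₁ t ⊆ J := h.ord.out h₁ ht
  have key := maxP (G := fun z : ℝ × M => (h.data b).u z.1 z.2 * (h.data b).W z.1 z.2 +
      lam n C * (h.data b).v z.1 z.2 -
        K * (Real.exp (-z.1 / 2) * (h.data b).W z.1 z.2 ^ (2 - sig n C)))
    (a := t₁) (b := t) (K := 0)
    ((hc1.sub (continuousOn_const.mul hc2)).mono (prod_mono_left hsub)) ?_ ?_ t ⟨h1, le_rfl⟩ x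
  · obtain ⟨hW, hu0, hv0, -, -⟩ := h.Est1_pt b ht x
    have h4 : (h.data b).u t x * (h.data b).W t x + lam n C * (h.data b).v t x -
      K * (Real.exp (-t / 2) * (h.data b).W t x ^ (2 - sig n C)) < 0 := key
    generalize (h.data b).W t x = W at hW h4 ⊢
    generalize (h.data b).u t x = u at hu0 h4 ⊢
    generalize (h.data b).v t x = v at hv0 h4 ⊢
    have hW0 : 0 < W := by linarith
    have e1 : W ^ (2 - sig n C) = W ^ (-sig n C) * W ^ 2 := by
      rw [sub_eq_neg_add, Real.rpow_add hW0, Real.rpow_two]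
    rw [e1] at h4
    have hp : 0 < Real.exp (-t / 2) * W ^ (-sig n C) :=
      mul_pos (Real.exp_pos _) (Real.rpow_pos_of_pos hW0 _)
    have hKK : K ≤ K / lam n C := by
      rw [le_div_iff₀ hl0]
      exact mul_le_of_le_one_right hK0.le hl1
    have e2 : K / lam n C * lam n C = K := div_mul_cancel₀ _ hl0.ne'
    generalize K / lam n C = K' at hKK e2 ⊢
    have hlv := mul_nonneg hl0.le hv0
    have huW := mul_nonneg hu0 hW0.le
    constructor
    · apply le_of_mul_le_mul_right _ hW0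
      have h5 := mul_le_mul_of_nonneg_right hKK (mul_pos hp (pow_pos hW0 2)).le
      nlinarith
    · apply le_of_mul_le_mul_left _ hl0
      have e3 : lam n C * (K' * Real.exp (-t / 2) * W ^ (-sig n C) * W ^ 2) =
          K * (Real.exp (-t / 2) * (W ^ (-sig n C) * W ^ 2)) := by rw [← e2]; ring
      linarith
  · intro y
    obtain ⟨hW, -⟩ := h.Est1_pt b h₁ y
    have hy : (h.data b).u t₁ y * (h.data b).W t₁ y + lam n C * (h.data b).v t₁ y ≤ B := hB y
    show (h.data b).u t₁ y * (h.data b).W t₁ y + lam n C * (h.data b).v t₁ y -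
      K * (Real.exp (-t₁ / 2) * (h.data b).W t₁ y ^ (2 - sig n C)) < 0
    have h2 : 1 ≤ (h.data b).W t₁ y ^ (2 - sig n C) := Real.one_le_rpow hW (by linarith)
    have e1 : Real.exp (t₁ / 2) * Real.exp (-t₁ / 2) = 1 := by
      rw [← Real.exp_add, show t₁ / 2 + -t₁ / 2 = 0 by ring, Real.exp_zero]
    have e2 : K * (Real.exp (-t₁ / 2) * (h.data b).W t₁ y ^ (2 - sig n C)) =
        (B + 1) * (h.data b).W t₁ y ^ (2 - sig n C) := by
      rw [hK, mul_assoc, ← mul_assoc (Real.exp _), e1, one_mul]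
    have h3 := mul_le_mul_of_nonneg_left h2 (show 0 ≤ B + 1 by linarith)
    linarith
  · intro s hs y hle he
    have hsJ : s ∈ J := hsub ⟨hs.1.le, hs.2⟩
    obtain ⟨m⟩ := h.exists_model hsJ y
    obtain ⟨E, hE, hED, hET⟩ := m.dom.exists_time (f := fun r => Real.exp (-r / 2))
      (f' := fun r => Real.exp (-r / 2) * (-1 / 2)) (by fun_prop)
      fun r => ((hasDerivAt_id r).neg.div_const 2).exp
    obtain ⟨Ψ, hΨ, hΨD, hΨT⟩ := m.dom.exists_rpow (m.S b).W
      (fun z => (m.S b).Touch1_W_pos _) (2 - sig n C)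
    have eΦ : ∀ z : m.O, ev z (K • (E * Ψ)) =
        K * (Real.exp (-z.1.1 / 2) * (h.data b).W z.1.1 z.1.2 ^ (2 - sig n C)) := by
      intro z
      rw [map_smul, map_mul, hE, hΨ, m.ev_W, smul_eq_mul]
    have e0 : ∀ z : m.O, ev z ((m.S b).u * (m.S b).W + lam (m.S b).n C • (m.S b).v) =
        (h.data b).u z.1.1 z.1.2 * (h.data b).W z.1.1 z.1.2 +
          lam n C * (h.data b).v z.1.1 z.1.2 := by
      intro z
      rw [map_add, map_mul, map_smul, m.ev_u, m.ev_W, m.ev_v, m.S_n, smul_eq_mul]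
    have e : ∀ z : m.O,
        ev z ((m.S b).u * (m.S b).W + lam (m.S b).n C • (m.S b).v - K • (E * Ψ)) =
        (h.data b).u z.1.1 z.1.2 * (h.data b).W z.1.1 z.1.2 +
          lam n C * (h.data b).v z.1.1 z.1.2 -
          K * (Real.exp (-z.1.1 / 2) * (h.data b).W z.1.1 z.1.2 ^ (2 - sig n C)) := by
      intro z
      rw [map_sub, e0, eΦ]
    have hT := m.touch b _ (G := fun z : ℝ × M => (h.data b).u z.1 z.2 * (h.data b).W z.1 z.2 +
      lam n C * (h.data b).v z.1 z.2 -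
        K * (Real.exp (-z.1 / 2) * (h.data b).W z.1 z.2 ^ (2 - sig n C))) e hs.1
      (fun r hr w => (hle r hr w).trans he.ge)
    have hdt : m.dom.dt E = -((1 / 2 : ℝ) • E) := rg_ext fun z => by
      rw [hET, map_neg, map_smul, hE, smul_eq_mul]
      ring
    refine (m.S b).touch2 _ (m.pinch b _) hC ?_ (fun a => ?_) (Est1_der m.dom.dt hdt hΨT) ?_ ?_ hT
    · rw [m.ev_v, m.ev_W]
      exact hv s hsJ hs.1.le y
    · have h0 : m.dom.D (b a) E = -((0 : ℝ) • E) := by rw [hED, zero_smul, neg_zero]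
      have h1 := Est1_der (K := K) (m.dom.D (b a)) h0 (hΨD (b a))
      rw [zero_smul, sub_zero] at h1
      exact h1
    · rw [eΦ]
      have hW : (0 : ℝ) < (h.data b).W s y := lt_of_lt_of_le one_pos (h.Est1_pt b hsJ y).1
      exact mul_pos hK0 (mul_pos (Real.exp_pos _) (Real.rpow_pos_of_pos hW _))
    · have e1 := (e ⟨(s, y), m.mem⟩).trans he
      rw [map_sub] at e1
      linarith

end Flow

end Pool.Agent.Lib.MP_de485e_gt.Conv
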