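import Pool.Agent.Lib.MP_de485e_gt.Conv.Mod4
import Pool.Agent.Lib.MP_de485e_gt.Conv.Touch1
import Pool.Agent.Lib.MP_de485e_gt.Conv.MaxP

/-! Growth of the mean curvature and the convex hull property. -/

open Set Filter Topology
open scoped RealInnerProductSpace InnerProduct Manifold ContDiff

namespace Pool.Agent.Lib.MP_de485e_gt.Conv

variable {P Q : Type} [NormedAddCommGroup P] [InnerProductSpace ℝ P] [CompleteSpace P]
  [FiniteDimensional ℝ P] [NormedAddCommGroup Q] [InnerProductSpace ℝ Q] [CompleteSpace Q]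
  [FiniteDimensional ℝ Q] {M : Type} [TopologicalSpace M] [ChartedSpace P M] [CompactSpace M]
  [IsManifold 𝓘(ℝ, P) ∞ M] {F : ℝ → M → Q} {n : ℕ} {ι : Type} [Fintype ι] [DecidableEq ι]

namespace Flow

variable {J : Set ℝ} (h : Flow P n F J) (b : OrthonormalBasis ι ℝ Q)

/-- `maxP` at level `1`, `touch3`. -/
theorem est3 : Est3 n J (h.data b) := by
  intro t₀ ht₀ ε Λ W₀ β hε hu h0 hΛ hβ t ht htt x
  have hWpos : ∀ s ∈ J, ∀ y, 0 < (h.data b).W s y := fun s hs y => by
    obtain ⟨m⟩ := h.exists_model hs y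
    have h1 := (m.S b).Touch1_W_pos (ev ⟨(s, y), m.mem⟩)
    rwa [m.ev_W b] at h1
  have hW₀ : 0 < W₀ := (hWpos t₀ ht₀ x).trans (h0 x)
  have hn : (0 : ℝ) ≤ (n : ℝ)⁻¹ := by positivity
  have hβ0 : 0 < β := by linarith
  have hsub : Icc t₀ t ⊆ J := h.ord.out ht₀ ht
  have key := maxP (M := M) (a := t₀) (b := t) (K := 1)
    (G := fun z => (W₀⁻¹ - β * (z.1 - t₀)) * (h.data b).W z.1 z.2) ?_ ?_ ?_
  · exact key t ⟨htt, le_rfl⟩ x
  · refine ContinuousOn.mul (by fun_prop) ((h.cont_W b).mono ?_)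
    exact prod_mono hsub Subset.rfl
  · intro y
    simp only [sub_self, mul_zero, sub_zero]
    rw [inv_mul_lt_iff₀ hW₀, mul_one]
    exact h0 y
  · intro s hs y hm he
    have hsJ : s ∈ J := hsub ⟨hs.1.le, hs.2⟩
    obtain ⟨m⟩ := h.exists_model hsJ y
    obtain ⟨ψ, hψ, hD, hT⟩ := m.dom.exists_time (f := fun r => W₀⁻¹ - β * (r - t₀))
      (f' := fun _ => -β) (by fun_prop) (fun r => by
        simpa using (((hasDerivAt_id r).sub_const t₀).const_mul β).const_sub W₀⁻¹)
    have hev : ∀ z : m.O, ev z (ψ * (m.S b).W) =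
        (W₀⁻¹ - β * (z.1.1 - t₀)) * (h.data b).W z.1.1 z.1.2 := fun z => by
      rw [map_mul, hψ, m.ev_W b]
    have he' : (W₀⁻¹ - β * (s - t₀)) * (h.data b).W s y = 1 := he
    have hW := hWpos s hsJ y
    have hge : W₀ ≤ (h.data b).W s y := by
      have h1 : 0 ≤ β * (s - t₀) * (h.data b).W s y :=
        mul_nonneg (mul_nonneg hβ0.le (by linarith [hs.1])) hW.le
      have h2 : 1 ≤ W₀⁻¹ * (h.data b).W s y := by nlinarith
      rwa [le_inv_mul_iff₀ hW₀, mul_one] at h2
    have htouch := m.touch b (ψ * (m.S b).W)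
      (G := fun z => (W₀⁻¹ - β * (z.1 - t₀)) * (h.data b).W z.1 z.2) hev hs.1
      (fun r hr y' => (hm r hr y').trans he.ge)
    have hfin := (m.S b).touch3 (ev ⟨(s, y), m.mem⟩) (ψ := ψ) (b := β) (ε := ε)
      (fun a => hD (b a)) (rg_ext fun z => by
        rw [AlgHom.commutes]
        exact hT z) ((hev _).trans he') (by
        rw [m.ev_u b, m.ev_W b]
        exact hu s hsJ hs.1.le y (hΛ.trans hge)) htouch
    rw [m.S_n b] at hfin
    linarith

include h b in
/-- `maxP` for `exp (-n (s - t)) ⟪c, F s x⟫ - ε (s - t)` at level `μ + ε`, `touch4`, `ε → 0`. -/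
theorem est4 : Est4 n F J := by
  intro t ht s hs hts c μ hμ x
  have hsub : Icc t s ⊆ J := h.ord.out ht hs
  have main : ∀ ε : ℝ, 0 < ε →
      Real.exp (-(n * (s - t))) * ⟪c, F s x⟫ - ε * (s - t) < μ + ε := by
    intro ε hε
    have key := maxP (M := M) (a := t) (b := s) (K := μ + ε)
      (G := fun z => Real.exp (-(n * (z.1 - t))) * ⟪c, F z.1 z.2⟫ - ε * (z.1 - t)) ?_ ?_ ?_
    · exact key s ⟨hts, le_rfl⟩ x
    · refine ContinuousOn.sub (ContinuousOn.mul (by fun_prop) ?_) (by fun_prop)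
      exact ContinuousOn.inner (𝕜 := ℝ) continuousOn_const
        ((h.dom.smooth.continuousOn h.dom.isOpen).mono (prod_mono hsub Subset.rfl))
    · intro y
      simp only [sub_self, mul_zero, neg_zero, Real.exp_zero, one_mul, sub_zero]
      linarith [hμ y]
    · intro r hr y hm he
      have hrJ : r ∈ J := hsub ⟨hr.1.le, hr.2⟩
      obtain ⟨m⟩ := h.exists_model hrJ y
      obtain ⟨E, hE, hD, hT⟩ := m.dom.exists_time (f := fun r => Real.exp (-(n * (r - t))))
        (f' := fun r => -(n * Real.exp (-(n * (r - t))))) (by fun_prop) (fun r => by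
          have h1 : HasDerivAt (fun r : ℝ => -((n : ℝ) * (r - t))) (-(n : ℝ)) r := by
            simpa using (((hasDerivAt_id r).sub_const t).const_mul (n : ℝ)).fun_neg
          convert h1.exp using 1
          ring)
      obtain ⟨τ, hτ, hD', hT'⟩ := m.dom.exists_time (f := fun r => r - t)
        (f' := fun _ => 1) (by fun_prop) (fun r => (hasDerivAt_id r).sub_const t)
      have hev : ∀ z : m.O, ev z (E * ∑ a, ⟪c, b a⟫ • (m.S b).F a - ε • τ) =
          Real.exp (-(n * (z.1.1 - t))) * ⟪c, F z.1.1 z.1.2⟫ - ε * (z.1.1 - t) := fun z => by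
        rw [map_sub, map_mul, map_smul, map_sum, hE, hτ, smul_eq_mul]
        simp only [map_smul, smul_eq_mul, m.ev_F b]
        rw [b.sum_inner_mul_inner]
      have htouch := m.touch b (E * ∑ a, ⟪c, b a⟫ • (m.S b).F a - ε • τ)
        (G := fun z => Real.exp (-(n * (z.1 - t))) * ⟪c, F z.1 z.2⟫ - ε * (z.1 - t)) hev hr.1
        (fun r' hr' y' => (hm r' hr' y').trans he.ge)
      exact (m.S b).touch4 (ev ⟨(r, y), m.mem⟩) (E := E) (τ := τ) (fun a => hD (b a))
        (rg_ext fun z => by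
          rw [map_neg, map_mul, map_natCast, hE, m.S_n b]
          exact hT z) (fun a => hD' (b a))
        (rg_ext fun z => by
          rw [map_one]
          exact hT' z) (fun a => ⟪c, b a⟫) hε htouch
  refine le_of_forall_pos_le_add fun δ hδ => ?_
  have hp : 0 < 1 + (s - t) := by linarith
  have h1 := main (δ / (1 + (s - t))) (div_pos hδ hp)
  have h2 : δ / (1 + (s - t)) * (1 + (s - t)) = δ := div_mul_cancel₀ δ hp.ne'
  nlinarith

end Flow

end Pool.Agent.Lib.MP_de485e_gt.Conv
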