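import Pool.Agent.Lib.MP_de485e_gt.Conv.Mod5
import Pool.Agent.Lib.MP_de485e_gt.Conv.Est1
import Pool.Agent.Lib.MP_de485e_gt.Conv.Est3
import Pool.Agent.Lib.MP_de485e_gt.Conv.CaseA2
import Pool.Agent.Lib.MP_de485e_gt.Conv.CaseB

/-! From a smooth flow with `tau < 4 / 3` to the interface. -/

open Set Filter Topology
open scoped RealInnerProductSpace InnerProduct Manifold ContDiff

namespace Pool.Agent.Lib.MP_de485e_gt.Conv

variable {P Q : Type} [NormedAddCommGroup P] [InnerProductSpace ℝ P] [CompleteSpace P]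
  [FiniteDimensional ℝ P] [NormedAddCommGroup Q] [InnerProductSpace ℝ Q] [CompleteSpace Q]
  [FiniteDimensional ℝ Q] {M : Type} [TopologicalSpace M] [ChartedSpace P M] [CompactSpace M]
  [IsManifold 𝓘(ℝ, P) ∞ M] {F : ℝ → M → Q} {n : ℕ}

theorem Flow.geo {J : Set ℝ} (h : Flow P n F J) :
    Geo n P F J (h.data (stdOrthonormalBasis ℝ Q)) :=
  ⟨h.geoLoc _, h.est2 _, h.est3 _, h.est4 (stdOrthonormalBasis ℝ Q)⟩

theorem pinched_mono {f : M → Q} {Z Z' : ℝ} (hZ : 0 < Z) (hZ' : Z ≤ Z') (h : Pinched P f Z) :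
    Pinched P f Z' := by
  intro x u v huv
  have h1 := h x u v huv
  have h2 : 0 ≤ 1 + ⟪sff P f x u u, sff P f x v v⟫ := by
    by_contra hc
    nlinarith [sq_nonneg ‖sff P f x u u - sff P f x v v‖, mul_pos hZ (neg_pos.2 (not_le.1 hc))]
  nlinarith

theorem flow_of_mcf (hd : Dim P Q n) {I J : Set ℝ} (h : IsSphereMCF P F I)
    (h0 : TauLt P (F 0) (4 / 3)) (hJ : IsOpen J) (hJo : J.OrdConnected)
    (hI : ∀ t ∈ J, 0 ≤ t ∧ ∃ S, t < S ∧ Ico 0 S ⊆ I) (hJI : J ⊆ I) : Flow P n F J := by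
  have p0 : Pinched P (F 0) (1 / 2) := fun x u v huv => by
    have k := h0 x u v huv
    have := norm_add_sq_real (sff P (F 0) x u u) (sff P (F 0) x v v)
    rw [norm_sub_sq_real] at k ⊢
    nlinarith [sq_nonneg ‖sff P (F 0) x u u + sff P (F 0) x v v‖]
  refine ⟨hd, hJo, ⟨hJ.prod isOpen_univ, fun c => (h.sm c).mono fun p hp => ⟨hJI hp.2.1, hp.1⟩,
    fun z hz => h.sphere _ (hJI hz.1) _, fun z hz => h.immersion _ (hJI hz.1) _⟩,
    fun z hz e he => (h.flow _ (hJI hz.1) _ e he).hasDerivAt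
      (mem_of_superset (hJ.mem_nhds hz.1) hJI), fun t ht => ?_⟩
  obtain ⟨ht0, S, hS, sub⟩ := hI t ht
  have k := preserved hd.hP hd.hQ (by have := hd.hn; omega) ⟨h.smooth.mono (prod_mono_left sub),
      fun s hs => h.sphere s (sub hs), fun s hs => h.immersion s (sub hs),
      fun s hs x b hb => (h.flow s (sub hs) x b hb).mono sub⟩
      (Z := 1 / 2) (by norm_num) (by norm_num) p0 ⟨ht0, hS⟩
  refine pinched_mono (by positivity) ?_ k
  have : Real.exp (-(2 * n * t)) ≤ 1 := Real.exp_le_one_iff.2 (neg_nonpos.2 (by positivity))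
  linarith

end Pool.Agent.Lib.MP_de485e_gt.Conv
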