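import Pool.Agent.Lib.MP_de485e_gt.Conv.RDefs

/-! The interface between the local calculus and the global argument. -/

open Set Filter Topology
open scoped RealInnerProductSpace

namespace Pool.Agent.Lib.MP_de485e_gt.Conv

variable (n : ℕ) (P : Type) {Q : Type} [NormedAddCommGroup P] [InnerProductSpace ℝ P]
  [NormedAddCommGroup Q] [InnerProductSpace ℝ Q] [FiniteDimensional ℝ Q]
  {M : Type} [TopologicalSpace M] [ChartedSpace P M]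

/-- Sign free quantities: `W = n ^ 2 + H ^ 2`, `u = |A°| ^ 2`, `v = |∇A| ^ 2`, the projector `C`
on the centre of the osculating sphere, the Euclidean centre `m` of that sphere and the projector
`N` on the normal line. -/
structure GeoData (Q M : Type) [NormedAddCommGroup Q] [InnerProductSpace ℝ Q] where
  W : ℝ → M → ℝ
  u : ℝ → M → ℝ
  v : ℝ → M → ℝ
  C : ℝ → M → Q →L[ℝ] Q
  N : ℝ → M → Q →L[ℝ] Q
  m : ℝ → M → Q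

/-- Description of the data at one point through a unit normal `ν` and the mean curvature `H`. -/
structure PtData (F : ℝ → M → Q) (G : GeoData Q M) (t : ℝ) (x : M) (ν : Q) (H : ℝ) : Prop where
  unit : ‖ν‖ = 1
  Fν : ⟪F t x, ν⟫ = 0
  Lν : ∀ ξ, ⟪dF P (F t) x ξ, ν⟫ = 0
  LF : ∀ ξ, ⟪dF P (F t) x ξ, F t x⟫ = 0
  normal_eq : normal P (F t) x = Submodule.span ℝ {ν}
  W_eq : G.W t x = (n : ℝ) ^ 2 + H ^ 2
  m_eq : G.m t x = ((G.W t x)⁻¹ * H) • (H • F t x + (n : ℝ) • ν)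
  C_eq : ∀ w, G.C t x w =
    ((G.W t x)⁻¹ * ⟪H • F t x + (n : ℝ) • ν, w⟫) • (H • F t x + (n : ℝ) • ν)
  N_eq : ∀ w, G.N t x w = ⟪ν, w⟫ • ν
  flow : HasDerivAt (fun s => F s x) (H • ν) t
  sff_le : ∀ ξ ζ, ‖sff P (F t) x ξ ζ - (H / n * ⟪dF P (F t) x ξ, dF P (F t) x ζ⟫) • ν‖ ≤
    √(G.u t x) * ‖dF P (F t) x ξ‖ * ‖dF P (F t) x ζ‖
  dtN : ∃ N' : Q →L[ℝ] Q, HasDerivAt (fun s => G.N s x) N' t ∧
    ‖N'‖ ≤ 2 * √(H ^ 2 + n * G.v t x)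

/-- Spatial derivatives of `C`, `m`, `1 / W` in the chart at `x`. -/
def DxData (F : ℝ → M → Q) (G : GeoData Q M) (t : ℝ) (x : M) (η : ℝ) : Prop :=
  ∃ (C' : P →L[ℝ] Q →L[ℝ] Q) (m' : P →L[ℝ] Q) (w' : P →L[ℝ] ℝ),
    HasStrictFDerivAt (fun y => G.C t ((chartAt P x).symm y)) C' (chartAt P x x) ∧
    HasStrictFDerivAt (fun y => G.m t ((chartAt P x).symm y)) m' (chartAt P x x) ∧
    HasStrictFDerivAt (fun y => (G.W t ((chartAt P x).symm y))⁻¹) w' (chartAt P x x) ∧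
    ∀ ξ, ‖C' ξ‖ ≤ 4 * (n : ℝ) ^ 2 * η * ‖dF P (F t) x ξ‖ ∧
      ‖m' ξ‖ ≤ 4 * (n : ℝ) ^ 2 * η * ‖dF P (F t) x ξ‖ ∧
      |w' ξ| ≤ 2 * n * η / √(G.W t x) * ‖dF P (F t) x ξ‖

/-- Facts at a fixed time. -/
structure GeoLoc (F : ℝ → M → Q) (J : Set ℝ) (G : GeoData Q M) : Prop where
  hn : 2 ≤ n
  hP : Module.finrank ℝ P = n
  hQ : Module.finrank ℝ Q = n + 2
  sphere : ∀ t ∈ J, ∀ x, ‖F t x‖ = 1
  imm : ∀ t ∈ J, ∀ x, Function.Injective (dF P (F t) x)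
  strict : ∀ t ∈ J, ∀ x, HasStrictFDerivAt (loc P (F t) x) (dF P (F t) x) (chartAt P x x)
  contF : ∀ t ∈ J, Continuous (F t)
  contW : ∀ t ∈ J, Continuous (G.W t)
  contC : ∀ t ∈ J, Continuous (G.C t)
  contm : ∀ t ∈ J, Continuous (G.m t)
  u_le : ∀ t ∈ J, ∀ x, 0 ≤ G.u t x ∧ G.u t x ≤ G.W t x
  v_nonneg : ∀ t ∈ J, ∀ x, 0 ≤ G.v t x
  pt : ∀ t ∈ J, ∀ x, ∃ ν H, PtData n P F G t x ν H
  dx : ∀ t ∈ J, ∀ x, ∀ η : ℝ, 0 ≤ η → G.u t x ≤ η ^ 2 * G.W t x →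
    G.v t x ≤ η ^ 2 * G.W t x ^ 2 → DxData n P F G t x η

/-- Improved pinching and gradient estimate. -/
def Est2 (J : Set ℝ) (G : GeoData Q M) : Prop :=
  ∀ t₁ ∈ J, ∃ K σ : ℝ, 0 < K ∧ 0 < σ ∧ ∀ t ∈ J, t₁ ≤ t → ∀ x,
    G.u t x ≤ K * Real.exp (-t / 2) * G.W t x ^ (-σ) * G.W t x ∧
    G.v t x ≤ K * Real.exp (-t / 2) * G.W t x ^ (-σ) * G.W t x ^ 2

/-- Upper bound for the growth of `W`. -/
def Est3 (J : Set ℝ) (G : GeoData Q M) : Prop :=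
  ∀ t₀ ∈ J, ∀ ε Λ W₀ b : ℝ, 0 ≤ ε → (∀ t ∈ J, t₀ ≤ t → ∀ x, Λ ≤ G.W t x → G.u t x ≤ ε * G.W t x) →
    (∀ x, G.W t₀ x < W₀) → Λ ≤ W₀ → 2 * (ε + (n : ℝ)⁻¹) < b →
    ∀ t ∈ J, t₀ ≤ t → ∀ x, (W₀⁻¹ - b * (t - t₀)) * G.W t x < 1

/-- Convex hull property. -/
def Est4 (F : ℝ → M → Q) (J : Set ℝ) : Prop :=
  ∀ t ∈ J, ∀ s ∈ J, t ≤ s → ∀ (c : Q) (μ : ℝ), (∀ y, ⟪c, F t y⟫ ≤ μ) →
    ∀ x, Real.exp (-(n * (s - t))) * ⟪c, F s x⟫ ≤ μ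

/-- Everything the global argument needs. -/
structure Geo (F : ℝ → M → Q) (J : Set ℝ) (G : GeoData Q M) : Prop extends GeoLoc n P F J G where
  est2 : Est2 J G
  est3 : Est3 n J G
  est4 : Est4 n F J

end Pool.Agent.Lib.MP_de485e_gt.Conv
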