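import Pool.Agent.Lib.MP_de485e_gt.Conv.Alg1

/-! Spectral form of the second fundamental form at a point and consequences of the pinching. -/

namespace Pool.Agent.Lib.MP_de485e_gt.Conv

variable {ι : Type} [Fintype ι] [DecidableEq ι] {R : Type} [CommRing R] [Algebra ℝ R]

/-- Orthonormal eigenbasis of a symmetric array on the orthogonal complement of `F`, `ν` in
`EuclideanSpace ℝ ι` (`LinearMap.IsSymmetric.eigenvectorBasis` on the invariant subspace). -/
theorem spectral {n : ℕ} (hc : Fintype.card ι = n + 2) (F ν : ι → ℝ) (A : ι → ι → ℝ)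
    (FF : ∑ a, F a * F a = 1) (νν : ∑ a, ν a * ν a = 1) (Fν : ∑ a, F a * ν a = 0)
    (hs : ∀ a b, A a b = A b a) (AF : ∀ a, ∑ b, A a b * F b = 0) (Aν : ∀ a, ∑ b, A a b * ν b = 0) :
    ∃ (k : Fin n → ℝ) (t : Fin n → ι → ℝ),
      (∀ i j, ∑ a, t i a * t j a = kd i j) ∧ (∀ i, ∑ a, t i a * F a = 0) ∧
      (∀ i, ∑ a, t i a * ν a = 0) ∧ ∀ a b, A a b = ∑ i, k i * (t i a * t i b) := by
  classical
  let V := EuclideanSpace ℝ ι
  have hin : ∀ x y : V, inner ℝ x y = ∑ a, x a * y a := fun x y => by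
    rw [PiLp.inner_apply]
    exact Finset.sum_congr rfl fun a _ => by simp [mul_comm]
  let f : V := WithLp.toLp 2 F
  let v : V := WithLp.toLp 2 ν
  let T : V →ₗ[ℝ] V := Matrix.toEuclideanLin (Matrix.of A)
  have hTa : ∀ (x : V) (a : ι), T x a = ∑ b, A a b * x b := fun x a => rfl
  have hT : T.IsSymmetric := fun x y => by
    rw [hin, hin]
    simp only [hTa, Finset.sum_mul, Finset.mul_sum]
    rw [Finset.sum_comm]
    exact Finset.sum_congr rfl fun a _ => Finset.sum_congr rfl fun b _ => by rw [hs b a]; ring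
  have hTf : T f = 0 := by ext a; rw [hTa]; exact AF a
  have hTv : T v = 0 := by ext a; rw [hTa]; exact Aν a
  have hff : inner ℝ f f = 1 := by rw [hin]; exact FF
  have hvv : inner ℝ v v = 1 := by rw [hin]; exact νν
  have hfv : inner ℝ f v = 0 := by rw [hin]; exact Fν
  have hvf : inner ℝ v f = 0 := by rw [real_inner_comm]; exact hfv
  have hon : Orthonormal ℝ ![f, v] := by
    rw [orthonormal_iff_ite]
    intro i j
    fin_cases i <;> fin_cases j
    · simpa using hff
    · simpa using hfv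
    · simpa using hvf
    · simpa using hvv
  let L : Submodule ℝ V := Submodule.span ℝ (Set.range ![f, v])
  have hL : Module.finrank ℝ L = 2 := by
    rw [finrank_span_eq_card hon.linearIndependent]; simp
  have hK : Module.finrank ℝ (Lᗮ : Submodule ℝ V) = n := by
    have h1 := Submodule.finrank_add_finrank_orthogonal L
    rw [hL, finrank_euclideanSpace, hc] at h1
    omega
  have hfL : f ∈ L := Submodule.subset_span ⟨0, rfl⟩
  have hvL : v ∈ L := Submodule.subset_span ⟨1, rfl⟩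
  have hmem : ∀ x : V, inner ℝ f x = 0 → inner ℝ v x = 0 → x ∈ Lᗮ := fun x h1 h2 => by
    rw [Submodule.mem_orthogonal]
    intro u hu
    induction hu using Submodule.span_induction with
    | mem u hu =>
      obtain ⟨i, rfl⟩ := hu
      fin_cases i
      · exact h1
      · exact h2
    | zero => exact inner_zero_left _
    | add a b _ _ ha hb => rw [inner_add_left, ha, hb, add_zero]
    | smul c a _ ha => rw [real_inner_smul_left, ha, mul_zero]
  have hinv : ∀ x ∈ Lᗮ, T x ∈ Lᗮ := fun x _ =>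
    hmem _ (by rw [← hT, hTf, inner_zero_left]) (by rw [← hT, hTv, inner_zero_left])
  have hT' := hT.restrict_invariant hinv
  let b := hT'.eigenvectorBasis hK
  have hb : ∀ i, T (b i : V) = hT'.eigenvalues hK i • (b i : V) := fun i =>
    congrArg Subtype.val (hT'.apply_eigenvectorBasis hK i)
  have hbf : ∀ i, inner ℝ (b i : V) f = 0 := fun i =>
    Submodule.inner_left_of_mem_orthogonal hfL (b i).2
  have hbv : ∀ i, inner ℝ (b i : V) v = 0 := fun i =>
    Submodule.inner_left_of_mem_orthogonal hvL (b i).2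
  refine ⟨hT'.eigenvalues hK, fun i a => (b i : V) a, fun i j => ?_, fun i => ?_, fun i => ?_,
    fun a c => ?_⟩
  · have h1 := orthonormal_iff_ite.1 b.orthonormal i j
    rw [Submodule.coe_inner, hin] at h1
    exact h1
  · have h1 := hbf i
    rw [hin] at h1
    exact h1
  · have h1 := hbv i
    rw [hin] at h1
    exact h1
  · let e : V := EuclideanSpace.single c 1
    have he : ∀ x : V, inner ℝ x e = x c := fun x => by
      rw [EuclideanSpace.inner_single_right]; simp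
    let y : V := e - F c • f - ν c • v
    have hy : y ∈ Lᗮ := by
      refine hmem _ ?_ ?_
      · simp only [y, inner_sub_right, real_inner_smul_right, he, hff, hfv]
        show F c - F c * 1 - ν c * 0 = 0
        ring
      · simp only [y, inner_sub_right, real_inner_smul_right, he, hvf, hvv]
        show ν c - F c * 0 - ν c * 1 = 0
        ring
    have h1 : ∑ i, inner ℝ (b i : V) y • (b i : V) = y := by
      have h2 := congrArg Subtype.val (b.sum_repr' ⟨y, hy⟩)
      simpa [Submodule.coe_inner] using h2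
    have h3 : ∀ i, inner ℝ (b i : V) y = (b i : V) c := fun i => by
      simp only [y, inner_sub_right, real_inner_smul_right, he, hbf, hbv]
      ring
    have h4 : T y = T e := by
      simp only [y, map_sub, map_smul, hTf, hTv, smul_zero, sub_zero]
    have h5 : T e a = A a c := by
      rw [hTa]
      simp [e]
    have h6 : T y = ∑ i, ((b i : V) c * hT'.eigenvalues hK i) • (b i : V) := by
      conv_lhs => rw [← h1]
      rw [map_sum]
      refine Finset.sum_congr rfl fun i _ => ?_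
      rw [T.map_smul, hb, h3, smul_smul]
    rw [← h5, ← h4, h6, WithLp.ofLp_sum, Finset.sum_apply]
    refine Finset.sum_congr rfl fun i _ => ?_
    show (b i : V) c * hT'.eigenvalues hK i * (b i : V) a =
      hT'.eigenvalues hK i * ((b i : V) a * (b i : V) c)
    ring

private theorem Ineq1_sq {n : ℕ} (k : Fin n → ℝ) :
    ∑ i, ∑ j, (k i - k j) ^ 2 = 2 * n * ∑ i, k i ^ 2 - 2 * (∑ i, k i) ^ 2 := by
  have h1 : ∀ i j, (k i - k j) ^ 2 = k i ^ 2 + k j ^ 2 - 2 * (k i * k j) := fun i j => by ring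
  simp only [h1, Finset.sum_sub_distrib, Finset.sum_add_distrib, Finset.sum_const,
    Finset.card_univ, Fintype.card_fin, nsmul_eq_mul, ← Finset.mul_sum, ← Finset.sum_mul]
  ring

private theorem Ineq1_cub {n : ℕ} (k : Fin n → ℝ) :
    ∑ i, ∑ j, (k i * k j) * (k i - k j) ^ 2 =
      2 * ((∑ i, k i) * ∑ i, k i ^ 3) - 2 * (∑ i, k i ^ 2) ^ 2 := by
  have h1 : ∀ i j, (k i * k j) * (k i - k j) ^ 2 =
      k i ^ 3 * k j + k i * k j ^ 3 - 2 * (k i ^ 2 * k j ^ 2) := fun i j => by ring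
  simp only [h1, Finset.sum_sub_distrib, Finset.sum_add_distrib, ← Finset.mul_sum,
    ← Finset.sum_mul]
  ring

/-- Sum the pinching over all pairs `i ≠ j`. -/
theorem eig_u {n : ℕ} (hn : 2 ≤ n) (k : Fin n → ℝ)
    (h : ∀ i j, i ≠ j → (k i - k j) ^ 2 ≤ 2 * (1 + k i * k j)) :
    0 ≤ ∑ i, k i ^ 2 - (n : ℝ)⁻¹ * (∑ i, k i) ^ 2 ∧
    n * (n + 1) * (∑ i, k i ^ 2 - (n : ℝ)⁻¹ * (∑ i, k i) ^ 2) ≤
      (n - 1) * ((n : ℝ) ^ 2 + (∑ i, k i) ^ 2) := by
  have hn0 : (0 : ℝ) < n := by exact_mod_cast (by omega : 0 < n)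
  have hsq := Ineq1_sq k
  have hpos : 0 ≤ ∑ i, ∑ j, (k i - k j) ^ 2 :=
    Finset.sum_nonneg fun i _ => Finset.sum_nonneg fun j _ => sq_nonneg _
  have hu : (n : ℝ) * (∑ i, k i ^ 2 - (n : ℝ)⁻¹ * (∑ i, k i) ^ 2) =
      n * ∑ i, k i ^ 2 - (∑ i, k i) ^ 2 := by
    field_simp
  have hle : ∑ i, ∑ j, (k i - k j) ^ 2 ≤
      ∑ i, ∑ j, (2 * (1 + k i * k j) - if i = j then 2 * (1 + k i ^ 2) else 0) := by
    refine Finset.sum_le_sum fun i _ => Finset.sum_le_sum fun j _ => ?_
    by_cases hij : i = j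
    · subst hij
      rw [if_pos rfl]
      apply le_of_eq
      ring
    · rw [if_neg hij, sub_zero]
      exact h i j hij
  have hr : ∑ i, ∑ j, (2 * (1 + k i * k j) - if i = j then 2 * (1 + k i ^ 2) else 0) =
      2 * ((n : ℝ) ^ 2 + (∑ i, k i) ^ 2) - 2 * (n + ∑ i, k i ^ 2) := by
    simp only [Finset.sum_sub_distrib, Finset.sum_ite_eq, Finset.mem_univ, if_true,
      Finset.sum_add_distrib, Finset.sum_const, Finset.card_univ, Fintype.card_fin, nsmul_eq_mul,
      ← Finset.mul_sum, ← Finset.sum_mul]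
    ring
  rw [hr, hsq] at hle
  rw [hsq] at hpos
  constructor
  · refine nonneg_of_mul_nonneg_right ?_ hn0
    rw [hu]
    linarith
  · have h1 : (n : ℝ) * (n + 1) * (∑ i, k i ^ 2 - (n : ℝ)⁻¹ * (∑ i, k i) ^ 2) =
        (n + 1) * (n * ∑ i, k i ^ 2 - (∑ i, k i) ^ 2) := by
      rw [← hu]; ring
    rw [h1]
    have h2 := mul_le_mul_of_nonneg_left hle hn0.le
    nlinarith [h2]

/-- `4 (1 + k i k j) ≥ 2 + k i ^ 2 + k j ^ 2`, `k l ^ 2 ≤ 14 k i ^ 2 + 4`, so
`W ≤ 56 n ^ 2 (1 + k i k j)`; the right side is `28 n ∑ i j, (1 + k i k j) (k i - k j) ^ 2` and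
`2 n u = ∑ i j, (k i - k j) ^ 2`. -/
theorem eig_S {n : ℕ} (hn : 2 ≤ n) (k : Fin n → ℝ)
    (h : ∀ i j, i ≠ j → (k i - k j) ^ 2 ≤ 2 * (1 + k i * k j)) :
    ((n : ℝ) ^ 2 + (∑ i, k i) ^ 2) * (∑ i, k i ^ 2 - (n : ℝ)⁻¹ * (∑ i, k i) ^ 2) ≤
      56 * n * ((∑ i, k i) * (∑ i, k i ^ 3) - (∑ i, k i ^ 2) ^ 2 +
        n * (∑ i, k i ^ 2 - (n : ℝ)⁻¹ * (∑ i, k i) ^ 2)) := by
  have hn0 : (0 : ℝ) < n := by exact_mod_cast (by omega : 0 < n)
  have hsq := Ineq1_sq k
  have hcub := Ineq1_cub k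
  have hpos : 0 ≤ ∑ i, ∑ j, (k i - k j) ^ 2 :=
    Finset.sum_nonneg fun i _ => Finset.sum_nonneg fun j _ => sq_nonneg _
  have hu : (n : ℝ) * (∑ i, k i ^ 2 - (n : ℝ)⁻¹ * (∑ i, k i) ^ 2) =
      n * ∑ i, k i ^ 2 - (∑ i, k i) ^ 2 := by
    field_simp
  have hW : ∀ i j, i ≠ j →
      (n : ℝ) ^ 2 + (∑ i, k i) ^ 2 ≤ 56 * (n : ℝ) ^ 2 * (1 + k i * k j) := by
    intro i j hij
    have h1 : ∀ l, k l ^ 2 ≤ 14 * k i ^ 2 + 4 := fun l => by
      by_cases hl : l = i
      · subst hl; nlinarith [sq_nonneg (k l)]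
      · nlinarith [h l i hl, sq_nonneg (k l - 4 * k i)]
    have h2 : ∑ l, k l ^ 2 ≤ n * (14 * k i ^ 2 + 4) := by
      have := Finset.sum_le_sum fun l (_ : l ∈ Finset.univ) => h1 l
      rwa [Finset.sum_const, Finset.card_univ, Fintype.card_fin, nsmul_eq_mul] at this
    have h3 : (∑ l, k l) ^ 2 ≤ n * ∑ l, k l ^ 2 := by
      rw [hsq] at hpos; linarith
    have h4 := mul_le_mul_of_nonneg_left h2 hn0.le
    have h5 : 14 * k i ^ 2 + 5 ≤ 56 * (1 + k i * k j) := by
      nlinarith [h i j hij, sq_nonneg (k j)]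
    have h6 := mul_le_mul_of_nonneg_left h5 (sq_nonneg (n : ℝ))
    nlinarith [h3, h4, h6]
  have hle : ∑ i, ∑ j, ((n : ℝ) ^ 2 + (∑ i, k i) ^ 2) * (k i - k j) ^ 2 ≤
      ∑ i, ∑ j, 56 * (n : ℝ) ^ 2 * ((k i - k j) ^ 2 + (k i * k j) * (k i - k j) ^ 2) := by
    refine Finset.sum_le_sum fun i _ => Finset.sum_le_sum fun j _ => ?_
    by_cases hij : i = j
    · subst hij
      simp
    · have := mul_le_mul_of_nonneg_right (hW i j hij) (sq_nonneg (k i - k j))
      linarith
  simp only [Finset.sum_add_distrib, ← Finset.mul_sum] at hle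
  rw [hsq, hcub] at hle
  refine le_of_mul_le_mul_left ?_ hn0
  have h1 : (n : ℝ) * (((n : ℝ) ^ 2 + (∑ i, k i) ^ 2) *
      (∑ i, k i ^ 2 - (n : ℝ)⁻¹ * (∑ i, k i) ^ 2)) =
      ((n : ℝ) ^ 2 + (∑ i, k i) ^ 2) * (n * ∑ i, k i ^ 2 - (∑ i, k i) ^ 2) := by
    rw [← hu]; ring
  rw [h1, hu]
  linarith

namespace SA

variable (S : SA ι R) (ev : R →ₐ[ℝ] ℝ)

theorem eig (h : S.Pinch ev) : ∃ k : Fin S.n → ℝ,
    (∀ i j, i ≠ j → (k i - k j) ^ 2 ≤ 2 * (1 + k i * k j)) ∧ ev S.H = ∑ i, k i ∧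
      ev S.a2 = ∑ i, k i ^ 2 ∧ ev S.a3 = ∑ i, k i ^ 3 := by
  obtain ⟨k, t, ht, htF, htν, hA⟩ := spectral S.card (fun a => ev (S.F a)) (fun a => ev (S.ν a))
    (fun a b => ev (S.A a b))
    (by simpa only [map_sum, map_mul, map_one] using congrArg ev S.FF)
    (by simpa only [map_sum, map_mul, map_one] using congrArg ev S.νν)
    (by simpa only [map_sum, map_mul, map_zero] using congrArg ev S.Fν)
    (fun a b => congrArg ev (S.A_symm a b))
    (fun a => by simpa only [map_sum, map_mul, map_zero] using congrArg ev (S.A_F a))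
    (fun a => by simpa only [map_sum, map_mul, map_zero] using congrArg ev (S.A_ν a))
  have hA' : ∀ a b, ev (S.A a b) = ∑ i, k i * (t i a * t i b) := hA
  have h1 : ∀ i, ∑ a, t i a * t i a = 1 := fun i => by rw [ht]; simp [kd]
  -- eigenvector equation
  have hAt : ∀ i a, ∑ b, ev (S.A a b) * t i b = k i * t i a := fun i a => by
    have : ∀ b, ev (S.A a b) * t i b = ∑ j, (k j * t j a) * (t j b * t i b) := fun b => by
      rw [hA', Finset.sum_mul]
      exact Finset.sum_congr rfl fun j _ => by ring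
    simp only [this]
    rw [Finset.sum_comm]
    simp only [← Finset.mul_sum, ht]
    simp [kd]
  have hq : ∀ i, ∑ a, ∑ b, t i a * t i b * ev (S.A a b) = k i := fun i => by
    have : ∀ a, ∑ b, t i a * t i b * ev (S.A a b) = k i * (t i a * t i a) := fun a => by
      have h2 : ∀ b, t i a * t i b * ev (S.A a b) = t i a * (ev (S.A a b) * t i b) :=
        fun b => by ring
      simp only [h2, ← Finset.mul_sum, hAt]
      ring
    simp only [this, ← Finset.mul_sum, h1, mul_one]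
  -- contraction of a spectral sum against `A`
  have hcon : ∀ m : Fin S.n → ℝ,
      ∑ a, ∑ b, (∑ i, m i * (t i a * t i b)) * ev (S.A a b) = ∑ i, m i * k i := fun m => by
    simp only [Finset.sum_mul]
    have : ∀ a, ∑ b, ∑ i, m i * (t i a * t i b) * ev (S.A a b) =
        ∑ i, ∑ b, m i * (t i a * t i b * ev (S.A a b)) := fun a => by
      rw [Finset.sum_comm]
      exact Finset.sum_congr rfl fun i _ => Finset.sum_congr rfl fun b _ => by ring
    simp only [this]
    rw [Finset.sum_comm]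
    simp only [← Finset.mul_sum, hq]
  have hA2 : ∀ a b, ev (S.A2 a b) = ∑ i, k i ^ 2 * (t i a * t i b) := fun a b => by
    simp only [A2, map_sum, map_mul]
    have : ∀ d, ev (S.A a d) * ev (S.A d b) =
        ∑ i, (k i * t i b) * (ev (S.A a d) * t i d) := fun d => by
      rw [hA' d b, Finset.mul_sum]
      exact Finset.sum_congr rfl fun i _ => by ring
    simp only [this]
    rw [Finset.sum_comm]
    simp only [← Finset.mul_sum, hAt]
    exact Finset.sum_congr rfl fun i _ => by ring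
  refine ⟨k, fun i j hij => ?_, ?_, ?_, ?_⟩
  · have h2 := h (t i) (t j) (htF i) (htν i) (htF j) (htν j) (h1 i) (h1 j)
      (by rw [ht]; simp [kd, hij])
    rwa [hq, hq] at h2
  · simp only [H, map_sum, hA']
    rw [Finset.sum_comm]
    simp only [← Finset.mul_sum, h1, mul_one]
  · simp only [a2, map_sum, map_pow]
    have h2 : ∀ a b, ev (S.A a b) ^ 2 = (∑ i, k i * (t i a * t i b)) * ev (S.A a b) :=
      fun a b => by rw [← hA', sq]
    simp only [h2, hcon, sq]
  · simp only [a3, map_sum, map_mul, hA2, hcon]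
    exact Finset.sum_congr rfl fun i _ => by ring

theorem pin_u (h : S.Pinch ev) :
    0 ≤ ev S.u ∧ S.n * (S.n + 1) * ev S.u ≤ (S.n - 1) * ev S.W := by
  obtain ⟨k, hk, hH, h2, -⟩ := S.eig ev h
  have := eig_u S.hn k hk
  simp only [u, W, map_sub, map_add, map_smul, map_pow, map_natCast, smul_eq_mul, hH, h2]
  exact this

theorem pin_S (h : S.Pinch ev) :
    ev S.W * ev S.u ≤ 56 * S.n * ev (S.H * S.a3 - S.a2 ^ 2 + S.n * S.u) := by
  obtain ⟨k, hk, hH, h2, h3⟩ := S.eig ev h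
  have := eig_S S.hn k hk
  simp only [u, W, map_sub, map_add, map_mul, map_smul, map_pow, map_natCast, smul_eq_mul, hH, h2,
    h3]
  exact this

end SA

end Pool.Agent.Lib.MP_de485e_gt.Conv
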