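import Pool.Agent.Lib.MP_de485e_gt.Conv.Alg1

/-! Simons identity paired with the traceless second fundamental form. -/

namespace Pool.Agent.Lib.MP_de485e_gt.Conv.SA

variable {ι : Type} [Fintype ι] [DecidableEq ι] {R : Type} [CommRing R] [Algebra ℝ R] (S : SA ι R)

theorem Simons_Dν (a b : ι) : S.D a (S.ν b) = -S.A a b := by
  simp [SA.A]

theorem Simons_trB (d : ι) : ∑ a, S.B a a d = S.D d S.H := by
  rw [S.DH]
  refine Finset.sum_congr rfl fun a _ => ?_
  rw [S.B_symm23 a a d, S.B_symm12 a d a]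

theorem Simons_F_DA (b d : ι) : ∑ a, S.F a * S.D b (S.A a d) = -S.A b d := by
  have h0 : ∑ a, S.F a * S.A a d = 0 := by
    rw [← S.A_F d]
    exact Finset.sum_congr rfl fun a _ => by rw [S.A_symm a d, mul_comm]
  have h1 := congrArg (S.D b) h0
  simp only [map_sum, Derivation.leibniz, smul_eq_mul, Finset.sum_add_distrib, map_zero,
    S.DF'] at h1
  have h2 : ∑ a, S.A a d * S.P b a = S.A b d := by
    rw [← S.P_A b d]
    exact Finset.sum_congr rfl fun a _ => mul_comm _ _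
  rw [h2] at h1
  linear_combination h1

theorem Simons_ν_DA (e d : ι) : ∑ a, S.ν a * S.D e (S.A a d) = S.A2 e d := by
  have h0 : ∑ a, S.ν a * S.A a d = 0 := by
    rw [← S.A_ν d]
    exact Finset.sum_congr rfl fun a _ => by rw [S.A_symm a d, mul_comm]
  have h1 := congrArg (S.D e) h0
  simp only [map_sum, Derivation.leibniz, smul_eq_mul, Finset.sum_add_distrib, map_zero,
    S.Simons_Dν] at h1
  have h2 : ∑ a, S.A a d * -S.A e a = -S.A2 e d := by
    rw [SA.A2, ← Finset.sum_neg_distrib]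
    exact Finset.sum_congr rfl fun a _ => by ring
  rw [h2] at h1
  linear_combination h1

theorem Simons_A3 (b d : ι) : ∑ a, S.A2 b a * S.A a d = ∑ e, S.A b e * S.A2 e d := by
  simp only [SA.A2, Finset.sum_mul, Finset.mul_sum]
  rw [Finset.sum_comm]
  exact Finset.sum_congr rfl fun e _ => Finset.sum_congr rfl fun a _ => by ring

theorem Simons_comm (b d : ι) : ∑ a, S.D a (S.D b (S.A a d)) =
    S.D b (∑ a, S.D a (S.A a d)) - S.A b d - ∑ e, S.A b e * S.A2 e d
      - S.F b * ∑ a, S.D a (S.A a d) + S.ν b * ∑ a, ∑ e, S.A a e * S.D e (S.A a d) := by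
  have h1 : ∀ a, S.D a (S.D b (S.A a d)) = S.D b (S.D a (S.A a d)) + S.F a * S.D b (S.A a d)
      - S.F b * S.D a (S.A a d) + S.ν b * ∑ e, S.A a e * S.D e (S.A a d)
      - ∑ e, S.A b e * (S.ν a * S.D e (S.A a d)) := by
    intro a
    have h := S.comm' a b (S.A a d)
    have h2 : ∑ e, (S.ν b * S.A a e - S.ν a * S.A b e) * S.D e (S.A a d) =
        S.ν b * ∑ e, S.A a e * S.D e (S.A a d) - ∑ e, S.A b e * (S.ν a * S.D e (S.A a d)) := by
      rw [Finset.mul_sum, ← Finset.sum_sub_distrib]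
      exact Finset.sum_congr rfl fun e _ => by ring
    rw [h2] at h
    linear_combination h
  have h3 : ∑ a, ∑ e, S.A b e * (S.ν a * S.D e (S.A a d)) = ∑ e, S.A b e * S.A2 e d := by
    rw [Finset.sum_comm]
    refine Finset.sum_congr rfl fun e _ => ?_
    rw [← Finset.mul_sum, S.Simons_ν_DA]
  rw [Finset.sum_congr rfl fun a _ => h1 a]
  simp only [Finset.sum_sub_distrib, Finset.sum_add_distrib]
  rw [h3, S.Simons_F_DA, map_sum, ← Finset.mul_sum, ← Finset.mul_sum]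
  ring

theorem Simons_Ddiv (b d : ι) : S.D b (∑ a, S.D a (S.A a d)) =
    S.D b (S.D d S.H) + S.ν d * S.D b S.a2 - S.a2 * S.A b d - S.F d * S.D b S.H
      - S.H * S.P b d := by
  rw [S.divA]
  simp only [map_sub, map_add, Derivation.leibniz, smul_eq_mul, S.Simons_Dν, S.DF']
  ring

theorem Simons_divB (b d : ι) : ∑ a, S.D a (S.B b a d) =
    ∑ a, S.D a (S.D b (S.A a d)) + ∑ a, S.A2 b a * S.A a d + S.H * S.A2 b d + S.A b d
      + S.n * S.A b d - S.ν d * ∑ a, S.D a (S.A2 b a) + S.F d * ∑ a, S.D a (S.A b a) := by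
  have h1 : ∀ a, S.D a (S.B b a d) = S.D a (S.D b (S.A a d)) + S.A2 b a * S.A a d
      + S.A a a * S.A2 b d + S.P d a * S.A a b + S.P a a * S.A b d
      - S.ν d * S.D a (S.A2 b a) + S.F d * S.D a (S.A b a)
      - S.ν a * S.D a (S.A2 b d) + S.F a * S.D a (S.A b d) := by
    intro a
    rw [SA.B]
    simp only [map_sub, map_add, Derivation.leibniz, smul_eq_mul, S.Simons_Dν, S.DF']
    rw [S.P_symm d a, S.A_symm a b]
    ring
  rw [Finset.sum_congr rfl fun a _ => h1 a]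
  simp only [Finset.sum_sub_distrib, Finset.sum_add_distrib]
  rw [S.νD, S.FD, S.P_A d b, S.A_symm d b, ← Finset.sum_mul, ← Finset.sum_mul, S.P_trace,
    ← Finset.mul_sum, ← Finset.mul_sum, SA.H]
  ring

theorem Simons_point (b d : ι) : ∑ a, (S.D a (S.B b a d) - S.D b (S.B a a d)) =
    S.H * S.A2 b d - S.a2 * S.A b d + S.n * S.A b d - S.H * S.P b d
      + S.F b * (-∑ a, S.D a (S.A a d)) + S.ν b * (∑ a, ∑ e, S.A a e * S.D e (S.A a d))
      + S.F d * (∑ a, S.D a (S.A b a) - S.D b S.H)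
      + S.ν d * (S.D b S.a2 - ∑ a, S.D a (S.A2 b a)) := by
  rw [Finset.sum_sub_distrib, ← map_sum, S.Simons_trB, S.Simons_divB, S.Simons_comm,
    S.Simons_Ddiv, S.Simons_A3]
  ring

theorem Simons_A0_symm (a b : ι) : S.A0 a b = S.A0 b a := by
  rw [SA.A0, SA.A0, S.A_symm a b, S.P_symm a b]

theorem Simons_A0_contract (f : ι → R) (a : ι) : ∑ b, S.A0 a b * f b =
    ∑ b, S.A a b * f b - (S.n : ℝ)⁻¹ • (S.H * ∑ b, S.P a b * f b) := by
  rw [Finset.mul_sum, Finset.smul_sum, ← Finset.sum_sub_distrib]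
  refine Finset.sum_congr rfl fun b _ => ?_
  rw [SA.A0, sub_mul, smul_mul_assoc, mul_assoc]

theorem Simons_A0_F (a : ι) : ∑ b, S.A0 a b * S.F b = 0 := by
  rw [S.Simons_A0_contract, S.A_F, S.P_F]; simp

theorem Simons_A0_ν (a : ι) : ∑ b, S.A0 a b * S.ν b = 0 := by
  rw [S.Simons_A0_contract, S.A_ν, S.P_ν]; simp

theorem Simons_drop_right (w X : ι → R) (hw : ∀ a, ∑ b, S.A0 a b * w b = 0) :
    ∑ b, ∑ d, w d * X b * S.A0 b d = 0 := by
  refine Finset.sum_eq_zero fun b _ => ?_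
  have : ∑ d, w d * X b * S.A0 b d = X b * ∑ d, S.A0 b d * w d := by
    rw [Finset.mul_sum]
    exact Finset.sum_congr rfl fun d _ => by ring
  rw [this, hw, mul_zero]

theorem Simons_drop_left (w X : ι → R) (hw : ∀ a, ∑ b, S.A0 a b * w b = 0) :
    ∑ b, ∑ d, w b * X d * S.A0 b d = 0 := by
  rw [Finset.sum_comm, ← S.Simons_drop_right w X hw]
  exact Finset.sum_congr rfl fun d _ => Finset.sum_congr rfl fun b _ => by
    rw [S.Simons_A0_symm b d]

theorem Simons_pair (M : ι → ι → R) : ∑ b, ∑ d, M b d * S.A0 b d =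
    ∑ b, ∑ d, M b d * S.A b d - (S.n : ℝ)⁻¹ • (S.H * ∑ b, ∑ d, S.P b d * M b d) := by
  rw [Finset.mul_sum, Finset.smul_sum, ← Finset.sum_sub_distrib]
  refine Finset.sum_congr rfl fun b _ => ?_
  have h := S.Simons_A0_contract (M b) b
  rw [Finset.sum_congr rfl fun d _ => mul_comm (M b d) (S.A0 b d), h]
  congr 1
  exact Finset.sum_congr rfl fun d _ => mul_comm _ _

theorem Simons_PA : ∑ b, ∑ d, S.P b d * S.A b d = S.H := by
  rw [SA.H]
  refine Finset.sum_congr rfl fun b _ => ?_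
  rw [← S.P_A b b]
  exact Finset.sum_congr rfl fun d _ => by rw [S.A_symm b d]

theorem Simons_PA2 : ∑ b, ∑ d, S.P b d * S.A2 b d = S.a2 := by
  rw [← S.A2_trace]
  refine Finset.sum_congr rfl fun b _ => ?_
  rw [← S.P_A2 b b]
  exact Finset.sum_congr rfl fun d _ => by rw [S.A2_symm b d]

theorem Simons_PP : ∑ b, ∑ d, S.P b d * S.P b d = S.n := by
  rw [← S.P_trace]
  refine Finset.sum_congr rfl fun b _ => ?_
  rw [← S.P_P b b]
  exact Finset.sum_congr rfl fun d _ => by rw [S.P_symm b d]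

theorem Simons_AA0 : ∑ b, ∑ d, S.A b d * S.A0 b d = S.u := by
  rw [S.Simons_pair, S.Simons_PA, SA.u, SA.a2]
  simp only [pow_two]

theorem Simons_A2A0 : ∑ b, ∑ d, S.A2 b d * S.A0 b d = S.a3 - (S.n : ℝ)⁻¹ • (S.H * S.a2) := by
  rw [S.Simons_pair, S.Simons_PA2, SA.a3]

theorem Simons_PA0 : ∑ b, ∑ d, S.P b d * S.A0 b d = 0 := by
  rw [S.Simons_pair, S.Simons_PA, S.Simons_PP]
  have hn : (S.n : ℝ) ≠ 0 := by
    have := S.hn
    have h : 0 < S.n := by omega
    exact_mod_cast h.ne'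
  have h1 : S.H * (S.n : R) = (S.n : ℝ) • S.H := by
    rw [Nat.cast_smul_eq_nsmul, nsmul_eq_mul, mul_comm]
  rw [h1, smul_smul, inv_mul_cancel₀ hn, one_smul, sub_self]

/-- Expand `B` by its definition, use `comm'` for `g = A a d` and `divA`; `A0` is tangential and
traceless, so all terms with a factor `F` or `ν` in the slots `b`, `d` drop out. -/
theorem simons : ∑ a, ∑ b, ∑ d, (S.D a (S.B b a d) - S.D b (S.B a a d)) * S.A0 b d =
    S.H * S.a3 - S.a2 ^ 2 + S.n * S.u := by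
  have h1 : ∑ a, ∑ b, ∑ d, (S.D a (S.B b a d) - S.D b (S.B a a d)) * S.A0 b d =
      ∑ b, ∑ d, (∑ a, (S.D a (S.B b a d) - S.D b (S.B a a d))) * S.A0 b d := by
    rw [Finset.sum_comm]
    refine Finset.sum_congr rfl fun b _ => ?_
    rw [Finset.sum_comm]
    exact Finset.sum_congr rfl fun d _ => by rw [Finset.sum_mul]
  have h2 : ∀ b d, (∑ a, (S.D a (S.B b a d) - S.D b (S.B a a d))) * S.A0 b d =
      S.H * (S.A2 b d * S.A0 b d) + (S.n - S.a2) * (S.A b d * S.A0 b d)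
        - S.H * (S.P b d * S.A0 b d)
        + S.F b * (-∑ a, S.D a (S.A a d)) * S.A0 b d
        + S.ν b * (∑ a, ∑ e, S.A a e * S.D e (S.A a d)) * S.A0 b d
        + S.F d * (∑ a, S.D a (S.A b a) - S.D b S.H) * S.A0 b d
        + S.ν d * (S.D b S.a2 - ∑ a, S.D a (S.A2 b a)) * S.A0 b d := by
    intro b d
    rw [S.Simons_point]
    ring
  have e1 := S.Simons_drop_left S.F (fun d => -∑ a, S.D a (S.A a d)) S.Simons_A0_F
  have e2 := S.Simons_drop_left S.ν (fun d => ∑ a, ∑ e, S.A a e * S.D e (S.A a d)) S.Simons_A0_ν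
  have e3 := S.Simons_drop_right S.F (fun b => ∑ a, S.D a (S.A b a) - S.D b S.H) S.Simons_A0_F
  have e4 := S.Simons_drop_right S.ν (fun b => S.D b S.a2 - ∑ a, S.D a (S.A2 b a)) S.Simons_A0_ν
  have m1 : ∀ (c : R) (M : ι → ι → R), ∑ b, ∑ d, c * M b d = c * ∑ b, ∑ d, M b d := by
    intro c M
    rw [Finset.mul_sum]
    exact Finset.sum_congr rfl fun b _ => by rw [Finset.mul_sum]
  rw [h1, Finset.sum_congr rfl fun b _ => Finset.sum_congr rfl fun d _ => h2 b d]
  simp only [Finset.sum_add_distrib, Finset.sum_sub_distrib] at e1 e2 e3 e4 ⊢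
  rw [e1, e2, e3, e4, m1, m1, m1, S.Simons_A2A0, S.Simons_AA0, S.Simons_PA0, SA.u]
  simp only [Algebra.smul_def]
  ring

end Pool.Agent.Lib.MP_de485e_gt.Conv.SA
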