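import Pool.Agent.Lib.MP_de485e_gt.Conv.Ineq1
import Pool.Agent.Lib.MP_de485e_gt.Conv.Simons
import Pool.Agent.Lib.MP_de485e_gt.Conv.Alg3

/-! Pointwise inequalities: Codazzi, Kato, Simons, evolution of `v`. -/

namespace Pool.Agent.Lib.MP_de485e_gt.Conv

variable {ι : Type} [Fintype ι] [DecidableEq ι] {R : Type} [CommRing R] [Algebra ℝ R]

omit [DecidableEq ι] in
theorem Ineq2_cs1 (f g : ι → ℝ) :
    (∑ a, f a * g a) ^ 2 ≤ (∑ a, f a ^ 2) * ∑ a, g a ^ 2 :=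
  Finset.sum_mul_sq_le_sq_mul_sq Finset.univ f g

omit [DecidableEq ι] in
theorem Ineq2_cs2 (f g : ι → ι → ℝ) :
    (∑ a, ∑ b, f a b * g a b) ^ 2 ≤ (∑ a, ∑ b, f a b ^ 2) * ∑ a, ∑ b, g a b ^ 2 := by
  have h := Finset.sum_mul_sq_le_sq_mul_sq (Finset.univ : Finset (ι × ι))
    (fun x => f x.1 x.2) (fun x => g x.1 x.2)
  simpa only [Fintype.sum_prod_type] using h

omit [DecidableEq ι] in
theorem Ineq2_cs3 (f g : ι → ι → ι → ℝ) :
    (∑ a, ∑ b, ∑ c, f a b c * g a b c) ^ 2 ≤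
      (∑ a, ∑ b, ∑ c, f a b c ^ 2) * ∑ a, ∑ b, ∑ c, g a b c ^ 2 := by
  have h := Finset.sum_mul_sq_le_sq_mul_sq (Finset.univ : Finset (ι × ι × ι))
    (fun x => f x.1 x.2.1 x.2.2) (fun x => g x.1 x.2.1 x.2.2)
  simpa only [Fintype.sum_prod_type] using h

omit [DecidableEq ι] in
theorem Ineq2_cyc (f : ι → ι → ι → ℝ) :
    ∑ a, ∑ b, ∑ c, f b c a = ∑ a, ∑ b, ∑ c, f a b c := by
  rw [Finset.sum_comm]
  exact Finset.sum_congr rfl fun b _ => Finset.sum_comm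

omit [DecidableEq ι] in
theorem Ineq2_cyc' (f : ι → ι → ι → ℝ) :
    ∑ a, ∑ b, ∑ c, f c a b = ∑ a, ∑ b, ∑ c, f a b c :=
  (Ineq2_cyc fun a b c => f c a b).symm

omit [DecidableEq ι] in
theorem Ineq2_codazzi (β : ι → ι → ι → ℝ) (p : ι → ι → ℝ) (h : ι → ℝ) (n : ℝ) (hn : 0 ≤ n)
    (s12 : ∀ a b c, β a b c = β b a c) (s23 : ∀ a b c, β a b c = β a c b)
    (ps : ∀ a b, p a b = p b a) (pp : ∀ a b, ∑ c, p a c * p c b = p a b)
    (ptr : ∑ a, p a a = n) (βp : ∀ a b c, ∑ d, β a b d * p d c = β a b c)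
    (ph : ∀ a, ∑ b, p a b * h b = h a) (hβ : ∀ a, h a = ∑ b, β a b b) :
    3 * ∑ a, h a * h a ≤ (n + 2) * ∑ a, ∑ b, ∑ c, β a b c ^ 2 := by
  obtain ⟨G, hG⟩ : ∃ G, G = ∑ a, h a * h a := ⟨_, rfl⟩
  have b1 : ∑ a, ∑ b, ∑ c, β a b c * (p b c * h a) = G := by
    rw [hG]
    refine Finset.sum_congr rfl fun a _ => ?_
    rw [hβ a, Finset.sum_mul]
    refine Finset.sum_congr rfl fun b _ => ?_
    rw [← hβ a, ← βp a b b, Finset.sum_mul]
    refine Finset.sum_congr rfl fun c _ => ?_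
    rw [ps b c]; ring
  have b2 : ∑ a, ∑ b, ∑ c, β a b c * (p c a * h b) = G := by
    rw [← b1, ← Ineq2_cyc fun a b c => β a b c * (p b c * h a)]
    refine Finset.sum_congr rfl fun a _ => Finset.sum_congr rfl fun b _ =>
      Finset.sum_congr rfl fun c _ => ?_
    rw [s12 a b c, s23 b a c]
  have b3 : ∑ a, ∑ b, ∑ c, β a b c * (p a b * h c) = G := by
    rw [← b1, ← Ineq2_cyc' fun a b c => β a b c * (p b c * h a)]
    refine Finset.sum_congr rfl fun a _ => Finset.sum_congr rfl fun b _ =>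
      Finset.sum_congr rfl fun c _ => ?_
    rw [s23 a b c, s12 a c b]
  have pn : ∑ b, ∑ c, p b c * p b c = n := by
    rw [← ptr]
    refine Finset.sum_congr rfl fun b _ => ?_
    rw [← pp b b]
    exact Finset.sum_congr rfl fun c _ => by rw [ps c b]
  have e1 : ∑ a, ∑ b, ∑ c, (p b c * h a) * (p b c * h a) = n * G := by
    rw [hG, Finset.mul_sum]
    refine Finset.sum_congr rfl fun a _ => ?_
    rw [← pn, Finset.sum_mul]
    refine Finset.sum_congr rfl fun b _ => ?_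
    rw [Finset.sum_mul]
    exact Finset.sum_congr rfl fun c _ => by ring
  have e2 : ∑ a, ∑ b, ∑ c, (p c a * h b) * (p c a * h b) = n * G := by
    rw [← e1]; exact Ineq2_cyc fun a b c => (p b c * h a) * (p b c * h a)
  have e3 : ∑ a, ∑ b, ∑ c, (p a b * h c) * (p a b * h c) = n * G := by
    rw [← e1]; exact Ineq2_cyc' fun a b c => (p b c * h a) * (p b c * h a)
  have m1 : ∑ a, ∑ b, ∑ c, (p b c * h a) * (p c a * h b) = G := by
    rw [hG]
    refine Finset.sum_congr rfl fun a _ => ?_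
    have : ∀ b, ∑ c, (p b c * h a) * (p c a * h b) = h a * (p a b * h b) := by
      intro b
      rw [ps a b, ← pp b a, Finset.sum_mul, Finset.mul_sum]
      exact Finset.sum_congr rfl fun c _ => by ring
    rw [Finset.sum_congr rfl fun b _ => this b, ← Finset.mul_sum, ph a]
  have m2 : ∑ a, ∑ b, ∑ c, (p c a * h b) * (p a b * h c) = G := by
    rw [← m1]; exact Ineq2_cyc fun a b c => (p b c * h a) * (p c a * h b)
  have m3 : ∑ a, ∑ b, ∑ c, (p a b * h c) * (p b c * h a) = G := by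
    rw [← m1]; exact Ineq2_cyc' fun a b c => (p b c * h a) * (p c a * h b)
  have key : ∑ a, ∑ b, ∑ c, ((n + 2) * β a b c - (p b c * h a + p c a * h b + p a b * h c)) ^ 2 =
      (n + 2) ^ 2 * (∑ a, ∑ b, ∑ c, β a b c ^ 2) -
        2 * (n + 2) * ((∑ a, ∑ b, ∑ c, β a b c * (p b c * h a)) +
        (∑ a, ∑ b, ∑ c, β a b c * (p c a * h b)) + ∑ a, ∑ b, ∑ c, β a b c * (p a b * h c)) +
        ((∑ a, ∑ b, ∑ c, (p b c * h a) * (p b c * h a)) +
        (∑ a, ∑ b, ∑ c, (p c a * h b) * (p c a * h b)) +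
          ∑ a, ∑ b, ∑ c, (p a b * h c) * (p a b * h c)) +
        2 * ((∑ a, ∑ b, ∑ c, (p b c * h a) * (p c a * h b)) +
        (∑ a, ∑ b, ∑ c, (p c a * h b) * (p a b * h c)) +
          ∑ a, ∑ b, ∑ c, (p a b * h c) * (p b c * h a)) := by
    simp only [← Finset.sum_add_distrib]
    simp only [Finset.mul_sum]
    simp only [← Finset.sum_add_distrib, ← Finset.sum_sub_distrib]
    exact Finset.sum_congr rfl fun a _ => Finset.sum_congr rfl fun b _ =>
      Finset.sum_congr rfl fun c _ => by ring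
  have hpos : 0 ≤ ∑ a, ∑ b, ∑ c,
      ((n + 2) * β a b c - (p b c * h a + p c a * h b + p a b * h c)) ^ 2 :=
    Finset.sum_nonneg fun a _ => Finset.sum_nonneg fun b _ =>
      Finset.sum_nonneg fun c _ => sq_nonneg _
  rw [key, b1, b2, b3, e1, e2, e3, m1, m2, m3] at hpos
  rw [← hG]
  generalize (∑ a, ∑ b, ∑ c, β a b c ^ 2) = V at hpos ⊢
  have h2 : 0 < n + 2 := by linarith
  refine le_of_mul_le_mul_left ?_ h2
  linarith [show (n + 2) ^ 2 * V - 2 * (n + 2) * (G + G + G) + (n * G + n * G + n * G) +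
    2 * (G + G + G) = (n + 2) * ((n + 2) * V) - (n + 2) * (3 * G) by ring]

omit [DecidableEq ι] in
theorem Ineq2_contr (β : ι → ι → ι → ℝ) (α : ι → ι → ℝ) :
    ∑ a, ∑ b, ∑ e, (∑ c, β a b c * α c e) ^ 2 ≤
      (∑ a, ∑ b, α a b ^ 2) * ∑ a, ∑ b, ∑ c, β a b c ^ 2 := by
  rw [Finset.mul_sum]
  refine Finset.sum_le_sum fun a _ => ?_
  rw [Finset.mul_sum]
  refine Finset.sum_le_sum fun b _ => ?_
  rw [Finset.sum_comm (f := fun c e => α c e ^ 2), Finset.sum_mul]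
  refine Finset.sum_le_sum fun e _ => ?_
  rw [mul_comm]
  exact Ineq2_cs1 (fun c => β a b c) fun c => α c e

omit [DecidableEq ι] in
theorem Ineq2_diag (δ : ι → ι → ι → ι → ℝ) (σ : ι → ι → ι) :
    ∑ a, ∑ b, ∑ d, δ a b (σ a b) d ^ 2 ≤ ∑ a, ∑ b, ∑ e, ∑ d, δ a b e d ^ 2 :=
  Finset.sum_le_sum fun a _ => Finset.sum_le_sum fun b _ =>
    Finset.single_le_sum (f := fun e => ∑ d, δ a b e d ^ 2) (fun _ _ => by positivity)
      (Finset.mem_univ (σ a b))

namespace SA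

variable (S : SA ι R) (ev : R →ₐ[ℝ] ℝ)

theorem Ineq2_v : ev S.v = ∑ a, ∑ b, ∑ c, ev (S.B a b c) ^ 2 := by
  simp only [v, map_sum, map_pow]

theorem Ineq2_q : ev S.q = ∑ d, ∑ a, ∑ b, ∑ c, ev (S.D d (S.B a b c)) ^ 2 := by
  simp only [q, map_sum, map_pow]

theorem Ineq2_a2 : ev S.a2 = ∑ a, ∑ b, ev (S.A a b) ^ 2 := by
  simp only [a2, map_sum, map_pow]

theorem Ineq2_u : ev S.u = ∑ a, ∑ b, ev (S.A0 a b) ^ 2 := by
  rw [← S.A0_sq]
  simp only [map_sum, map_pow]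

theorem Ineq2_grad (g h : R) : ev (S.grad g h) = ∑ a, ev (S.D a g) * ev (S.D a h) := by
  simp only [grad, map_sum, map_mul]

theorem ev_W : ev S.W = (S.n : ℝ) ^ 2 + ev S.H ^ 2 := by
  simp only [W, map_add, map_pow, map_natCast]

theorem ev_u : ev S.u = ev S.a2 - (S.n : ℝ)⁻¹ * ev S.H ^ 2 := by
  simp only [u, map_sub, map_smul, map_pow, smul_eq_mul]

theorem v_nonneg : 0 ≤ ev S.v := by
  rw [Ineq2_v]; positivity

theorem q_nonneg : 0 ≤ ev S.q := by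
  rw [Ineq2_q]; positivity

theorem a2_nonneg : 0 ≤ ev S.a2 := by
  rw [Ineq2_a2]; positivity

theorem u_nonneg : 0 ≤ ev S.u := by
  rw [Ineq2_u]; positivity

theorem grad_nonneg (g : R) : 0 ≤ ev (S.grad g g) := by
  rw [Ineq2_grad]
  exact Finset.sum_nonneg fun a _ => mul_self_nonneg _

theorem grad_sq_le (g h : R) : ev (S.grad g h) ^ 2 ≤ ev (S.grad g g) * ev (S.grad h h) := by
  simp only [Ineq2_grad, ← sq]
  exact Ineq2_cs1 _ _

theorem grad_W : ev (S.grad S.W S.W) = 4 * ev S.H ^ 2 * ev (S.grad S.H S.H) := by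
  simp only [Ineq2_grad, DW, map_mul, map_ofNat, Finset.mul_sum]
  exact Finset.sum_congr rfl fun a _ => by ring

/-- With `E a b c = P a b h c + P b c h a + P c a h b`, `h = DH` (tangential by `D_eq`):
`B.E = 3 |h|^2`, `E.E = 3 (n + 2) |h|^2`; expand `0 ≤ |(n + 2) B - E|^2`. -/
theorem codazzi : 3 * ev (S.grad S.H S.H) ≤ (S.n + 2) * ev S.v := by
  rw [Ineq2_grad, Ineq2_v]
  refine Ineq2_codazzi (fun a b c => ev (S.B a b c)) (fun a b => ev (S.P a b))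
    (fun a => ev (S.D a S.H)) S.n (Nat.cast_nonneg _) (fun a b c => by rw [S.B_symm12])
    (fun a b c => by rw [S.B_symm23]) (fun a b => by rw [S.P_symm]) (fun a b => ?_) ?_
    (fun a b c => ?_) (fun a => ?_) (fun a => ?_)
  · simpa only [map_sum, map_mul] using congrArg ev (S.P_P a b)
  · simpa only [map_sum, map_natCast] using congrArg ev S.P_trace
  · simpa only [map_sum, map_mul] using congrArg ev (S.B_P a b c)
  · simpa only [map_sum, map_mul] using congrArg ev (S.D_eq a S.H)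
  · simpa only [map_sum] using congrArg ev (S.DH a)

theorem kato : ev (S.grad S.v S.v) ≤ 4 * ev S.v * ev S.q := by
  rw [Ineq2_grad, Ineq2_q, Finset.mul_sum]
  refine Finset.sum_le_sum fun d _ => ?_
  have h := Ineq2_cs3 (fun a b c => ev (S.B a b c)) fun a b c => ev (S.D d (S.B a b c))
  rw [← Ineq2_v] at h
  rw [S.Dv d]
  simp only [map_mul, map_ofNat, map_sum]
  nlinarith [h]

theorem grad_a2 : ev (S.grad S.a2 S.a2) ≤ 4 * ev S.a2 * ev S.v := by
  rw [Ineq2_grad, Ineq2_v, Finset.mul_sum]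
  refine Finset.sum_le_sum fun d _ => ?_
  have h := Ineq2_cs2 (fun b c => ev (S.A b c)) fun b c => ev (S.B d b c)
  rw [← Ineq2_a2] at h
  rw [S.Da2 d]
  simp only [map_mul, map_ofNat, map_sum]
  nlinarith [h]

theorem J1_le : ev S.J1 ≤ ev S.a2 * ev S.v := by
  have h := Ineq2_contr (fun a b c => ev (S.B a b c)) fun a b => ev (S.A a b)
  rw [← Ineq2_a2, ← Ineq2_v] at h
  refine le_of_eq_of_le ?_ h
  simp only [J1, A2, map_sum, map_mul]
  refine Finset.sum_congr rfl fun a _ => Finset.sum_congr rfl fun b _ => ?_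
  simp only [sq, Finset.sum_mul_sum]
  simp only [Finset.mul_sum]
  rw [← Ineq2_cyc' fun e c d => ev (S.B a b c) * ev (S.A c e) * (ev (S.B a b d) * ev (S.A d e))]
  refine Finset.sum_congr rfl fun c _ => Finset.sum_congr rfl fun d _ =>
    Finset.sum_congr rfl fun e _ => ?_
  rw [S.A_symm e c]; ring

theorem J2_le : |ev S.J2| ≤ ev S.a2 * ev S.v := by
  have h := Ineq2_contr (fun a b c => ev (S.B a b c)) fun a b => ev (S.A a b)
  rw [← Ineq2_a2, ← Ineq2_v] at h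
  have e : ev S.J2 = ∑ a, ∑ c, ∑ d, (∑ b, ev (S.B a c b) * ev (S.A b d)) *
      ∑ e, ev (S.B a d e) * ev (S.A e c) := by
    simp only [J2, map_sum, map_mul]
    refine Finset.sum_congr rfl fun a _ => ?_
    simp only [Finset.sum_mul_sum]
    rw [← Ineq2_cyc fun c d b => ∑ e, ev (S.B a c b) * ev (S.A b d) *
      (ev (S.B a d e) * ev (S.A e c))]
    refine Finset.sum_congr rfl fun b _ => Finset.sum_congr rfl fun c _ =>
      Finset.sum_congr rfl fun d _ => Finset.sum_congr rfl fun e _ => ?_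
    rw [S.B_symm23 a b c]; ring
  have c := Ineq2_cs3 (fun a c d => ∑ b, ev (S.B a c b) * ev (S.A b d))
    fun a c d => ∑ e, ev (S.B a d e) * ev (S.A e c)
  have h2 : ∑ a, ∑ c, ∑ d, (∑ e, ev (S.B a d e) * ev (S.A e c)) ^ 2 ≤ ev S.a2 * ev S.v := by
    refine le_of_eq_of_le (Finset.sum_congr rfl fun a _ => Finset.sum_comm) h
  have h0 : 0 ≤ ev S.a2 * ev S.v := mul_nonneg (S.a2_nonneg ev) (S.v_nonneg ev)
  rw [← e] at c
  refine abs_le_of_sq_le_sq' ?_ h0 |> abs_le.2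
  refine c.trans ?_
  rw [sq]
  exact mul_le_mul h h2 (by positivity) h0

/-- `simons`, Cauchy-Schwarz over `(a, b, d)` (each of the two sums has square at most
`q (n + 2) u`), `pin_S`. -/
theorem pin_q (h : S.Pinch ev) :
    ev S.W ^ 2 * ev S.u ≤ 12544 * (S.n : ℝ) ^ 2 * (S.n + 2) * ev S.q := by
  have hS := S.pin_S ev h
  have hu := S.u_nonneg ev
  have hq := S.q_nonneg ev
  have hW : 0 ≤ ev S.W := by rw [ev_W]; positivity
  have hn : (0 : ℝ) ≤ S.n := Nat.cast_nonneg _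
  have hA : ∑ _a : ι, ∑ b, ∑ d, ev (S.A0 b d) ^ 2 = (S.n + 2) * ev S.u := by
    rw [← Ineq2_u, Finset.sum_const, Finset.card_univ, S.card, nsmul_eq_mul]
    push_cast; ring
  have hX := Ineq2_cs3 (fun a b d => ev (S.D a (S.B b a d))) fun _ b d => ev (S.A0 b d)
  have hY := Ineq2_cs3 (fun a b d => ev (S.D b (S.B a a d))) fun _ b d => ev (S.A0 b d)
  have qX : ∑ a, ∑ b, ∑ d, ev (S.D a (S.B b a d)) ^ 2 ≤ ev S.q := by
    rw [Ineq2_q]
    exact Ineq2_diag (fun a b e d => ev (S.D a (S.B b e d))) fun a _ => a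
  have qY : ∑ a, ∑ b, ∑ d, ev (S.D b (S.B a a d)) ^ 2 ≤ ev S.q := by
    rw [Ineq2_q, Finset.sum_comm]
    exact Ineq2_diag (fun a b e d => ev (S.D a (S.B b e d))) fun _ b => b
  rw [hA] at hX hY
  have hu2 : 0 ≤ ((S.n : ℝ) + 2) * ev S.u := by positivity
  replace hX := hX.trans (mul_le_mul_of_nonneg_right qX hu2)
  replace hY := hY.trans (mul_le_mul_of_nonneg_right qY hu2)
  have hs : ev (S.H * S.a3 - S.a2 ^ 2 + S.n * S.u) =
      (∑ a, ∑ b, ∑ d, ev (S.D a (S.B b a d)) * ev (S.A0 b d)) -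
        ∑ a, ∑ b, ∑ d, ev (S.D b (S.B a a d)) * ev (S.A0 b d) := by
    rw [← S.simons]
    simp only [map_sum, map_mul, map_sub, sub_mul, Finset.sum_sub_distrib]
  rw [hs] at hS
  generalize (∑ a, ∑ b, ∑ d, ev (S.D a (S.B b a d)) * ev (S.A0 b d)) = X at hS hX
  generalize (∑ a, ∑ b, ∑ d, ev (S.D b (S.B a a d)) * ev (S.A0 b d)) = Y at hS hY
  have h1 : (X - Y) ^ 2 ≤ 4 * (ev S.q * ((S.n + 2) * ev S.u)) := by
    nlinarith [sq_nonneg (X + Y)]
  have h2 : (ev S.W * ev S.u) ^ 2 ≤ (56 * S.n * (X - Y)) ^ 2 :=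
    pow_le_pow_left₀ (mul_nonneg hW hu) hS 2
  have h3 : (56 * S.n * (X - Y)) ^ 2 ≤
      3136 * (S.n : ℝ) ^ 2 * (4 * (ev S.q * ((S.n + 2) * ev S.u))) := by
    rw [show (56 * S.n * (X - Y)) ^ 2 = 3136 * (S.n : ℝ) ^ 2 * (X - Y) ^ 2 by ring]
    exact mul_le_mul_of_nonneg_left h1 (by positivity)
  rcases hu.eq_or_lt with h0 | h0
  · rw [← h0, mul_zero]; positivity
  · refine le_of_mul_le_mul_right ?_ h0
    nlinarith [h2.trans h3]

theorem pin_a2 (h : S.Pinch ev) : (S.n + 1) * (ev S.a2 + S.n) ≤ 2 * ev S.W := by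
  have h1 := (S.pin_u ev h).2
  have hn : (0 : ℝ) < S.n := by
    have := S.hn
    exact_mod_cast (by omega : 0 < S.n)
  rw [ev_u] at h1
  have e : (S.n : ℝ) * (S.n + 1) * (ev S.a2 - (S.n : ℝ)⁻¹ * ev S.H ^ 2) =
      S.n * (S.n + 1) * ev S.a2 - (S.n + 1) * ev S.H ^ 2 := by
    field_simp
  rw [e] at h1
  refine le_of_mul_le_mul_left ?_ hn
  have hW := S.ev_W ev
  rw [hW] at h1 ⊢
  nlinarith

end SA

theorem DA.Lv_le (S : DA ι R) (ev : R →ₐ[ℝ] ℝ) (h : S.Pinch ev) :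
    ev (S.L S.v) ≤ -2 * ev S.q + 50 * ev S.W * ev S.v := by
  have h1 := S.toSA.grad_a2 ev
  have h2 := S.toSA.codazzi ev
  have h3 := S.toSA.J1_le ev
  have h4 := (abs_le.1 (S.toSA.J2_le ev)).1
  have h5 := S.toSA.pin_a2 ev h
  have hv := S.toSA.v_nonneg ev
  have ha := S.toSA.a2_nonneg ev
  have hn : (2 : ℝ) ≤ S.n := by exact_mod_cast S.hn
  have hW : 4 ≤ ev S.W := by
    rw [S.toSA.ev_W ev]; nlinarith [sq_nonneg (ev S.H)]
  have h6 : 3 * ev S.a2 ≤ 2 * ev S.W := by nlinarith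
  have h7 : (38 * ev S.a2 + 8) * ev S.v ≤ 50 * ev S.W * ev S.v :=
    mul_le_mul_of_nonneg_right (by linarith) hv
  rw [S.L_v]
  simp only [map_add, map_sub, map_mul, map_neg, map_ofNat, map_natCast]
  nlinarith

end Pool.Agent.Lib.MP_de485e_gt.Conv
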