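import Pool.Agent.Lib.MP_de485e_gt.Conv.ModDef

/-! Charts, transition maps, derivations along smooth fields. -/

open Set Filter Topology
open scoped RealInnerProductSpace InnerProduct Manifold ContDiff

namespace Pool.Agent.Lib.MP_de485e_gt.Conv

variable {P Q : Type} [NormedAddCommGroup P] [InnerProductSpace ℝ P] [CompleteSpace P]
  [FiniteDimensional ℝ P] [NormedAddCommGroup Q] [InnerProductSpace ℝ Q] [CompleteSpace Q]
  [FiniteDimensional ℝ Q] {M : Type} [TopologicalSpace M] [ChartedSpace P M]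
  {O : Set (ℝ × M)} {V : Type} [NormedAddCommGroup V] [NormedSpace ℝ V]

private theorem Mod1_contOn (c : M) :
    ContinuousOn (fun p : ℝ × P => (p.1, (chartAt P c).symm p.2))
      (Prod.snd ⁻¹' (chartAt P c).target) :=
  continuousOn_fst.prodMk ((chartAt P c).continuousOn_symm.comp continuousOn_snd fun _ hp => hp)

theorem isOpen_cs (hO : IsOpen O) (c : M) : IsOpen (cs P O c) :=
  (Mod1_contOn (P := P) c).isOpen_inter_preimage
    ((chartAt P c).open_target.preimage continuous_snd) hO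

theorem ptc_mem {z : ℝ × M} (hz : z ∈ O) {c : M} (hc : z.2 ∈ (chartAt P c).source) :
    ptc P c z ∈ cs P O c := by
  refine ⟨(chartAt P c).map_source hc, ?_⟩
  simp only [ptc, (chartAt P c).left_inv hc]
  exact hz

theorem rd_ptc (g : ℝ × M → V) {z : ℝ × M} {c : M} (hc : z.2 ∈ (chartAt P c).source) :
    rd P g c (ptc P c z) = g z := by
  simp only [rd, ptc, (chartAt P c).left_inv hc]

theorem ptc_symm {c : M} {p : ℝ × P} (hp : p ∈ cs P O c) :
    ptc P c (p.1, (chartAt P c).symm p.2) = p ∧ (chartAt P c).symm p.2 ∈ (chartAt P c).source := by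
  refine ⟨?_, (chartAt P c).map_target hp.1⟩
  simp only [ptc, (chartAt P c).right_inv hp.1]

theorem Smo.contDiffAt {g : ℝ × M → V} (h : Smo P O g) (hO : IsOpen O) {c : M} {p : ℝ × P}
    (hp : p ∈ cs P O c) : ContDiffAt ℝ ∞ (rd P g c) p :=
  (h c).contDiffAt ((isOpen_cs hO c).mem_nhds hp)

theorem Smo.continuousOn {g : ℝ × M → V} (h : Smo P O g) (hO : IsOpen O) : ContinuousOn g O := by
  intro z hz
  have hc : z.2 ∈ (chartAt P z.2).source := mem_chart_source P z.2
  have h1 : ContinuousAt (rd P g z.2) (ptc P z.2 z) :=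
    (h.contDiffAt hO (ptc_mem hz hc)).continuousAt
  have h2 : ContinuousAt (ptc P z.2) z :=
    continuousAt_fst.prodMk (((chartAt P z.2).continuousAt hc).comp continuousAt_snd)
  have h3 : ∀ᶠ w in 𝓝 z, w.2 ∈ (chartAt P z.2).source :=
    continuousAt_snd.preimage_mem_nhds ((chartAt P z.2).open_source.mem_nhds hc)
  have h4 : (rd P g z.2 ∘ ptc P z.2) =ᶠ[𝓝 z] g := h3.mono fun w hw => rd_ptc g hw
  exact ((h1.comp h2).congr h4).continuousWithinAt

theorem rd_congr {g g' : ℝ × M → V} (hO : IsOpen O) (e : ∀ z ∈ O, g z = g' z) {c : M} {p : ℝ × P}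
    (hp : p ∈ cs P O c) : rd P g c =ᶠ[𝓝 p] rd P g' c := by
  filter_upwards [(isOpen_cs hO c).mem_nhds hp] with q hq
  exact e _ hq.2

theorem Smo.inner_const {g : ℝ × M → Q} (h : Smo P O g) (w : Q) :
    Smo P O fun z => ⟪w, g z⟫ := fun c =>
  ContDiffOn.inner ℝ (contDiffOn_const (c := w)) (h c)

theorem Fld.rd_app (X : Fld P O) {g : ℝ × M → ℝ} (hg : Smo P O g) {c : M} {p : ℝ × P}
    (hp : p ∈ cs P O c) : rd P (X.app g) c p = fderiv ℝ (rd P g c) p (X.V c p) := by
  have h1 := X.compat g hg (p.1, (chartAt P c).symm p.2) hp.2 c (ptc_symm hp).2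
  rw [(ptc_symm hp).1] at h1
  exact h1

theorem Fld.smo_app (X : Fld P O) (hO : IsOpen O) {g : ℝ × M → ℝ} (hg : Smo P O g) :
    Smo P O (X.app g) := fun c => by
  have h1 : ContDiffOn ℝ ∞ (fderiv ℝ (rd P g c)) (cs P O c) :=
    (hg c).fderiv_of_isOpen (isOpen_cs hO c) (by simp)
  exact (h1.clm_apply (X.smooth c)).congr fun p hp => X.rd_app hg hp

theorem Fld.app_congr (X : Fld P O) (hO : IsOpen O) {g g' : ℝ × M → ℝ} (e : ∀ z ∈ O, g z = g' z)
    {z : ℝ × M} (hz : z ∈ O) : X.app g z = X.app g' z := by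
  unfold Fld.app
  rw [(rd_congr hO e (ptc_mem hz (mem_chart_source P z.2))).fderiv_eq]

private theorem Mod1_diff (hO : IsOpen O) (g : Rg P O) (z : O) :
    DifferentiableAt ℝ (rd P (fn g) z.1.2) (ptc P z.1.2 z.1) :=
  ((fn_smo g).contDiffAt hO (ptc_mem z.2 (mem_chart_source P z.1.2))).differentiableAt (by simp)

private theorem Mod1_fn (g : Rg P O) {w : ℝ × M} (hw : w ∈ O) : fn g w = ev ⟨w, hw⟩ g :=
  (ev_eq ⟨w, hw⟩ g).symm

theorem Fld.app_add (X : Fld P O) (hO : IsOpen O) (g h : Rg P O) (z : O) :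
    X.app (fn (g + h)) z = X.app (fn g) z + X.app (fn h) z := by
  rw [X.app_congr hO (g := fn (g + h)) (g' := fun w => fn g w + fn h w)
    (fun w hw => by rw [Mod1_fn _ hw, Mod1_fn _ hw, Mod1_fn _ hw, map_add]) z.2]
  have e : rd P (fun w => fn g w + fn h w) z.1.2 = rd P (fn g) z.1.2 + rd P (fn h) z.1.2 := rfl
  unfold Fld.app
  rw [e, fderiv_add (Mod1_diff hO g z) (Mod1_diff hO h z), ContinuousLinearMap.add_apply]

theorem Fld.app_smul (X : Fld P O) (hO : IsOpen O) (r : ℝ) (g : Rg P O) (z : O) :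
    X.app (fn (r • g)) z = r * X.app (fn g) z := by
  rw [X.app_congr hO (g := fn (r • g)) (g' := fun w => r • fn g w)
    (fun w hw => by rw [Mod1_fn _ hw, Mod1_fn _ hw, map_smul]) z.2]
  have e : rd P (fun w => r • fn g w) z.1.2 = r • rd P (fn g) z.1.2 := rfl
  unfold Fld.app
  rw [e, fderiv_const_smul (Mod1_diff hO g z), ContinuousLinearMap.smul_apply, smul_eq_mul]

theorem Fld.app_mul (X : Fld P O) (hO : IsOpen O) (g h : Rg P O) (z : O) :
    X.app (fn (g * h)) z = ev z g * X.app (fn h) z + ev z h * X.app (fn g) z := by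
  rw [X.app_congr hO (g := fn (g * h)) (g' := fun w => fn g w * fn h w)
    (fun w hw => by rw [Mod1_fn _ hw, Mod1_fn _ hw, Mod1_fn _ hw, map_mul]) z.2]
  have e : rd P (fun w => fn g w * fn h w) z.1.2 = rd P (fn g) z.1.2 * rd P (fn h) z.1.2 := rfl
  unfold Fld.app
  rw [e, fderiv_mul (Mod1_diff hO g z) (Mod1_diff hO h z), ContinuousLinearMap.add_apply,
    ContinuousLinearMap.smul_apply, ContinuousLinearMap.smul_apply, smul_eq_mul, smul_eq_mul,
    rd_ptc _ (mem_chart_source P z.1.2), rd_ptc _ (mem_chart_source P z.1.2), ev_eq, ev_eq]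

/-- The derivation along a field. -/
noncomputable def Fld.der (X : Fld P O) (hO : IsOpen O) : Derivation ℝ (Rg P O) (Rg P O) :=
  Derivation.mk'
    { toFun := fun g => mkR (X.app (fn g)) (X.smo_app hO (fn_smo g))
      map_add' := fun g h => rg_ext fun z => by
        rw [map_add, ev_mk, ev_mk, ev_mk, X.app_add hO]
      map_smul' := fun r g => rg_ext fun z => by
        rw [map_smul, ev_mk, ev_mk, X.app_smul hO]; rfl }
    fun g h => rg_ext fun z => by
      simp only [LinearMap.coe_mk, AddHom.coe_mk, smul_eq_mul, map_add, map_mul, ev_mk]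
      exact X.app_mul hO g h z

theorem Fld.ev_der (X : Fld P O) (hO : IsOpen O) (g : Rg P O) (z : O) :
    ev z (X.der hO g) = X.app (fn g) z := rfl

theorem Fld.rd_der (X : Fld P O) (hO : IsOpen O) (g : Rg P O) {c : M} {p : ℝ × P}
    (hp : p ∈ cs P O c) :
    rd P (fn (X.der hO g)) c p = fderiv ℝ (rd P (fn g) c) p (X.V c p) := by
  rw [← X.rd_app (fn_smo g) hp]
  exact (Mod1_fn (X.der hO g) hp.2).trans (X.ev_der hO g ⟨_, hp.2⟩)

end Pool.Agent.Lib.MP_de485e_gt.Conv
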