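import Pool.Agent.Lib.MP_de485e_gt.Conv.Mod1

/-! Charts, transition maps, derivations along smooth fields. -/

open Set Filter Topology
open scoped RealInnerProductSpace InnerProduct Manifold ContDiff

namespace Pool.Agent.Lib.MP_de485e_gt.Conv

variable {P Q : Type} [NormedAddCommGroup P] [InnerProductSpace ℝ P] [CompleteSpace P]
  [FiniteDimensional ℝ P] [NormedAddCommGroup Q] [InnerProductSpace ℝ Q] [CompleteSpace Q]
  [FiniteDimensional ℝ Q] {M : Type} [TopologicalSpace M] [ChartedSpace P M]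
  {O : Set (ℝ × M)} {V : Type} [NormedAddCommGroup V] [NormedSpace ℝ V]

/-- Two derivations in a row, read in the chart at the point. -/
theorem Mod1b_der_der (X Y : Fld P O) (hO : IsOpen O) (g : Rg P O) (z : O) :
    ev z (X.der hO (Y.der hO g)) =
      fderiv ℝ (fderiv ℝ (rd P (fn g) z.1.2)) (ptc P z.1.2 z) (X.V z.1.2 (ptc P z.1.2 z))
          (Y.V z.1.2 (ptc P z.1.2 z)) +
        fderiv ℝ (rd P (fn g) z.1.2) (ptc P z.1.2 z)
          (fderiv ℝ (Y.V z.1.2) (ptc P z.1.2 z) (X.V z.1.2 (ptc P z.1.2 z))) := by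
  have hp : ptc P z.1.2 z ∈ cs P O z.1.2 := ptc_mem z.2 (mem_chart_source _ _)
  have hn : cs P O z.1.2 ∈ 𝓝 (ptc P z.1.2 z) := (isOpen_cs hO _).mem_nhds hp
  have e : rd P (fn (Y.der hO g)) z.1.2 =ᶠ[𝓝 (ptc P z.1.2 z)]
      fun p => fderiv ℝ (rd P (fn g) z.1.2) p (Y.V z.1.2 p) := by
    filter_upwards [hn] with p hp' using Y.rd_der hO g hp'
  have hG : ContDiffAt ℝ ∞ (rd P (fn g) z.1.2) (ptc P z.1.2 z) := (fn_smo g).contDiffAt hO hp
  have hG' : DifferentiableAt ℝ (fderiv ℝ (rd P (fn g) z.1.2)) (ptc P z.1.2 z) :=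
    (hG.fderiv_right (m := 1) (by norm_cast)).differentiableAt (by norm_num)
  have hY : DifferentiableAt ℝ (Y.V z.1.2) (ptc P z.1.2 z) :=
    ((Y.smooth z.1.2).contDiffAt hn).differentiableAt (by simp)
  rw [Fld.ev_der, Fld.app, e.fderiv_eq, fderiv_clm_apply hG' hY]
  simp only [ContinuousLinearMap.add_apply, ContinuousLinearMap.comp_apply,
    ContinuousLinearMap.flip_apply]
  rw [add_comm]

/-- The commutator is the derivative along the Lie bracket (`VectorField.lieBracket`). -/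
theorem Fld.ev_comm (X Y : Fld P O) (hO : IsOpen O) (g : Rg P O) (z : O) :
    ev z (X.der hO (Y.der hO g) - Y.der hO (X.der hO g)) =
      fderiv ℝ (rd P (fn g) z.1.2) (ptc P z.1.2 z)
        (fderiv ℝ (Y.V z.1.2) (ptc P z.1.2 z) (X.V z.1.2 (ptc P z.1.2 z)) -
          fderiv ℝ (X.V z.1.2) (ptc P z.1.2 z) (Y.V z.1.2 (ptc P z.1.2 z))) := by
  have hp : ptc P z.1.2 z ∈ cs P O z.1.2 := ptc_mem z.2 (mem_chart_source _ _)
  have hG : ContDiffAt ℝ ∞ (rd P (fn g) z.1.2) (ptc P z.1.2 z) := (fn_smo g).contDiffAt hO hp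
  have hs : IsSymmSndFDerivAt ℝ (rd P (fn g) z.1.2) (ptc P z.1.2 z) :=
    hG.isSymmSndFDerivAt (by simp; norm_cast)
  rw [map_sub, Mod1b_der_der, Mod1b_der_der, map_sub, hs.eq]
  ring

/-- Chain rule for a smooth real function of a ring element. -/
theorem exists_comp (hO : IsOpen O) (g : Rg P O) {f f' : ℝ → ℝ} {U : Set ℝ} (hU : IsOpen U)
    (hf : ContDiffOn ℝ ∞ f U) (hf' : ∀ s ∈ U, HasDerivAt f (f' s) s) (hg : ∀ z, ev z g ∈ U) :
    ∃ Φ : Rg P O, (∀ z, ev z Φ = f (ev z g)) ∧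
      ∀ (X : Fld P O) (z : O), ev z (X.der hO Φ) = f' (ev z g) * ev z (X.der hO g) := by
  have hmem : ∀ z ∈ O, fn g z ∈ U := fun z hz => by
    have := hg ⟨z, hz⟩
    rwa [ev_eq] at this
  have hs : Smo P O fun z => f (fn g z) := fun c =>
    hf.comp (fn_smo g c) fun p hp => hmem _ hp.2
  refine ⟨mkR _ hs, fun z => by rw [ev_mk, ev_eq], fun X z => ?_⟩
  have hp : ptc P z.1.2 z ∈ cs P O z.1.2 := ptc_mem z.2 (mem_chart_source _ _)
  have hG : DifferentiableAt ℝ (rd P (fn g) z.1.2) (ptc P z.1.2 z) :=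
    ((fn_smo g).contDiffAt hO hp).differentiableAt (by simp)
  have e : rd P (fn (mkR _ hs)) z.1.2 =ᶠ[𝓝 (ptc P z.1.2 z)]
      rd P (fun w => f (fn g w)) z.1.2 :=
    rd_congr hO (fun w hw => (ev_eq ⟨w, hw⟩ _).symm.trans (ev_mk _ hs ⟨w, hw⟩)) hp
  have e0 : rd P (fn g) z.1.2 (ptc P z.1.2 z) = ev z g := by
    rw [rd_ptc _ (mem_chart_source _ _), ev_eq]
  have hd : HasFDerivAt (f ∘ rd P (fn g) z.1.2)
      (f' (ev z g) • fderiv ℝ (rd P (fn g) z.1.2) (ptc P z.1.2 z)) (ptc P z.1.2 z) :=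
    HasDerivAt.comp_hasFDerivAt_of_eq _ (hf' _ (hg z)) hG.hasFDerivAt e0.symm
  have e1 : rd P (fun w => f (fn g w)) z.1.2 = f ∘ rd P (fn g) z.1.2 := rfl
  rw [Fld.ev_der, Fld.ev_der, Fld.app, Fld.app, e.fderiv_eq, e1, hd.fderiv]
  rfl

variable [IsManifold 𝓘(ℝ, P) ∞ M]

/-- A transition map is differentiable. -/
theorem Mod1b_trans_diff {a b x : M} (ha : x ∈ (chartAt P a).source)
    (hb : x ∈ (chartAt P b).source) :
    DifferentiableAt ℝ (chartAt P b ∘ (chartAt P a).symm) (chartAt P a x) := by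
  have e0 := (chartAt P a).left_inv ha
  have c1 : ContMDiffAt 𝓘(ℝ, P) 𝓘(ℝ, P) ∞ (chartAt P a).symm (chartAt P a x) :=
    contMDiffOn_chart_symm.contMDiffAt
      ((chartAt P a).open_target.mem_nhds ((chartAt P a).map_source ha))
  have c2 : ContMDiffAt 𝓘(ℝ, P) 𝓘(ℝ, P) ∞ (chartAt P b)
      ((chartAt P a).symm (chartAt P a x)) := by
    rw [e0]; exact contMDiffOn_chart.contMDiffAt ((chartAt P b).open_source.mem_nhds hb)
  exact (contMDiffAt_iff_contDiffAt.1 (c2.comp _ c1)).differentiableAt (by simp)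

/-- Near a point of two chart domains, the first chart inverse lands in the second domain. -/
theorem Mod1b_near {a b x : M} (ha : x ∈ (chartAt P a).source)
    (hb : x ∈ (chartAt P b).source) :
    ∀ᶠ y in 𝓝 (chartAt P a x), y ∈ (chartAt P a).target ∧
      (chartAt P a).symm y ∈ (chartAt P b).source := by
  have ht := (chartAt P a).map_source ha
  refine Filter.Eventually.and ((chartAt P a).open_target.mem_nhds ht) ?_
  refine ((chartAt P a).continuousAt_symm ht).eventually ((chartAt P b).open_source.mem_nhds ?_)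
  rw [(chartAt P a).left_inv ha]; exact hb

/-- The derivatives of the two transition maps are inverse to each other. -/
theorem Mod1b_trans_inv {a b x : M} (ha : x ∈ (chartAt P a).source)
    (hb : x ∈ (chartAt P b).source) (ξ : P) :
    fderiv ℝ (chartAt P a ∘ (chartAt P b).symm) (chartAt P b x)
      (fderiv ℝ (chartAt P b ∘ (chartAt P a).symm) (chartAt P a x) ξ) = ξ := by
  have e0 : (chartAt P b ∘ (chartAt P a).symm) (chartAt P a x) = chartAt P b x := by
    rw [Function.comp_apply, (chartAt P a).left_inv ha]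
  have h1 := Mod1b_trans_diff ha hb
  have h2 := Mod1b_trans_diff hb ha
  have hc := fderiv_comp (chartAt P a x) (e0 ▸ h2) h1
  have e : (chartAt P a ∘ (chartAt P b).symm) ∘ (chartAt P b ∘ (chartAt P a).symm)
      =ᶠ[𝓝 (chartAt P a x)] id := by
    filter_upwards [Mod1b_near ha hb] with y hy
    simp only [Function.comp_apply, (chartAt P b).left_inv hy.2, (chartAt P a).right_inv hy.1, id]
  rw [e.fderiv_eq, fderiv_id, e0] at hc
  have := congrArg (fun L : P →L[ℝ] P => L ξ) hc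
  exact this.symm

/-- The transition map `ψ` from the chart at `x` to the chart at `c` has an invertible derivative
`A` at the centre, and functions read in the two charts differ by `id × ψ`. -/
theorem exists_transition (hO : IsOpen O) {z : ℝ × M} (hz : z ∈ O) {c : M}
    (hc : z.2 ∈ (chartAt P c).source) : ∃ A : P ≃L[ℝ] P,
      ∀ {V : Type} [NormedAddCommGroup V] [NormedSpace ℝ V] (g : ℝ × M → V), Smo P O g →
        ∀ (τ : ℝ) (ξ : P), fderiv ℝ (rd P g z.2) (ptc P z.2 z) (τ, ξ) =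
          fderiv ℝ (rd P g c) (ptc P c z) (τ, A ξ) := by
  have hx := mem_chart_source P z.2
  refine ⟨ContinuousLinearEquiv.equivOfInverse
    (fderiv ℝ (chartAt P c ∘ (chartAt P z.2).symm) (chartAt P z.2 z.2))
    (fderiv ℝ (chartAt P z.2 ∘ (chartAt P c).symm) (chartAt P c z.2))
    (Mod1b_trans_inv hx hc) (Mod1b_trans_inv hc hx), ?_⟩
  intro V _ _ g hg τ ξ
  have h1 := (Mod1b_trans_diff hx hc).hasFDerivAt
  have hΨ : HasFDerivAt (Prod.map (id : ℝ → ℝ) (chartAt P c ∘ (chartAt P z.2).symm))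
      ((ContinuousLinearMap.id ℝ ℝ).prodMap
        (fderiv ℝ (chartAt P c ∘ (chartAt P z.2).symm) (chartAt P z.2 z.2))) (ptc P z.2 z) :=
    HasFDerivAt.prodMap (ptc P z.2 z) (hasFDerivAt_id _) h1
  have e0 : Prod.map (id : ℝ → ℝ) (chartAt P c ∘ (chartAt P z.2).symm) (ptc P z.2 z) =
      ptc P c z := by
    simp only [ptc, Prod.map, id, Function.comp_apply, (chartAt P z.2).left_inv hx]
  have hG : DifferentiableAt ℝ (rd P g c) (ptc P c z) :=
    (hg.contDiffAt hO (ptc_mem hz hc)).differentiableAt (by simp)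
  have hd := HasFDerivAt.comp (ptc P z.2 z) (e0 ▸ hG.hasFDerivAt) hΨ
  have e : rd P g z.2 =ᶠ[𝓝 (ptc P z.2 z)]
      rd P g c ∘ Prod.map (id : ℝ → ℝ) (chartAt P c ∘ (chartAt P z.2).symm) := by
    have hn : ∀ᶠ p : ℝ × P in 𝓝 (ptc P z.2 z), p.2 ∈ (chartAt P z.2).target ∧
        (chartAt P z.2).symm p.2 ∈ (chartAt P c).source :=
      (continuous_snd.tendsto (ptc P z.2 z)).eventually (Mod1b_near hx hc)
    filter_upwards [hn] with p hp
    simp only [rd, Function.comp_apply, Prod.map, id, (chartAt P c).left_inv hp.2]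
  rw [e.fderiv_eq, hd.fderiv, e0]
  rfl

end Pool.Agent.Lib.MP_de485e_gt.Conv
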