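import Pool.Agent.Lib.MP_de485e_gt.Conv.Mod2a

/-! The tangential fields, the time field and the static structure. -/

open Set Filter Topology
open scoped RealInnerProductSpace InnerProduct Manifold ContDiff

namespace Pool.Agent.Lib.MP_de485e_gt.Conv

variable {P Q : Type} [NormedAddCommGroup P] [InnerProductSpace ℝ P] [CompleteSpace P]
  [FiniteDimensional ℝ P] [NormedAddCommGroup Q] [InnerProductSpace ℝ Q] [CompleteSpace Q]
  [FiniteDimensional ℝ Q] {M : Type} [TopologicalSpace M] [ChartedSpace P M]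
  [IsManifold 𝓘(ℝ, P) ∞ M] {O : Set (ℝ × M)} {F : ℝ → M → Q}

namespace Dom

variable (h : Dom P F O)
include h

private theorem Mod2_diff {V : Type} [NormedAddCommGroup V] [NormedSpace ℝ V] {g : ℝ × M → V}
    (hg : Smo P O g) {z : ℝ × M} (hz : z ∈ O) : ContDiffAt ℝ ∞ (rd P g z.2) (ptc P z.2 z) :=
  hg.contDiffAt h.isOpen (ptc_mem hz (mem_chart_source P z.2))

private theorem Mod2_ev_D (w : Q) (g : Rg P O) (z : O) :
    ev z (h.D w g) = fderiv ℝ (rd P (fn g) z.1.2) (ptc P z.1.2 z)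
      ((0 : ℝ), pinv (dF P (F z.1.1) z.1.2) w) := by
  rw [← h.Lc_centre z.2]; rfl

private theorem Mod2_dF {z : ℝ × M} (hz : z ∈ O) (ξ : P) :
    fderiv ℝ (rd P (fun z : ℝ × M => F z.1 z.2) z.2) (ptc P z.2 z) ((0 : ℝ), ξ) =
      dF P (F z.1) z.2 ξ := by
  rw [← h.Lc_centre hz]; rfl

theorem fderiv_Fc (w : Q) (z : O) (v : ℝ × P) :
    fderiv ℝ (rd P (fn (h.Fc w)) z.1.2) (ptc P z.1.2 z) v =
      ⟪w, fderiv ℝ (rd P (fun z : ℝ × M => F z.1 z.2) z.1.2) (ptc P z.1.2 z) v⟫ := by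
  have e : rd P (fn (h.Fc w)) z.1.2 =ᶠ[𝓝 (ptc P z.1.2 z)]
      rd P (fun z : ℝ × M => ⟪w, F z.1 z.2⟫) z.1.2 :=
    rd_congr h.isOpen (fun y hy => by rw [← ev_eq ⟨y, hy⟩]; rfl)
      (ptc_mem z.2 (mem_chart_source P z.1.2))
  have hd := ((h.Mod2_diff h.smooth z.2).differentiableAt (by simp)).hasFDerivAt
  have k := ((innerSL ℝ w).hasFDerivAt.comp _ hd).fderiv
  rw [e.fderiv_eq]
  exact congrArg (fun T : ℝ × P →L[ℝ] ℝ => T v) k

theorem ev_D_Fc (w w' : Q) (z : O) :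
    ev z (h.D w (h.Fc w')) = ⟪w', dF P (F z.1.1) z.1.2 (pinv (dF P (F z.1.1) z.1.2) w)⟫ := by
  rw [h.Mod2_ev_D, h.fderiv_Fc, h.Mod2_dF z.2]

variable {ι : Type} [Fintype ι] (b : OrthonormalBasis ι ℝ Q)

/-- A spatial derivative is a combination of the tangential derivatives. -/
theorem fderiv_space (g : Rg P O) (z : O) (ξ : P) :
    fderiv ℝ (rd P (fn g) z.1.2) (ptc P z.1.2 z) (0, ξ) =
      ∑ d, ⟪b d, dF P (F z.1.1) z.1.2 ξ⟫ * ev z (h.D (b d) g) := by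
  have e : ((0 : ℝ), ξ) = ∑ d, ⟪b d, dF P (F z.1.1) z.1.2 ξ⟫ •
      ((0 : ℝ), pinv (dF P (F z.1.1) z.1.2) (b d)) := by
    refine Prod.ext ?_ ?_
    · simp [Prod.fst_sum]
    · simp only [Prod.snd_sum, Prod.smul_snd, ← map_smul, ← map_sum]
      rw [b.sum_repr' (dF P (F z.1.1) z.1.2 ξ), pinv_apply (h.imm _ z.2)]
  rw [e, map_sum]
  refine Finset.sum_congr rfl fun d _ => ?_
  rw [map_smul, h.Mod2_ev_D, smul_eq_mul]

theorem sum_D_eq_zero {f : ι → Rg P O} {w : O → Q} (hf : ∀ z a, ev z (f a) = ⟪b a, w z⟫)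
    (hw : ∀ (z : O) ξ, ⟪dF P (F z.1.1) z.1.2 ξ, w z⟫ = 0) (g : Rg P O) :
    ∑ a, f a * h.D (b a) g = 0 := by
  refine rg_ext fun z => ?_
  have e : ∑ d, ⟪b d, w z⟫ • ((0 : ℝ), pinv (dF P (F z.1.1) z.1.2) (b d)) = 0 := by
    refine Prod.ext ?_ ?_
    · simp [Prod.fst_sum]
    · simp only [Prod.snd_sum, Prod.smul_snd, ← map_smul, ← map_sum]
      rw [b.sum_repr' (w z), pinv_perp (hw z)]; rfl
  have k := congrArg (fderiv ℝ (rd P (fn g) z.1.2) (ptc P z.1.2 z)) e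
  rw [map_sum, map_zero] at k
  rw [map_sum, map_zero, ← k]
  refine Finset.sum_congr rfl fun d _ => ?_
  rw [map_mul, hf, map_smul, h.Mod2_ev_D, smul_eq_mul]

private theorem Mod2_fst (X : Fld P O) {τ : ℝ} (hX : ∀ c p, (X.V c p).1 = τ) (z : O)
    (v : ℝ × P) : (fderiv ℝ (X.V z.1.2) (ptc P z.1.2 z) v).1 = 0 := by
  have hd : DifferentiableAt ℝ (X.V z.1.2) (ptc P z.1.2 z) :=
    ((X.smooth z.1.2).contDiffAt ((isOpen_cs h.isOpen _).mem_nhds
      (ptc_mem z.2 (mem_chart_source P z.1.2)))).differentiableAt (by simp)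
  have k := hd.hasFDerivAt.fst
  have e : (fun p => (X.V z.1.2 p).1) = fun _ => τ := funext fun p => hX _ p
  rw [e] at k
  exact congrArg (fun T : ℝ × P →L[ℝ] ℝ => T v) (k.unique (hasFDerivAt_const τ _))

/-- `Fld.ev_comm`; the bracket has time component `0`; `fderiv_space`, `fderiv_Fc`. -/
theorem comm_of_const (X Y : Fld P O) {τ τ' : ℝ} (hX : ∀ c p, (X.V c p).1 = τ)
    (hY : ∀ c p, (Y.V c p).1 = τ') (g : Rg P O) :
    X.der h.isOpen (Y.der h.isOpen g) - Y.der h.isOpen (X.der h.isOpen g) =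
      ∑ d, (X.der h.isOpen (Y.der h.isOpen (h.Fc (b d))) -
        Y.der h.isOpen (X.der h.isOpen (h.Fc (b d)))) * h.D (b d) g := by
  refine rg_ext fun z => ?_
  obtain ⟨ξ, hξ⟩ : ∃ ξ : P, fderiv ℝ (Y.V z.1.2) (ptc P z.1.2 z) (X.V z.1.2 (ptc P z.1.2 z)) -
      fderiv ℝ (X.V z.1.2) (ptc P z.1.2 z) (Y.V z.1.2 (ptc P z.1.2 z)) = ((0 : ℝ), ξ) :=
    ⟨_, Prod.ext (by rw [Prod.fst_sub, h.Mod2_fst Y hY, h.Mod2_fst X hX, sub_zero]) rfl⟩
  rw [Fld.ev_comm, hξ, h.fderiv_space b, map_sum]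
  refine Finset.sum_congr rfl fun d _ => ?_
  rw [map_mul, Fld.ev_comm, hξ, h.fderiv_Fc, h.Mod2_dF z.2]

theorem res_D {O' : Set (ℝ × M)} (hO' : IsOpen O') (hO : O' ⊆ O) (w : Q) (g : Rg P O) :
    res hO (h.D w g) = (h.mono hO' hO).D w (res hO g) := by
  refine rg_ext fun z => ?_
  have e : rd P (fn (res hO g)) z.1.2 =ᶠ[𝓝 (ptc P z.1.2 z)] rd P (fn g) z.1.2 :=
    rd_congr hO' (fun y hy => by rw [← ev_eq ⟨y, hy⟩, ev_res])
      (ptc_mem z.2 (mem_chart_source P z.1.2))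
  rw [ev_res, ← ev_eq ⟨z.1, hO z.2⟩, h.Mod2_ev_D, (h.mono hO' hO).Mod2_ev_D, e.fderiv_eq]

theorem res_Fc {O' : Set (ℝ × M)} (hO' : IsOpen O') (hO : O' ⊆ O) (w : Q) :
    res hO (h.Fc w) = (h.mono hO' hO).Fc w := by
  refine rg_ext fun z => ?_
  rw [ev_res, ← ev_eq ⟨z.1, hO z.2⟩]; rfl

theorem hasDerivAt_fn (g : Rg P O) (z : O) :
    HasDerivAt (fun s => fn g (s, z.1.2)) (ev z (h.dt g)) z.1.1 := by
  have hd := ((h.Mod2_diff (fn_smo g) z.2).differentiableAt (by simp)).hasFDerivAt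
  have hl : HasDerivAt (fun s : ℝ => (s, chartAt P z.1.2 z.1.2)) ((1 : ℝ), (0 : P)) z.1.1 :=
    (hasDerivAt_id _).prodMk (hasDerivAt_const _ _)
  have k := HasFDerivAt.comp_hasDerivAt (l := rd P (fn g) z.1.2) z.1.1 hd hl
  have e : (rd P (fn g) z.1.2 ∘ fun s : ℝ => (s, chartAt P z.1.2 z.1.2)) =
      fun s => fn g (s, z.1.2) := funext fun s => by
    simp only [Function.comp_apply, rd, (chartAt P z.1.2).left_inv (mem_chart_source P z.1.2)]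
  rw [e] at k
  exact k

/-- Spatial derivative in the chart at the point. -/
theorem hasStrictFDerivAt_fn (g : Rg P O) (z : O) : ∃ g' : P →L[ℝ] ℝ,
    HasStrictFDerivAt (fun y => fn g (z.1.1, (chartAt P z.1.2).symm y)) g'
        (chartAt P z.1.2 z.1.2) ∧
      ∀ ξ, g' ξ = ∑ d, ⟪b d, dF P (F z.1.1) z.1.2 ξ⟫ * ev z (h.D (b d) g) := by
  have hd := (h.Mod2_diff (fn_smo g) z.2).hasStrictFDerivAt (by simp)
  have hl : HasStrictFDerivAt (fun y : P => (z.1.1, y)) (ContinuousLinearMap.inr ℝ ℝ P)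
      (chartAt P z.1.2 z.1.2) := by
    have := (hasStrictFDerivAt_const (𝕜 := ℝ) z.1.1 (chartAt P z.1.2 z.1.2)).prodMk
      (hasStrictFDerivAt_id (𝕜 := ℝ) (chartAt P z.1.2 z.1.2))
    exact this
  exact ⟨_, HasStrictFDerivAt.comp (g := rd P (fn g) z.1.2) (f := fun y : P => (z.1.1, y))
    (chartAt P z.1.2 z.1.2) hd hl,
    fun ξ => h.fderiv_space b g z ξ⟩

theorem strict {z : ℝ × M} (hz : z ∈ O) :
    HasStrictFDerivAt (loc P (F z.1) z.2) (dF P (F z.1) z.2) (chartAt P z.2 z.2) := by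
  have hd := h.Mod2_diff h.smooth hz
  have hl : ContDiffAt ℝ ∞ (fun y : P => (z.1, y)) (chartAt P z.2 z.2) :=
    contDiffAt_const.prodMk contDiffAt_id
  have k : ContDiffAt ℝ ∞ (loc P (F z.1) z.2) (chartAt P z.2 z.2) :=
    ContDiffAt.comp (g := rd P (fun z : ℝ × M => F z.1 z.2) z.2) (f := fun y : P => (z.1, y))
      (chartAt P z.2 z.2) hd hl
  exact k.hasStrictFDerivAt (by simp)

end Dom

end Pool.Agent.Lib.MP_de485e_gt.Conv
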