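import Pool.Agent.Lib.MP_de485e_gt.Conv.Mod1b

/-! The tangential fields, the time field and the static structure. -/

open Set Filter Topology
open scoped RealInnerProductSpace InnerProduct Manifold ContDiff

namespace Pool.Agent.Lib.MP_de485e_gt.Conv

variable {P Q : Type} [NormedAddCommGroup P] [InnerProductSpace ℝ P] [CompleteSpace P]
  [FiniteDimensional ℝ P] [NormedAddCommGroup Q] [InnerProductSpace ℝ Q] [CompleteSpace Q]
  [FiniteDimensional ℝ Q] {M : Type} [TopologicalSpace M] [ChartedSpace P M]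
  [IsManifold 𝓘(ℝ, P) ∞ M] {O : Set (ℝ × M)} {F : ℝ → M → Q}

theorem pinv_apply {L : P →L[ℝ] Q} (hL : Function.Injective L) (ξ : P) : pinv L (L ξ) = ξ :=
  gi_gram hL ξ

theorem inner_pinv {L : P →L[ℝ] Q} (hL : Function.Injective L) (w : Q) (ξ : P) :
    ⟪L (pinv L w), L ξ⟫ = ⟪w, L ξ⟫ := by
  rw [← ContinuousLinearMap.adjoint_inner_left, ← ContinuousLinearMap.adjoint_inner_left]
  exact congrArg (fun a => ⟪a, ξ⟫) (gram_gi hL ((L†) w))

theorem pinv_perp {L : P →L[ℝ] Q} {w : Q} (hw : ∀ ξ, ⟪L ξ, w⟫ = 0) : pinv L w = 0 := by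
  have : (L†) w = 0 := by
    refine ext_inner_left ℝ fun b => ?_
    rw [ContinuousLinearMap.adjoint_inner_right, hw, inner_zero_right]
  change gi L ((L†) w) = 0
  rw [this, map_zero]

theorem pinv_comp {L : P →L[ℝ] Q} (hL : Function.Injective L) (A : P ≃L[ℝ] P) (w : Q) :
    A (pinv (L ∘L (A : P →L[ℝ] P)) w) = pinv L w := by
  have hLA : Function.Injective (L ∘L (A : P →L[ℝ] P)) := hL.comp A.injective
  apply hL
  rw [← sub_eq_zero, ← map_sub, ← inner_self_eq_zero (𝕜 := ℝ)]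
  obtain ⟨ξ, hξ⟩ := A.surjective (A (pinv (L ∘L (A : P →L[ℝ] P)) w) - pinv L w)
  have h1 : ⟪L (A (pinv (L ∘L (A : P →L[ℝ] P)) w)), L (A ξ)⟫ = ⟪w, L (A ξ)⟫ := inner_pinv hLA w ξ
  have h2 := inner_pinv hL w (A ξ)
  nth_rewrite 2 [← hξ]
  rw [map_sub, inner_sub_left, h1, h2, sub_self]

theorem Dom.mono (h : Dom P F O) {O' : Set (ℝ × M)} (hO' : IsOpen O') (hO : O' ⊆ O) :
    Dom P F O' := ⟨hO', h.smooth.mono hO, fun z hz => h.sphere z (hO hz), fun z hz => h.imm z (hO hz)⟩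

namespace Dom

variable (h : Dom P F O)
include h

theorem Lc_centre {z : ℝ × M} (hz : z ∈ O) : Lc P F z.2 (ptc P z.2 z) = dF P (F z.1) z.2 := by
  have hd := ((h.smooth.contDiffAt h.isOpen (ptc_mem hz (mem_chart_source P z.2))).differentiableAt
    (by simp)).hasFDerivAt
  exact (hd.comp (chartAt P z.2 z.2) (hasFDerivAt_prodMk_right z.1 (chartAt P z.2 z.2))).fderiv.symm

theorem Mod2a_Lc_trans {z : ℝ × M} (hz : z ∈ O) {c : M} (hc : z.2 ∈ (chartAt P c).source) :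
    ∃ A : P ≃L[ℝ] P, Lc P F z.2 (ptc P z.2 z) = Lc P F c (ptc P c z) ∘L (A : P →L[ℝ] P) ∧
      ∀ g : ℝ × M → ℝ, Smo P O g → ∀ (τ : ℝ) (ξ : P),
        fderiv ℝ (rd P g z.2) (ptc P z.2 z) (τ, ξ) =
          fderiv ℝ (rd P g c) (ptc P c z) (τ, A ξ) := by
  obtain ⟨A, hA⟩ := exists_transition (P := P) h.isOpen hz hc
  exact ⟨A, ContinuousLinearMap.ext fun ξ => hA _ h.smooth 0 ξ, fun g hg τ ξ => hA g hg τ ξ⟩

/-- `exists_transition` and `Lc_centre`. -/
theorem Lc_inj {c : M} {p : ℝ × P} (hp : p ∈ cs P O c) : Function.Injective (Lc P F c p) := by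
  obtain ⟨e, hc⟩ := ptc_symm hp
  obtain ⟨A, hA, -⟩ := h.Mod2a_Lc_trans (z := (p.1, (chartAt P c).symm p.2)) hp.2 hc
  have hi := h.imm _ hp.2
  rw [← h.Lc_centre hp.2, hA, e] at hi
  intro a b hab
  obtain ⟨a, rfl⟩ := A.surjective a
  obtain ⟨b, rfl⟩ := A.surjective b
  exact congrArg A (hi hab)

theorem dF_perp {z : ℝ × M} (hz : z ∈ O) (ξ : P) : ⟪dF P (F z.1) z.2 ξ, F z.1 z.2⟫ = 0 := by
  have hp := ptc_mem (P := P) hz (mem_chart_source P z.2)
  have hd := ((h.smooth.contDiffAt h.isOpen hp).differentiableAt (by simp)).hasFDerivAt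
  have hx : (fun p => ⟪rd P (fun z : ℝ × M => F z.1 z.2) z.2 p,
      rd P (fun z : ℝ × M => F z.1 z.2) z.2 p⟫) =ᶠ[𝓝 (ptc P z.2 z)] fun _ => (1 : ℝ) := by
    filter_upwards [(isOpen_cs h.isOpen z.2).mem_nhds hp] with p hp
    have := h.sphere _ hp.2
    rw [real_inner_self_eq_norm_sq]
    exact (congrArg (fun r : ℝ => r ^ 2) this).trans (one_pow 2)
  have := congrArg (fun T : ℝ × P →L[ℝ] ℝ => T (0, ξ)) ((hd.inner ℝ hd).unique
    ((hasFDerivAt_const (1 : ℝ) _).congr_of_eventuallyEq hx))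
  simp only [ContinuousLinearMap.comp_apply, fderivInnerCLM_apply,
    ContinuousLinearMap.prod_apply, zero_apply,
    rd_ptc _ (mem_chart_source P z.2)] at this
  rw [← h.Lc_centre hz]
  change ⟪fderiv ℝ (rd P (fun z : ℝ × M => F z.1 z.2) z.2) (ptc P z.2 z) (0, ξ), F z.1 z.2⟫ = 0
  rw [real_inner_comm _ (F z.1 z.2)] at this
  linarith

/-- `contDiffAt_ringInverse`, `isUnit_gram`, `adjL`. -/
theorem X_smooth (w : Q) (c : M) :
    ContDiffOn ℝ ∞ (fun p : ℝ × P => ((0 : ℝ), pinv (Lc P F c p) w)) (cs P O c) := by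
  intro p hp
  have hL : ContDiffAt ℝ ∞ (Lc P F c) p :=
    ((h.smooth.contDiffAt h.isOpen hp).fderiv_right (m := ∞) (by simp)).clm_comp contDiffAt_const
  have hA : ContDiffAt ℝ ∞ (fun q => (Lc P F c q)†) p :=
    (adjL (P := P) (Q := Q)).contDiff.contDiffAt.comp p hL
  obtain ⟨u, hu⟩ := isUnit_gram (h.Lc_inj hp)
  have hi := contDiffAt_ringInverse ℝ (n := ∞) u
  rw [hu] at hi
  have hg : ContDiffAt ℝ ∞ (fun q => gi (Lc P F c q)) p := hi.comp p (hA.clm_comp hL)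
  exact (contDiffAt_const.prodMk
    (hg.clm_apply (hA.clm_apply contDiffAt_const))).contDiffWithinAt

theorem X_compat (w : Q) (g : ℝ × M → ℝ) (hg : Smo P O g) (z : ℝ × M) (hz : z ∈ O) (c : M)
    (hc : z.2 ∈ (chartAt P c).source) :
    fderiv ℝ (rd P g z.2) (ptc P z.2 z) ((0 : ℝ), pinv (Lc P F z.2 (ptc P z.2 z)) w) =
      fderiv ℝ (rd P g c) (ptc P c z) ((0 : ℝ), pinv (Lc P F c (ptc P c z)) w) := by
  obtain ⟨A, hA, hg'⟩ := h.Mod2a_Lc_trans hz hc
  rw [hg' g hg, hA, pinv_comp (h.Lc_inj (ptc_mem hz hc))]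

theorem T_compat (g : ℝ × M → ℝ) (hg : Smo P O g) (z : ℝ × M) (hz : z ∈ O) (c : M)
    (hc : z.2 ∈ (chartAt P c).source) :
    fderiv ℝ (rd P g z.2) (ptc P z.2 z) ((1 : ℝ), (0 : P)) =
      fderiv ℝ (rd P g c) (ptc P c z) ((1 : ℝ), (0 : P)) := by
  obtain ⟨A, -, hg'⟩ := h.Mod2a_Lc_trans hz hc
  rw [hg' g hg, map_zero]

/-- The tangential part of the constant vector `w`. -/
noncomputable def X (w : Q) : Fld P O :=
  ⟨fun c p => (0, pinv (Lc P F c p) w), h.X_smooth w, h.X_compat w⟩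

/-- The time direction. -/
noncomputable def T : Fld P O := ⟨fun _ _ => (1, 0), fun _ => contDiffOn_const, h.T_compat⟩

/-- Tangential derivative. -/
noncomputable def D (w : Q) : Derivation ℝ (Rg P O) (Rg P O) := (h.X w).der h.isOpen

/-- Time derivative. -/
noncomputable def dt : Derivation ℝ (Rg P O) (Rg P O) := h.T.der h.isOpen

/-- A component of the position vector. -/
noncomputable def Fc (w : Q) : Rg P O := mkR (fun z => ⟪w, F z.1 z.2⟫) (h.smooth.inner_const w)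

end Dom

end Pool.Agent.Lib.MP_de485e_gt.Conv
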