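import Pool.Agent.Lib.MP_de485e_gt.Conv.Mod3a

/-! The local unit normal and the local model of the abstract calculus. -/

open Set Filter Topology
open scoped RealInnerProductSpace InnerProduct Manifold ContDiff

namespace Pool.Agent.Lib.MP_de485e_gt.Conv

variable {P Q : Type} [NormedAddCommGroup P] [InnerProductSpace ℝ P] [CompleteSpace P]
  [FiniteDimensional ℝ P] [NormedAddCommGroup Q] [InnerProductSpace ℝ Q] [CompleteSpace Q]
  [FiniteDimensional ℝ Q] {M : Type} [TopologicalSpace M] [ChartedSpace P M]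
  [IsManifold 𝓘(ℝ, P) ∞ M] {O : Set (ℝ × M)} {F : ℝ → M → Q} {n : ℕ}
  {ι : Type} [Fintype ι] [DecidableEq ι]

/-- The unit normal is orthogonal to the spatial derivatives in every chart. -/
private theorem Mod3_perp (h : Dom P F O) {ν : ℝ × M → Q} (k : Nor P F O ν) {c : M} {p : ℝ × P}
    (hp : p ∈ cs P O c) (ζ : P) :
    ⟪fderiv ℝ (rd P (fun z : ℝ × M => F z.1 z.2) c) p (0, ζ), rd P ν c p⟫ = 0 := by
  obtain ⟨e1, e2⟩ := ptc_symm hp
  obtain ⟨A, hA⟩ := exists_transition h.isOpen hp.2 e2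
  obtain ⟨ξ, rfl⟩ := A.surjective ζ
  have h1 := hA (fun z : ℝ × M => F z.1 z.2) h.smooth 0 ξ
  rw [e1] at h1
  rw [← h1]
  have h2 := congrArg (fun T : P →L[ℝ] Q => T ξ) (h.Lc_centre hp.2)
  simp only [Lc, ContinuousLinearMap.comp_apply, ContinuousLinearMap.inr_apply] at h2
  rw [h2]
  exact (mem_normal_iff.1 (k.mem _ hp.2)).1 ξ

/-- The Hessian in the chart at the point, from the space-time derivative. -/
private theorem Mod3_hess (h : Dom P F O) {z : ℝ × M} (hz : z ∈ O) (ξ ζ : P) :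
    hess P (F z.1) z.2 ξ ζ = fderiv ℝ (fun p => fderiv ℝ (rd P (fun z : ℝ × M => F z.1 z.2) z.2) p
      (0, ζ)) (ptc P z.2 z) (0, ξ) := by
  have hp := ptc_mem hz (mem_chart_source P z.2)
  have hι : ∀ y : P, HasFDerivAt (fun y : P => ((z.1, y) : ℝ × P))
      (ContinuousLinearMap.inr ℝ ℝ P) y := fun y => hasFDerivAt_prodMk_right z.1 y
  have hn : ∀ᶠ y in 𝓝 (chartAt P z.2 z.2), ((z.1, y) : ℝ × P) ∈ cs P O z.2 :=
    (hι _).continuousAt.eventually ((isOpen_cs h.isOpen z.2).mem_nhds hp)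
  have e : (fun y => fderiv ℝ (loc P (F z.1) z.2) y ζ) =ᶠ[𝓝 (chartAt P z.2 z.2)]
      (fun p => fderiv ℝ (rd P (fun z : ℝ × M => F z.1 z.2) z.2) p (0, ζ)) ∘
        fun y : P => ((z.1, y) : ℝ × P) := by
    filter_upwards [hn] with y hy
    have h1 := (((h.smooth.contDiffAt h.isOpen hy).differentiableAt
      (by simp)).hasFDerivAt.comp y (hι y)).fderiv
    exact congrArg (fun T : P →L[ℝ] Q => T ζ) h1
  have hd : DifferentiableAt ℝ
      (fun p => fderiv ℝ (rd P (fun z : ℝ × M => F z.1 z.2) z.2) p (0, ζ)) (ptc P z.2 z) :=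
    (((h.smooth.contDiffAt h.isOpen hp).fderiv_right (m := 1)
      (by norm_cast)).differentiableAt (by simp)).clm_apply (differentiableAt_const _)
  rw [hess, e.fderiv_eq]
  exact congrArg (fun T : P →L[ℝ] Q => T ξ)
    (hd.hasFDerivAt.comp (chartAt P z.2 z.2) (hι _)).fderiv

/-- The derivative of a component of the normal. -/
private theorem Mod3_fderiv_c (h : Dom P F O) {ν : ℝ × M → Q} (k : Nor P F O ν) (w : Q) (z : O)
    (v : ℝ × P) : fderiv ℝ (rd P (fn (k.c w)) z.1.2) (ptc P z.1.2 z) v =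
      ⟪w, fderiv ℝ (rd P ν z.1.2) (ptc P z.1.2 z) v⟫ := by
  have hp := ptc_mem z.2 (mem_chart_source P z.1.2)
  have e := rd_congr (g := fn (k.c w)) (g' := fun z => ⟪w, ν z⟫) h.isOpen
    (fun y hy => (ev_eq ⟨y, hy⟩ (k.c w)).symm) hp
  rw [e.fderiv_eq]
  have hd := ((k.smooth.contDiffAt h.isOpen hp).differentiableAt (by simp)).hasFDerivAt
  exact congrArg (fun T : ℝ × P →L[ℝ] ℝ => T v)
    ((innerSL ℝ w).hasFDerivAt.comp _ hd).fderiv

/-- The normal component of the Hessian. -/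
private theorem Mod3_inner_hess (h : Dom P F O) {ν : ℝ × M → Q} (k : Nor P F O ν) {z : ℝ × M}
    (hz : z ∈ O) (ξ ζ : P) : ⟪ν z, hess P (F z.1) z.2 ξ ζ⟫ =
      -⟪dF P (F z.1) z.2 ζ, fderiv ℝ (rd P ν z.2) (ptc P z.2 z) (0, ξ)⟫ := by
  have hp := ptc_mem hz (mem_chart_source P z.2)
  have hd : DifferentiableAt ℝ
      (fun p => fderiv ℝ (rd P (fun z : ℝ × M => F z.1 z.2) z.2) p (0, ζ)) (ptc P z.2 z) :=
    (((h.smooth.contDiffAt h.isOpen hp).fderiv_right (m := 1)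
      (by norm_cast)).differentiableAt (by simp)).clm_apply (differentiableAt_const _)
  have hn := (k.smooth.contDiffAt h.isOpen hp).differentiableAt (by simp)
  have e : (fun p => ⟪fderiv ℝ (rd P (fun z : ℝ × M => F z.1 z.2) z.2) p (0, ζ), rd P ν z.2 p⟫)
      =ᶠ[𝓝 (ptc P z.2 z)] fun _ => (0 : ℝ) := by
    filter_upwards [(isOpen_cs h.isOpen z.2).mem_nhds hp] with p hp'
    exact Mod3_perp h k hp' ζ
  have h1 := fderiv_inner_apply ℝ hd hn ((0 : ℝ), ξ)
  rw [e.fderiv_eq, fderiv_fun_const, ← Mod3_hess h hz, rd_ptc ν (mem_chart_source P z.2)] at h1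
  have h2 := congrArg (fun T : P →L[ℝ] Q => T ζ) (h.Lc_centre hz)
  simp only [Lc, ContinuousLinearMap.comp_apply, ContinuousLinearMap.inr_apply] at h2
  rw [h2] at h1
  simp only [Pi.zero_apply, zero_apply] at h1
  rw [real_inner_comm]
  linarith

/-- An orthonormal frame reproduces the tangential projection. -/
private theorem Mod3_frame {L : P →L[ℝ] Q} (hL : Function.Injective L) :
    ∃ e : Fin (Module.finrank ℝ P) → P, (Orthonormal ℝ fun i => L (e i)) ∧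
      ∀ w w', ∑ i, ⟪w, L (e i)⟫ * ⟪w', L (e i)⟫ = ⟪w', L (pinv L w)⟫ := by
  obtain ⟨A, hA, hi⟩ := exists_iso hL
  refine ⟨fun i => A (stdOrthonormalBasis ℝ P i), ?_, fun w w' => ?_⟩
  · rw [orthonormal_iff_ite]
    intro i j
    rw [hi]
    exact orthonormal_iff_ite.1 (stdOrthonormalBasis ℝ P).orthonormal i j
  · obtain ⟨u, hu⟩ := hA (pinv L w)
    obtain ⟨u', hu'⟩ := hA (pinv L w')
    have h1 : ∀ (a : Q) (v : P), A v = pinv L a → ∀ x, ⟪a, L (A x)⟫ = ⟪v, x⟫ := fun a v hv x => by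
      rw [← inner_pinv hL, ← hv, hi]
    simp only [h1 w u hu, h1 w' u' hu']
    rw [← hu, h1 w' u' hu', ← (stdOrthonormalBasis ℝ P).sum_inner_mul_inner u' u]
    exact Finset.sum_congr rfl fun i _ => by rw [mul_comm, real_inner_comm u]

section
variable (h : Dom P F O) (hd : Dim P Q n) {ν : ℝ × M → Q} (k : Nor P F O ν)
  (b : OrthonormalBasis ι ℝ Q)

/-- Differentiate `⟪ν, ∂_ζ f⟫ = 0` in the chart at the point; `fderiv_space`; `sff` is the
projection of the Hessian to the line spanned by `ν`. -/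
theorem sff_formula (z : O) (ξ ζ : P) : sff P (F z.1.1) z.1.2 ξ ζ =
    (∑ a, ∑ c, ⟪b a, dF P (F z.1.1) z.1.2 ξ⟫ * ⟪b c, dF P (F z.1.1) z.1.2 ζ⟫ *
      ev z ((lSA h hd k b).A a c)) • ν z := by
  have h1 : sff P (F z.1.1) z.1.2 ξ ζ = ⟪ν z, hess P (F z.1.1) z.1.2 ξ ζ⟫ • ν z := by
    rw [← Submodule.starProjection_unit_singleton ℝ (k.unit _ z.2)]
    unfold sff
    simp only [h.normal_eq hd z.2 (k.unit _ z.2) (k.mem _ z.2)]
  rw [h1, Mod3_inner_hess h k z.2, ← b.sum_inner_mul_inner, Finset.sum_comm,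
    ← Finset.sum_neg_distrib]
  congr 1
  refine Finset.sum_congr rfl fun c _ => ?_
  rw [← Mod3_fderiv_c h k, h.fderiv_space b, Finset.mul_sum, ← Finset.sum_neg_distrib]
  refine Finset.sum_congr rfl fun a _ => ?_
  have : (lSA h hd k b).A a c = -h.D (b a) (k.c (b c)) := rfl
  rw [this, map_neg, real_inner_comm (b c)]
  ring

/-- For an orthonormal frame `∑ i, ⟪b a, L e i⟫ ⟪b c, L e i⟫ = P a c`; frames exist
(`exists_iso`). -/
theorem flow_eq (hf : Flw P F O) (z : O) :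
    HasDerivAt (fun s => F s z.1.2) (ev z (lSA h hd k b).H • ν z) z.1.1 := by
  obtain ⟨e, he, hs⟩ := Mod3_frame (h.imm _ z.2)
  refine (hf _ z.2 e he).congr_deriv ?_
  simp only [sff_formula h hd k b z]
  rw [← Finset.sum_smul]
  congr 1
  have h1 : ∀ a c, ∑ i, ⟪b a, dF P (F z.1.1) z.1.2 (e i)⟫ * ⟪b c, dF P (F z.1.1) z.1.2 (e i)⟫ =
      ev z ((lSA h hd k b).P a c) := fun a c => by
    rw [hs, ← h.ev_D_Fc, ← (lSA h hd k b).DF']
    rfl
  rw [Finset.sum_comm, SA.H, map_sum]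
  refine Finset.sum_congr rfl fun a _ => ?_
  rw [Finset.sum_comm, ← (lSA h hd k b).P_A a a, map_sum]
  refine Finset.sum_congr rfl fun c _ => ?_
  rw [← Finset.sum_mul, h1, map_mul, (lSA h hd k b).A_symm a c]

include hd in
theorem da_dtF (hf : Flw P F O) (a : ι) :
    h.dt (h.Fc (b a)) = (∑ c, -h.D (b c) (k.c (b c))) * k.c (b a) := by
  refine rg_ext fun z => ?_
  have h1 := h.hasDerivAt_fn (h.Fc (b a)) z
  have h2 := (innerSL ℝ (b a)).hasFDerivAt.comp_hasDerivAt _ (flow_eq h hd k b hf z)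
  have hn : ∀ᶠ s in 𝓝 z.1.1, ((s, z.1.2) : ℝ × M) ∈ O :=
    (continuous_id.prodMk continuous_const).continuousAt.eventually (h.isOpen.mem_nhds z.2)
  have e : (fun s => fn (h.Fc (b a)) (s, z.1.2)) =ᶠ[𝓝 z.1.1]
      innerSL ℝ (b a) ∘ fun s => F s z.1.2 := by
    filter_upwards [hn] with s hs
    exact (ev_eq ⟨_, hs⟩ (h.Fc (b a))).symm
  rw [h1.unique (h2.congr_of_eventuallyEq e), map_mul, map_smul]
  rfl

/-- The dynamic structure on `O`. -/
noncomputable def lDA (hf : Flw P F O) : DA ι (Rg P O) where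
  toSA := lSA h hd k b
  dt := h.dt
  dtF := da_dtF h hd k b hf
  commt a g := h.comm_of_const b h.T (h.X (b a)) (fun _ _ => rfl) (fun _ _ => rfl) g

/-- A vector with components `p` orthogonal to `F`, `ν` is `dF ξ` by `decomp`. -/
theorem pinch_of (z : O) (hp : Pinched P (F z.1.1) (1 / 2)) : (lSA h hd k b).Pinch (ev z) := by
  intro p r p1 p2 r1 r2 pp rr pr
  have key : ∀ q : ι → ℝ, ∑ a, q a * ev z ((lSA h hd k b).F a) = 0 →
      ∑ a, q a * ev z ((lSA h hd k b).ν a) = 0 →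
      ∃ ξ, ∀ a, ⟪b a, dF P (F z.1.1) z.1.2 ξ⟫ = q a := fun q q1 q2 => by
    have hq : ∀ w, ⟪w, ∑ a, q a • b a⟫ = ∑ a, q a * ⟪b a, w⟫ := fun w => by
      rw [inner_sum]
      exact Finset.sum_congr rfl fun a _ => by rw [real_inner_smul_right, real_inner_comm]
    refine ⟨pinv (dF P (F z.1.1) z.1.2) (∑ a, q a • b a), fun a => ?_⟩
    have e1 : ⟪F z.1.1 z.1.2, ∑ a, q a • b a⟫ = 0 := (hq _).trans q1
    have e2 : ⟪ν z, ∑ a, q a • b a⟫ = 0 := (hq _).trans q2
    rw [h.decomp hd z.2 (k.unit _ z.2) (k.mem _ z.2), e1, e2, zero_smul, zero_smul, sub_zero,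
      sub_zero]
    exact b.orthonormal.inner_right_fintype q a
  obtain ⟨ξ, hξ⟩ := key p p1 p2
  obtain ⟨ζ, hζ⟩ := key r r1 r2
  have hi : ∀ {x y : P} {s t : ι → ℝ}, (∀ a, ⟪b a, dF P (F z.1.1) z.1.2 x⟫ = s a) →
      (∀ a, ⟪b a, dF P (F z.1.1) z.1.2 y⟫ = t a) →
      ⟪dF P (F z.1.1) z.1.2 x, dF P (F z.1.1) z.1.2 y⟫ = ∑ a, s a * t a := fun hx hy => by
    rw [← b.sum_inner_mul_inner]
    exact Finset.sum_congr rfl fun a _ => by rw [real_inner_comm, hx, hy]
  have ho : Orthonormal ℝ ![dF P (F z.1.1) z.1.2 ξ, dF P (F z.1.1) z.1.2 ζ] := by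
    rw [orthonormal_iff_ite]
    have e1 := (hi hξ hξ).trans pp
    have e2 := (hi hζ hζ).trans rr
    have e3 := (hi hξ hζ).trans pr
    have e4 := (real_inner_comm _ _).trans e3
    intro i j
    fin_cases i <;> fin_cases j
    exacts [e1, e3, e4, e2]
  have h1 := hp z.1.2 ξ ζ ho
  simp only [sff_formula h hd k b z, hξ, hζ] at h1
  rw [← sub_smul, norm_smul, k.unit _ z.2, mul_one, Real.norm_eq_abs, sq_abs,
    real_inner_smul_left, real_inner_smul_right, real_inner_self_eq_norm_sq, k.unit _ z.2] at h1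
  linarith

end

/-- The structure without normal. -/
noncomputable def gPA (h : Dom P F O) (n : ℕ) (b : OrthonormalBasis ι ℝ Q) : PA ι (Rg P O) :=
  ⟨n, fun a => h.D (b a), fun a => h.Fc (b a), fun a c => h.D (b a) (h.Fc (b c))⟩

/-- `PA.natural` for `res`, then the `pa_` lemmas. -/
theorem res_gPA (h : Dom P F O) (hd : Dim P Q n) (b : OrthonormalBasis ι ℝ Q) {O' : Set (ℝ × M)}
    (hO' : IsOpen O') (hO : O' ⊆ O) {ν : ℝ × M → Q} (k : Nor P F O' ν) :
    res hO (gPA h n b).W = (lSA (h.mono hO' hO) hd k b).W ∧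
    res hO (gPA h n b).u = (lSA (h.mono hO' hO) hd k b).u ∧
    res hO (gPA h n b).v = (lSA (h.mono hO' hO) hd k b).v ∧
    (∀ a c, res hO ((gPA h n b).N a c) = k.c (b a) * k.c (b c)) ∧
    (∀ a c, res hO ((gPA h n b).cc a c) =
      (lSA (h.mono hO' hO) hd k b).c a * (lSA (h.mono hO' hO) hd k b).c c) ∧
    ∀ a, res hO ((gPA h n b).Hc a) =
      (lSA (h.mono hO' hO) hd k b).H * (lSA (h.mono hO' hO) hd k b).c a := by
  obtain ⟨h1, h2, h3, h4, h5, h6⟩ := PA.natural (gPA h n b) (lSA (h.mono hO' hO) hd k b).toPA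
    (res hO) rfl (fun a g => h.res_D hO' hO (b a) g) (fun a => h.res_Fc hO' hO (b a))
    fun a c => by
      have e := h.res_D hO' hO (b a) (h.Fc (b c))
      rw [h.res_Fc hO' hO] at e
      exact e.trans ((lSA (h.mono hO' hO) hd k b).DF' a c)
  exact ⟨h1.trans (SA.pa_W _), h2.trans (SA.pa_u _), h3.trans (SA.pa_v _),
    fun a c => (h4 a c).trans (SA.pa_N _ a c), fun a c => (h5 a c).trans (SA.pa_cc _ a c),
    fun a => (h6 a).trans (SA.pa_Hc _ a)⟩

end Pool.Agent.Lib.MP_de485e_gt.Conv
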