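import Pool.Agent.Lib.MP_de485e_gt.Conv.Mod2
import Pool.Agent.Lib.MP_de485e_gt.Conv.Free

/-! The local unit normal and the local model of the abstract calculus. -/

open Set Filter Topology
open scoped RealInnerProductSpace InnerProduct Manifold ContDiff

namespace Pool.Agent.Lib.MP_de485e_gt.Conv

variable {P Q : Type} [NormedAddCommGroup P] [InnerProductSpace ℝ P] [CompleteSpace P]
  [FiniteDimensional ℝ P] [NormedAddCommGroup Q] [InnerProductSpace ℝ Q] [CompleteSpace Q]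
  [FiniteDimensional ℝ Q] {M : Type} [TopologicalSpace M] [ChartedSpace P M]
  [IsManifold 𝓘(ℝ, P) ∞ M] {O : Set (ℝ × M)} {F : ℝ → M → Q} {n : ℕ}
  {ι : Type} [Fintype ι] [DecidableEq ι]

variable (P Q) in
/-- Dimensions. -/
structure Dim (n : ℕ) : Prop where
  hn : 2 ≤ n
  hP : Module.finrank ℝ P = n
  hQ : Module.finrank ℝ Q = n + 2

theorem mem_normal_iff {f : M → Q} {x : M} {w : Q} :
    w ∈ normal P f x ↔ (∀ ξ, ⟪dF P f x ξ, w⟫ = 0) ∧ ⟪f x, w⟫ = 0 := by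
  rw [normal, Submodule.mem_orthogonal]
  constructor
  · intro H
    exact ⟨fun ξ => H _ (Submodule.mem_sup_left ⟨ξ, rfl⟩),
      H _ (Submodule.mem_sup_right (Submodule.mem_span_singleton_self _))⟩
  · rintro ⟨H1, H2⟩ u hu
    obtain ⟨y, ⟨ξ, rfl⟩, t, ht, rfl⟩ := Submodule.mem_sup.1 hu
    obtain ⟨r, rfl⟩ := Submodule.mem_span_singleton.1 ht
    rw [inner_add_left, real_inner_smul_left, H2, mul_zero, add_zero]
    exact H1 ξ

namespace Dom

variable (h : Dom P F O) (hd : Dim P Q n)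
include h hd

theorem Mod3a_finrank {z : ℝ × M} (hz : z ∈ O) :
    Module.finrank ℝ (normal P (F z.1) z.2) = 1 := by
  have h0 : F z.1 z.2 ≠ 0 := fun e => by
    have := h.sphere z hz
    rw [e, norm_zero] at this
    exact zero_ne_one this
  have hr : Module.finrank ℝ (LinearMap.range (dF P (F z.1) z.2).toLinearMap) = n := by
    rw [LinearMap.finrank_range_of_inj (h.imm z hz), hd.hP]
  have hs : Module.finrank ℝ (Submodule.span ℝ {F z.1 z.2}) = 1 := finrank_span_singleton h0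
  have hi : LinearMap.range (dF P (F z.1) z.2).toLinearMap ⊓ Submodule.span ℝ {F z.1 z.2} = ⊥ := by
    rw [eq_bot_iff]
    rintro u ⟨⟨ξ, hξ⟩, hu⟩
    obtain ⟨r, rfl⟩ := Submodule.mem_span_singleton.1 hu
    have e := h.dF_perp hz ξ
    have hξ' : dF P (F z.1) z.2 ξ = r • F z.1 z.2 := hξ
    rw [hξ', real_inner_smul_left, real_inner_self_eq_norm_sq, h.sphere z hz, one_pow, mul_one] at e
    rw [e, zero_smul]
    exact Submodule.zero_mem _
  have hsup := Submodule.finrank_sup_add_finrank_inf_eq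
    (LinearMap.range (dF P (F z.1) z.2).toLinearMap) (Submodule.span ℝ {F z.1 z.2})
  rw [hi, finrank_bot, hr, hs] at hsup
  have ho := Submodule.finrank_add_finrank_orthogonal
    (LinearMap.range (dF P (F z.1) z.2).toLinearMap ⊔ Submodule.span ℝ {F z.1 z.2})
  rw [hd.hQ] at ho
  unfold normal
  omega

/-- The normal space is a line. -/
theorem normal_eq {z : ℝ × M} (hz : z ∈ O) {ν : Q} (h1 : ‖ν‖ = 1) (hν : ν ∈ normal P (F z.1) z.2) :
    normal P (F z.1) z.2 = Submodule.span ℝ {ν} := by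
  have h0 : ν ≠ 0 := fun e => by
    rw [e, norm_zero] at h1
    exact zero_ne_one h1
  symm
  refine Submodule.eq_of_le_of_finrank_eq ((Submodule.span_singleton_le_iff_mem _ _).2 hν) ?_
  rw [finrank_span_singleton h0, h.Mod3a_finrank hd hz]

omit hd in
theorem Mod3a_mem {z : ℝ × M} (hz : z ∈ O) (w : Q) :
    w - dF P (F z.1) z.2 (pinv (dF P (F z.1) z.2) w) - ⟪F z.1 z.2, w⟫ • F z.1 z.2 ∈
      normal P (F z.1) z.2 := by
  rw [mem_normal_iff]
  refine ⟨fun ξ => ?_, ?_⟩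
  · have e1 := inner_pinv (h.imm z hz) w ξ
    rw [inner_sub_right, inner_sub_right, real_inner_smul_right, h.dF_perp hz ξ,
      real_inner_comm (dF P (F z.1) z.2 (pinv (dF P (F z.1) z.2) w)), e1, real_inner_comm]
    ring
  · have e1 := h.dF_perp hz (pinv (dF P (F z.1) z.2) w)
    rw [inner_sub_right, inner_sub_right, real_inner_smul_right, real_inner_self_eq_norm_sq,
      h.sphere z hz, real_inner_comm (dF P (F z.1) z.2 (pinv (dF P (F z.1) z.2) w)), e1]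
    ring

theorem decomp {z : ℝ × M} (hz : z ∈ O) {ν : Q} (h1 : ‖ν‖ = 1) (hν : ν ∈ normal P (F z.1) z.2)
    (w : Q) : dF P (F z.1) z.2 (pinv (dF P (F z.1) z.2) w) =
      w - ⟪F z.1 z.2, w⟫ • F z.1 z.2 - ⟪ν, w⟫ • ν := by
  have hm := h.Mod3a_mem hz w
  rw [h.normal_eq hd hz h1 hν] at hm
  obtain ⟨r, hr⟩ := Submodule.mem_span_singleton.1 hm
  obtain ⟨H1, H2⟩ := mem_normal_iff.1 hν
  have e : r = ⟪ν, w⟫ := by
    have := congrArg (fun u => ⟪ν, u⟫) hr
    simp only [inner_sub_right, real_inner_smul_right, real_inner_self_eq_norm_sq, h1] at this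
    rw [real_inner_comm (dF P (F z.1) z.2 _) ν, H1, real_inner_comm (F z.1 z.2) ν, H2] at this
    linarith
  rw [← e, hr]
  abel

/-- Project a unit normal `ν₀` at `z₀` to the normal lines: `ν₀ - L (pinv L ν₀) - ⟪F, ν₀⟫ F` is
smooth on `O` (its components are `⟪b a, ν₀⟫ - D ν₀ (Fc (b a)) - Fc ν₀ Fc (b a)`), and nonzero
near `z₀`; normalise. -/
theorem exists_nor {z₀ : ℝ × M} (hz : z₀ ∈ O) :
    ∃ O' ⊆ O, IsOpen O' ∧ z₀ ∈ O' ∧ ∃ ν, Nor P F O' ν := by
  obtain ⟨ν₀, hν₀, h0⟩ : ∃ ν₀ ∈ normal P (F z₀.1) z₀.2, ν₀ ≠ 0 := by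
    refine Submodule.exists_mem_ne_zero_of_ne_bot fun e => ?_
    have := h.Mod3a_finrank hd hz
    rw [e, finrank_bot] at this
    exact zero_ne_one this
  let b := stdOrthonormalBasis ℝ Q
  let r : Fin (Module.finrank ℝ Q) → Rg P O := fun a =>
    algebraMap ℝ (Rg P O) ⟪b a, ν₀⟫ - h.D ν₀ (h.Fc (b a)) - h.Fc ν₀ * h.Fc (b a)
  let G : ℝ × M → Q := fun z => ∑ a, fn (r a) z • b a
  have hG : Smo P O G := fun c =>
    ContDiffOn.sum (f := fun a p => rd P (fn (r a)) c p • b a) fun a _ =>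
      (fn_smo (r a) c).smul contDiffOn_const
  have hGe : ∀ z ∈ O, G z =
      ν₀ - dF P (F z.1) z.2 (pinv (dF P (F z.1) z.2) ν₀) - ⟪F z.1 z.2, ν₀⟫ • F z.1 z.2 := by
    intro z hz
    rw [← b.sum_repr' (ν₀ - dF P (F z.1) z.2 (pinv (dF P (F z.1) z.2) ν₀) -
      ⟪F z.1 z.2, ν₀⟫ • F z.1 z.2)]
    refine Finset.sum_congr rfl fun a _ => ?_
    congr 1
    have e := ev_eq (⟨z, hz⟩ : O) (r a)
    change ev _ (r a) = fn (r a) z at e
    rw [← e, inner_sub_right, inner_sub_right, real_inner_smul_right]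
    simp only [r, map_sub, map_mul, AlgHom.commutes, h.ev_D_Fc]
    rw [real_inner_comm ν₀ (F z.1 z.2)]
    rfl
  have hG0 : G z₀ ≠ 0 := by
    obtain ⟨H1, H2⟩ := mem_normal_iff.1 hν₀
    rw [hGe z₀ hz, pinv_perp H1, map_zero, H2, zero_smul, sub_zero, sub_zero]
    exact h0
  refine ⟨O ∩ G ⁻¹' {0}ᶜ, inter_subset_left,
    (hG.continuousOn h.isOpen).isOpen_inter_preimage h.isOpen isOpen_compl_singleton,
    ⟨hz, hG0⟩, fun z => ‖G z‖⁻¹ • G z, fun c => ?_, fun z hz => ?_, fun z hz => ?_⟩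
  · have h1 : ContDiffOn ℝ ∞ (rd P G c) (cs P (O ∩ G ⁻¹' {0}ᶜ) c) := hG.mono inter_subset_left c
    have h2 : ∀ p ∈ cs P (O ∩ G ⁻¹' {0}ᶜ) c, rd P G c p ≠ 0 := fun p hp => hp.2.2
    exact ((h1.norm ℝ h2).inv fun p hp => norm_ne_zero_iff.2 (h2 p hp)).smul h1
  · exact norm_smul_inv_norm (𝕜 := ℝ) hz.2
  · refine Submodule.smul_mem _ _ ?_
    rw [hGe z hz.1]
    exact h.Mod3a_mem hz.1 ν₀

end Dom

/-- A component of the unit normal. -/
noncomputable def Nor.c {ν : ℝ × M → Q} (k : Nor P F O ν) (w : Q) : Rg P O :=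
  mkR (fun z => ⟪w, ν z⟫) (k.smooth.inner_const w)

section
variable (h : Dom P F O) (hd : Dim P Q n) {ν : ℝ × M → Q} (k : Nor P F O ν)
  (b : OrthonormalBasis ι ℝ Q)

include hd b in
theorem card_eq : Fintype.card ι = n + 2 := by
  rw [← hd.hQ, Module.finrank_eq_card_basis b.toBasis]

private theorem Mod3a_sum (u v : Q) : ∑ a, ⟪b a, u⟫ * ⟪b a, v⟫ = ⟪u, v⟫ := by
  rw [← b.sum_inner_mul_inner u v]
  exact Finset.sum_congr rfl fun a _ => by rw [real_inner_comm u]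

theorem sa_FF : ∑ a, h.Fc (b a) * h.Fc (b a) = 1 := rg_ext fun z => by
  simp only [map_sum, map_mul, map_one, Dom.Fc, ev_mk]
  rw [Mod3a_sum, real_inner_self_eq_norm_sq, h.sphere z z.2, one_pow]

theorem sa_νν : ∑ a, k.c (b a) * k.c (b a) = 1 := rg_ext fun z => by
  simp only [map_sum, map_mul, map_one, Nor.c, ev_mk]
  rw [Mod3a_sum, real_inner_self_eq_norm_sq, k.unit z z.2, one_pow]

theorem sa_Fν : ∑ a, h.Fc (b a) * k.c (b a) = 0 := rg_ext fun z => by
  simp only [map_sum, map_mul, map_zero, Nor.c, Dom.Fc, ev_mk]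
  rw [Mod3a_sum]
  exact (mem_normal_iff.1 (k.mem z z.2)).2

include hd in
theorem sa_DF (a c : ι) : h.D (b a) (h.Fc (b c)) =
    kd a c - h.Fc (b a) * h.Fc (b c) - k.c (b a) * k.c (b c) := rg_ext fun z => by
  have e : ev z (kd a c : Rg P O) = ⟪b c, b a⟫ := by
    rw [kd, b.inner_eq_ite]
    by_cases hac : a = c
    · rw [if_pos hac, if_pos hac.symm, map_one]
    · rw [if_neg hac, if_neg (Ne.symm hac), map_zero]
  rw [h.ev_D_Fc, h.decomp hd z.2 (k.unit z z.2) (k.mem z z.2), map_sub, map_sub, map_mul, map_mul, e]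
  simp only [Nor.c, Dom.Fc, ev_mk, inner_sub_right, real_inner_smul_right]
  rw [real_inner_comm (b a) (F z.1.1 z.1.2), real_inner_comm (b a) (ν z)]

theorem sa_FD (g : Rg P O) : ∑ a, h.Fc (b a) * h.D (b a) g = 0 :=
  h.sum_D_eq_zero b (f := fun a => h.Fc (b a)) (w := fun z => F z.1.1 z.1.2) (fun _ _ => rfl)
    (fun z ξ => h.dF_perp z.2 ξ) g

theorem sa_νD (g : Rg P O) : ∑ a, k.c (b a) * h.D (b a) g = 0 :=
  h.sum_D_eq_zero b (f := fun a => k.c (b a)) (w := fun z => ν z) (fun _ _ => rfl)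
    (fun z ξ => (mem_normal_iff.1 (k.mem z z.2)).1 ξ) g

/-- The static structure on `O`. -/
noncomputable def lSA : SA ι (Rg P O) where
  n := n
  hn := hd.hn
  card := card_eq hd b
  D a := h.D (b a)
  F a := h.Fc (b a)
  ν a := k.c (b a)
  FF := sa_FF h b
  νν := sa_νν k b
  Fν := sa_Fν h k b
  DF := sa_DF h hd k b
  FD := sa_FD h b
  νD := sa_νD h k b
  comm a c g := h.comm_of_const b (h.X (b a)) (h.X (b c)) (fun _ _ => rfl) (fun _ _ => rfl) g

end

end Pool.Agent.Lib.MP_de485e_gt.Conv
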