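import Pool.Agent.Lib.MP_de485e_gt.Conv.Mod4a
import Pool.Agent.Lib.MP_de485e_gt.Conv.GeoDef

/-! The global data, touching points and special ring elements. -/

open Set Filter Topology
open scoped RealInnerProductSpace InnerProduct Manifold ContDiff

namespace Pool.Agent.Lib.MP_de485e_gt.Conv

variable {P Q : Type} [NormedAddCommGroup P] [InnerProductSpace ℝ P] [CompleteSpace P]
  [FiniteDimensional ℝ P] [NormedAddCommGroup Q] [InnerProductSpace ℝ Q] [CompleteSpace Q]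
  [FiniteDimensional ℝ Q] {M : Type} [TopologicalSpace M] [ChartedSpace P M]
  [IsManifold 𝓘(ℝ, P) ∞ M] {O : Set (ℝ × M)} {F : ℝ → M → Q} {n : ℕ}
  {ι : Type} [Fintype ι] [DecidableEq ι]

variable (P) in
/-- A pinched flow on an open time interval. -/
structure Flow (n : ℕ) (F : ℝ → M → Q) (J : Set ℝ) : Prop where
  dim : Dim P Q n
  ord : J.OrdConnected
  dom : Dom P F (J ×ˢ univ)
  flw : Flw P F (J ×ˢ univ)
  pin : ∀ t ∈ J, Pinched P (F t) (1 / 2)

/-- The operator with matrix `x` in the basis `b`. -/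
noncomputable def opOf (b : OrthonormalBasis ι ℝ Q) (x : ι → ι → ℝ) : Q →L[ℝ] Q :=
  ∑ a, ∑ c, x a c • (innerSL ℝ (b c)).smulRight (b a)

namespace Flow

variable {J : Set ℝ} (h : Flow P n F J) (b : OrthonormalBasis ι ℝ Q)

/-- The global data. -/
noncomputable def data : GeoData Q M where
  W t x := fn (gPA h.dom n b).W (t, x)
  u t x := fn (gPA h.dom n b).u (t, x)
  v t x := fn (gPA h.dom n b).v (t, x)
  C t x := opOf b fun a c => (fn (gPA h.dom n b).W (t, x))⁻¹ * fn ((gPA h.dom n b).cc a c) (t, x)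
  N t x := opOf b fun a c => fn ((gPA h.dom n b).N a c) (t, x)
  m t x := ∑ a, ((fn (gPA h.dom n b).W (t, x))⁻¹ * fn ((gPA h.dom n b).Hc a) (t, x)) • b a

/-- A local model around a point. -/
structure Model (_h : Flow P n F J) (t : ℝ) (x : M) where
  O : Set (ℝ × M)
  isOpen : IsOpen O
  sub : O ⊆ J ×ˢ univ
  mem : (t, x) ∈ O
  ν : ℝ × M → Q
  nor : Nor P F O ν

theorem exists_model {t : ℝ} (ht : t ∈ J) (x : M) : Nonempty (h.Model t x) := by
  obtain ⟨O', hs, ho, hm, ν, k⟩ := h.dom.exists_nor h.dim (z₀ := (t, x)) ⟨ht, mem_univ _⟩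
  exact ⟨⟨O', ho, hs, hm, ν, k⟩⟩

namespace Model

variable {h} {t : ℝ} {x : M} (m : h.Model t x)

theorem dom : Dom P F m.O := h.dom.mono m.isOpen m.sub

theorem flw : Flw P F m.O := fun z hz => h.flw z (m.sub hz)

/-- The calculus on the model. -/
noncomputable def S : DA ι (Rg P m.O) := lDA m.dom h.dim m.nor b m.flw

theorem S_n : (m.S b).n = n := rfl

theorem pinch (z : m.O) : (m.S b).Pinch (ev z) :=
  pinch_of m.dom h.dim m.nor b z (h.pin _ (m.sub z.2).1)

theorem ev_W (z : m.O) : ev z (m.S b).W = (h.data b).W z.1.1 z.1.2 := by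
  have e := congrArg (ev z) (res_gPA h.dom h.dim b m.isOpen m.sub m.nor).1
  rw [ev_res] at e
  exact e.symm

theorem ev_u (z : m.O) : ev z (m.S b).u = (h.data b).u z.1.1 z.1.2 := by
  have e := congrArg (ev z) (res_gPA h.dom h.dim b m.isOpen m.sub m.nor).2.1
  rw [ev_res] at e
  exact e.symm

theorem ev_v (z : m.O) : ev z (m.S b).v = (h.data b).v z.1.1 z.1.2 := by
  have e := congrArg (ev z) (res_gPA h.dom h.dim b m.isOpen m.sub m.nor).2.2.1
  rw [ev_res] at e
  exact e.symm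

theorem ev_F (z : m.O) (a : ι) : ev z ((m.S b).F a) = ⟪b a, F z.1.1 z.1.2⟫ := rfl

theorem ev_ν (z : m.O) (a : ι) : ev z ((m.S b).ν a) = ⟪b a, m.ν z⟫ := rfl

theorem N_eq (z : m.O) : (h.data b).N z.1.1 z.1.2 =
    opOf b fun a c => ev z ((m.S b).ν a * (m.S b).ν c) := by
  have e := (res_gPA h.dom h.dim b m.isOpen m.sub m.nor).2.2.2.1
  change opOf b (fun a c => fn ((gPA h.dom n b).N a c) z.1) = _
  congr 1
  funext a c
  have e' := congrArg (ev z) (e a c)
  rw [ev_res] at e'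
  exact e'

private theorem Mod4_inv (z : m.O) {Wi : Rg P m.O} (hW : Wi * (m.S b).W = 1) :
    (fn (gPA h.dom n b).W z.1)⁻¹ = ev z Wi := by
  have e := congrArg (ev z) hW
  rw [map_mul, map_one, m.ev_W b z] at e
  exact (eq_inv_of_mul_eq_one_left e).symm

theorem C_eq (z : m.O) {Wi : Rg P m.O} (hW : Wi * (m.S b).W = 1) : (h.data b).C z.1.1 z.1.2 =
    opOf b fun a c => ev z (Wi * ((m.S b).c a * (m.S b).c c)) := by
  have e := (res_gPA h.dom h.dim b m.isOpen m.sub m.nor).2.2.2.2.1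
  change opOf b (fun a c => (fn (gPA h.dom n b).W z.1)⁻¹ * fn ((gPA h.dom n b).cc a c) z.1) = _
  congr 1
  funext a c
  have e' := congrArg (ev z) (e a c)
  rw [ev_res] at e'
  rw [map_mul, Mod4_inv b m z hW, e']
  rfl

theorem m_eq (z : m.O) {Wi : Rg P m.O} (hW : Wi * (m.S b).W = 1) : (h.data b).m z.1.1 z.1.2 =
    ∑ a, ev z (Wi * ((m.S b).H * (m.S b).c a)) • b a := by
  have e := (res_gPA h.dom h.dim b m.isOpen m.sub m.nor).2.2.2.2.2
  change ∑ a, ((fn (gPA h.dom n b).W z.1)⁻¹ * fn ((gPA h.dom n b).Hc a) z.1) • b a = _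
  refine Finset.sum_congr rfl fun a _ => ?_
  have e' := congrArg (ev z) (e a)
  rw [ev_res] at e'
  rw [map_mul, Mod4_inv b m z hW, e']
  rfl

theorem touch (g : Rg P m.O) {G : ℝ × M → ℝ} (e : ∀ z : m.O, ev z g = G z) {a : ℝ} (ha : a < t)
    (hm : ∀ s ∈ Icc a t, ∀ y, G (s, y) ≤ G (t, x)) : (m.S b).Touch (ev ⟨(t, x), m.mem⟩) g :=
  touch_of_max m.dom h.dim m.nor b m.flw g e ⟨(t, x), m.mem⟩ ha hm

end Model

theorem cont_W : ContinuousOn (fun z : ℝ × M => (h.data b).W z.1 z.2) (J ×ˢ univ) :=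
  (fn_smo (gPA h.dom n b).W).continuousOn h.dom.isOpen

theorem cont_u : ContinuousOn (fun z : ℝ × M => (h.data b).u z.1 z.2) (J ×ˢ univ) :=
  (fn_smo (gPA h.dom n b).u).continuousOn h.dom.isOpen

theorem cont_v : ContinuousOn (fun z : ℝ × M => (h.data b).v z.1 z.2) (J ×ˢ univ) :=
  (fn_smo (gPA h.dom n b).v).continuousOn h.dom.isOpen

include h in
theorem cont_F : ContinuousOn (fun z : ℝ × M => F z.1 z.2) (J ×ˢ univ) :=
  h.dom.smooth.continuousOn h.dom.isOpen

end Flow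

end Pool.Agent.Lib.MP_de485e_gt.Conv
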