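import Pool.Agent.Lib.MP_de485e_gt.Conv.Mod3

/-! The global data, touching points and special ring elements. -/

open Set Filter Topology
open scoped RealInnerProductSpace InnerProduct Manifold ContDiff

namespace Pool.Agent.Lib.MP_de485e_gt.Conv

variable {P Q : Type} [NormedAddCommGroup P] [InnerProductSpace ℝ P] [CompleteSpace P]
  [FiniteDimensional ℝ P] [NormedAddCommGroup Q] [InnerProductSpace ℝ Q] [CompleteSpace Q]
  [FiniteDimensional ℝ Q] {M : Type} [TopologicalSpace M] [ChartedSpace P M]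
  [IsManifold 𝓘(ℝ, P) ∞ M] {O : Set (ℝ × M)} {F : ℝ → M → Q} {n : ℕ}
  {ι : Type} [Fintype ι] [DecidableEq ι]

/-- First and second order conditions along a line through a point. -/
private theorem Mod4a_line {E : Type} [NormedAddCommGroup E] [NormedSpace ℝ E] {G : E → ℝ} {p : E}
    (hG : ContDiffAt ℝ 2 G p) (v : E) (hm : ∀ᶠ s in 𝓝 (0 : ℝ), G (p + s • v) ≤ G p) :
    fderiv ℝ G p v = 0 ∧ fderiv ℝ (fderiv ℝ G) p v v ≤ 0 := by
  have hl : ∀ s : ℝ, HasDerivAt (fun s : ℝ => p + s • v) v s := fun s => by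
    simpa using ((hasDerivAt_id s).smul_const v).const_add p
  have ht : Tendsto (fun s : ℝ => p + s • v) (𝓝 0) (𝓝 p) := by
    simpa using (hl 0).continuousAt.tendsto
  have h1 : ∀ᶠ q in 𝓝 p, DifferentiableAt ℝ G q :=
    (hG.eventually (by simp)).mono fun q hq => hq.differentiableAt (by norm_num)
  have h2 : DifferentiableAt ℝ (fderiv ℝ G) p :=
    (hG.fderiv_right (m := 1) (by norm_num)).differentiableAt (by norm_num)
  have J : Jet (fun s : ℝ => G (p + s • v) - G p) 0 (fderiv ℝ G p v)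
      (fderiv ℝ (fderiv ℝ G) p v v) := by
    refine ⟨by simp, fun s => fderiv ℝ G (p + s • v) v, ?_, by simp, ?_⟩
    · filter_upwards [ht.eventually h1] with s hs
      exact (hs.hasFDerivAt.comp_hasDerivAt s (hl s)).sub_const _
    · have h3 : HasFDerivAt (fderiv ℝ G) (fderiv ℝ (fderiv ℝ G) p) (p + (0 : ℝ) • v) := by
        simpa using h2.hasFDerivAt
      have := (h3.comp_hasDerivAt 0 (hl 0)).clm_apply (hasDerivAt_const 0 v)
      simpa using this
  exact J.max (hm.mono fun s hs => sub_nonpos.2 hs)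

namespace Dom

variable (h : Dom P F O)

/-- At a spatial maximum: the chart derivative vanishes on spatial vectors, and
`X (X g) = D² g (V, V) + D g (D V V) ≤ 0` (one variable second derivative test on a line). -/
theorem space_max (g : Rg P O) (z : O) (hm : ∀ᶠ y in 𝓝 z.1.2, fn g (z.1.1, y) ≤ fn g z) (w : Q) :
    ev z (h.D w g) = 0 ∧ ev z (h.D w (h.D w g)) ≤ 0 := by
  have hc : z.1.2 ∈ (chartAt P z.1.2).source := mem_chart_source P _
  have hp : ptc P z.1.2 z ∈ cs P O z.1.2 := ptc_mem z.2 hc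
  have hN : cs P O z.1.2 ∈ 𝓝 (ptc P z.1.2 z) := (isOpen_cs h.isOpen _).mem_nhds hp
  have hG : ContDiffAt ℝ 2 (rd P (fn g) z.1.2) (ptc P z.1.2 z) :=
    ((fn_smo g).contDiffAt h.isOpen hp).of_le (WithTop.coe_le_coe.2 (le_top : (2 : ℕ∞) ≤ ⊤))
  have hs : Tendsto (chartAt P z.1.2).symm (𝓝 (chartAt P z.1.2 z.1.2)) (𝓝 z.1.2) :=
    (chartAt P z.1.2).tendsto_symm hc
  have key : ∀ ξ : P, fderiv ℝ (rd P (fn g) z.1.2) (ptc P z.1.2 z) (0, ξ) = 0 ∧
      fderiv ℝ (fderiv ℝ (rd P (fn g) z.1.2)) (ptc P z.1.2 z) (0, ξ) (0, ξ) ≤ 0 := by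
    intro ξ
    refine Mod4a_line hG _ ?_
    have ht : Tendsto (fun s : ℝ => chartAt P z.1.2 z.1.2 + s • ξ) (𝓝 0)
        (𝓝 (chartAt P z.1.2 z.1.2)) := by
      have : Continuous fun s : ℝ => chartAt P z.1.2 z.1.2 + s • ξ := by fun_prop
      simpa using this.tendsto 0
    filter_upwards [(hs.comp ht).eventually hm] with s hs'
    rw [rd_ptc _ hc]
    simpa [rd, ptc] using hs'
  refine ⟨(key _).1, ?_⟩
  have hV : DifferentiableAt ℝ ((h.X w).V z.1.2) (ptc P z.1.2 z) :=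
    (((h.X w).smooth _).contDiffAt hN).differentiableAt (by simp)
  have hD : DifferentiableAt ℝ (fderiv ℝ (rd P (fn g) z.1.2)) (ptc P z.1.2 z) :=
    (hG.fderiv_right (m := 1) (by norm_num)).differentiableAt (by norm_num)
  have e1 : rd P (fn (h.D w g)) z.1.2 =ᶠ[𝓝 (ptc P z.1.2 z)]
      fun p => fderiv ℝ (rd P (fn g) z.1.2) p ((h.X w).V z.1.2 p) := by
    filter_upwards [hN] with p hp' using (h.X w).rd_der h.isOpen g hp'
  have e2 : ∀ v, (fderiv ℝ ((h.X w).V z.1.2) (ptc P z.1.2 z) v).1 = 0 := by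
    intro v
    have a1 := (hV.hasFDerivAt.fst).fderiv
    have a2 : (fun p => ((h.X w).V z.1.2 p).1) = fun _ => (0 : ℝ) := rfl
    rw [a2, fderiv_fun_const] at a1
    simpa using (congrArg (fun L => L v) a1).symm
  have e3 : ev z (h.D w (h.D w g)) = fderiv ℝ (rd P (fn (h.D w g)) z.1.2) (ptc P z.1.2 z)
      ((h.X w).V z.1.2 (ptc P z.1.2 z)) := rfl
  rw [e3, e1.fderiv_eq, fderiv_clm_apply hD hV]
  set u := fderiv ℝ ((h.X w).V z.1.2) (ptc P z.1.2 z) ((h.X w).V z.1.2 (ptc P z.1.2 z)) with hu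
  have e4 : u = (0, u.2) := Prod.ext (e2 _) rfl
  have e5 : fderiv ℝ (rd P (fn g) z.1.2) (ptc P z.1.2 z) u = 0 := by rw [e4]; exact (key _).1
  simp only [add_apply, ContinuousLinearMap.comp_apply,
    ContinuousLinearMap.flip_apply, ← hu, e5, zero_add]
  exact (key _).2

theorem time_max (g : Rg P O) (z : O) (hm : ∀ᶠ s in 𝓝[<] z.1.1, fn g (s, z.1.2) ≤ fn g z) :
    0 ≤ ev z (h.dt g) := by
  have h1 := (hasDerivAt_iff_tendsto_slope_left_right.1 (h.hasDerivAt_fn g z)).1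
  refine ge_of_tendsto h1 ?_
  filter_upwards [hm, self_mem_nhdsWithin] with s hs hs'
  rw [slope_def_field]
  exact div_nonneg_of_nonpos (sub_nonpos.2 hs) (sub_nonpos.2 (le_of_lt hs'))

/-- A smooth function of time. -/
theorem exists_time {f f' : ℝ → ℝ} (hf : ContDiff ℝ ∞ f) (hf' : ∀ s, HasDerivAt f (f' s) s) :
    ∃ E : Rg P O, (∀ z, ev z E = f z.1.1) ∧ (∀ w, h.D w E = 0) ∧
      ∀ z, ev z (h.dt E) = f' z.1.1 := by
  have hS : Smo P O fun z : ℝ × M => f z.1 := fun c => (hf.comp contDiff_fst).contDiffOn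
  have key : ∀ (z : O) (v : ℝ × P),
      fderiv ℝ (rd P (fn (mkR _ hS)) z.1.2) (ptc P z.1.2 z) v = v.1 * f' z.1.1 := by
    intro z v
    have hp : ptc P z.1.2 z ∈ cs P O z.1.2 := ptc_mem z.2 (mem_chart_source P _)
    have e : rd P (fn (mkR _ hS)) z.1.2 =ᶠ[𝓝 (ptc P z.1.2 z)]
        rd P (fun z : ℝ × M => f z.1) z.1.2 :=
      rd_congr h.isOpen (fun y hy => by rw [← ev_eq ⟨y, hy⟩, ev_mk]) hp
    have d : HasFDerivAt (rd P (fun z : ℝ × M => f z.1) z.1.2)
        ((ContinuousLinearMap.toSpanSingleton ℝ (f' z.1.1)).comp (ContinuousLinearMap.fst ℝ ℝ P))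
        (ptc P z.1.2 z) :=
      HasFDerivAt.comp (ptc P z.1.2 z) (g := f) (f := Prod.fst) (hf' z.1.1).hasFDerivAt
        hasFDerivAt_fst
    rw [e.fderiv_eq, d.fderiv]
    simp
  refine ⟨mkR _ hS, fun z => rfl, fun w => rg_ext fun z => ?_, fun z => ?_⟩
  · rw [map_zero]
    exact (key z _).trans (zero_mul _)
  · exact (key z _).trans (one_mul _)

/-- A real power of a positive element; `exists_comp`. -/
theorem exists_rpow (g : Rg P O) (hg : ∀ z, 0 < ev z g) (s : ℝ) :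
    ∃ Φ : Rg P O, (∀ z, ev z Φ = ev z g ^ s) ∧ (∀ w, g * h.D w Φ = s • (Φ * h.D w g)) ∧
      g * h.dt Φ = s • (Φ * h.dt g) := by
  obtain ⟨Φ, h1, h2⟩ := exists_comp h.isOpen g (f := fun x => x ^ s) (f' := fun x => s * x ^ (s - 1))
    isOpen_Ioi (fun x hx => (Real.contDiffAt_rpow_const_of_ne (ne_of_gt hx)).contDiffWithinAt)
    (fun x hx => Real.hasDerivAt_rpow_const (Or.inl (ne_of_gt hx))) hg
  have key : ∀ X : Fld P O, g * X.der h.isOpen Φ = s • (Φ * X.der h.isOpen g) := fun X =>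
    rg_ext fun z => by
      rw [map_mul, map_smul, map_mul, h1, h2, Real.rpow_sub_one (hg z).ne', smul_eq_mul]
      field_simp [(hg z).ne']
  exact ⟨Φ, h1, fun w => key _, key _⟩

theorem exists_inv (g : Rg P O) (hg : ∀ z, 0 < ev z g) : ∃ Φ : Rg P O, Φ * g = 1 := by
  have hS : Smo P O fun z => (fn g z)⁻¹ := fun c => (fn_smo g c).inv fun p hp => by
    have := hg ⟨_, hp.2⟩
    rw [ev_eq] at this
    exact this.ne'
  exact ⟨mkR _ hS, rg_ext fun z => by
    rw [map_mul, ev_mk, map_one, ← ev_eq, inv_mul_cancel₀ (hg z).ne']⟩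

end Dom

/-- First touching points. -/
theorem touch_of_max (h : Dom P F O) (hd : Dim P Q n) {ν : ℝ × M → Q} (k : Nor P F O ν)
    (b : OrthonormalBasis ι ℝ Q) (hf : Flw P F O) (g : Rg P O) {G : ℝ × M → ℝ}
    (e : ∀ z : O, ev z g = G z) (z : O) {a : ℝ} (ha : a < z.1.1)
    (hm : ∀ s ∈ Icc a z.1.1, ∀ y, G (s, y) ≤ G z) : (lDA h hd k b hf).Touch (ev z) g := by
  have e' : ∀ y ∈ O, fn g y = G y := fun y hy => by rw [← ev_eq ⟨y, hy⟩, e]
  have hN : O ∈ 𝓝 z.1 := h.isOpen.mem_nhds z.2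
  have hx : ∀ᶠ y in 𝓝 z.1.2, fn g (z.1.1, y) ≤ fn g z := by
    have ht : Tendsto (fun y : M => (z.1.1, y)) (𝓝 z.1.2) (𝓝 z.1) :=
      (Continuous.prodMk_right z.1.1).tendsto z.1.2
    filter_upwards [ht.eventually hN] with y hy
    rw [e' _ hy, e' _ z.2]
    exact hm _ ⟨ha.le, le_rfl⟩ y
  have hs : ∀ᶠ s in 𝓝[<] z.1.1, fn g (s, z.1.2) ≤ fn g z := by
    have ht : Tendsto (fun s : ℝ => (s, z.1.2)) (𝓝 z.1.1) (𝓝 z.1) :=
      (Continuous.prodMk_left z.1.2).tendsto z.1.1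
    filter_upwards [nhdsWithin_le_nhds (ht.eventually hN), Ioo_mem_nhdsLT ha] with s h1 h2
    rw [e' _ h1, e' _ z.2]
    exact hm _ ⟨h2.1.le, h2.2.le⟩ _
  refine ⟨fun a => (h.space_max g z hx (b a)).1, ?_⟩
  have e1 : ev z ((lDA h hd k b hf).L g) =
      ev z (h.dt g) - ∑ a, ev z (h.D (b a) (h.D (b a) g)) := by
    rw [DA.L, SA.Lap, map_sub, map_sum]; rfl
  rw [e1]
  have := h.time_max g z hs
  have h2 : ∑ a, ev z (h.D (b a) (h.D (b a) g)) ≤ 0 :=
    Finset.sum_nonpos fun a _ => (h.space_max g z hx (b a)).2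
  linarith

end Pool.Agent.Lib.MP_de485e_gt.Conv
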