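import Pool.Agent.Lib.MP_de485e_gt.Conv.Mod5b

/-! The fixed time part of the interface. -/

open Set Filter Topology
open scoped RealInnerProductSpace InnerProduct Manifold ContDiff

namespace Pool.Agent.Lib.MP_de485e_gt.Conv

variable {P Q : Type} [NormedAddCommGroup P] [InnerProductSpace ℝ P] [CompleteSpace P]
  [FiniteDimensional ℝ P] [NormedAddCommGroup Q] [InnerProductSpace ℝ Q] [CompleteSpace Q]
  [FiniteDimensional ℝ Q] {M : Type} [TopologicalSpace M] [ChartedSpace P M]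
  [IsManifold 𝓘(ℝ, P) ∞ M] {F : ℝ → M → Q} {n : ℕ} {ι : Type} [Fintype ι] [DecidableEq ι]

namespace Flow

variable {J : Set ℝ} (h : Flow P n F J) (b : OrthonormalBasis ι ℝ Q)

private theorem Mod5_slice {V : Type} [TopologicalSpace V] {g : ℝ × M → V} {t : ℝ} (ht : t ∈ J)
    (hg : ContinuousOn g (J ×ˢ univ)) : Continuous fun x => g (t, x) :=
  hg.comp_continuous (by fun_prop) fun x => mk_mem_prod ht (mem_univ x)

omit [IsManifold 𝓘(ℝ, P) ∞ M] in
private theorem Mod5_fn (g : Rg P (J ×ˢ (univ : Set M))) {t : ℝ} (ht : t ∈ J)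
    (hO : IsOpen (J ×ˢ (univ : Set M))) : Continuous fun x => fn g (t, x) :=
  Mod5_slice ht ((fn_smo g).continuousOn hO)

private theorem Mod5_W_pos {t : ℝ} (ht : t ∈ J) (x : M) : 0 < (h.data b).W t x := by
  obtain ⟨m⟩ := h.exists_model ht x
  have e := m.ev_W b ⟨(t, x), m.mem⟩
  have hn : (2 : ℝ) ≤ n := by exact_mod_cast h.dim.hn
  have e2 := (m.S b).toSA.ev_W (ev ⟨(t, x), m.mem⟩)
  have e3 : (((m.S b).toSA.n : ℕ) : ℝ) = n := rfl
  rw [e3] at e2
  rw [← e, e2]
  positivity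

private theorem Mod5_Wi {t : ℝ} (ht : t ∈ J) :
    Continuous fun x => (fn (gPA h.dom n b).W (t, x))⁻¹ :=
  (Mod5_fn _ ht h.dom.isOpen).inv₀ fun x => (h.Mod5_W_pos b ht x).ne'

theorem geoLoc : GeoLoc n P F J (h.data b) where
  hn := h.dim.hn
  hP := h.dim.hP
  hQ := h.dim.hQ
  sphere t ht x := h.dom.sphere (t, x) (mk_mem_prod ht (mem_univ x))
  imm t ht x := h.dom.imm (t, x) (mk_mem_prod ht (mem_univ x))
  strict t ht x := h.dom.strict (z := (t, x)) (mk_mem_prod ht (mem_univ x))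
  contF t ht := Mod5_slice (g := fun z : ℝ × M => F z.1 z.2) ht
    (h.dom.smooth.continuousOn h.dom.isOpen)
  contW t ht := Mod5_slice ht (h.cont_W b)
  contC t ht := by
    refine continuous_finsetSum _ fun a _ => continuous_finsetSum _ fun c _ => ?_
    exact ((h.Mod5_Wi b ht).mul (Mod5_fn _ ht h.dom.isOpen)).smul continuous_const
  contm t ht := by
    refine continuous_finsetSum _ fun a _ => ?_
    exact ((h.Mod5_Wi b ht).mul (Mod5_fn _ ht h.dom.isOpen)).smul continuous_const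
  u_le t ht x := by
    obtain ⟨m⟩ := h.exists_model ht x
    have hW := h.Mod5_W_pos b ht x
    have k := (m.S b).toSA.pin_u _ (m.pinch b ⟨(t, x), m.mem⟩)
    have e3 : (((m.S b).toSA.n : ℕ) : ℝ) = n := rfl
    have hn : (2 : ℝ) ≤ n := by exact_mod_cast h.dim.hn
    rw [e3, m.ev_u b, m.ev_W b] at k
    obtain ⟨k1, k2⟩ := k
    refine ⟨k1, ?_⟩
    change (n : ℝ) * (n + 1) * (h.data b).u t x ≤ (n - 1) * (h.data b).W t x at k2
    refine le_of_mul_le_mul_left (k2.trans ?_) (by positivity : (0 : ℝ) < n * (n + 1))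
    exact mul_le_mul_of_nonneg_right (by nlinarith) hW.le
  v_nonneg t ht x := by
    obtain ⟨m⟩ := h.exists_model ht x
    have k := (m.S b).toSA.v_nonneg (ev ⟨(t, x), m.mem⟩)
    rwa [m.ev_v b] at k
  pt t ht x := h.pt b ht x
  dx t ht x η hη hu hv := h.dx b ht x η hη hu hv

end Flow

end Pool.Agent.Lib.MP_de485e_gt.Conv
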