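import Pool.Agent.Lib.MP_de485e_gt.Conv.Mod4
import Pool.Agent.Lib.MP_de485e_gt.Conv.Dbound

/-! The fixed time part of the interface. -/

open Set Filter Topology
open scoped RealInnerProductSpace InnerProduct Manifold ContDiff

namespace Pool.Agent.Lib.MP_de485e_gt.Conv

variable {P Q : Type} [NormedAddCommGroup P] [InnerProductSpace ℝ P] [CompleteSpace P]
  [FiniteDimensional ℝ P] [NormedAddCommGroup Q] [InnerProductSpace ℝ Q] [CompleteSpace Q]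
  [FiniteDimensional ℝ Q] {M : Type} [TopologicalSpace M] [ChartedSpace P M]
  [IsManifold 𝓘(ℝ, P) ∞ M] {F : ℝ → M → Q} {n : ℕ} {ι : Type} [Fintype ι] [DecidableEq ι]

theorem opOf_apply (b : OrthonormalBasis ι ℝ Q) (x : ι → ι → ℝ) (w : Q) :
    opOf b x w = ∑ a, (∑ c, x a c * ⟪b c, w⟫) • b a := by
  simp only [opOf, sum_apply, smul_apply,
    ContinuousLinearMap.smulRight_apply, innerSL_apply_apply, Finset.sum_smul, smul_smul]

omit [CompleteSpace Q] [FiniteDimensional ℝ Q] [DecidableEq ι] in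
private theorem Mod5a_norm_sq (b : OrthonormalBasis ι ℝ Q) (y : ι → ℝ) :
    ‖∑ a, y a • b a‖ ^ 2 = ∑ a, y a ^ 2 := by
  rw [← real_inner_self_eq_norm_sq, b.orthonormal.inner_sum]
  exact Finset.sum_congr rfl fun a _ => by simp [sq]

theorem norm_opOf_le (b : OrthonormalBasis ι ℝ Q) (x : ι → ι → ℝ) :
    ‖opOf b x‖ ≤ √(∑ a, ∑ c, x a c ^ 2) := by
  refine ContinuousLinearMap.opNorm_le_bound _ (Real.sqrt_nonneg _) fun w => ?_
  have h0 : 0 ≤ ∑ a, ∑ c, x a c ^ 2 :=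
    Finset.sum_nonneg fun a _ => Finset.sum_nonneg fun c _ => sq_nonneg _
  refine (pow_le_pow_iff_left₀ (norm_nonneg _) (by positivity) two_ne_zero).1 ?_
  rw [opOf_apply, Mod5a_norm_sq, mul_pow, Real.sq_sqrt h0, ← b.sum_sq_inner_right w,
    Finset.sum_mul]
  exact Finset.sum_le_sum fun a _ => Finset.sum_mul_sq_le_sq_mul_sq _ _ _

theorem opOf_rankOne (b : OrthonormalBasis ι ℝ Q) (r : ℝ) (p w : Q) :
    opOf b (fun a c => r * (⟪b a, p⟫ * ⟪b c, p⟫)) w = (r * ⟪p, w⟫) • p := by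
  have h1 : ∀ a, ∑ c, r * (⟪b a, p⟫ * ⟪b c, p⟫) * ⟪b c, w⟫ = r * ⟪p, w⟫ * ⟪b a, p⟫ := fun a => by
    rw [← b.sum_inner_mul_inner p w, Finset.mul_sum, Finset.sum_mul]
    exact Finset.sum_congr rfl fun c _ => by rw [real_inner_comm p (b c)]; ring
  rw [opOf_apply]
  simp only [h1, mul_smul (r * ⟪p, w⟫), ← Finset.smul_sum, b.sum_repr']

omit [CompleteSpace Q] [FiniteDimensional ℝ Q] [DecidableEq ι] in
private theorem Mod5a_inner (b : OrthonormalBasis ι ℝ Q) (p w : Q) :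
    ∑ a, ⟪b a, p⟫ * ⟪b a, w⟫ = ⟪p, w⟫ := by
  rw [← b.sum_inner_mul_inner p w]
  exact Finset.sum_congr rfl fun c _ => by rw [real_inner_comm p (b c)]

omit [CompleteSpace Q] [FiniteDimensional ℝ Q] in
private theorem Mod5a_proj (b : OrthonormalBasis ι ℝ Q) {p r f ν : Q} (hf : ⟪p, f⟫ = 0)
    (hν : ⟪p, ν⟫ = 0) :
    ∑ a, ∑ c, ⟪b a, p⟫ * ⟪b c, r⟫ *
      ((kd a c : ℝ) - ⟪b a, f⟫ * ⟪b c, f⟫ - ⟪b a, ν⟫ * ⟪b c, ν⟫) = ⟪p, r⟫ := by
  have h1 : ∀ a, ∑ c, ⟪b a, p⟫ * ⟪b c, r⟫ *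
      ((kd a c : ℝ) - ⟪b a, f⟫ * ⟪b c, f⟫ - ⟪b a, ν⟫ * ⟪b c, ν⟫) =
      ⟪b a, p⟫ * ⟪b a, r⟫ - ⟪b a, p⟫ * ⟪b a, f⟫ * ⟪r, f⟫ - ⟪b a, p⟫ * ⟪b a, ν⟫ * ⟪r, ν⟫ := by
    intro a
    have h2 : ∑ c, ⟪b a, p⟫ * ⟪b c, r⟫ * (kd a c : ℝ) = ⟪b a, p⟫ * ⟪b a, r⟫ := by
      simp [kd]
    rw [← h2, ← Mod5a_inner b r f, ← Mod5a_inner b r ν, Finset.mul_sum, Finset.mul_sum,
      ← Finset.sum_sub_distrib, ← Finset.sum_sub_distrib]
    exact Finset.sum_congr rfl fun c _ => by ring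
  simp only [h1, Finset.sum_sub_distrib, ← Finset.sum_mul, Mod5a_inner, hf, hν, zero_mul, sub_zero]

omit [CompleteSpace Q] [FiniteDimensional ℝ Q] [DecidableEq ι] in
private theorem Mod5a_deriv (b : OrthonormalBasis ι ℝ Q) {x : ι → ι → ℝ → ℝ} {x' : ι → ι → ℝ}
    {t : ℝ} (hx : ∀ a c, HasDerivAt (x a c) (x' a c) t) :
    HasDerivAt (fun s => opOf b fun a c => x a c s) (opOf b x') t := by
  unfold opOf
  exact HasDerivAt.fun_sum fun a _ => HasDerivAt.fun_sum fun c _ =>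
    (hx a c).smul_const ((innerSL ℝ (b c)).smulRight (b a))

namespace Flow

variable {J : Set ℝ} (h : Flow P n F J) (b : OrthonormalBasis ι ℝ Q)

private theorem Mod5a_c {t : ℝ} {x : M} (m : h.Model t x) (z : m.O) (a : ι) :
    ev z ((m.S b).c a) = ⟪b a, ev z (m.S b).H • F z.1.1 z.1.2 + (n : ℝ) • m.ν z⟫ := by
  rw [SA.c, map_add, map_mul, map_mul, map_natCast, m.ev_F, m.ev_ν, inner_add_right,
    real_inner_smul_right, real_inner_smul_right]
  rfl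

private theorem Mod5a_A {t : ℝ} {x : M} (m : h.Model t x) (z : m.O) (a c : ι) :
    ev z ((m.S b).A a c) = ev z ((m.S b).A0 a c) + ev z (m.S b).H / n *
      ((kd a c : ℝ) - ⟪b a, F z.1.1 z.1.2⟫ * ⟪b c, F z.1.1 z.1.2⟫ -
        ⟪b a, m.ν z⟫ * ⟪b c, m.ν z⟫) := by
  have hk : ev z (kd a c : Rg P m.O) = kd a c := by
    unfold kd
    split_ifs
    · exact map_one _
    · exact map_zero _
  rw [SA.A0, SA.P, map_sub, map_smul, map_mul, map_sub, map_sub, map_mul, map_mul, hk, m.ev_F,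
    m.ev_F, m.ev_ν, m.ev_ν, smul_eq_mul]
  change _ = _ - (n : ℝ)⁻¹ * _ + _
  ring

/-- In a model `m`: `ν = m.ν (t, x)`, `H = ev (m.S b).H`; `sff_formula`, `A0_le`, `flow_eq`,
`normal_eq`, `hasDerivAt_fn`, `dtN_le`. -/
theorem pt {t : ℝ} (ht : t ∈ J) (x : M) : ∃ ν H, PtData n P F (h.data b) t x ν H := by
  obtain ⟨m⟩ := h.exists_model ht x
  let z : m.O := ⟨(t, x), m.mem⟩
  have hu := m.nor.unit _ m.mem
  have hm := m.nor.mem _ m.mem
  have hm' := mem_normal_iff.1 hm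
  have hF := m.dom.dF_perp m.mem
  have R := res_gPA h.dom h.dim b m.isOpen m.sub m.nor
  have hN : ∀ y : m.O, (h.data b).N y.1.1 y.1.2 =
      opOf b fun a c => fn ((m.S b).ν a * (m.S b).ν c) y := fun y => by
    rw [m.N_eq b y]
    simp only [ev_eq]
  refine ⟨m.ν (t, x), ev z (m.S b).H, hu, hm'.2, hm'.1, hF, m.dom.normal_eq h.dim m.mem hu hm, ?_,
    ?_, fun w => ?_, fun w => ?_, flow_eq m.dom h.dim m.nor b m.flw z, fun ξ ζ => ?_, ?_⟩
  · exact (m.ev_W b z).symm.trans ((m.S b).ev_W (ev z))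
  · have h1 : ∀ a, fn ((gPA h.dom n b).Hc a) (t, x) = ev z (m.S b).H *
        ⟪b a, ev z (m.S b).H • F t x + (n : ℝ) • m.ν (t, x)⟫ := fun a => by
      have := congrArg (ev z) (R.2.2.2.2.2 a)
      rw [ev_res, map_mul] at this
      exact this.trans (congrArg _ (Mod5a_c h b m z a))
    change ∑ a, (((h.data b).W t x)⁻¹ * fn ((gPA h.dom n b).Hc a) (t, x)) • b a = _
    simp only [h1, ← mul_assoc, mul_smul (((h.data b).W t x)⁻¹ * ev z (m.S b).H),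
      ← Finset.smul_sum, b.sum_repr']
  · have h1 : ∀ a c, fn ((gPA h.dom n b).cc a c) (t, x) =
        ⟪b a, ev z (m.S b).H • F t x + (n : ℝ) • m.ν (t, x)⟫ *
        ⟪b c, ev z (m.S b).H • F t x + (n : ℝ) • m.ν (t, x)⟫ := fun a c => by
      have := congrArg (ev z) (R.2.2.2.2.1 a c)
      rw [ev_res, map_mul] at this
      exact this.trans (congrArg₂ _ (Mod5a_c h b m z a) (Mod5a_c h b m z c))
    change (opOf b fun a c => ((h.data b).W t x)⁻¹ * fn ((gPA h.dom n b).cc a c) (t, x)) w = _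
    simp only [h1]
    exact opOf_rankOne b _ _ w
  · have h1 := opOf_rankOne b 1 (m.ν (t, x)) w
    simp only [one_mul] at h1
    rw [← h1]
    exact congrArg (fun T : Q →L[ℝ] Q => T w) ((m.N_eq b z).trans (by simp only [map_mul]; rfl))
  · have h1 : sff P (F t) x ξ ζ = (∑ a, ∑ c, ⟪b a, dF P (F t) x ξ⟫ * ⟪b c, dF P (F t) x ζ⟫ *
        ev z ((m.S b).A a c)) • m.ν (t, x) := sff_formula m.dom h.dim m.nor b z ξ ζ
    have h2 : ∑ a, ∑ c, ⟪b a, dF P (F t) x ξ⟫ * ⟪b c, dF P (F t) x ζ⟫ * ev z ((m.S b).A a c) =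
        ∑ a, ∑ c, ⟪b a, dF P (F t) x ξ⟫ * ⟪b c, dF P (F t) x ζ⟫ * ev z ((m.S b).A0 a c) +
          ev z (m.S b).H / n * ⟪dF P (F t) x ξ, dF P (F t) x ζ⟫ := by
      rw [← Mod5a_proj b (hF ξ) (hm'.1 ξ) (r := dF P (F t) x ζ), Finset.mul_sum,
        ← Finset.sum_add_distrib]
      refine Finset.sum_congr rfl fun a _ => ?_
      rw [Finset.mul_sum, ← Finset.sum_add_distrib]
      refine Finset.sum_congr rfl fun c _ => ?_
      rw [Mod5a_A h b m z a c]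
      ring
    have h3 := (m.S b).A0_le (ev z) (fun a => ⟪b a, dF P (F t) x ξ⟫)
      (fun a => ⟪b a, dF P (F t) x ζ⟫)
    rw [b.sum_sq_inner_right, b.sum_sq_inner_right, m.ev_u b z] at h3
    have h4 : 0 ≤ (h.data b).u t x := (m.ev_u b z) ▸ (m.S b).u_nonneg (ev z)
    rw [h1, h2, ← sub_smul, add_sub_cancel_right, norm_smul, hu, mul_one, Real.norm_eq_abs]
    refine abs_le_of_sq_le_sq' ?_ (by positivity) |> abs_le.2
    rw [mul_pow, mul_pow, Real.sq_sqrt h4]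
    exact h3
  · refine ⟨opOf b fun a c => ev z ((m.S b).dt ((m.S b).ν a * (m.S b).ν c)), ?_, ?_⟩
    · refine (Mod5a_deriv b fun a c =>
        m.dom.hasDerivAt_fn ((m.S b).ν a * (m.S b).ν c) z).congr_of_eventuallyEq ?_
      have : ∀ᶠ s in 𝓝 t, (s, x) ∈ m.O :=
        (continuous_id.prodMk continuous_const).continuousAt.eventually (m.isOpen.mem_nhds m.mem)
      filter_upwards [this] with s hs
      exact hN ⟨(s, x), hs⟩
    · refine (norm_opOf_le b _).trans ?_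
      have h1 := (m.S b).dtN_le (ev z)
      rw [m.ev_v b z] at h1
      refine (Real.sqrt_le_sqrt h1).trans (le_of_eq ?_)
      rw [Real.sqrt_mul (by norm_num), show (4 : ℝ) = 2 ^ 2 by norm_num,
        Real.sqrt_sq (by norm_num)]
      rfl

end Flow

end Pool.Agent.Lib.MP_de485e_gt.Conv
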