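import Pool.Agent.Lib.MP_de485e_gt.Conv.Mod5a

/-! The fixed time part of the interface. -/

open Set Filter Topology
open scoped RealInnerProductSpace InnerProduct Manifold ContDiff

namespace Pool.Agent.Lib.MP_de485e_gt.Conv

variable {P Q : Type} [NormedAddCommGroup P] [InnerProductSpace ℝ P] [CompleteSpace P]
  [FiniteDimensional ℝ P] [NormedAddCommGroup Q] [InnerProductSpace ℝ Q] [CompleteSpace Q]
  [FiniteDimensional ℝ Q] {M : Type} [TopologicalSpace M] [ChartedSpace P M]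
  [IsManifold 𝓘(ℝ, P) ∞ M] {F : ℝ → M → Q} {n : ℕ} {ι : Type} [Fintype ι] [DecidableEq ι]

omit [CompleteSpace Q] [FiniteDimensional ℝ Q] [DecidableEq ι] in
private theorem Mod5b_norm_sum (b : OrthonormalBasis ι ℝ Q) (x : ι → ℝ) :
    ‖∑ a, x a • b a‖ ^ 2 = ∑ a, x a ^ 2 := by
  rw [← b.sum_sq_inner_right]
  exact Finset.sum_congr rfl fun a _ => by
    rw [b.orthonormal.inner_right_fintype]

namespace Flow

variable {J : Set ℝ} (h : Flow P n F J) (b : OrthonormalBasis ι ℝ Q)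

/-- `exists_inv`, `hasStrictFDerivAt_fn`, `dC_le`, `dm_le`, `dWi_le`; the data agree with the
ring elements near the point. -/
theorem dx {t : ℝ} (ht : t ∈ J) (x : M) (η : ℝ) (hη : 0 ≤ η)
    (hu : (h.data b).u t x ≤ η ^ 2 * (h.data b).W t x)
    (hv : (h.data b).v t x ≤ η ^ 2 * (h.data b).W t x ^ 2) : DxData n P F (h.data b) t x η := by
  obtain ⟨m⟩ := h.exists_model ht x
  have hn : (2 : ℝ) ≤ n := by exact_mod_cast h.dim.hn
  have hpos : ∀ z, 0 < ev z (m.S b).W := fun z => by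
    rw [(m.S b).toSA.ev_W, m.S_n]
    positivity
  obtain ⟨Wi, hW⟩ := Dom.exists_inv (m.S b).W hpos
  have hWi : ∀ z : m.O, ev z Wi = ((h.data b).W z.1.1 z.1.2)⁻¹ := fun z => by
    rw [← m.ev_W b z]
    exact eq_inv_of_mul_eq_one_left (by rw [← map_mul, hW, map_one])
  have hev : ∀ᶠ y in 𝓝 (chartAt P x x), (t, (chartAt P x).symm y) ∈ m.O := by
    have hc : ContinuousAt (fun y => ((t, (chartAt P x).symm y) : ℝ × M)) (chartAt P x x) :=
      continuousAt_const.prodMk ((chartAt P x).continuousAt_symm (mem_chart_target P x))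
    refine hc.eventually_mem (m.isOpen.mem_nhds ?_)
    rw [(chartAt P x).left_inv (mem_chart_source P x)]
    exact m.mem
  choose d hd hd' using fun g : Rg P m.O => m.dom.hasStrictFDerivAt_fn b g ⟨(t, x), m.mem⟩
  have hu' : ev ⟨(t, x), m.mem⟩ (m.S b).u ≤ η ^ 2 * ev ⟨(t, x), m.mem⟩ (m.S b).W := by
    rw [m.ev_u b, m.ev_W b]; exact hu
  have hv' : ev ⟨(t, x), m.mem⟩ (m.S b).v ≤ η ^ 2 * ev ⟨(t, x), m.mem⟩ (m.S b).W ^ 2 := by
    rw [m.ev_v b, m.ev_W b]; exact hv
  refine ⟨∑ a, ∑ c, (d (Wi * ((m.S b).c a * (m.S b).c c))).smulRight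
      ((innerSL ℝ (b c)).smulRight (b a)),
    ∑ a, (d (Wi * ((m.S b).H * (m.S b).c a))).smulRight (b a), d Wi, ?_, ?_, ?_, fun ξ => ?_⟩
  · refine (HasStrictFDerivAt.fun_sum fun a _ => HasStrictFDerivAt.fun_sum fun c _ =>
      (hd _).smul_const _).congr_of_eventuallyEq ?_
    filter_upwards [hev] with y hy
    rw [m.C_eq b ⟨_, hy⟩ hW]
    simp only [opOf, ev_eq]
  · refine (HasStrictFDerivAt.fun_sum fun a _ => (hd _).smul_const _).congr_of_eventuallyEq ?_
    filter_upwards [hev] with y hy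
    rw [m.m_eq b ⟨_, hy⟩ hW]
    simp only [ev_eq]
  · refine (hd _).congr_of_eventuallyEq ?_
    filter_upwards [hev] with y hy
    rw [← hWi ⟨_, hy⟩, ev_eq]
  · have hs : ∑ a, ⟪b a, dF P (F t) x ξ⟫ ^ 2 = ‖dF P (F t) x ξ‖ ^ 2 := b.sum_sq_inner_right _
    have h0 : 0 ≤ 4 * (n : ℝ) ^ 2 * η * ‖dF P (F t) x ξ‖ := by positivity
    refine ⟨?_, ?_, ?_⟩
    · have e : (∑ a, ∑ c, (d (Wi * ((m.S b).c a * (m.S b).c c))).smulRight
          ((innerSL ℝ (b c)).smulRight (b a))) ξ =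
          opOf b fun a c => d (Wi * ((m.S b).c a * (m.S b).c c)) ξ := by
        simp only [opOf, sum_apply, ContinuousLinearMap.smulRight_apply]
      rw [e]
      refine (norm_opOf_le b _).trans (Real.sqrt_le_iff.2 ⟨h0, ?_⟩)
      have := (m.S b).toSA.dC_le (ev ⟨(t, x), m.mem⟩) hW hη hu' hv'
        fun a => ⟪b a, dF P (F t) x ξ⟫
      rw [hs, m.S_n] at this
      rw [mul_pow _ ‖_‖]
      simp only [hd']
      exact this
    · refine (le_abs_self _).trans (abs_le_of_sq_le_sq ?_ h0)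
      simp only [sum_apply, ContinuousLinearMap.smulRight_apply]
      rw [Mod5b_norm_sum]
      have := (m.S b).toSA.dm_le (ev ⟨(t, x), m.mem⟩) hW hη hu' hv'
        fun a => ⟪b a, dF P (F t) x ξ⟫
      rw [hs, m.S_n] at this
      rw [mul_pow _ ‖_‖]
      simp only [hd']
      exact this
    · have hw : 0 < (h.data b).W t x := by
        have := hpos ⟨(t, x), m.mem⟩
        rwa [m.ev_W b] at this
      refine abs_le_of_sq_le_sq ?_ (by positivity)
      have := (m.S b).toSA.dWi_le (ev ⟨(t, x), m.mem⟩) hW hv' fun a => ⟪b a, dF P (F t) x ξ⟫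
      rw [hs, m.S_n, hWi] at this
      rw [hd']
      refine le_trans this ?_
      rw [mul_pow _ ‖_‖, div_pow, Real.sq_sqrt hw.le, div_eq_mul_inv]
      have hi : 0 ≤ ((h.data b).W t x)⁻¹ := inv_nonneg.2 hw.le
      have : 4 * (n : ℝ) * η ^ 2 ≤ (2 * n * η) ^ 2 := by
        nlinarith [mul_nonneg (mul_nonneg (by linarith : (0 : ℝ) ≤ n)
          (by linarith : (0 : ℝ) ≤ n - 1)) (sq_nonneg η)]
      gcongr

end Flow

end Pool.Agent.Lib.MP_de485e_gt.Conv
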