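import Pool.Agent.Lib.MP_de485e_gt.Global
import Pool.Agent.Lib.MP_de485e_gt.Conv.AlgDef

/-! Smooth functions on an open part of space-time, read in charts. -/

open Set Filter Topology
open scoped RealInnerProductSpace InnerProduct Manifold ContDiff

namespace Pool.Agent.Lib.MP_de485e_gt.Conv

variable (P : Type) {Q : Type} [NormedAddCommGroup P] [InnerProductSpace ℝ P] [CompleteSpace P]
  [FiniteDimensional ℝ P] [NormedAddCommGroup Q] [InnerProductSpace ℝ Q] [CompleteSpace Q]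
  [FiniteDimensional ℝ Q] {M : Type} [TopologicalSpace M] [ChartedSpace P M]

/-- The part of `O` seen in the chart at `c`. -/
def cs (O : Set (ℝ × M)) (c : M) : Set (ℝ × P) :=
  {p | p.2 ∈ (chartAt P c).target ∧ (p.1, (chartAt P c).symm p.2) ∈ O}

/-- A function on space-time read in the chart at `c`. -/
def rd {V : Type} (g : ℝ × M → V) (c : M) (p : ℝ × P) : V := g (p.1, (chartAt P c).symm p.2)

/-- Coordinates of `z` in the chart at `c`. -/
def ptc (c : M) (z : ℝ × M) : ℝ × P := (z.1, chartAt P c z.2)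

/-- Smooth on `O`. -/
def Smo {V : Type} [NormedAddCommGroup V] [NormedSpace ℝ V] (O : Set (ℝ × M)) (g : ℝ × M → V) :
    Prop := ∀ c, ContDiffOn ℝ ∞ (rd P g c) (cs P O c)

open Classical in
/-- Extension by zero. -/
noncomputable def ext {O : Set (ℝ × M)} (g : O → ℝ) (z : ℝ × M) : ℝ :=
  if h : z ∈ O then g ⟨z, h⟩ else 0

omit [TopologicalSpace M] in
theorem ext_of_mem {O : Set (ℝ × M)} (g : O → ℝ) {z : ℝ × M} (h : z ∈ O) : ext g z = g ⟨z, h⟩ :=
  dif_pos h

variable {P} in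
omit [CompleteSpace P] [FiniteDimensional ℝ P] in
theorem Smo.congr {V : Type} [NormedAddCommGroup V] [NormedSpace ℝ V] {O : Set (ℝ × M)}
    {g g' : ℝ × M → V} (h : Smo P O g) (e : ∀ z ∈ O, g' z = g z) : Smo P O g' :=
  fun c => (h c).congr fun _ hp => e _ hp.2

/-- The ring of smooth functions on `O`. -/
def Rs (O : Set (ℝ × M)) : Subalgebra ℝ (O → ℝ) where
  carrier := {g | Smo P O (ext g)}
  mul_mem' {g h} hg hh := fun c => ((hg c).mul (hh c)).congr fun p hp => by
    simp only [rd, ext_of_mem _ hp.2, Pi.mul_apply]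
  add_mem' {g h} hg hh := fun c => ((hg c).add (hh c)).congr fun p hp => by
    simp only [rd, ext_of_mem _ hp.2, Pi.add_apply]
  algebraMap_mem' r := fun c => (contDiffOn_const (c := r)).congr fun p hp => by
    simp only [rd, ext_of_mem _ hp.2, Pi.algebraMap_apply, Algebra.algebraMap_self, RingHom.id_apply]

/-- The same as a type. -/
abbrev Rg (O : Set (ℝ × M)) : Type := Rs P O

variable {P}

/-- A ring element as a function on space-time. -/
noncomputable def fn {O : Set (ℝ × M)} (g : Rg P O) : ℝ × M → ℝ := ext g.1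

omit [CompleteSpace P] [FiniteDimensional ℝ P] in
theorem fn_smo {O : Set (ℝ × M)} (g : Rg P O) : Smo P O (fn g) := g.2

/-- Evaluation at a point. -/
noncomputable def ev {O : Set (ℝ × M)} (z : O) : Rg P O →ₐ[ℝ] ℝ :=
  (Pi.evalAlgHom ℝ (fun _ : O => ℝ) z).comp (Rs P O).val

omit [CompleteSpace P] [FiniteDimensional ℝ P] in
theorem ev_eq {O : Set (ℝ × M)} (z : O) (g : Rg P O) : ev z g = fn g z := by
  rw [fn, ext_of_mem _ z.2]; rfl

omit [CompleteSpace P] [FiniteDimensional ℝ P] in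
theorem rg_ext {O : Set (ℝ × M)} {g h : Rg P O} (e : ∀ z, ev z g = ev z h) : g = h :=
  Subtype.ext (funext e)

/-- The ring element given by a smooth function. -/
def mkR {O : Set (ℝ × M)} (G : ℝ × M → ℝ) (h : Smo P O G) : Rg P O :=
  ⟨fun z => G z, h.congr fun _ hz => ext_of_mem _ hz⟩

omit [CompleteSpace P] [FiniteDimensional ℝ P] in
theorem ev_mk {O : Set (ℝ × M)} (G : ℝ × M → ℝ) (h : Smo P O G) (z : O) : ev z (mkR G h) = G z := rfl

omit [CompleteSpace P] [FiniteDimensional ℝ P] in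
theorem Smo.mono {V : Type} [NormedAddCommGroup V] [NormedSpace ℝ V] {O O' : Set (ℝ × M)}
    {g : ℝ × M → V} (h : Smo P O g) (hO : O' ⊆ O) : Smo P O' g :=
  fun c => (h c).mono fun _ hp => ⟨hp.1, hO hp.2⟩

/-- Restriction to a smaller set. -/
noncomputable def res {O O' : Set (ℝ × M)} (hO : O' ⊆ O) : Rg P O →ₐ[ℝ] Rg P O' where
  toFun g := mkR (fn g) ((fn_smo g).mono hO)
  map_one' := rg_ext fun z => by rw [ev_mk, ← ev_eq ⟨z.1, hO z.2⟩, map_one, map_one]
  map_mul' g h := rg_ext fun z => by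
    rw [map_mul, ev_mk, ev_mk, ev_mk, ← ev_eq ⟨z.1, hO z.2⟩, ← ev_eq ⟨z.1, hO z.2⟩,
      ← ev_eq ⟨z.1, hO z.2⟩, map_mul]
  map_zero' := rg_ext fun z => by rw [ev_mk, ← ev_eq ⟨z.1, hO z.2⟩, map_zero, map_zero]
  map_add' g h := rg_ext fun z => by
    rw [map_add, ev_mk, ev_mk, ev_mk, ← ev_eq ⟨z.1, hO z.2⟩, ← ev_eq ⟨z.1, hO z.2⟩,
      ← ev_eq ⟨z.1, hO z.2⟩, map_add]
  commutes' r := rg_ext fun z => by
    rw [ev_mk, ← ev_eq ⟨z.1, hO z.2⟩, AlgHom.commutes, AlgHom.commutes]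

omit [CompleteSpace P] [FiniteDimensional ℝ P] in
theorem ev_res {O O' : Set (ℝ × M)} (hO : O' ⊆ O) (g : Rg P O) (z : O') :
    ev z (res hO g) = fn g z := rfl

variable (P) in
/-- A smooth vector field on `O`, given in every chart. -/
structure Fld (O : Set (ℝ × M)) where
  V : M → ℝ × P → ℝ × P
  smooth : ∀ c, ContDiffOn ℝ ∞ (V c) (cs P O c)
  compat : ∀ (g : ℝ × M → ℝ), Smo P O g → ∀ z ∈ O, ∀ c, z.2 ∈ (chartAt P c).source →
    fderiv ℝ (rd P g z.2) (ptc P z.2 z) (V z.2 (ptc P z.2 z)) =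
      fderiv ℝ (rd P g c) (ptc P c z) (V c (ptc P c z))

/-- Derivative of a function along the field. -/
noncomputable def Fld.app {O : Set (ℝ × M)} (X : Fld P O) (g : ℝ × M → ℝ) (z : ℝ × M) : ℝ :=
  fderiv ℝ (rd P g z.2) (ptc P z.2 z) (X.V z.2 (ptc P z.2 z))

/-- Left inverse of an injective map that kills the orthogonal complement of its range. -/
noncomputable def pinv (L : P →L[ℝ] Q) : Q →L[ℝ] P := gi L ∘L L†

variable (P) in
/-- Spatial differential of the flow in the chart at `c`. -/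
noncomputable def Lc (F : ℝ → M → Q) (c : M) (p : ℝ × P) : P →L[ℝ] Q :=
  fderiv ℝ (rd P (fun z : ℝ × M => F z.1 z.2) c) p ∘L ContinuousLinearMap.inr ℝ ℝ P

variable (P) in
/-- A smooth family of immersions into the unit sphere on the open set `O`. -/
structure Dom (F : ℝ → M → Q) (O : Set (ℝ × M)) : Prop where
  isOpen : IsOpen O
  smooth : Smo P O fun z : ℝ × M => F z.1 z.2
  sphere : ∀ z ∈ O, ‖F z.1 z.2‖ = 1
  imm : ∀ z ∈ O, Function.Injective (dF P (F z.1) z.2)

variable (P) in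
/-- A smooth unit normal on `O`. -/
structure Nor (F : ℝ → M → Q) (O : Set (ℝ × M)) (ν : ℝ × M → Q) : Prop where
  smooth : Smo P O ν
  unit : ∀ z ∈ O, ‖ν z‖ = 1
  mem : ∀ z ∈ O, ν z ∈ normal P (F z.1) z.2

variable (P) in
/-- The flow equation on `O`. -/
def Flw (F : ℝ → M → Q) (O : Set (ℝ × M)) : Prop :=
  ∀ z ∈ O, ∀ e : Fin (Module.finrank ℝ P) → P, (Orthonormal ℝ fun i => dF P (F z.1) z.2 (e i)) →
    HasDerivAt (fun s => F s z.2) (∑ i, sff P (F z.1) z.2 (e i) (e i)) z.1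

end Pool.Agent.Lib.MP_de485e_gt.Conv
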