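import Pool.Agent.Lib.MP_de485e_gt.Defs

/-! Radial projection from a point of the unit sphere. -/

open scoped RealInnerProductSpace

namespace Pool.Agent.Lib.MP_de485e_gt

variable {Q : Type} [NormedAddCommGroup Q] [InnerProductSpace ℝ Q] {M : Type}

/-- The direction of the component of `y` orthogonal to `p`. -/
noncomputable def rproj (p y : Q) : Q := ‖y - ⟪p, y⟫ • p‖⁻¹ • (y - ⟪p, y⟫ • p)

/-- `x ↦ rproj p (G x)` is a bijection from `M` to the unit sphere of the hyperplane `p^⊥`. -/
def RadialBij (p : Q) (G : M → Q) : Prop :=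
  Set.BijOn (fun x => rproj p (G x)) Set.univ {w | ‖w‖ = 1 ∧ ⟪p, w⟫ = 0}

end Pool.Agent.Lib.MP_de485e_gt
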