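import Pool.Agent.Lib.MP_de485e_gt.Conv.GeoDef
import Pool.Agent.Lib.MP_de485e_gt.LiftChart

/-! An almost umbilic closed hypersurface is a radial graph close to one sphere. -/

open Set Filter Topology Metric
open scoped RealInnerProductSpace

namespace Pool.Agent.Lib.MP_de485e_gt.Conv

theorem Round_point {Q : Type*} [NormedAddCommGroup Q] [InnerProductSpace ℝ Q]
    (g y t T : Q) (r d s0 : ℝ) (hs0 : 0 < s0) (hs1 : s0 ≤ 1) (hd : d ≤ s0 / 10)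
    (hgy : ‖g - y‖ ≤ d) (htT : ‖t - T‖ ≤ d * ‖T‖) (ht : ‖t‖ ≤ ‖T‖) (hyT : ⟪y, T⟫ = 0)
    (hy1 : ‖y‖ ≤ 1) (hy : 9 / 10 * s0 ≤ ‖y‖) (hr : ⟪g, t - r • g⟫ = 0) :
    ‖T‖ ≤ 2 * ‖t - r • g‖ := by
  have hd0 : 0 ≤ d := (norm_nonneg _).trans hgy
  have hT := norm_nonneg T
  have hg : 8 / 10 * s0 ≤ ‖g‖ := by
    have := norm_sub_norm_le y g
    rw [norm_sub_rev] at this
    linarith
  have hg0 : 0 < ‖g‖ := by linarith
  have h1 : r * ‖g‖ ^ 2 = ⟪g - y, t⟫ + ⟪y, t - T⟫ := by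
    rw [inner_sub_right, real_inner_smul_right, real_inner_self_eq_norm_sq] at hr
    rw [inner_sub_left, inner_sub_right, hyT]
    linarith
  have h2 : |⟪g - y, t⟫| ≤ d * ‖T‖ :=
    (abs_real_inner_le_norm _ _).trans (mul_le_mul hgy ht (norm_nonneg _) hd0)
  have h3 : |⟪y, t - T⟫| ≤ d * ‖T‖ :=
    (abs_real_inner_le_norm _ _).trans
      ((mul_le_mul hy1 htT (norm_nonneg _) zero_le_one).trans_eq (one_mul _))
  have h4 : |r| * ‖g‖ * ‖g‖ ≤ 2 * (d * ‖T‖) := by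
    have : |r * ‖g‖ ^ 2| ≤ 2 * (d * ‖T‖) := by
      rw [h1]
      exact (abs_add_le _ _).trans (by linarith)
    rw [abs_mul, abs_of_nonneg (sq_nonneg ‖g‖)] at this
    linarith
  have h5 : |r| * ‖g‖ ≤ ‖T‖ / 4 := by
    refine le_of_mul_le_mul_right (h4.trans ?_) hg0
    have : 8 * d ≤ ‖g‖ := by linarith
    nlinarith [mul_le_mul_of_nonneg_right this hT]
  have h6 : ‖T‖ ≤ ‖t - r • g‖ + ‖r • g‖ + ‖t - T‖ := by
    have e : T = (t - r • g) + r • g - (t - T) := by abel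
    calc ‖T‖ = ‖(t - r • g) + r • g - (t - T)‖ := congrArg _ e
      _ ≤ ‖(t - r • g) + r • g‖ + ‖t - T‖ := norm_sub_le _ _
      _ ≤ _ := by gcongr; exact norm_add_le _ _
  rw [norm_smul, Real.norm_eq_abs] at h6
  have h7 : d * ‖T‖ ≤ 1 / 10 * ‖T‖ := mul_le_mul_of_nonneg_right (by linarith) hT
  linarith

theorem Round_proj {Q : Type*} [NormedAddCommGroup Q] [InnerProductSpace ℝ Q]
    [FiniteDimensional ℝ Q] {e : Q} (he : ‖e‖ = 1) (z : Q) :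
    (((ℝ ∙ e)ᗮ.orthogonalProjectionOnto z : (ℝ ∙ e)ᗮ) : Q) = z - ⟪e, z⟫ • e := by
  rw [Submodule.orthogonalProjectionOnto_orthogonal, ← Submodule.starProjection_unit_singleton ℝ he]

variable {n : ℕ} {P Q : Type} [NormedAddCommGroup P] [InnerProductSpace ℝ P] [FiniteDimensional ℝ P]
  [NormedAddCommGroup Q] [InnerProductSpace ℝ Q] [FiniteDimensional ℝ Q]
  {M : Type} [TopologicalSpace M] [ChartedSpace P M] {F : ℝ → M → Q} {J : Set ℝ} {G : GeoData Q M}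

namespace GeoLoc

variable (h : GeoLoc n P F J G) {t : ℝ} (ht : t ∈ J)
include h ht

theorem W_ge (x : M) : (n : ℝ) ^ 2 ≤ G.W t x := by
  obtain ⟨ν, H, hp⟩ := h.pt t ht x
  rw [hp.W_eq]
  linarith [sq_nonneg H]

theorem Round_n_pos : (0 : ℝ) < n := by
  have : (2 : ℝ) ≤ n := by exact_mod_cast h.hn
  linarith

theorem Round_W_pos (x : M) : 0 < G.W t x :=
  (pow_pos (h.Round_n_pos ht) 2).trans_le (h.W_ge ht x)

theorem Round_s_sq (x : M) : (n / √(G.W t x)) ^ 2 = (n : ℝ) ^ 2 / G.W t x := by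
  rw [div_pow, Real.sq_sqrt (h.Round_W_pos ht x).le]

theorem Round_s_pos (x : M) : 0 < n / √(G.W t x) :=
  div_pos (h.Round_n_pos ht) (Real.sqrt_pos.2 (h.Round_W_pos ht x))

theorem Round_s_le (x : M) : n / √(G.W t x) ≤ 1 := by
  rw [div_le_one (Real.sqrt_pos.2 (h.Round_W_pos ht x))]
  exact Real.le_sqrt_of_sq_le (h.W_ge ht x)

theorem Round_centre (x : M) : ∃ (e : Q) (a : ℝ), ‖e‖ = 1 ∧ (∀ w, G.C t x w = ⟪e, w⟫ • e) ∧
    G.m t x = a • e ∧ a ^ 2 = 1 - (n : ℝ) ^ 2 / G.W t x ∧ ⟪e, F t x⟫ = a ∧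
    (∀ ξ, ⟪e, dF P (F t) x ξ⟫ = 0) ∧ ∀ ξ, ⟪F t x, dF P (F t) x ξ⟫ = 0 := by
  obtain ⟨ν, H, hp⟩ := h.pt t ht x
  have hW := h.Round_W_pos ht x
  have hs : 0 < √(G.W t x) := Real.sqrt_pos.2 hW
  have hss : √(G.W t x) * √(G.W t x) = G.W t x := Real.mul_self_sqrt hW.le
  have hinv : (√(G.W t x))⁻¹ * (√(G.W t x))⁻¹ = (G.W t x)⁻¹ := by rw [← mul_inv, hss]
  have hFF : ⟪F t x, F t x⟫ = 1 := by rw [real_inner_self_eq_norm_sq, h.sphere t ht x, one_pow]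
  have hνF : ⟪ν, F t x⟫ = 0 := by rw [real_inner_comm]; exact hp.Fν
  have hc : ‖H • F t x + (n : ℝ) • ν‖ = √(G.W t x) := by
    symm
    rw [Real.sqrt_eq_iff_mul_self_eq hW.le (norm_nonneg _), ← sq,
      arc_norm_sq _ _ (h.sphere t ht x) hp.unit hp.Fν, hp.W_eq, add_comm]
  refine ⟨(√(G.W t x))⁻¹ • (H • F t x + (n : ℝ) • ν), (√(G.W t x))⁻¹ * H, ?_, fun w => ?_, ?_, ?_,
    ?_, fun ξ => ?_, fun ξ => ?_⟩
  · rw [norm_smul, hc, norm_inv, Real.norm_of_nonneg hs.le, inv_mul_cancel₀ hs.ne']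
  · rw [hp.C_eq, real_inner_smul_left, smul_smul, ← hinv]
    congr 1
    ring
  · rw [hp.m_eq, smul_smul, ← hinv]
    congr 1
    ring
  · rw [mul_pow, sq (√(G.W t x))⁻¹, hinv]
    have := hp.W_eq
    field_simp
    linarith
  · rw [real_inner_smul_left, inner_add_left, real_inner_smul_left, real_inner_smul_left, hFF, hνF]
    ring
  · rw [real_inner_smul_left, inner_add_left, real_inner_smul_left, real_inner_smul_left,
      real_inner_comm, hp.LF, real_inner_comm, hp.Lν]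
    ring
  · rw [real_inner_comm]
    exact hp.LF ξ

/-- `F - m = n (n F - H ν) / W`. -/
theorem norm_F_sub_m (x : M) : ‖F t x - G.m t x‖ = n / √(G.W t x) := by
  obtain ⟨e, a, he, -, hm, ha, hF, -, -⟩ := h.Round_centre ht x
  refine (pow_left_inj₀ (norm_nonneg _) (h.Round_s_pos ht x).le two_ne_zero).1 ?_
  rw [h.Round_s_sq ht, norm_sub_sq_real, hm, real_inner_smul_right, real_inner_comm, hF,
    norm_smul, he, h.sphere t ht x, mul_one, Real.norm_eq_abs, sq_abs]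
  linarith

theorem norm_m_sq (x : M) : ‖G.m t x‖ ^ 2 = 1 - (n : ℝ) ^ 2 / G.W t x := by
  obtain ⟨e, a, he, -, hm, ha, -⟩ := h.Round_centre ht x
  rw [hm, norm_smul, he, mul_one, Real.norm_eq_abs, sq_abs, ha]

theorem inner_m_F (x : M) : ⟪G.m t x, F t x⟫ = 1 - (n : ℝ) ^ 2 / G.W t x := by
  obtain ⟨e, a, -, -, hm, ha, hF, -⟩ := h.Round_centre ht x
  rw [hm, real_inner_smul_left, hF, ← ha, sq]

theorem C_F (x : M) : G.C t x (F t x) = G.m t x := by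
  obtain ⟨e, a, -, hC, hm, -, hF, -⟩ := h.Round_centre ht x
  rw [hC, hF, hm]

theorem C_dF (x : M) (ξ : P) : G.C t x (dF P (F t) x ξ) = 0 := by
  obtain ⟨e, a, -, hC, -, -, -, hL, -⟩ := h.Round_centre ht x
  rw [hC, hL, zero_smul]

/-- The unit vector `(H F + n ν) / √W`; `m = (H / √W) e`. -/
theorem exists_centre (x : M) : ∃ (e : Q) (a : ℝ), ‖e‖ = 1 ∧ (∀ w, G.C t x w = ⟪e, w⟫ • e) ∧
    G.m t x = a • e ∧ a ^ 2 = 1 - (n : ℝ) ^ 2 / G.W t x := by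
  obtain ⟨e, a, h1, h2, h3, h4, -⟩ := h.Round_centre ht x
  exact ⟨e, a, h1, h2, h3, h4⟩

theorem sff_le_W (x : M) (ξ : P) :
    ‖sff P (F t) x ξ ξ‖ ≤ 2 * √(G.W t x) * ‖dF P (F t) x ξ‖ ^ 2 := by
  obtain ⟨ν, H, hp⟩ := h.pt t ht x
  have h1 := hp.sff_le ξ ξ
  have hn : (2 : ℝ) ≤ n := by exact_mod_cast h.hn
  have h2 : √(G.u t x) ≤ √(G.W t x) := Real.sqrt_le_sqrt (h.u_le t ht x).2
  have h3 : |H| ≤ √(G.W t x) := by
    apply Real.abs_le_sqrt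
    rw [hp.W_eq]
    linarith [sq_nonneg (n : ℝ)]
  have h4 : |H / n| ≤ √(G.W t x) := by
    rw [abs_div, abs_of_nonneg (by linarith : (0 : ℝ) ≤ n)]
    exact (div_le_self (abs_nonneg _) (by linarith)).trans h3
  have h5 : ‖(H / n * ⟪dF P (F t) x ξ, dF P (F t) x ξ⟫) • ν‖ ≤
      √(G.W t x) * ‖dF P (F t) x ξ‖ ^ 2 := by
    rw [norm_smul, hp.unit, mul_one, Real.norm_eq_abs, abs_mul, real_inner_self_eq_norm_sq,
      abs_of_nonneg (sq_nonneg ‖dF P (F t) x ξ‖)]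
    exact mul_le_mul_of_nonneg_right h4 (sq_nonneg _)
  have h6 := norm_le_insert' (sff P (F t) x ξ ξ) ((H / n * ⟪dF P (F t) x ξ, dF P (F t) x ξ⟫) • ν)
  have h7 := mul_le_mul_of_nonneg_right h2 (sq_nonneg ‖dF P (F t) x ξ‖)
  linarith

theorem Round_core {e : Q} (he : ‖e‖ = 1) (x : M) {d s0 : ℝ} (hs0 : 0 < s0) (hs1 : s0 ≤ 1)
    (hd : d ≤ s0 / 10) (hs : 9 / 10 * s0 ≤ n / √(G.W t x))
    (hC : ∀ w, ‖G.C t x w - ⟪e, w⟫ • e‖ ≤ d * ‖w‖) :
    (ℝ ∙ e)ᗮ.orthogonalProjectionOnto (F t x) ≠ 0 ∧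
    ‖(ℝ ∙ e)ᗮ.orthogonalProjectionOnto (F t x)‖ ≤ n / √(G.W t x) + d ∧
    ∀ (X : P) (r : ℝ), ⟪(ℝ ∙ e)ᗮ.orthogonalProjectionOnto (F t x),
        (ℝ ∙ e)ᗮ.orthogonalProjectionOnto (dF P (F t) x X) -
          r • (ℝ ∙ e)ᗮ.orthogonalProjectionOnto (F t x)⟫ = 0 →
      ‖dF P (F t) x X‖ ≤ 2 * ‖(ℝ ∙ e)ᗮ.orthogonalProjectionOnto (dF P (F t) x X) -
          r • (ℝ ∙ e)ᗮ.orthogonalProjectionOnto (F t x)‖ := by
  have hy := h.norm_F_sub_m ht x
  have hgy : ‖(((ℝ ∙ e)ᗮ.orthogonalProjectionOnto (F t x) : (ℝ ∙ e)ᗮ) : Q) -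
      (F t x - G.m t x)‖ ≤ d := by
    have h1 := hC (F t x)
    rw [h.C_F ht, h.sphere t ht x, mul_one] at h1
    rw [Round_proj he, sub_sub_sub_cancel_left]
    exact h1
  refine ⟨fun h0 => ?_, ?_, fun X r hr => ?_⟩
  · rw [h0, Submodule.coe_zero, zero_sub, norm_neg, hy] at hgy
    linarith
  · have := norm_le_insert' (((ℝ ∙ e)ᗮ.orthogonalProjectionOnto (F t x) : (ℝ ∙ e)ᗮ) : Q)
      (F t x - G.m t x)
    rw [hy] at this
    change ‖(((ℝ ∙ e)ᗮ.orthogonalProjectionOnto (F t x) : (ℝ ∙ e)ᗮ) : Q)‖ ≤ _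
    linarith
  · refine Round_point _ (F t x - G.m t x)
      (((ℝ ∙ e)ᗮ.orthogonalProjectionOnto (dF P (F t) x X) : (ℝ ∙ e)ᗮ) : Q) _ r d s0 hs0 hs1 hd
      hgy ?_ (Submodule.norm_orthogonalProjectionOnto_apply_le _ _) ?_
      (hy.trans_le (h.Round_s_le ht x)) (hs.trans_eq hy.symm) hr
    · have h1 := hC (dF P (F t) x X)
      rw [h.C_dF ht, zero_sub] at h1
      rw [Round_proj he, sub_sub_cancel_left]
      exact h1
    · obtain ⟨e', a, -, -, hm, -, -, hL, hF⟩ := h.Round_centre ht x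
      rw [inner_sub_left, hF, hm, real_inner_smul_left, hL]
      ring

theorem Round_inj {e : Q} {x : M}
    (hc : ∀ (X : P) (r : ℝ), ⟪(ℝ ∙ e)ᗮ.orthogonalProjectionOnto (F t x),
        (ℝ ∙ e)ᗮ.orthogonalProjectionOnto (dF P (F t) x X) -
          r • (ℝ ∙ e)ᗮ.orthogonalProjectionOnto (F t x)⟫ = 0 →
      ‖dF P (F t) x X‖ ≤ 2 * ‖(ℝ ∙ e)ᗮ.orthogonalProjectionOnto (dF P (F t) x X) -
          r • (ℝ ∙ e)ᗮ.orthogonalProjectionOnto (F t x)‖) (X : P) (r : ℝ)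
    (hX : (ℝ ∙ e)ᗮ.orthogonalProjectionOnto (dF P (F t) x X) =
      r • (ℝ ∙ e)ᗮ.orthogonalProjectionOnto (F t x)) : X = 0 := by
  have h1 := hc X r (by rw [hX, sub_self, inner_zero_right])
  rw [hX, sub_self, norm_zero, mul_zero, norm_le_zero_iff] at h1
  exact h.imm t ht x (h1.trans (map_zero _).symm)

theorem Round_dim {e : Q} (he : ‖e‖ = 1) :
    2 ≤ Module.finrank ℝ P ∧ Module.finrank ℝ (ℝ ∙ e)ᗮ = Module.finrank ℝ P + 1 := by
  have he0 : e ≠ 0 := by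
    intro h0
    rw [h0, norm_zero] at he
    exact zero_ne_one he
  have h1 := Submodule.finrank_add_finrank_orthogonal (ℝ ∙ e)
  rw [finrank_span_singleton he0, h.hQ] at h1
  have h2 := h.hP
  have h3 := h.hn
  omega

theorem Round_strict (e : Q) (x : M) :
    HasStrictFDerivAt ((fun y => (ℝ ∙ e)ᗮ.orthogonalProjectionOnto (F t y)) ∘ (chartAt P x).symm)
      ((ℝ ∙ e)ᗮ.orthogonalProjectionOnto.comp (dF P (F t) x)) (chartAt P x x) :=
  ((ℝ ∙ e)ᗮ.orthogonalProjectionOnto.hasStrictFDerivAt).comp _ (h.strict t ht x)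

variable [T2Space M] [CompactSpace M] [ConnectedSpace M]

/-- `lift_chart` with `E = e^⊥`, `G` the orthogonal projection of `F t`, `Psi = 0`. With
`s = n / √W`, `g = F - ⟪e, F⟫ e`: `‖g - (F - m)‖ ≤ s / 10`, `|⟪e, L ξ⟫| ≤ s ‖L ξ‖ / 10`. -/
theorem radial {e : Q} (he : ‖e‖ = 1)
    (hC : ∀ x w, ‖G.C t x w - ⟪e, w⟫ • e‖ ≤ n / √(G.W t x) / 10 * ‖w‖) : RadialBij e (F t) := by
  obtain ⟨x0⟩ : Nonempty M := inferInstance
  obtain ⟨-, -, hb⟩ := lift_chart (W := ℝ) (h.Round_dim ht he).1 (h.Round_dim ht he).2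
    (fun y => (ℝ ∙ e)ᗮ.orthogonalProjectionOnto (F t y)) (fun _ => 0) continuous_const x0 5 0 1
    le_rfl zero_lt_one (by norm_num) (fun x _ => by
      have hs := h.Round_s_pos ht x
      obtain ⟨c1, -, c3⟩ := h.Round_core ht he x hs (h.Round_s_le ht x) le_rfl (by linarith) (hC x)
      exact ⟨chartAt P x, _, 0, mem_chart_source P x, h.Round_strict ht e x,
        hasStrictFDerivAt_const (0 : ℝ) _, c1, h.Round_inj ht c3, fun X r _ => by simp⟩)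
  have hr : ∀ x, rproj e (F t x) = ((‖(ℝ ∙ e)ᗮ.orthogonalProjectionOnto (F t x)‖⁻¹ •
      (ℝ ∙ e)ᗮ.orthogonalProjectionOnto (F t x) : (ℝ ∙ e)ᗮ) : Q) := fun x => by
    rw [rproj, ← Round_proj he]
    rfl
  refine ⟨fun x _ => ?_, fun x _ y _ hxy => ?_, fun w hw => ?_⟩
  · have h1 := mem_sphere_zero_iff_norm.1 (hb.1 (mem_univ x))
    change ‖rproj e (F t x)‖ = 1 ∧ ⟪e, rproj e (F t x)⟫ = 0
    rw [hr]
    exact ⟨h1, Submodule.mem_orthogonal_singleton_iff_inner_right.1 (Subtype.property _)⟩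
  · refine hb.2.1 (mem_univ x) (mem_univ y) (Subtype.ext ?_)
    exact (hr x).symm.trans (Eq.trans hxy (hr y))
  · obtain ⟨x, -, hx⟩ := hb.2.2 (show (⟨w, Submodule.mem_orthogonal_singleton_iff_inner_right.2
      hw.2⟩ : (ℝ ∙ e)ᗮ) ∈ Metric.sphere (0 : (ℝ ∙ e)ᗮ) 1 from mem_sphere_zero_iff_norm.2 hw.1)
    exact ⟨x, mem_univ _, (hr x).trans (congrArg Subtype.val hx)⟩

/-- `lift_chart` with `e` the centre at `x₀`, `s₀ = n / √(W x₀)`,
`Psi = (C / s₀, m / s₀, W x₀ / W)` in the product (sup norm), `eps = 1 / 20`,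
`kappa = 9 n ^ 2 η`, `k2 = 10 n ^ 2 η` (see step 5 of the proof note). -/
theorem round (x₀ : M) {η : ℝ} (hη : 0 < η) (hη' : 1000 * (n : ℝ) ^ 2 * η ≤ 1)
    (hs : ∀ y, G.W t x₀ / 4 ≤ G.W t y → G.u t y ≤ η ^ 2 * G.W t y ∧ G.v t y ≤ η ^ 2 * G.W t y ^ 2)
    (y : M) : ‖G.C t y - G.C t x₀‖ ≤ 40 * (n : ℝ) ^ 2 * η * (n / √(G.W t x₀)) ∧
      ‖G.m t y - G.m t x₀‖ ≤ 40 * (n : ℝ) ^ 2 * η * (n / √(G.W t x₀)) ∧
      |G.W t x₀ / G.W t y - 1| ≤ 40 * (n : ℝ) ^ 2 * η := by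
  obtain ⟨e, -, he, hCe, -⟩ := h.exists_centre ht x₀
  have hn := h.Round_n_pos ht
  have hW0 := h.Round_W_pos ht x₀
  have hs0 := h.Round_s_pos ht x₀
  have hs1 := h.Round_s_le ht x₀
  have hsq := h.Round_s_sq ht x₀
  set s0 : ℝ := n / √(G.W t x₀) with hs0def
  have hk : 0 < (n : ℝ) ^ 2 * η := by positivity
  let Psi : M → (Q →L[ℝ] Q) × Q × ℝ := fun z =>
    (s0⁻¹ • G.C t z, s0⁻¹ • G.m t z, G.W t x₀ * (G.W t z)⁻¹)
  have hPc : Continuous Psi :=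
    ((h.contC t ht).const_smul s0⁻¹).prodMk (((h.contm t ht).const_smul s0⁻¹).prodMk
      ((continuous_const (y := G.W t x₀)).mul
        ((h.contW t ht).inv₀ fun z => (h.Round_W_pos ht z).ne')))
  have hsplit : ∀ z b, ‖Psi z - Psi x₀‖ ≤ b → ‖G.C t z - G.C t x₀‖ ≤ b * s0 ∧
      ‖G.m t z - G.m t x₀‖ ≤ b * s0 ∧ |G.W t x₀ / G.W t z - 1| ≤ b := by
    intro z b hb
    rw [norm_prod_le_iff, norm_prod_le_iff] at hb
    obtain ⟨h1, h2, h3⟩ := hb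
    change ‖s0⁻¹ • G.C t z - s0⁻¹ • G.C t x₀‖ ≤ b at h1
    change ‖s0⁻¹ • G.m t z - s0⁻¹ • G.m t x₀‖ ≤ b at h2
    change |G.W t x₀ * (G.W t z)⁻¹ - G.W t x₀ * (G.W t x₀)⁻¹| ≤ b at h3
    rw [← smul_sub, norm_smul, norm_inv, Real.norm_of_nonneg hs0.le, ← div_eq_inv_mul,
      div_le_iff₀ hs0] at h1 h2
    rw [mul_inv_cancel₀ hW0.ne', ← div_eq_mul_inv] at h3
    exact ⟨h1, h2, h3⟩
  obtain ⟨hb, -, -⟩ := lift_chart (h.Round_dim ht he).1 (h.Round_dim ht he).2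
    (fun y => (ℝ ∙ e)ᗮ.orthogonalProjectionOnto (F t y)) Psi hPc x₀ (1 / 20)
    (9 * ((n : ℝ) ^ 2 * η)) (10 * ((n : ℝ) ^ 2 * η)) (by linarith) (by linarith) (by linarith)
    (fun x hx => by
      obtain ⟨h1, -, h3⟩ := hsplit x _ hx.le
      have hW := h.Round_W_pos ht x
      have hsx := h.Round_s_pos ht x
      have hsqx := h.Round_s_sq ht x
      set s : ℝ := n / √(G.W t x) with hsdef
      rw [abs_le] at h3
      have hrel : s ^ 2 = s0 ^ 2 * (G.W t x₀ / G.W t x) := by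
        rw [hsq, hsqx]
        field_simp
      have hlo : 9 / 10 * s0 ≤ s := by
        refine (pow_le_pow_iff_left₀ (by positivity) hsx.le two_ne_zero).1 ?_
        rw [hrel]
        nlinarith only [h3.1, sq_nonneg s0]
      have hhi : s ≤ 41 / 40 * s0 := by
        refine (pow_le_pow_iff_left₀ hsx.le (by positivity) two_ne_zero).1 ?_
        rw [hrel]
        nlinarith only [h3.2, sq_nonneg s0]
      have hW4 : G.W t x₀ / 4 ≤ G.W t x := by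
        have : G.W t x₀ / G.W t x ≤ 4 := by linarith [h3.2]
        rw [div_le_iff₀ hW] at this
        linarith
      obtain ⟨C', m', w', d1, d2, d3, hd⟩ := h.dx t ht x η hη.le (hs x hW4).1 (hs x hW4).2
      obtain ⟨c1, c2, c3⟩ := h.Round_core ht he x (d := 1 / 20 * s0) hs0 hs1 (by linarith) hlo
        (fun w => by
          rw [← hCe, ← _root_.sub_apply]
          exact ((G.C t x - G.C t x₀).le_opNorm w).trans
            (mul_le_mul_of_nonneg_right h1 (norm_nonneg _)))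
      refine ⟨chartAt P x, _, (s0⁻¹ • C').prod ((s0⁻¹ • m').prod (G.W t x₀ • w')),
        mem_chart_source P x, h.Round_strict ht e x,
        (d1.const_smul s0⁻¹).prodMk ((d2.const_smul s0⁻¹).prodMk (d3.const_mul _)), c1,
        h.Round_inj ht c3, fun X r hr => ?_⟩
      have hT := c3 X r hr
      obtain ⟨e1, e2, e3⟩ := hd X
      have hL := norm_nonneg (dF P (F t) x X)
      have hPsi : ‖((s0⁻¹ • C').prod ((s0⁻¹ • m').prod (G.W t x₀ • w'))) X‖ ≤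
          s0⁻¹ * (4 * (n : ℝ) ^ 2 * η * ‖dF P (F t) x X‖) := by
        rw [norm_prod_le_iff, norm_prod_le_iff]
        refine ⟨?_, ?_, ?_⟩
        · change ‖s0⁻¹ • C' X‖ ≤ _
          rw [norm_smul, norm_inv, Real.norm_of_nonneg hs0.le]
          exact mul_le_mul_of_nonneg_left e1 (by positivity)
        · change ‖s0⁻¹ • m' X‖ ≤ _
          rw [norm_smul, norm_inv, Real.norm_of_nonneg hs0.le]
          exact mul_le_mul_of_nonneg_left e2 (by positivity)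
        · change |G.W t x₀ * w' X| ≤ _
          rw [abs_mul, abs_of_pos hW0, ← div_eq_inv_mul, le_div_iff₀ hs0]
          have f1 : 2 * n * η / √(G.W t x) = 2 * η * s := by
            rw [hsdef]
            ring
          have f2 : G.W t x₀ * s0 ^ 2 = (n : ℝ) ^ 2 := by
            rw [hsq]
            field_simp
          rw [f1] at e3
          have f3 : |w' X| ≤ 4 * η * s0 * ‖dF P (F t) x X‖ := by
            refine e3.trans (mul_le_mul_of_nonneg_right ?_ hL)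
            nlinarith only [hhi, hη, hs0]
          have f4 := mul_le_mul_of_nonneg_left f3 (show 0 ≤ G.W t x₀ * s0 by positivity)
          rw [← f2]
          linarith only [f4]
      have hg : ‖(ℝ ∙ e)ᗮ.orthogonalProjectionOnto (F t x)‖ ≤ 9 / 8 * s0 := by linarith
      refine (mul_le_mul hPsi hg (norm_nonneg _) (by positivity)).trans ?_
      have f5 : s0⁻¹ * (4 * (n : ℝ) ^ 2 * η * ‖dF P (F t) x X‖) * (9 / 8 * s0) =
          9 * ((n : ℝ) ^ 2 * η) * (‖dF P (F t) x X‖ / 2) := by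
        field_simp
        ring
      rw [f5]
      refine mul_le_mul_of_nonneg_left ?_ (by positivity)
      change _ ≤ ‖(ℝ ∙ e)ᗮ.orthogonalProjectionOnto (dF P (F t) x X) -
          r • (ℝ ∙ e)ᗮ.orthogonalProjectionOnto (F t x)‖
      linarith)
  have := hsplit y _ (hb y)
  have e40 : 4 * (10 * ((n : ℝ) ^ 2 * η)) = 40 * (n : ℝ) ^ 2 * η := by ring
  rwa [e40] at this

end GeoLoc

end Pool.Agent.Lib.MP_de485e_gt.Conv
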